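import Mathlib
import Pool.Agent.Y215.CC.Act

set_option autoImplicit false

/-!
# Stability of centers (MP_d6d6e6_ag): definitions and statements of the leaves
-/

namespace Pool.Agent.N46.CS

open MvPolynomial Filter Topology
open Pool.Agent.Y215.CC
open scoped LinearAlgebra.Projectivization

/-- all coefficients of total degree `< N` vanish -/
def Van {R : Type} [CommRing R] (N : ℕ) (F : MvPolynomial (Fin 2) R) : Prop :=
  ∀ e : Fin 2 →₀ ℕ, e 0 + e 1 < N → coeff e F = 0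

/-- the derivative of `F` along the polynomial vector field `V` -/
noncomputable def lie {R : Type} [CommRing R] (V : Fin 2 → MvPolynomial (Fin 2) R)
    (F : MvPolynomial (Fin 2) R) : MvPolynomial (Fin 2) R :=
  V 0 * pderiv 0 F + V 1 * pderiv 1 F

/-- `V = (l X + ..., - l Y + ...)` -/
def Nrm {R : Type} [CommRing R] (l : R) (V : Fin 2 → MvPolynomial (Fin 2) R) : Prop :=
  Van 2 (V 0 - C l * X 0) ∧ Van 2 (V 1 + C l * X 1)

/-- `F = X Y + ...` -/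
def IsXY {R : Type} [CommRing R] (F : MvPolynomial (Fin 2) R) : Prop := Van 3 (F - X 0 * X 1)

/-- affine substitution `P (z + M X)` -/
noncomputable def shf {R : Type} [CommRing R] (z : Fin 2 → R) (M : Fin 2 → Fin 2 → R)
    (P : MvPolynomial (Fin 2) R) : MvPolynomial (Fin 2) R :=
  bind₁ (fun i => C (z i) + C (M i 0) * X 0 + C (M i 1) * X 1) P

/-- the vector field `N V (z + M X)` (for `N = M⁻¹`: the field in the new coordinates) -/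
noncomputable def tf {R : Type} [CommRing R] (z : Fin 2 → R) (M N : Fin 2 → Fin 2 → R)
    (V : Fin 2 → MvPolynomial (Fin 2) R) : Fin 2 → MvPolynomial (Fin 2) R :=
  fun i => C (N i 0) * shf z M (V 0) + C (N i 1) * shf z M (V 1)

/-- `N` is the inverse of the matrix `M` -/
structure Im {R : Type} [CommRing R] (M N : Fin 2 → Fin 2 → R) : Prop where
  h00 : M 0 0 * N 0 0 + M 0 1 * N 1 0 = 1
  h01 : M 0 0 * N 0 1 + M 0 1 * N 1 1 = 0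
  h10 : M 1 0 * N 0 0 + M 1 1 * N 1 0 = 0
  h11 : M 1 0 * N 0 1 + M 1 1 * N 1 1 = 1
  k00 : N 0 0 * M 0 0 + N 0 1 * M 1 0 = 1
  k01 : N 0 0 * M 0 1 + N 0 1 * M 1 1 = 0
  k10 : N 1 0 * M 0 0 + N 1 1 * M 1 0 = 0
  k11 : N 1 0 * M 0 1 + N 1 1 * M 1 1 = 1

/-- case (a): formal first integral (to every order) -/
def CaseA {R : Type} [CommRing R] (V : Fin 2 → MvPolynomial (Fin 2) R) : Prop :=
  ∀ n : ℕ, ∃ F : MvPolynomial (Fin 2) R, IsXY F ∧ Van n (lie V F)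

/-- case (b): an obstruction `g ≠ 0` -/
def CaseB {R : Type} [CommRing R] (V : Fin 2 → MvPolynomial (Fin 2) R) : Prop :=
  ∃ m : ℕ, 2 ≤ m ∧ ∃ g : R, g ≠ 0 ∧ ∃ F : MvPolynomial (Fin 2) R, IsXY F ∧
    Van (2 * m + 1) (lie V F - C g * (X 0 * X 1) ^ m)

/-- REC: the dichotomy -/
def S_REC : Prop := ∀ (R : Type) [CommRing R] [Algebra ℚ R] (l m : R)
    (V : Fin 2 → MvPolynomial (Fin 2) R), l * m = 1 → Nrm l V → CaseA V ∨ CaseB V

/-- TR0: the trace at a center vanishes -/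
def S_TR0 : Prop := ∀ (P Q : MvPolynomial (Fin 2) ℂ) (p : Fin 2 → ℂ), HasCenterAt P Q p →
    eval p (pderiv 0 P + pderiv 1 Q) = 0

/-- NOC1: good coordinates at a center -/
def S_NOC1 : Prop := ∀ (V : Fin 2 → MvPolynomial (Fin 2) ℂ), HasCenterAt (V 0) (V 1) 0 →
    ∃ (z : (Fin 2 → ℂ) → (Fin 2 → ℂ)) (a b : (Fin 2 → ℂ) → ℂ),
      AnalyticAt ℂ z 0 ∧ AnalyticAt ℂ a 0 ∧ AnalyticAt ℂ b 0 ∧ z 0 = 0 ∧
      Function.Injective (fderiv ℂ z 0) ∧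
      ∀ᶠ w in 𝓝 (0 : Fin 2 → ℂ), w 1 * a w + w 0 * b w = 0 ∧
        ∀ i, eval (z w) (V i) = a w * fderiv ℂ z w (Pi.single 0 1) i +
          b w * fderiv ℂ z w (Pi.single 1 1) i

/-- NOC2: expansions in the good coordinates -/
def S_NOC2 : Prop := ∀ (l : ℂ) (V : Fin 2 → MvPolynomial (Fin 2) ℂ), l ≠ 0 → Nrm l V →
    ∀ (z : (Fin 2 → ℂ) → (Fin 2 → ℂ)) (a b : (Fin 2 → ℂ) → ℂ),
      AnalyticAt ℂ z 0 → AnalyticAt ℂ a 0 → AnalyticAt ℂ b 0 → z 0 = 0 →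
      Function.Injective (fderiv ℂ z 0) →
      (∀ᶠ w in 𝓝 (0 : Fin 2 → ℂ), w 1 * a w + w 0 * b w = 0 ∧
        ∀ i, eval (z w) (V i) = a w * fderiv ℂ z w (Pi.single 0 1) i +
          b w * fderiv ℂ z w (Pi.single 1 1) i) →
      ∃ (α c : ℂ) (K : ℝ), α ≠ 0 ∧ c ≠ 0 ∧ ∀ᶠ w in 𝓝 (0 : Fin 2 → ℂ),
        ‖a w - α * w 0‖ ≤ K * ‖w‖ ^ 2 ∧ ‖b w + α * w 1‖ ≤ K * ‖w‖ ^ 2 ∧
        ‖z w 0 * z w 1 - c * (w 0 * w 1)‖ ≤ K * ‖w‖ ^ 3 ∧ ‖z w‖ ≤ K * ‖w‖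

/-- NOC3: the period argument -/
def S_NOC3 : Prop := ∀ (V : Fin 2 → MvPolynomial (Fin 2) ℂ), CaseB V →
    ∀ (z : (Fin 2 → ℂ) → (Fin 2 → ℂ)) (a b : (Fin 2 → ℂ) → ℂ),
      AnalyticAt ℂ z 0 → AnalyticAt ℂ a 0 → AnalyticAt ℂ b 0 → z 0 = 0 →
      (∀ᶠ w in 𝓝 (0 : Fin 2 → ℂ), w 1 * a w + w 0 * b w = 0 ∧
        ∀ i, eval (z w) (V i) = a w * fderiv ℂ z w (Pi.single 0 1) i +
          b w * fderiv ℂ z w (Pi.single 1 1) i) →
      ∀ (α c : ℂ) (K : ℝ), α ≠ 0 → c ≠ 0 → (∀ᶠ w in 𝓝 (0 : Fin 2 → ℂ),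
        ‖a w - α * w 0‖ ≤ K * ‖w‖ ^ 2 ∧ ‖b w + α * w 1‖ ≤ K * ‖w‖ ^ 2 ∧
        ‖z w 0 * z w 1 - c * (w 0 * w 1)‖ ≤ K * ‖w‖ ^ 3 ∧ ‖z w‖ ≤ K * ‖w‖) → False

/-- formal power series in two variables -/
abbrev FS : Type := MvPowerSeries (Fin 2) ℂ

/-- `X ∂_X - Y ∂_Y` on formal power series -/
noncomputable def Dop (a : FS) : FS := fun e => ((e 0 : ℂ) - (e 1 : ℂ)) * MvPowerSeries.coeff e a

/-- the data of the formal normal form: the coordinates `Z i = X i + ...`, the time change `1 + e`,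
the defect `k` -/
structure NF (l : ℂ) (V : Fin 2 → MvPolynomial (Fin 2) ℂ) (Z : Fin 2 → FS) (e k : FS) : Prop where
  zi : ∀ (i : Fin 2) (n : Fin 2 →₀ ℕ), n 0 + n 1 < 2 →
    MvPowerSeries.coeff n (Z i) = MvPowerSeries.coeff n (MvPowerSeries.X i : FS)
  z0 : ∀ n : Fin 2 →₀ ℕ, n 0 = n 1 + 1 → 2 ≤ n 0 + n 1 → MvPowerSeries.coeff n (Z 0) = 0
  z1 : ∀ n : Fin 2 →₀ ℕ, n 1 = n 0 + 1 → 2 ≤ n 0 + n 1 → MvPowerSeries.coeff n (Z 1) = 0
  e0 : MvPowerSeries.coeff 0 e = 0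
  ed : ∀ n : Fin 2 →₀ ℕ, n 0 ≠ n 1 → MvPowerSeries.coeff n e = 0
  k0 : ∀ n : Fin 2 →₀ ℕ, n 0 + n 1 < 2 → MvPowerSeries.coeff n k = 0
  kd : ∀ n : Fin 2 →₀ ℕ, n 1 ≠ n 0 + 1 → MvPowerSeries.coeff n k = 0
  q0 : MvPowerSeries.C l * Dop (Z 0) = (1 + e) * aeval Z (V 0)
  q1 : MvPowerSeries.C l * Dop (Z 1) = (1 + e) * aeval Z (V 1) + k

/-- geometric bounds -/
def Cv (a : FS) : Prop :=
  ∃ K : ℝ, ∀ n : Fin 2 →₀ ℕ, ‖MvPowerSeries.coeff n a‖ ≤ K ^ (n 0 + n 1 + 1)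

/-- the sum of a power series -/
noncomputable def ev (a : FS) (w : Fin 2 → ℂ) : ℂ :=
  ∑' n : ℕ × ℕ, MvPowerSeries.coeff (Finsupp.single 0 n.1 + Finsupp.single 1 n.2) a *
    w 0 ^ n.1 * w 1 ^ n.2

/-- NFR: existence of the formal normal form with defect -/
def S_NFR : Prop := ∀ (l : ℂ) (V : Fin 2 → MvPolynomial (Fin 2) ℂ), l ≠ 0 → Nrm l V →
    ∃ (Z : Fin 2 → FS) (e k : FS), NF l V Z e k

/-- NFM: the formal normal form converges -/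
def S_NFM : Prop := ∀ (l : ℂ) (V : Fin 2 → MvPolynomial (Fin 2) ℂ), l ≠ 0 → Nrm l V →
    ∀ (Z : Fin 2 → FS) (e k : FS), NF l V Z e k → (∀ i, Cv (Z i)) ∧ Cv e

/-- NFB: a formal first integral kills the defect -/
def S_NFB : Prop := ∀ (l : ℂ) (V : Fin 2 → MvPolynomial (Fin 2) ℂ), l ≠ 0 → Nrm l V → CaseA V →
    ∀ (Z : Fin 2 → FS) (e k : FS), NF l V Z e k → k = 0

/-- CVA: convergent series are analytic -/
def S_CVA : Prop := ∀ a : FS, Cv a → AnalyticAt ℂ (ev a) 0 ∧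
    ev a 0 = MvPowerSeries.coeff 0 a ∧
    (∀ i : Fin 2, fderiv ℂ (ev a) 0 (Pi.single i 1) =
      MvPowerSeries.coeff (Finsupp.single i 1) a) ∧
    ∀ᶠ w in 𝓝 (0 : Fin 2 → ℂ), w 0 * fderiv ℂ (ev a) w (Pi.single 0 1) -
      w 1 * fderiv ℂ (ev a) w (Pi.single 1 1) = ev (Dop a) w

/-- CVM: sums and products of convergent series -/
def S_CVM : Prop := (∀ a b : FS, Cv a → Cv b → Cv (a + b) ∧ Cv (a * b) ∧
      (∀ᶠ w in 𝓝 (0 : Fin 2 → ℂ), ev (a + b) w = ev a w + ev b w) ∧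
      (∀ᶠ w in 𝓝 (0 : Fin 2 → ℂ), ev (a * b) w = ev a w * ev b w)) ∧
    (∀ c : ℂ, Cv (MvPowerSeries.C c) ∧ ∀ w, ev (MvPowerSeries.C c) w = c)

/-- CNB: from the analytic normal form to a center -/
def S_CNB : Prop := ∀ (l : ℂ) (V : Fin 2 → MvPolynomial (Fin 2) ℂ), l ≠ 0 → Nrm l V →
    ∀ (z : (Fin 2 → ℂ) → (Fin 2 → ℂ)) (ε : (Fin 2 → ℂ) → ℂ), AnalyticAt ℂ z 0 → z 0 = 0 →
      fderiv ℂ z 0 = ContinuousLinearMap.id ℂ (Fin 2 → ℂ) → AnalyticAt ℂ ε 0 → ε 0 = 0 →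
      (∀ᶠ w in 𝓝 (0 : Fin 2 → ℂ), ∀ i, l * (w 0 * fderiv ℂ z w (Pi.single 0 1) i -
        w 1 * fderiv ℂ z w (Pi.single 1 1) i) = (1 + ε w) * eval (z w) (V i)) →
      HasCenterAt (V 0) (V 1) 0

/-- CEN: formal first integral implies center -/
def S_CEN : Prop := ∀ (l : ℂ) (V : Fin 2 → MvPolynomial (Fin 2) ℂ), l ≠ 0 → Nrm l V → CaseA V →
    HasCenterAt (V 0) (V 1) 0

/-- AFF: affine change of coordinates -/
def S_AFF : Prop := ∀ (z : Fin 2 → ℂ) (M N : Fin 2 → Fin 2 → ℂ)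
    (V : Fin 2 → MvPolynomial (Fin 2) ℂ), Im M N →
    (HasCenterAt (tf z M N V 0) (tf z M N V 1) 0 ↔ HasCenterAt (V 0) (V 1) z)

/-- DIA: diagonalization of the linear part -/
def S_DIA : Prop := ∀ (L : Type) [Field L] [CharZero L] [IsAlgClosed L] (z : Fin 2 → L)
    (V : Fin 2 → MvPolynomial (Fin 2) L), (∀ i, eval z (V i) = 0) →
    eval z (pderiv 0 (V 0) + pderiv 1 (V 1)) = 0 →
    eval z (pderiv 0 (V 0) * pderiv 1 (V 1) - pderiv 1 (V 0) * pderiv 0 (V 1)) ≠ 0 →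
    ∃ (M N : Fin 2 → Fin 2 → L) (l : L), l ≠ 0 ∧ Im M N ∧ Nrm l (tf z M N V)

/-- specialization of a vector field over `A` along `ψ : B → ℂ`, `B ⊆ L` a subalgebra -/
noncomputable def sp {A : Type} [CommRing A] (φ : A →+* ℂ) (V : Fin 2 → MvPolynomial (Fin 2) A) :
    Fin 2 → MvPolynomial (Fin 2) ℂ := fun i => map φ (V i)

/-- NAT: naturality under ring homomorphisms -/
def S_NAT : Prop := ∀ (R R' : Type) [CommRing R] [CommRing R'] (φ : R →+* R'),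
    (∀ (z : Fin 2 → R) (M N : Fin 2 → Fin 2 → R) (V : Fin 2 → MvPolynomial (Fin 2) R),
      (fun i => map φ (tf z M N V i)) =
        tf (fun i => φ (z i)) (fun i j => φ (M i j)) (fun i j => φ (N i j))
          (fun i => map φ (V i))) ∧
    (∀ (M N : Fin 2 → Fin 2 → R), Im M N → Im (fun i j => φ (M i j)) (fun i j => φ (N i j))) ∧
    (∀ (l : R) (V : Fin 2 → MvPolynomial (Fin 2) R), Nrm l V →
      Nrm (φ l) (fun i => map φ (V i))) ∧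
    (∀ V : Fin 2 → MvPolynomial (Fin 2) R, CaseA V → CaseA (fun i => map φ (V i))) ∧
    (∀ V : Fin 2 → MvPolynomial (Fin 2) R, CaseB V → ∃ g : R, g ≠ 0 ∧
      (φ g ≠ 0 → CaseB (fun i => map φ (V i)))) ∧
    (∀ (V : Fin 2 → MvPolynomial (Fin 2) R) (m : ℕ) (g : R) (F : MvPolynomial (Fin 2) R),
      IsXY F → Van (2 * m + 1) (lie V F - C g * (X 0 * X 1) ^ m) →
      IsXY (map φ F) ∧ Van (2 * m + 1) (lie (fun i => map φ (V i)) (map φ F) -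
        C (φ g) * (X 0 * X 1) ^ m)) ∧
    (∀ (z : Fin 2 → R) (P : MvPolynomial (Fin 2) R),
      eval (fun i => φ (z i)) (map φ P) = φ (eval z P)) ∧
    (∀ (P : MvPolynomial (Fin 2) R) (i : Fin 2), pderiv i (map φ P) = map φ (pderiv i P))

/-- DIL: dichotomy at a diagonalized point -/
def S_DIL : Prop := ∀ (R : Type) [CommRing R] [IsDomain R] [Algebra ℚ R]
    (V : Fin 2 → MvPolynomial (Fin 2) R) (z : Fin 2 → R) (M N : Fin 2 → Fin 2 → R) (l m : R),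
    l * m = 1 → Im M N → Nrm l (tf z M N V) →
    (∀ ψ : R →+* ℂ, HasCenterAt (sp ψ V 0) (sp ψ V 1) (fun i => ψ (z i))) ∨
    ∃ g : R, g ≠ 0 ∧ ∀ ψ : R →+* ℂ, ψ g ≠ 0 →
      ¬ HasCenterAt (sp ψ V 0) (sp ψ V 1) (fun i => ψ (z i))

/-- DICH: over a finitely generated extension a point is always or never a center -/
def S_DICH : Prop := ∀ (A : Type) [CommRing A] [IsDomain A] [Algebra ℚ A] (L : Type) [Field L]
    [CharZero L] [IsAlgClosed L] [Algebra A L] (_ : Function.Injective (algebraMap A L))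
    (V : Fin 2 → MvPolynomial (Fin 2) A) (z : Fin 2 → L),
    ∃ S : Finset L, (∀ i, z i ∈ S) ∧
      ((∀ (B : Subalgebra A L) (_ : (S : Set L) ⊆ B) (ψ : B →+* ℂ) (p : Fin 2 → ℂ),
        (∀ (i : Fin 2) (b : B), (b : L) = z i → ψ b = p i) →
        HasCenterAt (sp (ψ.comp (algebraMap A B)) V 0) (sp (ψ.comp (algebraMap A B)) V 1) p) ∨
      (∀ (B : Subalgebra A L) (_ : (S : Set L) ⊆ B) (ψ : B →+* ℂ) (p : Fin 2 → ℂ),
        (∀ (i : Fin 2) (b : B), (b : L) = z i → ψ b = p i) →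
        ¬ HasCenterAt (sp (ψ.comp (algebraMap A B)) V 0) (sp (ψ.comp (algebraMap A B)) V 1) p))

/-- SPX: extension of specializations -/
def S_SPX : Prop := ∀ (A : Type) [CommRing A] [IsDomain A] (L : Type) [Field L] [Algebra A L]
    [Algebra.IsAlgebraic A L] (_ : Function.Injective (algebraMap A L)) (S : Finset L),
    ∃ f : A, f ≠ 0 ∧ ∀ φ : A →+* ℂ, φ f ≠ 0 →
      ∃ ψ : Algebra.adjoin A (S : Set L) →+* ℂ,
        ψ.comp (algebraMap A (Algebra.adjoin A (S : Set L))) = φ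

/-- SPC: compactness of specializations -/
def S_SPC : Prop := ∀ (A : Type) [CommRing A] [IsDomain A] (L : Type) [Field L] [Algebra A L]
    [Algebra.IsAlgebraic A L] (_ : Function.Injective (algebraMap A L)) (S : Finset L),
    ∃ f : A, f ≠ 0 ∧ ∀ (φ : ℕ → A →+* ℂ) (φ₀ : A →+* ℂ), φ₀ f ≠ 0 →
      (∀ a, Tendsto (fun n => φ n a) atTop (𝓝 (φ₀ a))) →
      ∀ ψ : ℕ → Algebra.adjoin A (S : Set L) →+* ℂ,
        (∀ n, (ψ n).comp (algebraMap A (Algebra.adjoin A (S : Set L))) = φ n) →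
        ∃ (σ : ℕ → ℕ) (ψ₀ : Algebra.adjoin A (S : Set L) →+* ℂ), StrictMono σ ∧
          ψ₀.comp (algebraMap A (Algebra.adjoin A (S : Set L))) = φ₀ ∧
          ∀ b, Tendsto (fun n => ψ (σ n) b) atTop (𝓝 (ψ₀ b))

/-- GCO: generic coprimality -/
def S_GCO : Prop := ∀ (A : Type) [CommRing A] [IsDomain A] [Algebra ℂ A] (K : Type) [Field K]
    [Algebra A K] (_ : Function.Injective (algebraMap A K)) (d : ℕ) (_ : 1 ≤ d)
    (P Q : MvPolynomial (Fin 2) A) (_ : P.totalDegree ≤ d) (_ : Q.totalDegree ≤ d)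
    (φ : A →ₐ[ℂ] ℂ),
    IsRelPrime (map (φ : A →+* ℂ) P) (map (φ : A →+* ℂ) Q) →
    max (map (φ : A →+* ℂ) P).totalDegree (map (φ : A →+* ℂ) Q).totalDegree = d →
    IsRelPrime (map (algebraMap A K) P) (map (algebraMap A K) Q)

/-- ELI: elimination -/
def S_ELI : Prop := ∀ (K : Type) [Field K] (P Q : MvPolynomial (Fin 2) K), IsRelPrime P Q →
    ∀ i : Fin 2, ∃ u : Polynomial K, u ≠ 0 ∧ ∃ a b : MvPolynomial (Fin 2) K,
      Polynomial.aeval (X i : MvPolynomial (Fin 2) K) u = a * P + b * Q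

/-- ROO: finitely many candidates for the zeros, with algebraic coordinates -/
def S_ROO : Prop := ∀ (A : Type) [CommRing A] [IsDomain A] [Algebra ℂ A] (L : Type) [Field L]
    [CharZero L] [IsAlgClosed L] [Algebra A L] (_ : Function.Injective (algebraMap A L)) (d : ℕ)
    (_ : 1 ≤ d)
    (V : Fin 2 → MvPolynomial (Fin 2) A) (_ : ∀ i, (V i).totalDegree ≤ d) (φ : A →ₐ[ℂ] ℂ),
    IsRelPrime (map (φ : A →+* ℂ) (V 0)) (map (φ : A →+* ℂ) (V 1)) →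
    max (map (φ : A →+* ℂ) (V 0)).totalDegree (map (φ : A →+* ℂ) (V 1)).totalDegree = d →
    ∃ (T : Finset L) (f : A), f ≠ 0 ∧ ∀ (B : Subalgebra A L) (_ : (T : Set L) ⊆ B) (ψ : B →+* ℂ),
      ψ (algebraMap A B f) ≠ 0 → ∀ p : Fin 2 → ℂ,
        (∀ i, eval p (sp (ψ.comp (algebraMap A B)) V i) = 0) →
        ∃ z : Fin 2 → B, (∀ i, (z i : L) ∈ T) ∧ ∀ i, ψ (z i) = p i

/-- singular points -/
def Sng {d : ℕ} (w : Frm d) (p : Fin 2 → ℂ) : Prop := eval p (fP w) = 0 ∧ eval p (fQ w) = 0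

/-- foliations of degree `d` -/
def Fol {d : ℕ} (w : Frm d) : Prop :=
  IsRelPrime (fP w) (fQ w) ∧ max (fP w).totalDegree (fQ w).totalDegree = d

/-- COR: the uniform stability statement for a prime ideal -/
def S_COR : Prop := ∀ (d : ℕ) (_ : 1 ≤ d) (I : Ideal (MvPolynomial (Fin 2 × Ex d) ℂ)) (_ : I.IsPrime)
    (w₀ : Frm d) (_ : ∀ F ∈ I, eval w₀ F = 0) (_ : Fol w₀),
    ∃ g : MvPolynomial (Fin 2 × Ex d) ℂ, g ∉ I ∧ ∀ w : Frm d, (∀ F ∈ I, eval w F = 0) →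
      eval w g ≠ 0 → ∀ p, HasCenterAt (fP w) (fQ w) p →
        ∀ᶠ x in 𝓝 (w, p), (∀ F ∈ I, eval x.1 F = 0) → Sng x.1 x.2 →
          HasCenterAt (fP x.1) (fQ x.1) x.2

/-- `p` is a stable center of `w`, relative to `X`: for every holomorphic one-parameter deformation
`c` of `w` inside `X`, the singular point `q ε` of `c ε` near `p` exists, is unique, depends
holomorphically on `ε` and is a center for all small `ε` -/
def Stable {d : ℕ} (X : Set (ℙ ℂ (Frm d))) (w : Frm d) (p : Fin 2 → ℂ) : Prop :=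
  ∀ c : ℂ → Frm d, AnalyticAt ℂ c 0 → c 0 = w →
    (∀ᶠ ε in 𝓝 (0 : ℂ), ∃ h : c ε ≠ 0, Projectivization.mk ℂ (c ε) h ∈ X) →
    ∃ q : ℂ → (Fin 2 → ℂ), AnalyticAt ℂ q 0 ∧ q 0 = p ∧
      (∀ᶠ ε in 𝓝 (0 : ℂ), Sng (c ε) (q ε)) ∧
      (∀ᶠ x in 𝓝 ((0 : ℂ), p), Sng (c x.1) x.2 → x.2 = q x.1) ∧
      ∀ᶠ ε in 𝓝 (0 : ℂ), HasCenterAt (fP (c ε)) (fQ (c ε)) (q ε)

/-- EXU: the singular point of a deformation of a reduced singularity -/
def S_EXU : Prop := ∀ (d : ℕ) (w : Frm d) (p : Fin 2 → ℂ), Sng w p →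
    eval p (pderiv 0 (fP w) * pderiv 1 (fQ w) - pderiv 1 (fP w) * pderiv 0 (fQ w)) ≠ 0 →
    ∀ c : ℂ → Frm d, AnalyticAt ℂ c 0 → c 0 = w →
    ∃ q : ℂ → (Fin 2 → ℂ), AnalyticAt ℂ q 0 ∧ q 0 = p ∧
      (∀ᶠ ε in 𝓝 (0 : ℂ), Sng (c ε) (q ε)) ∧
      (∀ᶠ x in 𝓝 ((0 : ℂ), p), Sng (c x.1) x.2 → x.2 = q x.1)

/-- IRR: the ideal of an irreducible closed set is prime and defines it -/
def S_IRR : Prop := ∀ (d : ℕ) (X : Set (ℙ ℂ (Frm d))), IsClosed X → IsIrreducible X →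
    ∃ I : Ideal (MvPolynomial (Fin 2 × Ex d) ℂ), I.IsPrime ∧
      (∀ (w : Frm d) (hw : w ≠ 0), Projectivization.mk ℂ w hw ∈ X ↔ ∀ F ∈ I, eval w F = 0) ∧
      ∀ g : MvPolynomial (Fin 2 × Ex d) ℂ, g ∉ I → ∃ O : Set (ℙ ℂ (Frm d)), IsOpen O ∧
        (X ∩ O).Nonempty ∧ ∀ (w : Frm d) (hw : w ≠ 0), Projectivization.mk ℂ w hw ∈ O →
          ∃ t : ℂ, t ≠ 0 ∧ eval (t • w) g ≠ 0

/-- FOP: the foliations of degree `d` form an open set -/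
def S_FOP : Prop := ∀ d : ℕ, 1 ≤ d → IsOpen {x : ℙ ℂ (Frm d) | ∃ (w : Frm d) (hw : w ≠ 0),
    x = Projectivization.mk ℂ w hw ∧ Fol w}

/-- DEN: a nonempty open part of an irreducible closed set is dense -/
def S_FIN : Prop := ∀ (d : ℕ) (_ : 2 ≤ d) (X : Set (ℙ ℂ (Frm d))),
    Maximal (fun Z => IsIrreducible Z ∧ Z ⊆ closure (centers d)) X →
    ∃ O : Set (ℙ ℂ (Frm d)), IsOpen O ∧ closure (X ∩ O) = X ∧
      ∀ (w : Frm d) (hw : w ≠ 0), Projectivization.mk ℂ w hw ∈ X ∩ O →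
        Fol w ∧ ∀ p : Fin 2 → ℂ, HasCenterAt (fP w) (fQ w) p → Stable X w p

end Pool.Agent.N46.CS
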