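import Mathlib
import Pool.Agent.N46.CS.Stm
import Pool.Agent.Y215.CC.Cen

/-! # CS/AFF: centers and affine changes of coordinates -/

set_option autoImplicit false

namespace Pool.Agent.N46.CS

open MvPolynomial Filter Topology
open Pool.Agent.Y215.CC

namespace AFF

theorem shf_sb (z : Fin 2 → ℂ) (M : Fin 2 → Fin 2 → ℂ) (P : MvPolynomial (Fin 2) ℂ) :
    shf z M P = sb z M P := rfl

theorem Im.symm {M N : Fin 2 → Fin 2 → ℂ} (h : Im M N) : Im N M :=
  ⟨h.k00, h.k01, h.k10, h.k11, h.h00, h.h01, h.h10, h.h11⟩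

theorem fwd {z : Fin 2 → ℂ} {M N : Fin 2 → Fin 2 → ℂ} (V : Fin 2 → MvPolynomial (Fin 2) ℂ)
    (h : Im M N) (q' : Fin 2 → ℂ) (hq : HasCenterAt (V 0) (V 1) (afm z M q')) :
    HasCenterAt (tf z M N V 0) (tf z M N V 1) q' := by
  obtain ⟨hP, hQ, hJ, u, v, hu, hv, hu0, hv0, hind, hH⟩ := hq
  have hev : ∀ (x : Fin 2 → ℂ) (F : MvPolynomial (Fin 2) ℂ),
      eval x (sb z M F) = eval (afm z M x) F := fun x F => by rw [eval_sb, afm_apply]
  have htf : ∀ (x : Fin 2 → ℂ) (i : Fin 2), eval x (tf z M N V i) =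
      N i 0 * eval (afm z M x) (V 0) + N i 1 * eval (afm z M x) (V 1) := by
    intro x i
    rw [tf, map_add, map_mul, map_mul, eval_C, eval_C, shf_sb, shf_sb, hev, hev]
  refine ⟨?_, ?_, ?_, u ∘ afm z M, v ∘ afm z M, ?_, ?_, ?_, ?_, ?_, ?_⟩
  · rw [htf, hP, hQ]; ring
  · rw [htf, hP, hQ]; ring
  · have hd : ∀ i j, eval q' (pderiv i (tf z M N V j)) =
        N j 0 * (M 0 i * eval (afm z M q') (pderiv 0 (V 0)) +
          M 1 i * eval (afm z M q') (pderiv 1 (V 0))) +
          N j 1 * (M 0 i * eval (afm z M q') (pderiv 0 (V 1)) +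
          M 1 i * eval (afm z M q') (pderiv 1 (V 1))) := by
      intro i j
      rw [tf, map_add, pderiv_C_mul, pderiv_C_mul, shf_sb, shf_sb, pderiv_sb, pderiv_sb]
      simp only [map_add, map_mul, eval_C, hev]
    rw [map_sub, map_mul, map_mul, hd, hd, hd, hd]
    rw [map_sub, map_mul, map_mul] at hJ
    have hdet : (M 0 0 * M 1 1 - M 0 1 * M 1 0) * (N 0 0 * N 1 1 - N 0 1 * N 1 0) = 1 := by
      linear_combination (M 1 0 * N 0 1 + M 1 1 * N 1 1) * h.h00 + h.h11 -
        (M 1 0 * N 0 0 + M 1 1 * N 1 0) * h.h01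
    intro h0
    apply hJ
    have e : ((M 0 0 * M 1 1 - M 0 1 * M 1 0) * (N 0 0 * N 1 1 - N 0 1 * N 1 0)) *
        (eval (afm z M q') (pderiv 0 (V 0)) * eval (afm z M q') (pderiv 1 (V 1)) -
        eval (afm z M q') (pderiv 1 (V 0)) * eval (afm z M q') (pderiv 0 (V 1))) = 0 := by
      rw [← h0]; ring
    rwa [hdet, one_mul] at e
  · exact AnalyticAt.comp hu (afm_analyticAt z M _)
  · exact AnalyticAt.comp hv (afm_analyticAt z M _)
  · rw [Function.comp_apply, hu0]
  · rw [Function.comp_apply, hv0]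
  · have hfu : fderiv ℂ (u ∘ afm z M) q' = (fderiv ℂ u (afm z M q')).comp (lin M) :=
      (hu.differentiableAt.hasFDerivAt.comp _ (afm_hasFDerivAt z M _)).fderiv
    have hfv : fderiv ℂ (v ∘ afm z M) q' = (fderiv ℂ v (afm z M q')).comp (lin M) :=
      (hv.differentiableAt.hasFDerivAt.comp _ (afm_hasFDerivAt z M _)).fderiv
    rw [hfu, hfv]
    rw [LinearIndependent.pair_iff] at hind ⊢
    intro s t hst
    apply hind s t
    ext1 y
    have hz : lin M (lin N y) = y := by
      funext i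
      rw [lin_apply, lin_apply, lin_apply]
      fin_cases i
      · simp only [Fin.zero_eta]
        linear_combination y 0 * h.h00 + y 1 * h.h01
      · simp only [Fin.mk_one]
        linear_combination y 0 * h.h10 + y 1 * h.h11
    have := congrArg (fun f => f (lin N y)) hst
    simpa [hz] using this
  · set H : (Fin 2 → ℂ) → ℂ := fun s => u s ^ 2 + v s ^ 2 with hHdef
    have hHan : AnalyticAt ℂ H (afm z M q') := (hu.pow 2).add (hv.pow 2)
    have hcont : Filter.Tendsto (afm z M) (nhds q') (nhds (afm z M q')) :=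
      (afm_analyticAt z M q').continuousAt
    filter_upwards [hcont.eventually hH, hcont.eventually hHan.eventually_analyticAt] with x hx1 hx2
    have hcomp : (fun s => (u ∘ afm z M) s ^ 2 + (v ∘ afm z M) s ^ 2) = H ∘ afm z M := rfl
    have hfd : fderiv ℂ (H ∘ afm z M) x = (fderiv ℂ H (afm z M x)).comp (lin M) :=
      (hx2.differentiableAt.hasFDerivAt.comp _ (afm_hasFDerivAt z M _)).fderiv
    rw [hcomp, hfd]
    have hL : ∀ i, lin M (Pi.single i 1) = M 0 i • Pi.single 0 1 + M 1 i • Pi.single 1 1 := by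
      intro i
      funext j
      rw [lin_apply]
      fin_cases i <;> fin_cases j <;> simp
    rw [ContinuousLinearMap.comp_apply, ContinuousLinearMap.comp_apply, hL, hL]
    rw [map_add, map_add, map_smul, map_smul, map_smul, map_smul, htf, htf]
    simp only [smul_eq_mul]
    linear_combination hx1 +
      eval (afm z M x) (V 0) * fderiv ℂ H (afm z M x) (Pi.single 0 1) * h.h00 +
      eval (afm z M x) (V 0) * fderiv ℂ H (afm z M x) (Pi.single 1 1) * h.h10 +
      eval (afm z M x) (V 1) * fderiv ℂ H (afm z M x) (Pi.single 0 1) * h.h01 +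
      eval (afm z M x) (V 1) * fderiv ℂ H (afm z M x) (Pi.single 1 1) * h.h11

theorem tf_tf {z : Fin 2 → ℂ} {M N : Fin 2 → Fin 2 → ℂ} (V : Fin 2 → MvPolynomial (Fin 2) ℂ)
    (h : Im M N) (i : Fin 2) :
    tf (fun i => -(N i 0 * z 0 + N i 1 * z 1)) N M (tf z M N V) i = V i := by
  set z' : Fin 2 → ℂ := fun i => -(N i 0 * z 0 + N i 1 * z 1) with hz'
  have hI : Inv z z' M N := by
    refine ⟨h.h00, h.h01, h.h10, h.h11, ?_, ?_⟩
    · simp only [hz']
      linear_combination -(z 0) * h.h00 - z 1 * h.h01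
    · simp only [hz']
      linear_combination -(z 0) * h.h10 - z 1 * h.h11
  have e : ∀ j, shf z' N (tf z M N V j) = C (N j 0) * V 0 + C (N j 1) * V 1 := by
    intro j
    have e1 : shf z' N (tf z M N V j) = C (N j 0) * sb z' N (sb z M (V 0)) +
        C (N j 1) * sb z' N (sb z M (V 1)) := by
      rw [shf_sb, tf, shf_sb, shf_sb]
      simp only [sb, map_add, map_mul, bind₁_C_right]
    rw [e1, sb_sb hI, sb_sb hI]
  have e2 : tf z' N M (tf z M N V) i = C (M i 0 * N 0 0 + M i 1 * N 1 0) * V 0 +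
      C (M i 0 * N 0 1 + M i 1 * N 1 1) * V 1 := by
    rw [tf, e, e]
    simp only [map_add, map_mul]
    ring
  rw [e2]
  fin_cases i
  · show C (M 0 0 * N 0 0 + M 0 1 * N 1 0) * V 0 + C (M 0 0 * N 0 1 + M 0 1 * N 1 1) * V 1 = V 0
    rw [h.h00, h.h01]; simp
  · show C (M 1 0 * N 0 0 + M 1 1 * N 1 0) * V 0 + C (M 1 0 * N 0 1 + M 1 1 * N 1 1) * V 1 = V 1
    rw [h.h10, h.h11]; simp

end AFF

theorem t_AFF : S_AFF := by
  intro z M N V h
  constructor
  · intro hc
    have h1 : afm (fun i => -(N i 0 * z 0 + N i 1 * z 1)) N z = 0 := by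
      rw [afm_apply]
      funext i
      show -(N i 0 * z 0 + N i 1 * z 1) + N i 0 * z 0 + N i 1 * z 1 = 0
      ring
    have h2 := AFF.fwd (z := fun i => -(N i 0 * z 0 + N i 1 * z 1)) (tf z M N V)
      (AFF.Im.symm h) z (by rw [h1]; exact hc)
    rwa [AFF.tf_tf V h 0, AFF.tf_tf V h 1] at h2
  · intro hc
    refine AFF.fwd V h 0 ?_
    have h1 : afm z M 0 = z := by
      rw [afm_apply]
      funext i
      simp
    rw [h1]
    exact hc

end Pool.Agent.N46.CS
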