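import Pool.Agent.N46.CS.Stm

/-!
# Stability of centers, leaf CEN: a formal first integral implies a center (helper250)
-/

set_option autoImplicit false

namespace Pool.Agent.N46.CS

open MvPolynomial Filter Topology
open Pool.Agent.Y215.CC

namespace CEN

theorem cv_dop {a : FS} (h : Cv a) : Cv (Dop a) := by
  obtain ⟨K, hK⟩ := h
  refine ⟨2 * |K|, fun n => ?_⟩
  have h1 : MvPowerSeries.coeff n (Dop a) = ((n 0 : ℂ) - (n 1 : ℂ)) * MvPowerSeries.coeff n a := rfl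
  rw [h1, norm_mul]
  have h2 : ‖((n 0 : ℂ) - (n 1 : ℂ))‖ ≤ (n 0 + n 1 : ℕ) := by
    refine (norm_sub_le _ _).trans ?_
    rw [Complex.norm_natCast, Complex.norm_natCast]
    push_cast
    exact le_rfl
  have h3 : ((n 0 + n 1 : ℕ) : ℝ) ≤ 2 ^ (n 0 + n 1 + 1) := by
    have h4 : n 0 + n 1 < 2 ^ (n 0 + n 1) := Nat.lt_two_pow_self
    have h5 : 2 ^ (n 0 + n 1) ≤ 2 ^ (n 0 + n 1 + 1) := Nat.pow_le_pow_right (by norm_num) (by omega)
    exact_mod_cast (h4.le.trans h5)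
  have h4 : ‖MvPowerSeries.coeff n a‖ ≤ |K| ^ (n 0 + n 1 + 1) := by
    refine (hK n).trans ?_
    rw [← abs_pow]
    exact le_abs_self _
  rw [mul_pow]
  exact mul_le_mul (h2.trans h3) h4 (norm_nonneg _) (by positivity)

theorem sub_ev (h5 : S_CVM) (Z : Fin 2 → FS) (hZ : ∀ i, Cv (Z i))
    (P : MvPolynomial (Fin 2) ℂ) : Cv (aeval Z P) ∧
      ∀ᶠ w in 𝓝 (0 : Fin 2 → ℂ), ev (aeval Z P) w = eval (fun i => ev (Z i) w) P := by
  induction P using MvPolynomial.induction_on with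
  | C a =>
    have e : aeval Z (C a : MvPolynomial (Fin 2) ℂ) = (MvPowerSeries.C a : FS) := by
      rw [aeval_C]
      rfl
    rw [e]
    refine ⟨(h5.2 a).1, Eventually.of_forall fun w => ?_⟩
    rw [(h5.2 a).2 w, eval_C]
  | add p q hp hq =>
    obtain ⟨p1, p2⟩ := hp
    obtain ⟨q1, q2⟩ := hq
    obtain ⟨a1, -, a3, -⟩ := h5.1 _ _ p1 q1
    rw [map_add]
    refine ⟨a1, ?_⟩
    filter_upwards [p2, q2, a3] with w e1 e2 e3
    rw [e3, e1, e2, map_add]
  | mul_X p i hp =>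
    obtain ⟨p1, p2⟩ := hp
    obtain ⟨-, a2, -, a4⟩ := h5.1 _ _ p1 (hZ i)
    rw [map_mul, aeval_X]
    refine ⟨a2, ?_⟩
    filter_upwards [p2, a4] with w e1 e2
    rw [e2, e1, map_mul, eval_X]

end CEN

open CEN

theorem t_CEN (h1 : S_NFR) (h2 : S_NFM) (h3 : S_NFB) (h4 : S_CVA) (h5 : S_CVM) (h6 : S_CNB) :
    S_CEN := by
  intro l V hl hN hA
  obtain ⟨Z, e, k, hNF⟩ := h1 l V hl hN
  obtain ⟨hZ, he⟩ := h2 l V hl hN Z e k hNF
  have hk : k = 0 := h3 l V hl hN hA Z e k hNF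
  have hq : ∀ i, MvPowerSeries.C l * Dop (Z i) = (1 + e) * aeval Z (V i) := by
    intro i
    fin_cases i
    · exact hNF.q0
    · have := hNF.q1
      rw [hk, add_zero] at this
      exact this
  have han : ∀ i, AnalyticAt ℂ (ev (Z i)) 0 := fun i => (h4 _ (hZ i)).1
  have hz : AnalyticAt ℂ (fun w i => ev (Z i) w) 0 := AnalyticAt.pi han
  have hcoef : ∀ (i : Fin 2) (n : Fin 2 →₀ ℕ), n 0 + n 1 < 2 →
      MvPowerSeries.coeff n (Z i) = if n = Finsupp.single i 1 then 1 else 0 := by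
    intro i n hn
    rw [hNF.zi i n hn, MvPowerSeries.coeff_X]
  have hfd : ∀ w, (∀ i, DifferentiableAt ℂ (ev (Z i)) w) → ∀ (v : Fin 2 → ℂ) (i : Fin 2),
      fderiv ℂ (fun w i => ev (Z i) w) w v i = fderiv ℂ (ev (Z i)) w v := by
    intro w hw v i
    rw [fderiv_pi hw]
    rfl
  refine h6 l V hl hN (fun w i => ev (Z i) w) (ev e) hz ?_ ?_ (h4 _ he).1 ?_ ?_
  · funext i
    show ev (Z i) 0 = 0
    rw [(h4 _ (hZ i)).2.1, hcoef i 0 (by simp), if_neg]
    intro h
    have := DFunLike.congr_fun h i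
    simp at this
  · have hd0 : ∀ i, DifferentiableAt ℂ (ev (Z i)) 0 := fun i => (han i).differentiableAt
    have hb : ∀ j i : Fin 2, fderiv ℂ (fun w i => ev (Z i) w) 0 (Pi.single j 1) i =
        (Pi.single j 1 : Fin 2 → ℂ) i := by
      intro j i
      rw [hfd 0 hd0, (h4 _ (hZ i)).2.2.1 j, hcoef i (Finsupp.single j 1) (by
        fin_cases j <;> simp)]
      by_cases hij : i = j
      · subst hij
        rw [if_pos rfl, Pi.single_eq_same]
      · rw [if_neg, Pi.single_eq_of_ne hij]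
        intro h
        exact hij ((Finsupp.single_left_inj one_ne_zero).1 h).symm
    ext v i
    have hv : v = v 0 • (Pi.single 0 1 : Fin 2 → ℂ) + v 1 • (Pi.single 1 1 : Fin 2 → ℂ) := by
      funext m
      fin_cases m <;> simp
    show fderiv ℂ (fun w i => ev (Z i) w) 0 v i = v i
    conv_lhs => rw [hv]
    conv_rhs => rw [hv]
    rw [map_add, map_smul, map_smul]
    simp only [Pi.add_apply, Pi.smul_apply]
    rw [hb 0 i, hb 1 i]
  · rw [(h4 _ he).2.1, hNF.e0]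
  · have hd : ∀ᶠ w in 𝓝 (0 : Fin 2 → ℂ), ∀ i, DifferentiableAt ℂ (ev (Z i)) w := by
      rw [eventually_all]
      intro i
      exact (han i).eventually_analyticAt.mono fun w hw => hw.differentiableAt
    have hone : ∀ w, ev (1 : FS) w = 1 := by
      intro w
      have := (h5.2 1).2 w
      rw [map_one] at this
      exact this
    have hcone : Cv (1 : FS) := by
      have := (h5.2 1).1
      rw [map_one] at this
      exact this
    have hall : ∀ i, ∀ᶠ w in 𝓝 (0 : Fin 2 → ℂ), l * (w 0 * fderiv ℂ (ev (Z i)) w (Pi.single 0 1) -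
        w 1 * fderiv ℂ (ev (Z i)) w (Pi.single 1 1)) =
          (1 + ev e w) * eval (fun i => ev (Z i) w) (V i) := by
      intro i
      obtain ⟨s1, s2⟩ := sub_ev h5 Z hZ (V i)
      obtain ⟨a1, -, a3, -⟩ := h5.1 _ _ hcone he
      obtain ⟨-, -, -, b4⟩ := h5.1 _ _ a1 s1
      obtain ⟨-, -, -, c4⟩ := h5.1 _ _ (h5.2 l).1 (cv_dop (hZ i))
      filter_upwards [s2, a3, b4, c4, (h4 _ (hZ i)).2.2.2] with w e1 e2 e3 e4 e5
      rw [e5, ← (h5.2 l).2 w, ← e4, hq i, e3, e2, hone, e1]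
    rw [← eventually_all] at hall
    filter_upwards [hd, hall] with w hw hw2 i
    rw [hfd w hw, hfd w hw]
    exact hw2 i

end Pool.Agent.N46.CS
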