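import Mathlib
import Pool.Agent.N46.CS.Stm

set_option autoImplicit false

/-!
# Leaf CNB: from the analytic normal form to a center
-/

namespace Pool.Agent.N46.CS

open MvPolynomial Filter Topology
open Pool.Agent.Y215.CC

namespace CNB

theorem ev0 (F : MvPolynomial (Fin 2) ℂ) : eval 0 F = coeff 0 F := by
  rw [← constantCoeff_eq, ← eval_zero]

theorem evd (F : MvPolynomial (Fin 2) ℂ) (i : Fin 2) :
    eval 0 (pderiv i F) = coeff (Finsupp.single i 1) F := by
  rw [ev0, coeff_pderiv]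
  simp

theorem lin (l : ℂ) (i j : Fin 2) :
    coeff (Finsupp.single j 1) (C l * X i : MvPolynomial (Fin 2) ℂ) = if i = j then l else 0 := by
  classical
  rw [coeff_C_mul, coeff_X]
  by_cases h : i = j
  · simp [h]
  · rw [if_neg h, if_neg (fun h2 => h (Finsupp.single_left_injective one_ne_zero h2)), mul_zero]

theorem lin0 (l : ℂ) (i : Fin 2) : coeff 0 (C l * X i : MvPolynomial (Fin 2) ℂ) = 0 := by
  rw [coeff_C_mul, ← constantCoeff_eq, constantCoeff_X, mul_zero]

theorem vec (a : Fin 2 → ℂ) : a = a 0 • (Pi.single 0 1 : Fin 2 → ℂ) + a 1 • Pi.single 1 1 := by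
  funext i
  fin_cases i <;> simp

end CNB

open CNB in
theorem t_CNB : S_CNB := by
  intro l V hl hN z ε hz hz0 hzd hε hε0 heq
  obtain ⟨hN0, hN1⟩ := hN
  -- the linear part
  have c00 : coeff 0 (V 0) = 0 := by
    have h := hN0 0 (by simp)
    rw [coeff_sub, lin0, sub_zero] at h
    exact h
  have c10 : coeff 0 (V 1) = 0 := by
    have h := hN1 0 (by simp)
    rw [coeff_add, lin0, add_zero] at h
    exact h
  have hs : ∀ j : Fin 2, (Finsupp.single j 1 : Fin 2 →₀ ℕ) 0 + (Finsupp.single j 1 : Fin 2 →₀ ℕ) 1 < 2 := by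
    intro j
    fin_cases j <;> simp
  have d0 : ∀ j : Fin 2, coeff (Finsupp.single j 1) (V 0) = if (0 : Fin 2) = j then l else 0 := by
    intro j
    have h := hN0 _ (hs j)
    rw [coeff_sub, lin] at h
    exact sub_eq_zero.1 h
  have d1 : ∀ j : Fin 2, coeff (Finsupp.single j 1) (V 1) = - if (1 : Fin 2) = j then l else 0 := by
    intro j
    have h := hN1 _ (hs j)
    rw [coeff_add, lin] at h
    exact eq_neg_of_add_eq_zero_left h
  -- the local inverse
  have hz' : HasStrictFDerivAt z ((ContinuousLinearEquiv.refl ℂ (Fin 2 → ℂ) :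
      (Fin 2 → ℂ) ≃L[ℂ] (Fin 2 → ℂ)) : (Fin 2 → ℂ) →L[ℂ] (Fin 2 → ℂ)) 0 := by
    have h := hz.hasStrictFDerivAt
    rw [hzd] at h
    exact h
  obtain ⟨y, hy⟩ : ∃ y, y = hz'.localInverse z _ _ := ⟨_, rfl⟩
  have hya : AnalyticAt ℂ y 0 := by
    have h := (hz'.toOpenPartialHomeomorph z).analyticAt_symm'
      (i := ContinuousLinearEquiv.refl ℂ (Fin 2 → ℂ)) hz'.mem_toOpenPartialHomeomorph_source hz
      (by
        show fderiv ℂ z 0 = _
        rw [hzd]
        rfl)
    have h0 : hz'.toOpenPartialHomeomorph z 0 = 0 := hz0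
    rw [h0] at h
    rw [hy]
    exact h
  have hy0 : y 0 = 0 := by
    have h := hz'.localInverse_apply_image
    rw [hz0] at h
    rw [hy]
    exact h
  have hyd : HasStrictFDerivAt y (ContinuousLinearMap.id ℂ (Fin 2 → ℂ)) 0 := by
    have h := hz'.to_localInverse
    rw [hz0] at h
    rw [hy]
    exact h
  have hlft : ∀ᶠ w in 𝓝 (0 : Fin 2 → ℂ), y (z w) = w := by
    rw [hy]
    exact hz'.eventually_left_inverse
  have hrgt : ∀ᶠ x in 𝓝 (0 : Fin 2 → ℂ), z (y x) = x := by
    have h := hz'.eventually_right_inverse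
    rw [hz0] at h
    rw [hy]
    exact h
  have hycont : Tendsto y (𝓝 0) (𝓝 0) := by
    have h := hya.continuousAt.tendsto
    rwa [hy0] at h
  have hzcont : Tendsto z (𝓝 0) (𝓝 0) := by
    have h := hz.continuousAt.tendsto
    rwa [hz0] at h
  have hcoord : ∀ i : Fin 2, AnalyticAt ℂ (fun x => y x i) 0 := fun i =>
    ((ContinuousLinearMap.proj (R := ℂ) (φ := fun _ : Fin 2 => ℂ) i).analyticAt _).comp hya
  have hI : Complex.I ≠ 0 := Complex.I_ne_zero
  -- the derivatives of the coordinates at the origin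
  have hfd : ∀ i : Fin 2, HasFDerivAt (fun x => y x i)
      (ContinuousLinearMap.proj (R := ℂ) (φ := fun _ : Fin 2 => ℂ) i) 0 := by
    intro i
    have h := (hasFDerivAt_pi'.1 hyd.hasFDerivAt) i
    simpa using h
  refine ⟨?_, ?_, ?_, fun x => (y x 0 + y x 1) / 2, fun x => (y x 0 - y x 1) / (2 * Complex.I),
    ?_, ?_, ?_, ?_, ?_, ?_⟩
  · rw [ev0, c00]
  · rw [ev0, c10]
  · rw [map_sub, map_mul, map_mul, evd, evd, evd, evd, d0, d0, d1, d1]
    simp only [if_true, Fin.isValue, zero_ne_one, one_ne_zero, if_false, neg_zero, mul_zero,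
      sub_zero, mul_neg]
    exact neg_ne_zero.2 (mul_ne_zero hl hl)
  · exact ((hcoord 0).add (hcoord 1)).div analyticAt_const two_ne_zero
  · exact ((hcoord 0).sub (hcoord 1)).div analyticAt_const (mul_ne_zero two_ne_zero hI)
  · simp [hy0]
  · simp [hy0]
  · have e1 : fderiv ℂ (fun x => (y x 0 + y x 1) / 2) 0 =
        (2 : ℂ)⁻¹ • (ContinuousLinearMap.proj (R := ℂ) (φ := fun _ : Fin 2 => ℂ) 0 +
          ContinuousLinearMap.proj (R := ℂ) (φ := fun _ : Fin 2 => ℂ) 1) := by
      have h := ((hfd 0).add (hfd 1)).const_smul (2 : ℂ)⁻¹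
      refine HasFDerivAt.fderiv ?_
      refine h.congr_of_eventuallyEq (Eventually.of_forall fun x => ?_)
      simp only [Pi.smul_apply, Pi.add_apply, smul_eq_mul]
      ring
    have e2 : fderiv ℂ (fun x => (y x 0 - y x 1) / (2 * Complex.I)) 0 =
        (2 * Complex.I)⁻¹ • (ContinuousLinearMap.proj (R := ℂ) (φ := fun _ : Fin 2 => ℂ) 0 -
          ContinuousLinearMap.proj (R := ℂ) (φ := fun _ : Fin 2 => ℂ) 1) := by
      have h := ((hfd 0).sub (hfd 1)).const_smul (2 * Complex.I)⁻¹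
      refine HasFDerivAt.fderiv ?_
      refine h.congr_of_eventuallyEq (Eventually.of_forall fun x => ?_)
      simp only [Pi.smul_apply, Pi.sub_apply, smul_eq_mul]
      ring
    rw [e1, e2, LinearIndependent.pair_iff]
    intro s t hst
    have h0 := congrArg (fun L => L (Pi.single 0 1 : Fin 2 → ℂ)) hst
    have h1 := congrArg (fun L => L (Pi.single 1 1 : Fin 2 → ℂ)) hst
    simp at h0 h1
    have hs0 : s = 0 := by linear_combination h0 + h1
    refine ⟨hs0, ?_⟩
    rw [hs0] at h0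
    simpa using h0
  · -- the first integral
    have hfun : (fun s : Fin 2 → ℂ => ((y s 0 + y s 1) / 2) ^ 2 +
        ((y s 0 - y s 1) / (2 * Complex.I)) ^ 2) = fun s => y s 0 * y s 1 := by
      funext s
      rw [div_pow, div_pow, mul_pow, Complex.I_sq]
      ring
    simp only [hfun]
    have hne : ∀ᶠ w in 𝓝 (0 : Fin 2 → ℂ), 1 + ε w ≠ 0 := by
      have h : Tendsto (fun w => 1 + ε w) (𝓝 0) (𝓝 (1 + ε 0)) :=
        tendsto_const_nhds.add hε.continuousAt.tendsto
      refine h.eventually_ne ?_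
      rw [hε0, add_zero]
      exact one_ne_zero
    have hS : ∀ᶠ w in 𝓝 (0 : Fin 2 → ℂ), (∀ᶠ w' in 𝓝 w, y (z w') = w') ∧
        AnalyticAt ℂ z w ∧ AnalyticAt ℂ y (z w) ∧ 1 + ε w ≠ 0 ∧
        ∀ i, l * (w 0 * fderiv ℂ z w (Pi.single 0 1) i -
          w 1 * fderiv ℂ z w (Pi.single 1 1) i) = (1 + ε w) * eval (z w) (V i) :=
      hlft.eventually_nhds.and (hz.eventually_analyticAt.and
        ((hzcont.eventually hya.eventually_analyticAt).and (hne.and heq)))
    filter_upwards [hrgt, hycont.eventually hS] with x hx hSx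
    obtain ⟨w, hw⟩ : ∃ w, w = y x := ⟨_, rfl⟩
    rw [← hw] at hx hSx
    obtain ⟨k1, k2, k3, k4, k5⟩ := hSx
    rw [hx] at k3 k5
    obtain ⟨h, hh⟩ : ∃ h : (Fin 2 → ℂ) → ℂ, h = fun s => y s 0 * y s 1 := ⟨_, rfl⟩
    rw [← hh]
    have hcoordx : ∀ i : Fin 2, AnalyticAt ℂ (fun x => y x i) x := fun i =>
      ((ContinuousLinearMap.proj (R := ℂ) (φ := fun _ : Fin 2 => ℂ) i).analyticAt _).comp k3
    have hhd : DifferentiableAt ℂ h x := by
      rw [hh]
      exact ((hcoordx 0).mul (hcoordx 1)).differentiableAt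
    have hcomp : fderiv ℂ (h ∘ z) w = (fderiv ℂ h x).comp (fderiv ℂ z w) := by
      rw [← hx]
      refine fderiv_comp w ?_ k2.differentiableAt
      rw [hx]
      exact hhd
    have hev : (h ∘ z) =ᶠ[𝓝 w] fun w' => w' 0 * w' 1 := by
      filter_upwards [k1] with w' hw'
      rw [hh, Function.comp_apply, hw']
    have hp : ∀ i : Fin 2, HasFDerivAt (fun w' : Fin 2 → ℂ => w' i)
        (ContinuousLinearMap.proj (R := ℂ) (φ := fun _ : Fin 2 => ℂ) i) w := fun i =>
      (ContinuousLinearMap.proj (R := ℂ) (φ := fun _ : Fin 2 => ℂ) i).hasFDerivAt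
    have hmul : fderiv ℂ (fun w' : Fin 2 → ℂ => w' 0 * w' 1) w =
        w 0 • ContinuousLinearMap.proj (R := ℂ) (φ := fun _ : Fin 2 => ℂ) 1 +
          w 1 • ContinuousLinearMap.proj (R := ℂ) (φ := fun _ : Fin 2 => ℂ) 0 :=
      ((hp 0).mul (hp 1)).fderiv
    rw [hev.fderiv_eq, hmul] at hcomp
    have e0 := congrArg (fun L => L (Pi.single 0 1 : Fin 2 → ℂ)) hcomp
    have e1 := congrArg (fun L => L (Pi.single 1 1 : Fin 2 → ℂ)) hcomp
    simp at e0 e1
    -- e0 : w 1 = fderiv h x (fderiv z w e0), e1 : w 0 = fderiv h x (fderiv z w e1)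
    have hvec : (1 + ε w) • (fun i => eval x (V i)) =
        (l * w 0) • fderiv ℂ z w (Pi.single 0 1) - (l * w 1) • fderiv ℂ z w (Pi.single 1 1) := by
      funext i
      have := k5 i
      simp only [Pi.smul_apply, Pi.sub_apply, smul_eq_mul]
      rw [← this]
      ring
    have h1 := congrArg (fderiv ℂ h x) hvec
    rw [map_sub, map_smul, map_smul, map_smul, ← e0, ← e1] at h1
    have h2 : (1 + ε w) * fderiv ℂ h x (fun i => eval x (V i)) = 0 := by
      have h3 := h1
      simp only [smul_eq_mul] at h3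
      rw [h3]
      ring
    have h4 := (mul_eq_zero.1 h2).resolve_left k4
    rw [vec (fun i => eval x (V i)), map_add, map_smul, map_smul] at h4
    simpa [smul_eq_mul] using h4

end Pool.Agent.N46.CS
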