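import Mathlib
import Pool.Agent.N46.CS.Stm

set_option autoImplicit false

namespace Pool.Agent.N46.CS

open MvPolynomial Filter Topology
open Pool.Agent.Y215.CC

namespace COR

/-- the pair of polynomials with given coefficients -/
noncomputable def VV {d : ℕ} {A : Type} [CommRing A] (c : Fin 2 × Ex d → A) :
    Fin 2 → MvPolynomial (Fin 2) A :=
  fun i => ∑ e : Ex d, C (c (i, e)) * X 0 ^ (e.1.1 : ℕ) * X 1 ^ (e.1.2 : ℕ)

theorem sp_VV0 {d : ℕ} {A : Type} [CommRing A] (φ : A →+* ℂ) (c : Fin 2 × Ex d → A)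
    (w : Frm d) (h : ∀ x, φ (c x) = w x) : sp φ (VV c) 0 = fP w := by
  simp [sp, VV, fP, poly, h]

theorem sp_VV1 {d : ℕ} {A : Type} [CommRing A] (φ : A →+* ℂ) (c : Fin 2 × Ex d → A)
    (w : Frm d) (h : ∀ x, φ (c x) = w x) : sp φ (VV c) 1 = fQ w := by
  simp [sp, VV, fQ, poly, h]

theorem deg_VV {d : ℕ} {A : Type} [CommRing A] (c : Fin 2 × Ex d → A) (i : Fin 2) :
    (VV c i).totalDegree ≤ d := by
  refine totalDegree_finsetSum_le fun e _ => ?_
  have h1 : (C (c (i, e)) * X 0 ^ (e.1.1 : ℕ) * X 1 ^ (e.1.2 : ℕ) :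
      MvPolynomial (Fin 2) A).totalDegree ≤ 0 + (e.1.1 : ℕ) + (e.1.2 : ℕ) := by
    refine (totalDegree_mul _ _).trans (add_le_add ((totalDegree_mul _ _).trans
      (add_le_add ?_ ?_)) ?_)
    · rw [totalDegree_C]
    · refine (totalDegree_pow _ _).trans ?_
      have : (X 0 : MvPolynomial (Fin 2) A).totalDegree ≤ 1 := by
        rcases subsingleton_or_nontrivial A with h | h
        · rw [Subsingleton.elim (X 0 : MvPolynomial (Fin 2) A) 0]; simp
        · rw [totalDegree_X]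
      calc (e.1.1 : ℕ) * (X 0 : MvPolynomial (Fin 2) A).totalDegree ≤ (e.1.1 : ℕ) * 1 :=
            Nat.mul_le_mul_left _ this
        _ = _ := mul_one _
    · refine (totalDegree_pow _ _).trans ?_
      have : (X 1 : MvPolynomial (Fin 2) A).totalDegree ≤ 1 := by
        rcases subsingleton_or_nontrivial A with h | h
        · rw [Subsingleton.elim (X 1 : MvPolynomial (Fin 2) A) 0]; simp
        · rw [totalDegree_X]
      calc (e.1.2 : ℕ) * (X 1 : MvPolynomial (Fin 2) A).totalDegree ≤ (e.1.2 : ℕ) * 1 :=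
            Nat.mul_le_mul_left _ this
        _ = _ := mul_one _
  have := e.2
  omega

/-- the point evaluation on the coordinate ring -/
noncomputable def pt {ι : Type} (I : Ideal (MvPolynomial ι ℂ)) (w : ι → ℂ)
    (h : ∀ F ∈ I, eval w F = 0) : (MvPolynomial ι ℂ ⧸ I) →ₐ[ℂ] ℂ :=
  Ideal.Quotient.liftₐ I (aeval w) (fun F hF => by
    have := h F hF
    rwa [← MvPolynomial.aeval_eq_eval] at this)

theorem pt_mk {ι : Type} (I : Ideal (MvPolynomial ι ℂ)) (w : ι → ℂ)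
    (h : ∀ F ∈ I, eval w F = 0) (F : MvPolynomial ι ℂ) :
    pt I w h (Ideal.Quotient.mk I F) = eval w F := by
  rw [← MvPolynomial.aeval_eq_eval]
  rfl

/-- the abstract compactness argument -/
theorem core {d : ℕ} (A : Type) [CommRing A] [IsDomain A] [Algebra ℚ A] (L : Type) [Field L]
    [CharZero L] [IsAlgClosed L] [Algebra A L] [Algebra.IsAlgebraic A L]
    (hinj : Function.Injective (algebraMap A L))
    (h1 : S_DICH) (h2 : S_SPX) (h3 : S_SPC) (c : Fin 2 × Ex d → A)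
    (T : Finset L) (f0 : A) (hf0 : f0 ≠ 0)
    (hT : ∀ (B : Subalgebra A L) (_ : (T : Set L) ⊆ B) (ψ : B →+* ℂ),
      ψ (algebraMap A B f0) ≠ 0 → ∀ p : Fin 2 → ℂ,
        (∀ i, eval p (sp (ψ.comp (algebraMap A B)) (VV c) i) = 0) →
        ∃ z : Fin 2 → B, (∀ i, (z i : L) ∈ T) ∧ ∀ i, ψ (z i) = p i) :
    ∃ f : A, f ≠ 0 ∧ ∀ (φ : ℕ → A →+* ℂ) (φ₀ : A →+* ℂ), φ₀ f ≠ 0 → (∀ n, φ n f ≠ 0) →
      (∀ a, Tendsto (fun n => φ n a) atTop (𝓝 (φ₀ a))) →
      ∀ (w : ℕ → Frm d) (w₀ : Frm d), (∀ n x, φ n (c x) = w n x) → (∀ x, φ₀ (c x) = w₀ x) →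
      ∀ (p : ℕ → Fin 2 → ℂ) (p₀ : Fin 2 → ℂ), Tendsto p atTop (𝓝 p₀) →
        (∀ n, Sng (w n) (p n)) → (∀ n, ¬ HasCenterAt (fP (w n)) (fQ (w n)) (p n)) →
        ¬ HasCenterAt (fP w₀) (fQ w₀) p₀ := by
  classical
  choose Sz hSz1 hSz2 using h1 A L hinj (VV c)
  set S : Finset L := T ∪ (Fintype.piFinset fun _ : Fin 2 => T).biUnion Sz with hS
  obtain ⟨f1, hf1, hf1'⟩ := h2 A L hinj S
  obtain ⟨f2, hf2, hf2'⟩ := h3 A L hinj S
  have hSB0 : (S : Set L) ⊆ (Algebra.adjoin A (S : Set L) : Set L) := Algebra.subset_adjoin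
  generalize Algebra.adjoin A (S : Set L) = B at hf1' hf2' hSB0
  refine ⟨f0 * f1 * f2, mul_ne_zero (mul_ne_zero hf0 hf1) hf2, ?_⟩
  intro φ φ₀ hφ₀ hφ hlim w w₀ hw hw₀ p p₀ hp hsing hnc hcen
  have hφ₀' : φ₀ f2 ≠ 0 := by
    intro h; apply hφ₀; rw [map_mul, h, mul_zero]
  have hφ1 : ∀ n, φ n f1 ≠ 0 := by
    intro n h; apply hφ n; rw [map_mul, map_mul, h, mul_zero, zero_mul]
  have hφ0 : ∀ n, φ n f0 ≠ 0 := by
    intro n h; apply hφ n; rw [map_mul, map_mul, h, zero_mul, zero_mul]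
  choose ψ hψ using fun n => hf1' (φ n) (hφ1 n)
  obtain ⟨σ, ψ₀, hσ, hψ₀, hψlim⟩ := hf2' φ φ₀ hφ₀' hlim ψ hψ
  have hSB : (S : Set L) ⊆ B := hSB0
  have hTB : (T : Set L) ⊆ B := by
    refine Set.Subset.trans ?_ hSB
    intro x hx
    rw [hS]
    exact Finset.mem_coe.2 (Finset.mem_union_left _ (Finset.mem_coe.1 hx))
  have hz : ∀ n, ∃ z : Fin 2 → B, (∀ i, (z i : L) ∈ T) ∧ ∀ i, ψ n (z i) = p n i := by
    intro n
    refine hT B hTB (ψ n) ?_ (p n) ?_
    · have : ψ n (algebraMap A B f0) = φ n f0 := by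
        rw [← hψ n]; rfl
      rw [this]; exact hφ0 n
    · intro i
      have hcomp : (ψ n).comp (algebraMap A B) = φ n := hψ n
      rw [hcomp]
      fin_cases i
      · change eval (p n) (sp (φ n) (VV c) 0) = 0
        rw [sp_VV0 (φ n) c (w n) (hw n)]; exact (hsing n).1
      · change eval (p n) (sp (φ n) (VV c) 1) = 0
        rw [sp_VV1 (φ n) c (w n) (hw n)]; exact (hsing n).2
  choose z hzT hzp using hz
  -- pigeonhole
  have hfreq : ∃ y ∈ Fintype.piFinset (fun _ : Fin 2 => T),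
      ∃ᶠ n in atTop, (fun i => ((z (σ n) i : B) : L)) = y := by
    by_contra hcon
    push Not at hcon
    have h4 : ∀ᶠ n in atTop, ∀ y ∈ Fintype.piFinset (fun _ : Fin 2 => T),
        (fun i => ((z (σ n) i : B) : L)) ≠ y := by
      rw [Finset.eventually_all]
      intro y hy
      exact hcon y hy
    obtain ⟨n, hn⟩ := h4.exists
    exact hn (fun i => ((z (σ n) i : B) : L))
      (Fintype.mem_piFinset.2 fun i => hzT (σ n) i) rfl
  obtain ⟨y, hyT, hy⟩ := hfreq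
  obtain ⟨τ, hτ, hyτ⟩ := Filter.extraction_of_frequently_atTop hy
  have hSzB : ((Sz y : Finset L) : Set L) ⊆ B := by
    refine Set.Subset.trans ?_ hSB
    intro x hx
    rw [hS]
    exact Finset.mem_coe.2 (Finset.mem_union_right _
      (Finset.mem_biUnion.2 ⟨y, hyT, Finset.mem_coe.1 hx⟩))
  have hval : ∀ (k : ℕ) (i : Fin 2) (b : B), (b : L) = y i → ψ (σ (τ k)) b = p (σ (τ k)) i := by
    intro k i b hb
    have h5 : ((z (σ (τ k)) i : B) : L) = y i := congrFun (hyτ k) i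
    have h6 : b = z (σ (τ k)) i := Subtype.ext (hb.trans h5.symm)
    rw [h6]
    exact hzp _ i
  rcases hSz2 y with hall | hnev
  · have := hall B hSzB (ψ (σ (τ 0))) (p (σ (τ 0))) (hval 0)
    have hcomp : (ψ (σ (τ 0))).comp (algebraMap A B) = φ (σ (τ 0)) := hψ _
    rw [hcomp, sp_VV0 _ c _ (hw _), sp_VV1 _ c _ (hw _)] at this
    exact hnc _ this
  · refine (hnev B hSzB ψ₀ p₀ ?_) ?_
    · intro i b hb
      have h7 : Tendsto (fun k => ψ (σ (τ k)) b) atTop (𝓝 (ψ₀ b)) :=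
        (hψlim b).comp hτ.tendsto_atTop
      have h8 : Tendsto (fun k => p (σ (τ k)) i) atTop (𝓝 (p₀ i)) :=
        ((tendsto_pi_nhds.1 hp i).comp hσ.tendsto_atTop).comp hτ.tendsto_atTop
      have h9 : (fun k => ψ (σ (τ k)) b) = fun k => p (σ (τ k)) i :=
        funext fun k => hval k i b hb
      rw [h9] at h7
      exact tendsto_nhds_unique h7 h8
    · have hcomp : ψ₀.comp (algebraMap A B) = φ₀ := hψ₀
      rw [hcomp, sp_VV0 _ c _ hw₀, sp_VV1 _ c _ hw₀]
      exact hcen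

end COR

theorem t_COR (h1 : S_DICH) (h2 : S_SPX) (h3 : S_SPC) (h4 : S_ROO) : S_COR := by
  intro d hd I hI w₀ hw₀ hfol
  set A := MvPolynomial (Fin 2 × Ex d) ℂ ⧸ I with hA
  haveI : IsDomain A := Ideal.Quotient.isDomain I
  set K := FractionRing A with hK
  set L := AlgebraicClosure K with hL
  haveI : CharZero L := charZero_of_injective_algebraMap (algebraMap ℂ L).injective
  have hinj : Function.Injective (algebraMap A L) := by
    rw [IsScalarTower.algebraMap_eq A K L]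
    exact (algebraMap K L).injective.comp (IsFractionRing.injective A K)
  haveI : Algebra.IsAlgebraic A L := (IsFractionRing.comap_isAlgebraic_iff (A := A) (K := K) (C := L)).2 inferInstance
  set c : Fin 2 × Ex d → A := fun x => Ideal.Quotient.mk I (X x) with hc
  have hcw : ∀ (w : Frm d) (h : ∀ F ∈ I, eval w F = 0) (x : Fin 2 × Ex d),
      ((COR.pt I w h : A →ₐ[ℂ] ℂ) : A →+* ℂ) (c x) = w x := by
    intro w h x
    have := COR.pt_mk I w h (X x)
    rw [eval_X] at this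
    exact this
  have hroo := h4 A L hinj d hd (COR.VV c) (COR.deg_VV c) (COR.pt I w₀ hw₀) (by
      have h5 := COR.sp_VV0 _ c w₀ (hcw w₀ hw₀)
      have h6 := COR.sp_VV1 _ c w₀ (hcw w₀ hw₀)
      unfold sp at h5 h6
      rw [h5, h6]; exact hfol.1) (by
      have h5 := COR.sp_VV0 _ c w₀ (hcw w₀ hw₀)
      have h6 := COR.sp_VV1 _ c w₀ (hcw w₀ hw₀)
      unfold sp at h5 h6
      rw [h5, h6]; exact hfol.2)
  obtain ⟨T, f0, hf0, hT⟩ := hroo
  obtain ⟨f, hf, hcore⟩ := COR.core A L hinj h1 h2 h3 c T f0 hf0 hT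
  obtain ⟨g, hg⟩ := Ideal.Quotient.mk_surjective f
  refine ⟨g, ?_, ?_⟩
  · intro hgI
    apply hf
    rw [← hg]
    exact Ideal.Quotient.eq_zero_iff_mem.2 hgI
  intro w hw hgw p hp
  by_contra hcon
  rw [Filter.not_eventually] at hcon
  have hg' : ∀ᶠ x : Frm d × (Fin 2 → ℂ) in 𝓝 (w, p), eval x.1 g ≠ 0 := by
    have hcont : Continuous fun x : Frm d × (Fin 2 → ℂ) => eval x.1 g :=
      (MvPolynomial.continuous_eval g).comp continuous_fst
    exact hcont.continuousAt.eventually_ne hgw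
  obtain ⟨u, hu, hbad⟩ := Filter.exists_seq_forall_of_frequently (hcon.and_eventually hg')
  have hbad1 : ∀ n, (∀ F ∈ I, eval (u n).1 F = 0) := by
    intro n F hF
    by_contra h
    exact (hbad n).1 fun h' => absurd (h' F hF) h
  have hbad2 : ∀ n, Sng (u n).1 (u n).2 := by
    intro n
    by_contra h
    exact (hbad n).1 fun _ h' => absurd h' h
  have hbad3 : ∀ n, ¬ HasCenterAt (fP (u n).1) (fQ (u n).1) (u n).2 := by
    intro n h
    exact (hbad n).1 fun _ _ => h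
  have hval : ∀ (v : Frm d) (h : ∀ F ∈ I, eval v F = 0) (F : MvPolynomial (Fin 2 × Ex d) ℂ),
      ((COR.pt I v h : A →ₐ[ℂ] ℂ) : A →+* ℂ) (Ideal.Quotient.mk I F) = eval v F :=
    fun v h F => COR.pt_mk I v h F
  refine hcore (fun n => ((COR.pt I (u n).1 (hbad1 n) : A →ₐ[ℂ] ℂ) : A →+* ℂ))
    ((COR.pt I w hw : A →ₐ[ℂ] ℂ) : A →+* ℂ) ?_ ?_ ?_ (fun n => (u n).1) w
    (fun n => hcw _ _) (hcw _ _) (fun n => (u n).2) p ?_ hbad2 hbad3 hp
  · rw [← hg, hval]; exact hgw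
  · intro n
    rw [← hg, hval]; exact (hbad n).2
  · intro a
    obtain ⟨F, rfl⟩ := Ideal.Quotient.mk_surjective a
    simp only [hval]
    exact ((MvPolynomial.continuous_eval F).tendsto w).comp
      ((continuous_fst.tendsto (w, p)).comp hu)
  · exact (continuous_snd.tendsto (w, p)).comp hu

end Pool.Agent.N46.CS
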