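import Mathlib
import Pool.Agent.N46.CS.Stm

set_option autoImplicit false

/-!
# Convergent power series in two variables are analytic
-/

namespace Pool.Agent.N46.CS

open Filter Topology

namespace CVA

/-- the coefficient of `X ^ i Y ^ j` -/
noncomputable def cf (a : FS) (i j : ℕ) : ℂ :=
  MvPowerSeries.coeff (Finsupp.single 0 i + Finsupp.single 1 j) a

theorem cf_bound (a : FS) (h : Cv a) :
    ∃ K : ℝ, 1 ≤ K ∧ ∀ i j, ‖cf a i j‖ ≤ K ^ (i + j + 1) := by
  obtain ⟨K, hK⟩ := h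
  refine ⟨max |K| 1, le_max_right _ _, fun i j => ?_⟩
  have h1 := hK (Finsupp.single 0 i + Finsupp.single 1 j)
  have e0 : (Finsupp.single 0 i + Finsupp.single 1 j : Fin 2 →₀ ℕ) 0 = i := by simp
  have e1 : (Finsupp.single 0 i + Finsupp.single 1 j : Fin 2 →₀ ℕ) 1 = j := by simp
  rw [e0, e1] at h1
  refine h1.trans ((le_abs_self _).trans ?_)
  rw [abs_pow]
  exact pow_le_pow_left₀ (abs_nonneg _) (le_max_left _ _) _

/-- a monomial as a multilinear map -/
noncomputable def M (n i : ℕ) : ContinuousMultilinearMap ℂ (fun _ : Fin n => Fin 2 → ℂ) ℂ :=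
  (ContinuousMultilinearMap.mkPiAlgebra ℂ (Fin n) ℂ).compContinuousLinearMap
    (fun k => ContinuousLinearMap.proj (if (k : ℕ) < i then 0 else 1))

theorem M_apply (n i : ℕ) (v : Fin n → Fin 2 → ℂ) :
    M n i v = ∏ k : Fin n, v k (if (k : ℕ) < i then 0 else 1) := by
  simp [M]

theorem M_norm (n i : ℕ) : ‖M n i‖ ≤ 1 := by
  refine ContinuousMultilinearMap.opNorm_le_bound zero_le_one fun v => ?_
  rw [M_apply, norm_prod, one_mul]
  exact Finset.prod_le_prod (fun _ _ => norm_nonneg _) fun k _ => norm_le_pi_norm (v k) _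

theorem M_diag (n i : ℕ) (h : i ≤ n) (w : Fin 2 → ℂ) :
    M n i (fun _ => w) = w 0 ^ i * w 1 ^ (n - i) := by
  rw [M_apply, Fin.prod_univ_eq_prod_range (fun k => w (if k < i then 0 else 1)) n]
  obtain ⟨m, rfl⟩ := Nat.exists_eq_add_of_le h
  rw [Finset.prod_range_add, Nat.add_sub_cancel_left]
  congr 1
  · rw [Finset.prod_congr rfl (g := fun _ => w 0), Finset.prod_const, Finset.card_range]
    intro k hk
    rw [if_pos (Finset.mem_range.1 hk)]
  · rw [Finset.prod_congr rfl (g := fun _ => w 1), Finset.prod_const, Finset.card_range]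
    intro k _
    rw [if_neg (by omega)]

/-- the formal multilinear series -/
noncomputable def ps (a : FS) : FormalMultilinearSeries ℂ (Fin 2 → ℂ) ℂ := fun n =>
  ∑ i ∈ Finset.range (n + 1), cf a i (n - i) • M n i

theorem ps_norm (a : FS) (K : ℝ) (hb : ∀ i j, ‖cf a i j‖ ≤ K ^ (i + j + 1)) (n : ℕ) :
    ‖ps a n‖ ≤ (n + 1) * K ^ (n + 1) := by
  refine (norm_sum_le _ _).trans ?_
  have : ∀ i ∈ Finset.range (n + 1), ‖cf a i (n - i) • M n i‖ ≤ K ^ (n + 1) := by
    intro i hi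
    rw [norm_smul]
    have hi' := Finset.mem_range.1 hi
    have h1 := hb i (n - i)
    rw [show i + (n - i) + 1 = n + 1 by omega] at h1
    calc ‖cf a i (n - i)‖ * ‖M n i‖ ≤ ‖cf a i (n - i)‖ * 1 :=
          mul_le_mul_of_nonneg_left (M_norm _ _) (norm_nonneg _)
      _ ≤ K ^ (n + 1) := by rw [mul_one]; exact h1
  refine (Finset.sum_le_sum this).trans ?_
  rw [Finset.sum_const, Finset.card_range, nsmul_eq_mul]
  push_cast
  exact le_rfl

theorem ps_diag (a : FS) (n : ℕ) (w : Fin 2 → ℂ) :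
    ps a n (fun _ => w) = ∑ kl ∈ Finset.HasAntidiagonal.antidiagonal n, cf a kl.1 kl.2 * w 0 ^ kl.1 * w 1 ^ kl.2 := by
  rw [Finset.Nat.sum_antidiagonal_eq_sum_range_succ
    (fun i j => cf a i j * w 0 ^ i * w 1 ^ j), ps]
  rw [sum_apply]
  refine Finset.sum_congr rfl fun i hi => ?_
  rw [smul_apply, M_diag n i (Nat.lt_succ_iff.1 (Finset.mem_range.1 hi)),
    smul_eq_mul, mul_assoc]

theorem sum_bound (K : ℝ) (hK : 1 ≤ K) (s : ℝ) (hs0 : 0 ≤ s) (hs : K * s < 1) :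
    Summable fun n : ℕ × ℕ => K * (K * s) ^ n.1 * (K * s) ^ n.2 := by
  have h0 : 0 ≤ K * s := mul_nonneg (by linarith) hs0
  have h1 := summable_geometric_of_lt_one h0 hs
  have h2 := (Summable.mul_of_nonneg h1 h1 (fun n => pow_nonneg h0 n)
    (fun n => pow_nonneg h0 n)).mul_left K
  refine h2.congr fun n => ?_
  rw [mul_assoc]

theorem term_bound (a : FS) (K : ℝ) (hK : 1 ≤ K) (hb : ∀ i j, ‖cf a i j‖ ≤ K ^ (i + j + 1))
    (s : ℝ) (x y : ℂ) (hx : ‖x‖ ≤ s) (hy : ‖y‖ ≤ s) (n : ℕ × ℕ) :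
    ‖cf a n.1 n.2 * x ^ n.1 * y ^ n.2‖ ≤ K * (K * s) ^ n.1 * (K * s) ^ n.2 := by
  rw [norm_mul, norm_mul, norm_pow, norm_pow]
  have hK0 : 0 ≤ K := by linarith
  have hs0 : 0 ≤ s := (norm_nonneg x).trans hx
  calc ‖cf a n.1 n.2‖ * ‖x‖ ^ n.1 * ‖y‖ ^ n.2
      ≤ K ^ (n.1 + n.2 + 1) * s ^ n.1 * s ^ n.2 := by
        have h1 : ‖x‖ ^ n.1 ≤ s ^ n.1 := pow_le_pow_left₀ (norm_nonneg _) hx _
        have h2 : ‖y‖ ^ n.2 ≤ s ^ n.2 := pow_le_pow_left₀ (norm_nonneg _) hy _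
        exact mul_le_mul (mul_le_mul (hb _ _) h1 (by positivity) (by positivity)) h2
          (by positivity) (by positivity)
    _ = K * (K * s) ^ n.1 * (K * s) ^ n.2 := by
        rw [mul_pow, mul_pow, pow_succ, pow_add]; ring

theorem hasSum_anti (f : ℕ × ℕ → ℂ) (hf : Summable f) :
    HasSum (fun n => ∑ kl ∈ Finset.HasAntidiagonal.antidiagonal n, f kl) (∑' x, f x) := by
  have h1 := (Finset.HasAntidiagonal.sigmaAntidiagonalEquivProd (A := ℕ)).hasSum_iff.2 hf.hasSum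
  refine h1.sigma fun n => ?_
  exact Finset.hasSum (Finset.HasAntidiagonal.antidiagonal n) f

theorem ev_eq (a : FS) (w : Fin 2 → ℂ) :
    ev a w = ∑' n : ℕ × ℕ, cf a n.1 n.2 * w 0 ^ n.1 * w 1 ^ n.2 := rfl

theorem series (a : FS) (K : ℝ) (hK : 1 ≤ K) (hb : ∀ i j, ‖cf a i j‖ ≤ K ^ (i + j + 1)) :
    HasFPowerSeriesAt (ev a) (ps a) 0 := by
  have hK0 : 0 < K := by linarith
  let r : NNReal := ⟨1 / (4 * K), by positivity⟩
  have hr : (r : ℝ) = 1 / (4 * K) := rfl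
  refine ⟨(r : ENNReal), ?_, ?_, ?_⟩
  · refine FormalMultilinearSeries.le_radius_of_bound _ K fun n => ?_
    have h1 := ps_norm a K hb n
    have h2 : (0 : ℝ) < (r : ℝ) ^ n := by rw [hr]; positivity
    have h3 : (n : ℝ) + 1 ≤ 4 ^ n := by
      have : n + 1 ≤ 4 ^ n := by
        have h4 : n < 2 ^ n := Nat.lt_two_pow_self
        have h5 : 2 ^ n ≤ 4 ^ n := Nat.pow_le_pow_left (by norm_num) n
        omega
      exact_mod_cast this
    calc ‖ps a n‖ * (r : ℝ) ^ n ≤ ((n + 1) * K ^ (n + 1)) * (r : ℝ) ^ n :=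
          mul_le_mul_of_nonneg_right h1 h2.le
      _ ≤ (4 ^ n * K ^ (n + 1)) * (r : ℝ) ^ n := by
          gcongr
      _ = K := by
          rw [hr, one_div, inv_pow, mul_pow, pow_succ]
          field_simp
  · have : (0 : ℝ) < r := by rw [hr]; positivity
    exact_mod_cast this
  · intro y hy
    rw [zero_add]
    have hy' : ‖y‖ < 1 / (4 * K) := by
      rw [← hr]
      rw [Metric.mem_eball, edist_zero_right] at hy
      rw [← coe_nnnorm]
      have : (‖y‖₊ : ENNReal) < (r : ENNReal) := hy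
      exact_mod_cast this
    have h4 : K * ‖y‖ < 1 := by
      calc K * ‖y‖ < K * (1 / (4 * K)) := mul_lt_mul_of_pos_left hy' hK0
        _ = 1 / 4 := by field_simp
        _ < 1 := by norm_num
    have h5 : Summable fun n : ℕ × ℕ => cf a n.1 n.2 * y 0 ^ n.1 * y 1 ^ n.2 :=
      Summable.of_norm_bounded (sum_bound K hK ‖y‖ (norm_nonneg _) h4)
        (term_bound a K hK hb ‖y‖ (y 0) (y 1) (norm_le_pi_norm y 0) (norm_le_pi_norm y 1))
    have h6 := hasSum_anti _ h5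
    rw [ev_eq]
    have h7 : (fun n : ℕ => ps a n fun _ => y) = fun n =>
        ∑ kl ∈ Finset.HasAntidiagonal.antidiagonal n, cf a kl.1 kl.2 * y 0 ^ kl.1 * y 1 ^ kl.2 := by
      funext n
      exact ps_diag a n y
    rw [h7]
    exact h6

theorem summ (a : FS) (K : ℝ) (hK : 1 ≤ K) (hb : ∀ i j, ‖cf a i j‖ ≤ K ^ (i + j + 1))
    (w : Fin 2 → ℂ) (hw : K * ‖w‖ < 1) :
    Summable fun n : ℕ × ℕ => cf a n.1 n.2 * w 0 ^ n.1 * w 1 ^ n.2 :=
  Summable.of_norm_bounded (sum_bound K hK ‖w‖ (norm_nonneg _) hw)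
    (term_bound a K hK hb ‖w‖ (w 0) (w 1) (norm_le_pi_norm w 0) (norm_le_pi_norm w 1))

theorem fderiv_zero (a : FS) (K : ℝ) (hK : 1 ≤ K) (hb : ∀ i j, ‖cf a i j‖ ≤ K ^ (i + j + 1))
    (v : Fin 2 → ℂ) : fderiv ℂ (ev a) 0 v = cf a 0 1 * v 1 + cf a 1 0 * v 0 := by
  have h1 := (series a K hK hb).hasFDerivAt.fderiv
  rw [h1, continuousMultilinearCurryFin1_apply]
  have h2 : (Fin.snoc (α := fun _ => Fin 2 → ℂ) (0 : Fin 0 → Fin 2 → ℂ) v : Fin 1 → Fin 2 → ℂ) =
      fun _ => v := by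
    funext k
    have : k = Fin.last 0 := Fin.ext (by omega)
    rw [this, Fin.snoc_last]
  have h3 : ps a 1 (fun _ => v) = cf a 0 1 * v 1 + cf a 1 0 * v 0 := by
    rw [ps_diag]
    simp [Finset.Nat.antidiagonal_succ]
  rw [← h3]
  congr 1

theorem ev_zero (a : FS) : ev a 0 = cf a 0 0 := by
  rw [ev_eq, tsum_eq_single (0, 0)]
  · simp
  · rintro ⟨i, j⟩ h
    by_cases hi : i = 0
    · subst hi
      have hj : j ≠ 0 := fun hj => h (by rw [hj])
      simp [hj]
    · simp [hi]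

theorem Dop_coeff (a : FS) (i j : ℕ) : cf (Dop a) i j = ((i : ℂ) - j) * cf a i j := by
  have e0 : (Finsupp.single 0 i + Finsupp.single 1 j : Fin 2 →₀ ℕ) 0 = i := by simp
  have e1 : (Finsupp.single 0 i + Finsupp.single 1 j : Fin 2 →₀ ℕ) 1 = j := by simp
  have h : cf (Dop a) i j = (((Finsupp.single 0 i + Finsupp.single 1 j : Fin 2 →₀ ℕ) 0 : ℂ) -
    ((Finsupp.single 0 i + Finsupp.single 1 j : Fin 2 →₀ ℕ) 1 : ℂ)) * cf a i j := rfl
  rw [h, e0, e1]

/-- derivative along the hyperbolic direction -/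
theorem drel (a : FS) (K : ℝ) (hK : 1 ≤ K) (hb : ∀ i j, ‖cf a i j‖ ≤ K ^ (i + j + 1))
    (w : Fin 2 → ℂ) (hw : K * (2 * ‖w‖) < 1) (hd : DifferentiableAt ℂ (ev a) w) :
    w 0 * fderiv ℂ (ev a) w (Pi.single 0 1) - w 1 * fderiv ℂ (ev a) w (Pi.single 1 1) =
      ev (Dop a) w := by
  -- the curve
  let γ : ℂ → Fin 2 → ℂ := fun t => ![w 0 * (1 + t), w 1 * (1 - t)]
  have hγ0 : γ 0 = w := by
    funext i
    fin_cases i <;> simp [γ]
  have hγ : HasDerivAt γ ![w 0, - w 1] 0 := by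
    rw [hasDerivAt_pi]
    intro i
    fin_cases i
    · change HasDerivAt (fun t : ℂ => w 0 * (1 + t)) (w 0) 0
      have := ((hasDerivAt_id (0 : ℂ)).const_add 1).const_mul (w 0)
      simpa using this
    · change HasDerivAt (fun t : ℂ => w 1 * (1 - t)) (- w 1) 0
      have := ((hasDerivAt_id (0 : ℂ)).const_sub 1).const_mul (w 1)
      simpa using this
  have hd' : HasFDerivAt (ev a) (fderiv ℂ (ev a) w) (γ 0) := by rw [hγ0]; exact hd.hasFDerivAt
  have h1 : HasDerivAt (ev a ∘ γ) (fderiv ℂ (ev a) w ![w 0, - w 1]) 0 :=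
    hd'.comp_hasDerivAt 0 hγ
  have hlin : fderiv ℂ (ev a) w ![w 0, - w 1] =
      w 0 * fderiv ℂ (ev a) w (Pi.single 0 1) - w 1 * fderiv ℂ (ev a) w (Pi.single 1 1) := by
    have : (![w 0, - w 1] : Fin 2 → ℂ) = w 0 • Pi.single 0 1 + (- w 1) • Pi.single 1 1 := by
      funext i
      fin_cases i <;> simp
    rw [this, map_add, map_smul, map_smul, smul_eq_mul, smul_eq_mul]
    ring
  -- the terms
  let F : ℕ × ℕ → ℂ → ℂ := fun n t =>
    cf a n.1 n.2 * (w 0 * (1 + t)) ^ n.1 * (w 1 * (1 - t)) ^ n.2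
  have hF : (ev a ∘ γ) = fun t => ∑' n, F n t := by
    funext t
    rw [Function.comp_apply, ev_eq]
    rfl
  have hder : ∀ n, deriv (F n) 0 = cf (Dop a) n.1 n.2 * w 0 ^ n.1 * w 1 ^ n.2 := by
    intro n
    have hx : HasDerivAt (fun t : ℂ => w 0 * (1 + t)) (w 0) 0 := by
      simpa using ((hasDerivAt_id (0 : ℂ)).const_add 1).const_mul (w 0)
    have hy : HasDerivAt (fun t : ℂ => w 1 * (1 - t)) (- w 1) 0 := by
      simpa using ((hasDerivAt_id (0 : ℂ)).const_sub 1).const_mul (w 1)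
    have h2 := ((hx.pow n.1).const_mul (cf a n.1 n.2)).mul (hy.pow n.2)
    have h3 := h2.deriv
    have h4 : deriv (F n) 0 = _ := h3
    rw [h4, Dop_coeff]
    simp only [add_zero, sub_zero, mul_one]
    rcases n with ⟨i, j⟩
    rcases i with _ | i <;> rcases j with _ | j
    · simp
    · simp [pow_succ]; ring
    · simp [pow_succ]; ring
    · simp [pow_succ]; ring
  have hsum := Complex.hasSum_deriv_of_summable_norm (F := F) (U := Metric.ball (0 : ℂ) 1) (z := 0)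
    (sum_bound K hK (2 * ‖w‖) (by positivity) hw) ?_ Metric.isOpen_ball ?_
    (Metric.mem_ball_self one_pos)
  · rw [← hF, h1.deriv, hlin] at hsum
    rw [← hsum.tsum_eq, ev_eq]
    exact tsum_congr fun n => hder n
  · intro n
    have : Differentiable ℂ (F n) := by
      intro t
      simp only [F]
      fun_prop
    exact this.differentiableOn
  · intro n t ht
    have ht' : ‖t‖ < 1 := by simpa using ht
    refine term_bound a K hK hb (2 * ‖w‖) _ _ ?_ ?_ n
    · rw [norm_mul]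
      calc ‖w 0‖ * ‖1 + t‖ ≤ ‖w‖ * 2 := by
            refine mul_le_mul (norm_le_pi_norm w 0) ?_ (norm_nonneg _) (norm_nonneg _)
            refine (norm_add_le _ _).trans ?_
            rw [norm_one]; linarith
        _ = 2 * ‖w‖ := by ring
    · rw [norm_mul]
      calc ‖w 1‖ * ‖1 - t‖ ≤ ‖w‖ * 2 := by
            refine mul_le_mul (norm_le_pi_norm w 1) ?_ (norm_nonneg _) (norm_nonneg _)
            refine (norm_sub_le _ _).trans ?_
            rw [norm_one]; linarith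
        _ = 2 * ‖w‖ := by ring

end CVA

open CVA in
/-- CVA: convergent series are analytic -/
theorem t_CVA : S_CVA := by
  intro a ha
  obtain ⟨K, hK, hb⟩ := cf_bound a ha
  have hK0 : 0 < K := by linarith
  have hs := series a K hK hb
  have han : AnalyticAt ℂ (ev a) 0 := hs.analyticAt
  refine ⟨han, ?_, ?_, ?_⟩
  · rw [ev_zero a, cf]
    congr 1
    simp
  · intro i
    rw [fderiv_zero a K hK hb]
    fin_cases i
    · simp [cf]
    · simp [cf]
  · have h1 : ∀ᶠ w in 𝓝 (0 : Fin 2 → ℂ), AnalyticAt ℂ (ev a) w := han.eventually_analyticAt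
    have h2 : ∀ᶠ w in 𝓝 (0 : Fin 2 → ℂ), K * (2 * ‖w‖) < 1 := by
      have hc : Continuous fun w : Fin 2 → ℂ => K * (2 * ‖w‖) := by fun_prop
      have h3 : K * (2 * ‖(0 : Fin 2 → ℂ)‖) < 1 := by simp
      exact hc.continuousAt.eventually_lt continuousAt_const h3
    filter_upwards [h1, h2] with w hw1 hw2
    exact drel a K hK hb w hw2 hw1.differentiableAt

end Pool.Agent.N46.CS
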