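import Pool.Agent.N46.CS.Stm

/-! # Project CS, leaf CVM (helper456): sums and products of convergent power series in two variables -/

set_option autoImplicit false

namespace Pool.Agent.N46.CS

open Filter Topology

namespace CVM

/-- pairs of exponents as finitely supported functions -/
noncomputable def eqv : ℕ × ℕ ≃ (Fin 2 →₀ ℕ) where
  toFun n := Finsupp.single 0 n.1 + Finsupp.single 1 n.2
  invFun e := (e 0, e 1)
  left_inv n := by
    simp
  right_inv e := by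
    ext i
    fin_cases i <;> simp

/-- a term of the power series -/
noncomputable def term (a : FS) (w : Fin 2 → ℂ) (n : Fin 2 →₀ ℕ) : ℂ :=
  MvPowerSeries.coeff n a * (w 0 ^ n 0 * w 1 ^ n 1)

lemma ev_eq (a : FS) (w : Fin 2 → ℂ) : ev a w = ∑' n : Fin 2 →₀ ℕ, term a w n := by
  unfold ev
  rw [← eqv.tsum_eq]
  apply tsum_congr
  intro n
  unfold term eqv
  simp [mul_assoc]

lemma bd_nonneg {a : FS} {K : ℝ} (h : ∀ n : Fin 2 →₀ ℕ, ‖MvPowerSeries.coeff n a‖ ≤ K ^ (n 0 + n 1 + 1)) :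
    0 ≤ K := by
  have := h 0
  simp only [Finsupp.coe_zero, Pi.zero_apply, add_zero, zero_add, pow_one] at this
  exact (norm_nonneg _).trans this

/-- the bound with a larger constant -/
lemma bd_mono {a : FS} {K M : ℝ} (h : ∀ n : Fin 2 →₀ ℕ, ‖MvPowerSeries.coeff n a‖ ≤ K ^ (n 0 + n 1 + 1))
    (hM : K ≤ M) (n : Fin 2 →₀ ℕ) : ‖MvPowerSeries.coeff n a‖ ≤ M ^ (n 0 + n 1 + 1) :=
  (h n).trans (pow_le_pow_left₀ (bd_nonneg h) hM _)

lemma summ {a : FS} {K r : ℝ} (hK : 0 ≤ K) (h : ∀ n : Fin 2 →₀ ℕ, ‖MvPowerSeries.coeff n a‖ ≤ K ^ (n 0 + n 1 + 1))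
    (hr : 0 ≤ r) (hKr : K * r < 1) {w : Fin 2 → ℂ} (hw : ∀ i, ‖w i‖ ≤ r) :
    Summable fun n : Fin 2 →₀ ℕ => ‖term a w n‖ := by
  have hKr0 : 0 ≤ K * r := mul_nonneg hK hr
  have h1 : Summable fun n : ℕ × ℕ => (K * r) ^ n.1 * (K * r) ^ n.2 :=
    (summable_geometric_of_lt_one hKr0 hKr).mul_of_nonneg (summable_geometric_of_lt_one hKr0 hKr)
      (fun n => pow_nonneg hKr0 n) (fun n => pow_nonneg hKr0 n)
  have h2 : Summable fun n : Fin 2 →₀ ℕ => K * ((K * r) ^ n 0 * (K * r) ^ n 1) := by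
    rw [← eqv.summable_iff]
    have : ((fun n : Fin 2 →₀ ℕ => K * ((K * r) ^ n 0 * (K * r) ^ n 1)) ∘ eqv) =
        fun n : ℕ × ℕ => K * ((K * r) ^ n.1 * (K * r) ^ n.2) := by
      funext n
      simp [eqv]
    rw [this]
    exact h1.mul_left K
  refine Summable.of_nonneg_of_le (fun n => norm_nonneg _) (fun n => ?_) h2
  unfold term
  rw [norm_mul, norm_mul, norm_pow, norm_pow]
  calc ‖MvPowerSeries.coeff n a‖ * (‖w 0‖ ^ n 0 * ‖w 1‖ ^ n 1)
      ≤ K ^ (n 0 + n 1 + 1) * (r ^ n 0 * r ^ n 1) := by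
        apply mul_le_mul (h n) _ (by positivity) (by positivity)
        exact mul_le_mul (pow_le_pow_left₀ (norm_nonneg _) (hw 0) _) (pow_le_pow_left₀ (norm_nonneg _) (hw 1) _)
          (by positivity) (by positivity)
    _ = K * ((K * r) ^ n 0 * (K * r) ^ n 1) := by
        rw [mul_pow, mul_pow]
        ring

lemma card_anti (n : Fin 2 →₀ ℕ) : (Finset.HasAntidiagonal.antidiagonal n).card ≤ 2 ^ (n 0 + n 1) := by
  classical
  have h1 : (Finset.HasAntidiagonal.antidiagonal n).card ≤ (Finset.range (n 0 + 1) ×ˢ Finset.range (n 1 + 1)).card := by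
    apply Finset.card_le_card_of_injOn (fun p => (p.1 0, p.1 1))
    · intro p hp
      rw [Finset.mem_coe, Finset.HasAntidiagonal.mem_antidiagonal] at hp
      rw [Finset.mem_coe, Finset.mem_product, Finset.mem_range, Finset.mem_range]
      have e0 : p.1 0 + p.2 0 = n 0 := by rw [← hp]; rfl
      have e1 : p.1 1 + p.2 1 = n 1 := by rw [← hp]; rfl
      constructor
      · show p.1 0 < n 0 + 1
        omega
      · show p.1 1 < n 1 + 1
        omega
    · intro p hp q hq hpq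
      rw [Finset.mem_coe, Finset.HasAntidiagonal.mem_antidiagonal] at hp hq
      simp only [Prod.mk.injEq] at hpq
      have e1 : p.1 = q.1 := by
        ext i
        fin_cases i
        · exact hpq.1
        · exact hpq.2
      have e2 : p.2 = q.2 := by
        have : p.1 + p.2 = q.1 + q.2 := hp.trans hq.symm
        rw [e1] at this
        exact add_left_cancel this
      exact Prod.ext e1 e2
  refine h1.trans ?_
  rw [Finset.card_product, Finset.card_range, Finset.card_range, pow_add]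
  exact Nat.mul_le_mul (Nat.lt_two_pow_self) (Nat.lt_two_pow_self)

lemma ev_small (M : ℝ) (hM : 1 ≤ M) : ∀ᶠ w in 𝓝 (0 : Fin 2 → ℂ), ∀ i, ‖w i‖ ≤ 1 / (2 * M) := by
  have h0 : 0 < 1 / (2 * M) := by positivity
  filter_upwards [Metric.closedBall_mem_nhds (0 : Fin 2 → ℂ) h0] with w hw i
  rw [mem_closedBall_zero_iff] at hw
  exact (norm_le_pi_norm w i).trans hw

lemma cv_add {a b : FS} {M : ℝ} (hM : 1 ≤ M)
    (ha : ∀ n : Fin 2 →₀ ℕ, ‖MvPowerSeries.coeff n a‖ ≤ M ^ (n 0 + n 1 + 1))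
    (hb : ∀ n : Fin 2 →₀ ℕ, ‖MvPowerSeries.coeff n b‖ ≤ M ^ (n 0 + n 1 + 1)) : Cv (a + b) := by
  refine ⟨2 * M, fun n => ?_⟩
  rw [map_add]
  calc ‖MvPowerSeries.coeff n a + MvPowerSeries.coeff n b‖ ≤ M ^ (n 0 + n 1 + 1) + M ^ (n 0 + n 1 + 1) :=
        (norm_add_le _ _).trans (add_le_add (ha n) (hb n))
    _ = 2 * M ^ (n 0 + n 1 + 1) := by ring
    _ ≤ 2 ^ (n 0 + n 1 + 1) * M ^ (n 0 + n 1 + 1) := by
        apply mul_le_mul_of_nonneg_right _ (by positivity)
        calc (2 : ℝ) = 2 ^ 1 := (pow_one _).symm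
          _ ≤ 2 ^ (n 0 + n 1 + 1) := pow_le_pow_right₀ (by norm_num) (by omega)
    _ = (2 * M) ^ (n 0 + n 1 + 1) := (mul_pow _ _ _).symm

lemma cv_mul {a b : FS} {M : ℝ} (hM : 1 ≤ M)
    (ha : ∀ n : Fin 2 →₀ ℕ, ‖MvPowerSeries.coeff n a‖ ≤ M ^ (n 0 + n 1 + 1))
    (hb : ∀ n : Fin 2 →₀ ℕ, ‖MvPowerSeries.coeff n b‖ ≤ M ^ (n 0 + n 1 + 1)) : Cv (a * b) := by
  classical
  refine ⟨2 * M ^ 2, fun n => ?_⟩
  rw [MvPowerSeries.coeff_mul]
  calc ‖∑ p ∈ Finset.HasAntidiagonal.antidiagonal n, MvPowerSeries.coeff p.1 a * MvPowerSeries.coeff p.2 b‖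
      ≤ ∑ p ∈ Finset.HasAntidiagonal.antidiagonal n, ‖MvPowerSeries.coeff p.1 a * MvPowerSeries.coeff p.2 b‖ := norm_sum_le _ _
    _ ≤ ∑ p ∈ Finset.HasAntidiagonal.antidiagonal n, M ^ (n 0 + n 1 + 2) := by
        apply Finset.sum_le_sum
        intro p hp
        rw [Finset.HasAntidiagonal.mem_antidiagonal] at hp
        have e0 : p.1 0 + p.2 0 = n 0 := by rw [← hp]; rfl
        have e1 : p.1 1 + p.2 1 = n 1 := by rw [← hp]; rfl
        rw [norm_mul]
        calc ‖MvPowerSeries.coeff p.1 a‖ * ‖MvPowerSeries.coeff p.2 b‖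
            ≤ M ^ (p.1 0 + p.1 1 + 1) * M ^ (p.2 0 + p.2 1 + 1) :=
              mul_le_mul (ha _) (hb _) (norm_nonneg _) (by positivity)
          _ = M ^ (n 0 + n 1 + 2) := by
              rw [← pow_add]
              congr 1
              omega
    _ = ((Finset.HasAntidiagonal.antidiagonal n).card : ℝ) * M ^ (n 0 + n 1 + 2) := by
        rw [Finset.sum_const, nsmul_eq_mul]
    _ ≤ (2 : ℝ) ^ (n 0 + n 1) * M ^ (n 0 + n 1 + 2) := by
        apply mul_le_mul_of_nonneg_right _ (by positivity)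
        exact_mod_cast card_anti n
    _ ≤ (2 : ℝ) ^ (n 0 + n 1 + 1) * (M ^ 2) ^ (n 0 + n 1 + 1) := by
        apply mul_le_mul
        · exact pow_le_pow_right₀ (by norm_num) (by omega)
        · rw [← pow_mul]
          exact pow_le_pow_right₀ hM (by omega)
        · positivity
        · positivity
    _ = (2 * M ^ 2) ^ (n 0 + n 1 + 1) := (mul_pow _ _ _).symm

lemma term_add (a b : FS) (w : Fin 2 → ℂ) (n : Fin 2 →₀ ℕ) : term (a + b) w n = term a w n + term b w n := by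
  unfold term
  rw [map_add, add_mul]

lemma term_mul (a b : FS) (w : Fin 2 → ℂ) (n : Fin 2 →₀ ℕ) :
    term (a * b) w n = ∑ p ∈ Finset.HasAntidiagonal.antidiagonal n, term a w p.1 * term b w p.2 := by
  classical
  unfold term
  rw [MvPowerSeries.coeff_mul, Finset.sum_mul]
  apply Finset.sum_congr rfl
  intro p hp
  rw [Finset.HasAntidiagonal.mem_antidiagonal] at hp
  have e0 : n 0 = p.1 0 + p.2 0 := by rw [← hp]; rfl
  have e1 : n 1 = p.1 1 + p.2 1 := by rw [← hp]; rfl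
  rw [e0, e1, pow_add, pow_add]
  ring

end CVM

open CVM in
theorem t_CVM : S_CVM := by
  classical
  refine ⟨fun a b ⟨K, hK⟩ ⟨K', hK'⟩ => ?_, fun c => ⟨⟨‖c‖ + 1, fun n => ?_⟩, fun w => ?_⟩⟩
  · obtain ⟨M, hM1, hM2, hM3⟩ : ∃ M : ℝ, 1 ≤ M ∧ K ≤ M ∧ K' ≤ M :=
      ⟨max (max K K') 1, le_max_right _ _, (le_max_left _ _).trans (le_max_left _ _),
        (le_max_right _ _).trans (le_max_left _ _)⟩
    have ha := bd_mono hK hM2
    have hb := bd_mono hK' hM3
    have hM0 : (0 : ℝ) ≤ M := by linarith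
    have hlt : M * (1 / (2 * M)) < 1 := by
      have : M * (1 / (2 * M)) = 1 / 2 := by
        field_simp
      rw [this]
      norm_num
    have hr0 : 0 ≤ 1 / (2 * M) := by positivity
    refine ⟨cv_add hM1 ha hb, cv_mul hM1 ha hb, ?_, ?_⟩
    · filter_upwards [ev_small M hM1] with w hw
      have s1 := (summ hM0 ha hr0 hlt hw).of_norm
      have s2 := (summ hM0 hb hr0 hlt hw).of_norm
      rw [ev_eq, ev_eq, ev_eq, ← s1.tsum_add s2]
      exact tsum_congr fun n => term_add a b w n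
    · filter_upwards [ev_small M hM1] with w hw
      have n1 := summ hM0 ha hr0 hlt hw
      have n2 := summ hM0 hb hr0 hlt hw
      have s1 := n1.of_norm
      have s2 := n2.of_norm
      have s3 : Summable fun x : (Fin 2 →₀ ℕ) × (Fin 2 →₀ ℕ) => term a w x.1 * term b w x.2 :=
        summable_mul_of_summable_norm n1 n2
      rw [ev_eq, ev_eq, ev_eq, s1.tsum_mul_tsum_eq_tsum_sum_antidiagonal s2 s3]
      exact tsum_congr fun n => term_mul a b w n
  · rw [MvPowerSeries.coeff_C]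
    split_ifs with h
    · rw [h]
      simp
    · rw [norm_zero]
      positivity
  · rw [ev_eq, tsum_eq_single (0 : Fin 2 →₀ ℕ)]
    · unfold term
      rw [MvPowerSeries.coeff_C]
      simp
    · intro n hn
      unfold term
      rw [MvPowerSeries.coeff_C, if_neg hn, zero_mul]

end Pool.Agent.N46.CS
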