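import Pool.Agent.N46.CS.Stm

set_option autoImplicit false

/-!
# Stability of centers (MP_d6d6e6_ag): diagonalization of the linear part
-/

namespace Pool.Agent.N46.CS

open MvPolynomial

namespace DIA

variable {L : Type} [Field L]

theorem shf_C (z : Fin 2 → L) (M : Fin 2 → Fin 2 → L) (a : L) : shf z M (C a) = C a := by
  simp [shf]

theorem shf_add (z : Fin 2 → L) (M : Fin 2 → Fin 2 → L) (P Q : MvPolynomial (Fin 2) L) :
    shf z M (P + Q) = shf z M P + shf z M Q := by
  simp [shf]

theorem shf_mul_X (z : Fin 2 → L) (M : Fin 2 → Fin 2 → L) (P : MvPolynomial (Fin 2) L)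
    (i : Fin 2) : shf z M (P * X i) =
      C (z i) * shf z M P + C (M i 0) * (shf z M P * X 0) + C (M i 1) * (shf z M P * X 1) := by
  simp only [shf, map_mul, bind₁_X_right]
  ring

theorem coeff0 (z : Fin 2 → L) (M : Fin 2 → Fin 2 → L) (P : MvPolynomial (Fin 2) L) :
    coeff 0 (shf z M P) = eval z P := by
  induction P using MvPolynomial.induction_on with
  | C a => rw [shf_C]; simp
  | add p q hp hq => rw [shf_add, coeff_add, hp, hq, map_add]
  | mul_X p i hp =>
    rw [shf_mul_X, coeff_add, coeff_add, coeff_C_mul, coeff_C_mul, coeff_C_mul, hp, coeff_mul_X',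
      coeff_mul_X', map_mul, eval_X]
    simp [mul_comm]

theorem coeff1 (z : Fin 2 → L) (M : Fin 2 → Fin 2 → L) (P : MvPolynomial (Fin 2) L) (j : Fin 2) :
    coeff (Finsupp.single j 1) (shf z M P) =
      eval z (pderiv 0 P) * M 0 j + eval z (pderiv 1 P) * M 1 j := by
  induction P using MvPolynomial.induction_on with
  | C a =>
    rw [shf_C, coeff_C, if_neg]
    · simp
    · intro h
      have := congrArg (fun f : Fin 2 →₀ ℕ => f j) h
      simp at this
  | add p q hp hq =>
    rw [shf_add, coeff_add, hp, hq, map_add, map_add, map_add, map_add]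
    ring
  | mul_X p i hp =>
    rw [shf_mul_X, coeff_add, coeff_add, coeff_C_mul, coeff_C_mul, coeff_C_mul, hp, coeff_mul_X',
      coeff_mul_X', Derivation.leibniz, Derivation.leibniz, pderiv_X, pderiv_X]
    fin_cases i <;> fin_cases j <;>
      simp [Finsupp.support_single_ne_zero, coeff0] <;> ring

theorem van2 {F : MvPolynomial (Fin 2) L} (h0 : coeff 0 F = 0)
    (h : ∀ j : Fin 2, coeff (Finsupp.single j 1) F = 0) : Van 2 F := by
  intro e he
  have h1 : (e 0 = 0 ∧ e 1 = 0) ∨ (e 0 = 1 ∧ e 1 = 0) ∨ (e 0 = 0 ∧ e 1 = 1) := by omega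
  rcases h1 with ⟨h1, h2⟩ | ⟨h1, h2⟩ | ⟨h1, h2⟩
  · have : e = 0 := by
      ext i
      fin_cases i
      · exact h1
      · exact h2
    rw [this]
    exact h0
  · have : e = Finsupp.single 0 1 := by
      ext i
      fin_cases i
      · simpa using h1
      · simpa using h2
    rw [this]
    exact h 0
  · have : e = Finsupp.single 1 1 := by
      ext i
      fin_cases i
      · simpa using h1
      · simpa using h2
    rw [this]
    exact h 1

theorem coeff0_tf (z : Fin 2 → L) (M N : Fin 2 → Fin 2 → L) (V : Fin 2 → MvPolynomial (Fin 2) L)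
    (hz : ∀ i, eval z (V i) = 0) (i : Fin 2) : coeff 0 (tf z M N V i) = 0 := by
  simp only [tf]
  rw [coeff_add, coeff_C_mul, coeff_C_mul, coeff0, coeff0, hz, hz]
  ring

theorem core (z : Fin 2 → L) (M N : Fin 2 → Fin 2 → L) (V : Fin 2 → MvPolynomial (Fin 2) L)
    (l : L) (hz : ∀ i, eval z (V i) = 0) (hI : Im M N)
    (h0 : ∀ a, eval z (pderiv 0 (V a)) * M 0 0 + eval z (pderiv 1 (V a)) * M 1 0 = l * M a 0)
    (h1 : ∀ a, eval z (pderiv 0 (V a)) * M 0 1 + eval z (pderiv 1 (V a)) * M 1 1 = -(l * M a 1)) :
    Nrm l (tf z M N V) := by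
  have k00 := hI.k00
  have k01 := hI.k01
  have k10 := hI.k10
  have k11 := hI.k11
  have hX : ∀ i j : Fin 2, coeff (Finsupp.single j 1) (X i : MvPolynomial (Fin 2) L) =
      if i = j then 1 else 0 := by
    intro i j
    rw [coeff_X']
    by_cases h : i = j
    · simp [h]
    · rw [if_neg h, if_neg]
      intro h'
      apply h
      have := (Finsupp.single_eq_single_iff _ _ _ _).1 h'
      rcases this with h2 | h2
      · exact h2.1
      · exact absurd h2.1 one_ne_zero
  have hX0 : ∀ i : Fin 2, coeff 0 (X i : MvPolynomial (Fin 2) L) = 0 := by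
    intro i
    rw [coeff_X', if_neg]
    intro h
    have := congrArg (fun f : Fin 2 →₀ ℕ => f i) h
    simp at this
  have ht : ∀ i j : Fin 2, coeff (Finsupp.single j 1) (tf z M N V i) =
      N i 0 * (eval z (pderiv 0 (V 0)) * M 0 j + eval z (pderiv 1 (V 0)) * M 1 j) +
        N i 1 * (eval z (pderiv 0 (V 1)) * M 0 j + eval z (pderiv 1 (V 1)) * M 1 j) := by
    intro i j
    simp only [tf]
    rw [coeff_add, coeff_C_mul, coeff_C_mul, coeff1, coeff1]
  constructor
  · apply van2
    · rw [coeff_sub, coeff_C_mul, hX0, coeff0_tf z M N V hz]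
      ring
    · intro j
      rw [coeff_sub, coeff_C_mul, hX, ht]
      fin_cases j
      · simp only [Fin.zero_eta, if_true]
        rw [h0, h0]
        linear_combination l * k00
      · simp only [Fin.mk_one, zero_ne_one, if_false]
        rw [h1, h1]
        linear_combination (-l) * k01
  · apply van2
    · rw [coeff_add, coeff_C_mul, hX0, coeff0_tf z M N V hz]
      ring
    · intro j
      rw [coeff_add, coeff_C_mul, hX, ht]
      fin_cases j
      · simp only [Fin.zero_eta, one_ne_zero, if_false]
        rw [h0, h0]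
        linear_combination l * k10
      · simp only [Fin.mk_one, if_true]
        rw [h1, h1]
        linear_combination (-l) * k11

end DIA

open DIA in
theorem t_DIA : S_DIA := by
  intro L _ _ _ z V hz htr hdet
  have h2 : (2 : L) ≠ 0 := two_ne_zero
  rw [map_add] at htr
  rw [map_sub, map_mul, map_mul] at hdet
  set j00 := eval z (pderiv 0 (V 0)) with e00
  set j01 := eval z (pderiv 1 (V 0)) with e01
  set j10 := eval z (pderiv 0 (V 1)) with e10
  set j11 := eval z (pderiv 1 (V 1)) with e11
  have hj : j11 = -j00 := by linear_combination htr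
  by_cases h01 : j01 = 0
  · have hl : j00 ≠ 0 := by
      intro h
      apply hdet
      rw [h, h01]
      ring
    refine ⟨![![2 * j00, 0], ![j10, 1]], ![![1 / (2 * j00), 0], ![-j10 / (2 * j00), 1]], j00, hl,
      ?_, ?_⟩
    · constructor <;> simp <;> field_simp <;> ring
    · apply core z _ _ V j00 hz
      · constructor <;> simp <;> field_simp <;> ring
      · intro a
        fin_cases a
        · simp only [Fin.zero_eta]
          rw [← e00, ← e01, h01]
          simp
        · simp only [Fin.mk_one]
          rw [← e10, ← e11, hj]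
          simp
          ring
      · intro a
        fin_cases a
        · simp only [Fin.zero_eta]
          rw [← e00, ← e01, h01]
          simp
        · simp only [Fin.mk_one]
          rw [← e10, ← e11, hj]
          simp
  · obtain ⟨l, hl⟩ := IsAlgClosed.exists_pow_nat_eq (j00 ^ 2 + j01 * j10) (n := 2) (by norm_num)
    have hl0 : l ≠ 0 := by
      rintro rfl
      apply hdet
      rw [hj]
      linear_combination hl
    have hd : -2 * l * j01 ≠ 0 := mul_ne_zero (mul_ne_zero (neg_ne_zero.2 h2) hl0) h01
    have hI : Im ![![j01, j01], ![l - j00, -l - j00]]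
        ![![(-l - j00) / (-2 * l * j01), -j01 / (-2 * l * j01)],
          ![-(l - j00) / (-2 * l * j01), j01 / (-2 * l * j01)]] := by
      constructor <;> simp <;> field_simp <;> ring
    refine ⟨_, _, l, hl0, hI, ?_⟩
    apply core z _ _ V l hz hI
    · intro a
      fin_cases a
      · simp only [Fin.zero_eta]
        rw [← e00, ← e01]
        simp
        ring
      · simp only [Fin.mk_one]
        rw [← e10, ← e11, hj]
        simp
        linear_combination (-1 : L) * hl
    · intro a
      fin_cases a
      · simp only [Fin.zero_eta]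
        rw [← e00, ← e01]
        simp
        ring
      · simp only [Fin.mk_one]
        rw [← e10, ← e11, hj]
        simp
        linear_combination (-1 : L) * hl

end Pool.Agent.N46.CS
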