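import Mathlib
import Pool.Agent.N46.CS.Stm

set_option autoImplicit false

/-!
# Stability of centers: dichotomy over a finitely generated extension
-/

namespace Pool.Agent.N46.CS

open MvPolynomial
open Pool.Agent.Y215.CC

namespace DICH

section
variable {A : Type} [CommRing A] {L : Type} [Field L] [Algebra A L]

/-- evaluation commutes with specialization -/
theorem ev_eq (B : Subalgebra A L) (ψ : B →+* ℂ) (z : Fin 2 → L) (hz : ∀ i, z i ∈ B)
    (p : Fin 2 → ℂ) (hp : ∀ (i : Fin 2) (b : B), (b : L) = z i → ψ b = p i)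
    (P : MvPolynomial (Fin 2) A) :
    ∃ c : B, (c : L) = eval z (map (algebraMap A L) P) ∧
      eval p (map (ψ.comp (algebraMap A B)) P) = ψ c := by
  refine ⟨eval₂ (algebraMap A B) (fun i => (⟨z i, hz i⟩ : B)) P, ?_, ?_⟩
  · have h := eval₂_comp_left (B.val : B →+* L) (algebraMap A B)
      (fun i => (⟨z i, hz i⟩ : B)) P
    rw [eval_map]
    have h1 : (B.val : B →+* L).comp (algebraMap A B) = algebraMap A L := by
      ext a; rfl
    rw [h1] at h
    exact h
  · have h := eval₂_comp_left ψ (algebraMap A B) (fun i => (⟨z i, hz i⟩ : B)) P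
    rw [eval_map, h]
    congr 1
    funext i
    exact (hp i ⟨z i, hz i⟩ rfl).symm

theorem ev_zero (B : Subalgebra A L) (ψ : B →+* ℂ) (z : Fin 2 → L) (hz : ∀ i, z i ∈ B)
    (p : Fin 2 → ℂ) (hp : ∀ (i : Fin 2) (b : B), (b : L) = z i → ψ b = p i)
    (P : MvPolynomial (Fin 2) A) (h0 : eval z (map (algebraMap A L) P) = 0) :
    eval p (map (ψ.comp (algebraMap A B)) P) = 0 := by
  obtain ⟨c, hc, hc'⟩ := ev_eq B ψ z hz p hp P
  have : c = 0 := Subtype.ext (by rw [hc, h0]; rfl)
  rw [hc', this, map_zero]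

theorem ev_ne (B : Subalgebra A L) (ψ : B →+* ℂ) (z : Fin 2 → L) (hz : ∀ i, z i ∈ B)
    (p : Fin 2 → ℂ) (hp : ∀ (i : Fin 2) (b : B), (b : L) = z i → ψ b = p i)
    (P : MvPolynomial (Fin 2) A) (h0 : eval z (map (algebraMap A L) P) ≠ 0)
    (hi : (eval z (map (algebraMap A L) P))⁻¹ ∈ B) :
    eval p (map (ψ.comp (algebraMap A B)) P) ≠ 0 := by
  obtain ⟨c, hc, hc'⟩ := ev_eq B ψ z hz p hp P
  intro h
  rw [hc'] at h
  have h1 : c * ⟨_, hi⟩ = 1 := Subtype.ext (by
    show (c : L) * (eval z (map (algebraMap A L) P))⁻¹ = 1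
    rw [hc, mul_inv_cancel₀ h0])
  have h2 := congrArg ψ h1
  rw [map_mul, h, zero_mul, map_one] at h2
  exact zero_ne_one h2

/-- the determinant -/
noncomputable def jac (V : Fin 2 → MvPolynomial (Fin 2) A) : MvPolynomial (Fin 2) A :=
  pderiv 0 (V 0) * pderiv 1 (V 1) - pderiv 1 (V 0) * pderiv 0 (V 1)

/-- the trace -/
noncomputable def trc (V : Fin 2 → MvPolynomial (Fin 2) A) : MvPolynomial (Fin 2) A :=
  pderiv 0 (V 0) + pderiv 1 (V 1)

theorem jac_map {R : Type} [CommRing R] (φ : A →+* R) (V : Fin 2 → MvPolynomial (Fin 2) A) :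
    pderiv 0 (map φ (V 0)) * pderiv 1 (map φ (V 1)) - pderiv 1 (map φ (V 0)) *
      pderiv 0 (map φ (V 1)) = map φ (jac V) := by
  simp only [jac, pderiv_map, map_sub, map_mul]

theorem trc_map {R : Type} [CommRing R] (φ : A →+* R) (V : Fin 2 → MvPolynomial (Fin 2) A) :
    pderiv 0 (map φ (V 0)) + pderiv 1 (map φ (V 1)) = map φ (trc V) := by
  simp only [trc, pderiv_map, map_add]

end

theorem van_of_map {R R' : Type} [CommRing R] [CommRing R'] (φ : R →+* R')
    (hφ : Function.Injective φ) (n : ℕ) (F : MvPolynomial (Fin 2) R) (h : Van n (map φ F)) :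
    Van n F := by
  intro e he
  have h1 := h e he
  rw [coeff_map] at h1
  exact hφ (by rw [h1, map_zero])

end DICH

open DICH in
theorem t_DICH (h1 : S_DIL) (h2 : S_DIA) (h3 : S_TR0) (h4 : S_NAT) : S_DICH := by
  classical
  intro A _ _ _ L _ _ _ _ hinj V z
  -- case 1: not a singular point
  by_cases hc1 : ∃ i, eval z (map (algebraMap A L) (V i)) ≠ 0
  · obtain ⟨i, hi⟩ := hc1
    refine ⟨{z 0, z 1, (eval z (map (algebraMap A L) (V i)))⁻¹}, ?_, Or.inr ?_⟩
    · intro k; fin_cases k <;> simp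
    · intro B hB ψ p hp hcen
      have hz : ∀ k, z k ∈ B := by
        intro k; apply hB; fin_cases k <;> simp
      have hne := ev_ne B ψ z hz p hp (V i) hi (hB (by simp))
      apply hne
      fin_cases i
      · exact hcen.1
      · exact hcen.2.1
  push Not at hc1
  -- case 2: determinant zero
  by_cases hJ : eval z (map (algebraMap A L) (jac V)) = 0
  · refine ⟨{z 0, z 1}, ?_, Or.inr ?_⟩
    · intro k; fin_cases k <;> simp
    · intro B hB ψ p hp hcen
      have hz : ∀ k, z k ∈ B := by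
        intro k; apply hB; fin_cases k <;> simp
      have h5 := ev_zero B ψ z hz p hp (jac V) hJ
      apply hcen.2.2.1
      show eval p (pderiv 0 (map _ (V 0)) * pderiv 1 (map _ (V 1)) - pderiv 1 (map _ (V 0)) *
        pderiv 0 (map _ (V 1))) = 0
      rw [jac_map]; exact h5
  -- case 3: trace nonzero
  by_cases hT : eval z (map (algebraMap A L) (trc V)) ≠ 0
  · refine ⟨{z 0, z 1, (eval z (map (algebraMap A L) (trc V)))⁻¹}, ?_, Or.inr ?_⟩
    · intro k; fin_cases k <;> simp
    · intro B hB ψ p hp hcen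
      have hz : ∀ k, z k ∈ B := by
        intro k; apply hB; fin_cases k <;> simp
      apply ev_ne B ψ z hz p hp (trc V) hT (hB (by simp))
      rw [← trc_map]
      exact h3 _ _ _ hcen
  push Not at hT
  -- case 4
  obtain ⟨M, N, l, hl, hIm, hNrm⟩ := h2 L z (fun i => map (algebraMap A L) (V i)) hc1
    (by rw [trc_map]; exact hT) (by rw [jac_map]; exact hJ)
  let S1 : Finset L := ((Finset.univ.image z ∪ Finset.univ.image fun p : Fin 2 × Fin 2 => M p.1 p.2)
    ∪ Finset.univ.image fun p : Fin 2 × Fin 2 => N p.1 p.2) ∪ {l, l⁻¹}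
  have mz : ∀ i, z i ∈ S1 := fun i => by
    simp only [S1, Finset.mem_union, Finset.mem_image]
    exact Or.inl (Or.inl (Or.inl ⟨i, Finset.mem_univ _, rfl⟩))
  have mM : ∀ i j, M i j ∈ S1 := fun i j => by
    simp only [S1, Finset.mem_union, Finset.mem_image]
    exact Or.inl (Or.inl (Or.inr ⟨(i, j), Finset.mem_univ _, rfl⟩))
  have mN : ∀ i j, N i j ∈ S1 := fun i j => by
    simp only [S1, Finset.mem_union, Finset.mem_image]
    exact Or.inl (Or.inr ⟨(i, j), Finset.mem_univ _, rfl⟩)
  have ml : l ∈ S1 := by simp [S1]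
  have ml' : l⁻¹ ∈ S1 := by simp [S1]
  let R : Subalgebra A L := Algebra.adjoin A (S1 : Set L)
  have sub : ∀ x ∈ S1, x ∈ R := fun x hx => Algebra.subset_adjoin hx
  let z' : Fin 2 → R := fun i => ⟨z i, sub _ (mz i)⟩
  let M' : Fin 2 → Fin 2 → R := fun i j => ⟨M i j, sub _ (mM i j)⟩
  let N' : Fin 2 → Fin 2 → R := fun i j => ⟨N i j, sub _ (mN i j)⟩
  let l' : R := ⟨l, sub _ ml⟩
  let m' : R := ⟨l⁻¹, sub _ ml'⟩
  let VR : Fin 2 → MvPolynomial (Fin 2) R := fun i => map (algebraMap A R) (V i)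
  let ι : R →+* L := (R.val : R →+* L)
  have hι : Function.Injective ι := Subtype.val_injective
  have hVR : (fun i => map ι (VR i)) = fun i => map (algebraMap A L) (V i) := by
    funext i
    show map ι (map (algebraMap A R) (V i)) = _
    rw [map_map]
    rfl
  have hIm' : Im M' N' := by
    constructor
    · exact Subtype.ext hIm.h00
    · exact Subtype.ext hIm.h01
    · exact Subtype.ext hIm.h10
    · exact Subtype.ext hIm.h11
    · exact Subtype.ext hIm.k00
    · exact Subtype.ext hIm.k01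
    · exact Subtype.ext hIm.k10
    · exact Subtype.ext hIm.k11
  have htf : (fun i => map ι (tf z' M' N' VR i)) =
      tf z M N (fun i => map (algebraMap A L) (V i)) := by
    rw [(h4 R L ι).1 z' M' N' VR, hVR]
    rfl
  have hNrm' : Nrm l' (tf z' M' N' VR) := by
    refine ⟨van_of_map ι hι _ _ ?_, van_of_map ι hι _ _ ?_⟩
    · have e := congrFun htf 0
      have h5 := hNrm.1
      rw [← e] at h5
      rw [map_sub, map_mul, map_C, map_X]
      exact h5
    · have e := congrFun htf 1
      have h5 := hNrm.2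
      rw [← e] at h5
      rw [map_add, map_mul, map_C, map_X]
      exact h5
  let _ : Algebra ℚ R := ((algebraMap A R).comp (algebraMap ℚ A)).toAlgebra
  have hlm : l' * m' = 1 := Subtype.ext (mul_inv_cancel₀ hl)
  rcases h1 R VR z' M' N' l' m' hlm hIm' hNrm' with h5 | ⟨g, hg, h5⟩
  · refine ⟨S1, mz, Or.inl ?_⟩
    intro B hB ψ p hp
    have hRB : R ≤ B := Algebra.adjoin_le hB
    let j : R →ₐ[A] B := Subalgebra.inclusion hRB
    have h6 := h5 (ψ.comp (j : R →+* B))
    have e1 : sp (ψ.comp (j : R →+* B)) VR = sp (ψ.comp (algebraMap A B)) V := by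
      funext i
      show map (ψ.comp (j : R →+* B)) (map (algebraMap A R) (V i)) = _
      rw [map_map]
      rfl
    have e2 : (fun i => (ψ.comp (j : R →+* B)) (z' i)) = p := by
      funext i
      exact hp i (j (z' i)) rfl
    rw [e1, e2] at h6
    exact h6
  · refine ⟨insert ((g : L)⁻¹) S1, fun i => Finset.mem_insert_of_mem (mz i), Or.inr ?_⟩
    intro B hB ψ p hp
    rw [Finset.coe_insert] at hB
    have hRB : R ≤ B := Algebra.adjoin_le ((Set.subset_insert _ _).trans hB)
    have hgB : (g : L)⁻¹ ∈ B := hB (Set.mem_insert _ _)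
    let j : R →ₐ[A] B := Subalgebra.inclusion hRB
    have hg' : (ψ.comp (j : R →+* B)) g ≠ 0 := by
      intro h
      have hg0 : (g : L) ≠ 0 := fun h => hg (Subtype.ext h)
      have h7 : j g * (⟨(g : L)⁻¹, hgB⟩ : B) = 1 := Subtype.ext (mul_inv_cancel₀ hg0)
      have h8 := congrArg ψ h7
      rw [map_mul, map_one] at h8
      have h9 : ψ (j g) = 0 := h
      rw [h9, zero_mul] at h8
      exact zero_ne_one h8
    have h6 := h5 (ψ.comp (j : R →+* B)) hg'
    have e1 : sp (ψ.comp (j : R →+* B)) VR = sp (ψ.comp (algebraMap A B)) V := by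
      funext i
      show map (ψ.comp (j : R →+* B)) (map (algebraMap A R) (V i)) = _
      rw [map_map]
      rfl
    have e2 : (fun i => (ψ.comp (j : R →+* B)) (z' i)) = p := by
      funext i
      exact hp i (j (z' i)) rfl
    rw [e1, e2] at h6
    exact h6

end Pool.Agent.N46.CS
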