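import Mathlib
import Pool.Agent.N46.CS.Stm

set_option autoImplicit false

/-!
# Stability of centers, leaf DIL (helper482): the dichotomy at a diagonalized point
-/

namespace Pool.Agent.N46.CS

open MvPolynomial Filter Topology
open Pool.Agent.Y215.CC

namespace DIL

/-- an obstruction excludes a center -/
theorem not_center (h3 : S_NOC1) (h4 : S_NOC2) (h5 : S_NOC3) {l : ℂ} (hl : l ≠ 0)
    {W : Fin 2 → MvPolynomial (Fin 2) ℂ} (hN : Nrm l W) (hB : CaseB W) :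
    ¬ HasCenterAt (W 0) (W 1) 0 := by
  intro hc
  obtain ⟨z, a, b, hz, ha, hb, hz0, hinj, hev⟩ := h3 W hc
  obtain ⟨α, c, K, hα, hc0, hev2⟩ := h4 l W hl hN z a b hz ha hb hz0 hinj hev
  exact h5 W hB z a b hz ha hb hz0 hev α c K hα hc0 hev2

end DIL

theorem t_DIL (h1 : S_REC) (h2 : S_NAT) (h3 : S_NOC1) (h4 : S_NOC2) (h5 : S_NOC3) (h6 : S_CEN)
    (h7 : S_AFF) : S_DIL := by
  intro R _ _ _ V z M N l m hlm hIm hNrm
  have hl : ∀ ψ : R →+* ℂ, ψ l ≠ 0 := by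
    intro ψ h
    have h8 : ψ (l * m) = 1 := by rw [hlm, map_one]
    rw [map_mul, h, zero_mul] at h8
    exact zero_ne_one h8
  have hcen : ∀ ψ : R →+* ℂ,
      (HasCenterAt (map ψ (tf z M N V 0)) (map ψ (tf z M N V 1)) 0 ↔
        HasCenterAt (sp ψ V 0) (sp ψ V 1) (fun i => ψ (z i))) := by
    intro ψ
    obtain ⟨n1, n2, -⟩ := h2 R ℂ ψ
    have h8 := h7 (fun i => ψ (z i)) (fun i j => ψ (M i j)) (fun i j => ψ (N i j))
      (fun i => map ψ (V i)) (n2 M N hIm)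
    have h9 := n1 z M N V
    have e0 : map ψ (tf z M N V 0) = tf (fun i => ψ (z i)) (fun i j => ψ (M i j))
        (fun i j => ψ (N i j)) (fun i => map ψ (V i)) 0 := congrFun h9 0
    have e1 : map ψ (tf z M N V 1) = tf (fun i => ψ (z i)) (fun i j => ψ (M i j))
        (fun i j => ψ (N i j)) (fun i => map ψ (V i)) 1 := congrFun h9 1
    rw [e0, e1]
    exact h8
  have hnrm : ∀ ψ : R →+* ℂ, Nrm (ψ l) (fun i => map ψ (tf z M N V i)) := by
    intro ψ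
    obtain ⟨_, _, n3, -⟩ := h2 R ℂ ψ
    exact n3 l _ hNrm
  rcases h1 R l m (tf z M N V) hlm hNrm with hA | ⟨k, hk, g, hg, F, hF, hv⟩
  · left
    intro ψ
    obtain ⟨_, _, _, n4, -⟩ := h2 R ℂ ψ
    exact (hcen ψ).1 (h6 (ψ l) (fun i => map ψ (tf z M N V i)) (hl ψ) (hnrm ψ) (n4 _ hA))
  · right
    refine ⟨g, hg, fun ψ hψ hc => ?_⟩
    obtain ⟨_, _, _, _, _, n6, -⟩ := h2 R ℂ ψ
    obtain ⟨hF', hv'⟩ := n6 (tf z M N V) k g F hF hv
    exact DIL.not_center h3 h4 h5 (hl ψ) (hnrm ψ) ⟨k, hk, ψ g, hψ, map ψ F, hF', hv'⟩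
      ((hcen ψ).2 hc)

end Pool.Agent.N46.CS
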