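import Mathlib
import Pool.Agent.N46.CS.Stm

set_option autoImplicit false

/-!
# ELI: elimination (project CS of helper46; leaf by helper897)
-/

namespace Pool.Agent.N46.CS

namespace ELI

section gauss

open Polynomial

/-- an irreducible polynomial which does not divide `q`: elimination -/
theorem irr {S : Type*} [CommRing S] [IsDomain S] [UniqueFactorizationMonoid S]
    (g q : Polynomial S) (hg : Irreducible g) (hq : ¬ g ∣ q) :
    ∃ s : S, s ≠ 0 ∧ ∃ a b : Polynomial S, C s = a * g + b * q := by
  classical
  let _ : StrongNormalizationMonoid S := UniqueFactorizationMonoid.strongNormalizationMonoid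
  let _ : StrongNormalizedGCDMonoid S := UniqueFactorizationMonoid.toStrongNormalizedGCDMonoid S
  by_cases hdeg : g.natDegree = 0
  · obtain ⟨s, hs⟩ := Polynomial.natDegree_eq_zero.mp hdeg
    refine ⟨s, ?_, 1, 0, by rw [hs]; ring⟩
    intro h0
    rw [h0, map_zero] at hs
    exact hg.ne_zero hs.symm
  have hprim : g.IsPrimitive := hg.isPrimitive hdeg
  have hmap : Irreducible (g.map (algebraMap S (FractionRing S))) :=
    (hprim.irreducible_iff_irreducible_map_fraction_map (K := FractionRing S)).mp hg
  by_cases hdvd : g.map (algebraMap S (FractionRing S)) ∣ q.map (algebraMap S (FractionRing S))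
  · exfalso
    apply hq
    by_cases hq0 : q = 0
    · rw [hq0]; exact dvd_zero g
    rw [q.eq_C_content_mul_primPart] at hdvd ⊢
    rw [Polynomial.map_mul, Polynomial.map_C] at hdvd
    have hu : IsUnit (Polynomial.C (algebraMap S (FractionRing S) q.content)) := by
      rw [Polynomial.isUnit_C]
      rw [isUnit_iff_ne_zero]
      intro h
      have h5 := (IsFractionRing.injective S (FractionRing S)) (h.trans (map_zero _).symm)
      exact hq0 (Polynomial.content_eq_zero_iff.mp h5)
    have h6 := (hu.dvd_mul_left).mp hdvd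
    exact dvd_mul_of_dvd_right (hprim.dvd_of_fraction_map_dvd_fraction_map h6) _
  · have hcop : IsCoprime (g.map (algebraMap S (FractionRing S)))
        (q.map (algebraMap S (FractionRing S))) := (hmap.coprime_iff_not_dvd).mpr hdvd
    obtain ⟨a, b, hab⟩ := hcop
    obtain ⟨s, sM, hs⟩ := IsLocalization.integerNormalization_spec (nonZeroDivisors S) a
    obtain ⟨t, tM, ht⟩ := IsLocalization.integerNormalization_spec (nonZeroDivisors S) b
    obtain ⟨a', ha'⟩ : ∃ a' : S[X], a' =
      IsLocalization.integerNormalization (nonZeroDivisors S) a := ⟨_, rfl⟩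
    obtain ⟨b', hb'⟩ : ∃ b' : S[X], b' =
      IsLocalization.integerNormalization (nonZeroDivisors S) b := ⟨_, rfl⟩
    rw [← ha'] at hs
    rw [← hb'] at ht
    have hs' : a'.map (algebraMap S (FractionRing S)) =
        C (algebraMap S (FractionRing S) s) * a := by
      rw [hs]
      ext n
      rw [Polynomial.coeff_smul, Polynomial.coeff_C_mul, Algebra.smul_def]
    have ht' : b'.map (algebraMap S (FractionRing S)) =
        C (algebraMap S (FractionRing S) t) * b := by
      rw [ht]
      ext n
      rw [Polynomial.coeff_smul, Polynomial.coeff_C_mul, Algebra.smul_def]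
    refine ⟨s * t, ?_, C t * a', C s * b', ?_⟩
    · exact mul_ne_zero (nonZeroDivisors.ne_zero sM) (nonZeroDivisors.ne_zero tM)
    · apply Polynomial.map_injective (algebraMap S (FractionRing S))
        (IsFractionRing.injective S (FractionRing S))
      simp only [Polynomial.map_C, Polynomial.map_add, Polynomial.map_mul, map_mul]
      rw [hs', ht']
      linear_combination (-(C (algebraMap S (FractionRing S) s) *
        C (algebraMap S (FractionRing S) t))) * hab

/-- elimination over a factorial ring -/
theorem gen {S : Type*} [CommRing S] [IsDomain S] [UniqueFactorizationMonoid S]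
    (q p : Polynomial S) : IsRelPrime p q →
    ∃ s : S, s ≠ 0 ∧ ∃ a b : Polynomial S, C s = a * p + b * q := by
  refine WfDvdMonoid.induction_on_irreducible p ?_ ?_ ?_
  · intro h
    have h1 : IsUnit q := h (dvd_zero q) dvd_rfl
    obtain ⟨u, hu⟩ := h1
    refine ⟨1, one_ne_zero, 0, ((u⁻¹ : (Polynomial S)ˣ) : Polynomial S), ?_⟩
    rw [← hu, Units.inv_mul]
    simp
  · intro u hu _
    obtain ⟨v, hv⟩ := hu
    refine ⟨1, one_ne_zero, ((v⁻¹ : (Polynomial S)ˣ) : Polynomial S), 0, ?_⟩
    rw [← hv, Units.inv_mul]
    simp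
  · intro a i _ hi ih hrel
    have h1 : IsRelPrime a q := fun d hd hd' => hrel (hd.mul_left i) hd'
    have h2 : ¬ i ∣ q := fun hd => hi.not_isUnit (hrel (dvd_mul_right i a) hd)
    obtain ⟨s, hs0, x, y, hxy⟩ := ih h1
    obtain ⟨t, ht0, z, w, hzw⟩ := irr i q hi h2
    refine ⟨s * t, mul_ne_zero hs0 ht0, x * z, x * a * w + y * z * i + y * w * q, ?_⟩
    rw [map_mul, hxy, hzw]
    ring

end gauss

section two

open MvPolynomial

variable {K : Type} [Field K]

/-- `K[X₀, X₁] → K[X_i][X_j]` -/
noncomputable def toP (i : Fin 2) : MvPolynomial (Fin 2) K →+* Polynomial (Polynomial K) :=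
  eval₂Hom (Polynomial.C.comp Polynomial.C) (fun k => if k = i then Polynomial.C Polynomial.X
    else Polynomial.X)

/-- `K[X_i][X_j] → K[X₀, X₁]` -/
noncomputable def toM (i j : Fin 2) : Polynomial (Polynomial K) →+* MvPolynomial (Fin 2) K :=
  Polynomial.eval₂RingHom
    ((Polynomial.aeval (X i : MvPolynomial (Fin 2) K)).toRingHom : Polynomial K →+* _) (X j)

theorem toM_toP (i j : Fin 2) (hj : ∀ k : Fin 2, k ≠ i → k = j) (P : MvPolynomial (Fin 2) K) :
    toM i j (toP i P) = P := by
  have : (toM i j).comp (toP i) = RingHom.id (MvPolynomial (Fin 2) K) := by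
    apply MvPolynomial.ringHom_ext
    · intro r
      simp [toM, toP]
    · intro k
      by_cases hk : k = i
      · simp [toM, toP, hk]
      · have hkj := hj k hk
        subst hkj
        simp [toM, toP, hk]
  exact congrArg (fun f => f P) this

theorem toP_toM (i j : Fin 2) (hij : j ≠ i) (p : Polynomial (Polynomial K)) :
    toP i (toM i j p) = p := by
  have : (toP i).comp (toM i j) = RingHom.id (Polynomial (Polynomial K)) := by
    apply Polynomial.ringHom_ext'
    · apply Polynomial.ringHom_ext'
      · ext r
        simp [toM, toP]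
      · simp [toM, toP]
    · simp [toM, toP, hij]
  exact congrArg (fun f => f p) this

theorem toM_C (i j : Fin 2) (s : Polynomial K) :
    toM i j (Polynomial.C s) = Polynomial.aeval (X i : MvPolynomial (Fin 2) K) s := by
  simp [toM]

theorem main (P Q : MvPolynomial (Fin 2) K) (h : IsRelPrime P Q) (i j : Fin 2) (hij : j ≠ i)
    (hj : ∀ k : Fin 2, k ≠ i → k = j) :
    ∃ u : Polynomial K, u ≠ 0 ∧ ∃ a b : MvPolynomial (Fin 2) K,
      Polynomial.aeval (X i : MvPolynomial (Fin 2) K) u = a * P + b * Q := by
  have hrel : IsRelPrime (toP i P) (toP i Q) := by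
    intro d hd1 hd2
    have h1 : toM i j d ∣ P := by
      have := map_dvd (toM i j) hd1
      rwa [toM_toP i j hj] at this
    have h2 : toM i j d ∣ Q := by
      have := map_dvd (toM i j) hd2
      rwa [toM_toP i j hj] at this
    have h3 := (h h1 h2).map (toP i)
    rwa [toP_toM i j hij] at h3
  obtain ⟨s, hs, a, b, hab⟩ := gen (toP i Q) (toP i P) hrel
  refine ⟨s, hs, toM i j a, toM i j b, ?_⟩
  rw [← toM_C i j s, hab, map_add, map_mul, map_mul, toM_toP i j hj, toM_toP i j hj]

end two

end ELI

/-- ELI: elimination -/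
theorem t_ELI : S_ELI := by
  intro K _ P Q h i
  fin_cases i
  · exact ELI.main P Q h 0 1 (by decide) (by decide)
  · exact ELI.main P Q h 1 0 (by decide) (by decide)

end Pool.Agent.N46.CS
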