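import Pool.Agent.N46.CS.Stm

set_option autoImplicit false

/-!
# Stability of centers (MP_d6d6e6_ag), leaf EXU (helper985): the singular point of a deformation
-/

namespace Pool.Agent.N46.CS

open MvPolynomial Filter Topology
open Pool.Agent.Y215.CC
open scoped ContDiff

namespace EXU

/-- the derivative of a polynomial function -/
theorem hasFDerivAt_eval (P : MvPolynomial (Fin 2) ℂ) (p : Fin 2 → ℂ) :
    HasFDerivAt (fun x : Fin 2 → ℂ => eval x P)
      (eval p (pderiv 0 P) • ContinuousLinearMap.proj (R := ℂ) (φ := fun _ : Fin 2 => ℂ) 0 +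
        eval p (pderiv 1 P) • ContinuousLinearMap.proj (R := ℂ) (φ := fun _ : Fin 2 => ℂ) 1) p := by
  induction P using MvPolynomial.induction_on with
  | C a =>
    have e : (fun x : Fin 2 → ℂ => eval x (C a : MvPolynomial (Fin 2) ℂ)) = fun _ => a := by
      ext x
      simp
    rw [e]
    refine (hasFDerivAt_const a p).congr_fderiv ?_
    ext v
    simp
  | add P Q hP hQ =>
    have h := hP.add hQ
    have e : (fun x : Fin 2 → ℂ => eval x (P + Q)) =
        (fun x : Fin 2 → ℂ => eval x P) + fun x : Fin 2 → ℂ => eval x Q := by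
      ext x
      simp
    rw [e]
    refine h.congr_fderiv ?_
    ext v
    simp
    ring
  | mul_X P i hP =>
    have hX : HasFDerivAt (fun x : Fin 2 → ℂ => x i)
        (ContinuousLinearMap.proj (R := ℂ) (φ := fun _ : Fin 2 => ℂ) i) p :=
      (ContinuousLinearMap.proj (R := ℂ) (φ := fun _ : Fin 2 => ℂ) i).hasFDerivAt
    have h := hP.mul hX
    have e : (fun x : Fin 2 → ℂ => eval x (P * X i)) =
        (fun x : Fin 2 → ℂ => eval x P) * fun x : Fin 2 → ℂ => x i := by
      ext x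
      simp
    rw [e]
    refine h.congr_fderiv ?_
    ext v
    fin_cases i <;>
    · simp [Derivation.leibniz, pderiv_X]
      ring

/-- the map of the deformation -/
noncomputable def G {d : ℕ} (c : ℂ → Frm d) (z : ℂ × (Fin 2 → ℂ)) : Fin 2 → ℂ :=
  ![eval z.2 (fP (c z.1)), eval z.2 (fQ (c z.1))]

theorem an {d : ℕ} {c : ℂ → Frm d} (hc : AnalyticAt ℂ c 0) (p : Fin 2 → ℂ) (j : Fin 2) :
    AnalyticAt ℂ (fun z : ℂ × (Fin 2 → ℂ) =>
      eval z.2 (poly fun e : Ex d => c z.1 (j, e))) (0, p) := by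
  have e : (fun z : ℂ × (Fin 2 → ℂ) => eval z.2 (poly fun e : Ex d => c z.1 (j, e))) =
      fun z => ∑ e : Ex d, c z.1 (j, e) * z.2 0 ^ (e.1.1 : ℕ) * z.2 1 ^ (e.1.2 : ℕ) := by
    ext z
    simp [poly]
  rw [e]
  have h1 : AnalyticAt ℂ (fun z : ℂ × (Fin 2 → ℂ) => z.1) (0, p) := analyticAt_fst
  have h2 : AnalyticAt ℂ (fun z : ℂ × (Fin 2 → ℂ) => z.2) (0, p) := analyticAt_snd
  have h3 : AnalyticAt ℂ (fun z : ℂ × (Fin 2 → ℂ) => c z.1) (0, p) :=
    AnalyticAt.comp (g := c) hc h1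
  have h4 : ∀ e : Ex d, AnalyticAt ℂ (fun z : ℂ × (Fin 2 → ℂ) => c z.1 (j, e)) (0, p) :=
    fun e => (analyticAt_pi_iff.1 h3) (j, e)
  have h5 : ∀ i : Fin 2, AnalyticAt ℂ (fun z : ℂ × (Fin 2 → ℂ) => z.2 i) (0, p) :=
    fun i => (analyticAt_pi_iff.1 h2) i
  exact Finset.analyticAt_fun_sum _ fun e _ => ((h4 e).mul ((h5 0).pow _)).mul ((h5 1).pow _)

theorem anG {d : ℕ} {c : ℂ → Frm d} (hc : AnalyticAt ℂ c 0) (p : Fin 2 → ℂ) :
    AnalyticAt ℂ (G c) (0, p) := by
  refine analyticAt_pi_iff.2 fun i => ?_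
  fin_cases i
  · exact an hc p 0
  · exact an hc p 1

/-- a matrix with nonzero determinant is invertible -/
theorem inv_of {a b c d : ℂ} (h : a * d - b * c ≠ 0) {T : (Fin 2 → ℂ) →L[ℂ] (Fin 2 → ℂ)}
    (h0 : ∀ v, T v 0 = a * v 0 + b * v 1) (h1 : ∀ v, T v 1 = c * v 0 + d * v 1) :
    T.IsInvertible := by
  have hinj : Function.Injective (T : (Fin 2 → ℂ) →ₗ[ℂ] (Fin 2 → ℂ)) := by
    rw [injective_iff_map_eq_zero]
    intro v hv
    have e0 : a * v 0 + b * v 1 = 0 := by rw [← h0]; exact congrFun hv 0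
    have e1 : c * v 0 + d * v 1 = 0 := by rw [← h1]; exact congrFun hv 1
    have g0 : (a * d - b * c) * v 0 = 0 := by linear_combination d * e0 - b * e1
    have g1 : (a * d - b * c) * v 1 = 0 := by linear_combination a * e1 - c * e0
    ext i
    fin_cases i
    · exact (mul_eq_zero.1 g0).resolve_left h
    · exact (mul_eq_zero.1 g1).resolve_left h
  refine ⟨(LinearEquiv.ofInjectiveEndo _ hinj).toContinuousLinearEquiv, ?_⟩
  ext v i
  rfl

end EXU

open EXU in
theorem t_EXU : S_EXU := by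
  intro d w p hw hdet c hc hcw
  have hG := anG hc p
  have hcd : ContDiffAt ℂ ω (G c) (0, p) := hG.contDiffAt
  have hGp : G c (0, p) = 0 := by
    obtain ⟨h1, h2⟩ := hw
    ext i
    fin_cases i
    · show eval p (fP (c 0)) = 0
      rw [hcw]
      exact h1
    · show eval p (fQ (c 0)) = 0
      rw [hcw]
      exact h2
  -- the partial derivative
  have hd : HasFDerivAt (fun x : Fin 2 → ℂ => G c (0, x))
      (fderiv ℂ (G c) (0, p) ∘L .inr ℂ ℂ (Fin 2 → ℂ)) p := by
    have h1 : HasFDerivAt (fun x : Fin 2 → ℂ => ((0 : ℂ), x)) (.inr ℂ ℂ (Fin 2 → ℂ)) p :=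
      (hasFDerivAt_const (0 : ℂ) p).prodMk (hasFDerivAt_id p)
    exact HasFDerivAt.comp (g := G c) p hG.differentiableAt.hasFDerivAt h1
  have hT : ∀ i : Fin 2, ∀ P : MvPolynomial (Fin 2) ℂ, (∀ x, G c (0, x) i = eval x P) →
      ∀ v, (fderiv ℂ (G c) (0, p) ∘L .inr ℂ ℂ (Fin 2 → ℂ)) v i =
        eval p (pderiv 0 P) * v 0 + eval p (pderiv 1 P) * v 1 := by
    intro i P hP v
    have h2 := (hasFDerivAt_pi'.1 hd) i
    have h3 : (fun x : Fin 2 → ℂ => G c (0, x) i) = fun x => eval x P := funext hP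
    rw [h3] at h2
    have h4 := h2.unique (hasFDerivAt_eval P p)
    have h5 := congrArg (fun T : (Fin 2 → ℂ) →L[ℂ] ℂ => T v) h4
    exact h5
  have hinv : (fderiv ℂ (G c) (0, p) ∘L .inr ℂ ℂ (Fin 2 → ℂ)).IsInvertible := by
    rw [map_sub, map_mul, map_mul] at hdet
    refine inv_of hdet (hT 0 (fP w) fun x => ?_) (hT 1 (fQ w) fun x => ?_)
    · show eval x (fP (c 0)) = eval x (fP w)
      rw [hcw]
    · show eval x (fQ (c 0)) = eval x (fQ w)
      rw [hcw]
  have hn : (ω : WithTop ℕ∞) ≠ 0 := by simp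
  have key : ∀ (ε : ℂ) (x : Fin 2 → ℂ), G c (ε, x) = G c (0, p) ↔ Sng (c ε) x := by
    intro ε x
    rw [hGp]
    constructor
    · intro h
      exact ⟨congrFun h 0, congrFun h 1⟩
    · rintro ⟨h1, h2⟩
      ext i
      fin_cases i
      · exact h1
      · exact h2
  refine ⟨hcd.implicitFunction hn hinv, ?_, ?_, ?_, ?_⟩
  · exact (hcd.contDiffAt_implicitFunction hn hinv).analyticAt
  · exact hcd.implicitFunction_apply_self hn hinv
  · filter_upwards [hcd.eventually_apply_implicitFunction hn hinv] with ε hε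
    exact (key _ _).1 hε
  · filter_upwards [hcd.eventually_apply_eq_iff_implicitFunction hn hinv] with z hz hs
    exact (hz.1 ((key z.1 z.2).2 hs)).symm

end Pool.Agent.N46.CS
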