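import Mathlib
import Pool.Agent.N46.CS.Stm
import Pool.Agent.Y215.CC.Noe

set_option autoImplicit false

/-!
# FIN: final assembly (stability of centers on an open dense part of a component)
-/

namespace Pool.Agent.N46.CS

open MvPolynomial Filter Topology
open Pool.Agent.Y215.CC
open scoped LinearAlgebra.Projectivization

namespace FIN

theorem fP_smul {d : ℕ} (a : ℂ) (w : Frm d) : fP (a • w) = C a * fP w := by
  simp [fP, poly, Finset.mul_sum, mul_assoc]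

theorem fQ_smul {d : ℕ} (a : ℂ) (w : Frm d) : fQ (a • w) = C a * fQ w := by
  simp [fQ, poly, Finset.mul_sum, mul_assoc]

theorem unitC {a : ℂ} (ha : a ≠ 0) : IsUnit (C a : MvPolynomial (Fin 2) ℂ) :=
  (isUnit_iff_ne_zero.2 ha).map C

theorem deg_C {a : ℂ} (ha : a ≠ 0) (P : MvPolynomial (Fin 2) ℂ) :
    (C a * P).totalDegree = P.totalDegree := by
  rw [← smul_eq_C_mul, totalDegree, totalDegree, support_smul_eq ha]

theorem fol_smul {d : ℕ} {a : ℂ} (ha : a ≠ 0) {w : Frm d} (hw : Fol w) : Fol (a • w) := by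
  refine ⟨?_, ?_⟩
  · rw [fP_smul, fQ_smul]
    intro D h1 h2
    exact hw.1 ((unitC ha).dvd_mul_left.1 h1) ((unitC ha).dvd_mul_left.1 h2)
  · rw [fP_smul, fQ_smul, deg_C ha, deg_C ha]
    exact hw.2

theorem sng_smul {d : ℕ} (a : ℂ) {w : Frm d} {p : Fin 2 → ℂ} (hw : Sng w p) : Sng (a • w) p := by
  refine ⟨?_, ?_⟩
  · rw [fP_smul, map_mul, hw.1, mul_zero]
  · rw [fQ_smul, map_mul, hw.2, mul_zero]

theorem cen_mul {a : ℂ} (ha : a ≠ 0) {P Q : MvPolynomial (Fin 2) ℂ} {p : Fin 2 → ℂ}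
    (h : HasCenterAt P Q p) : HasCenterAt (C a * P) (C a * Q) p := by
  obtain ⟨h1, h2, h3, u, v, hu, hv, hu0, hv0, hl, he⟩ := h
  refine ⟨by rw [map_mul, h1, mul_zero], by rw [map_mul, h2, mul_zero], ?_,
    u, v, hu, hv, hu0, hv0, hl, ?_⟩
  · have : eval p (pderiv 0 (C a * P) * pderiv 1 (C a * Q) - pderiv 1 (C a * P) * pderiv 0 (C a * Q))
        = a ^ 2 * eval p (pderiv 0 P * pderiv 1 Q - pderiv 1 P * pderiv 0 Q) := by
      simp only [pderiv_C_mul, map_sub, map_mul, eval_C]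
      ring
    rw [this]
    exact mul_ne_zero (pow_ne_zero _ ha) h3
  · filter_upwards [he] with z hz
    have : eval z (C a * P) * fderiv ℂ (fun s => u s ^ 2 + v s ^ 2) z (Pi.single 0 1) +
      eval z (C a * Q) * fderiv ℂ (fun s => u s ^ 2 + v s ^ 2) z (Pi.single 1 1) =
      a * (eval z P * fderiv ℂ (fun s => u s ^ 2 + v s ^ 2) z (Pi.single 0 1) +
      eval z Q * fderiv ℂ (fun s => u s ^ 2 + v s ^ 2) z (Pi.single 1 1)) := by
      simp only [map_mul, eval_C]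
      ring
    rw [this, hz, mul_zero]

theorem cen_smul {d : ℕ} {a : ℂ} (ha : a ≠ 0) (w : Frm d) (p : Fin 2 → ℂ) :
    HasCenterAt (fP (a • w)) (fQ (a • w)) p ↔ HasCenterAt (fP w) (fQ w) p := by
  rw [fP_smul, fQ_smul]
  refine ⟨fun h => ?_, cen_mul ha⟩
  have h2 := cen_mul (inv_ne_zero ha) h
  rw [← mul_assoc, ← mul_assoc, ← map_mul, inv_mul_cancel₀ ha, map_one, one_mul, one_mul] at h2
  exact h2

end FIN

open FIN in
/-- FIN -/
theorem t_FIN (h1 : S_COR) (h2 : S_EXU) (h3 : S_IRR) (h4 : S_FOP) : S_FIN := by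
  intro d hd X hX
  have hcl : IsClosed X := by
    have hle : closure X ≤ X := hX.le_of_ge
      ⟨hX.prop.1.closure, closure_minimal hX.prop.2 isClosed_closure⟩ subset_closure
    exact isClosed_of_closure_subset hle
  have hirr : IsIrreducible X := hX.prop.1
  obtain ⟨x₀, hx₀, w₀, hw₀, rfl, hr₀, hd₀, -⟩ := comp_meets hX
  obtain ⟨I, hI, hmem, hg⟩ := h3 d X hcl hirr
  obtain ⟨g, hgI, hst⟩ := h1 d (by omega) I hI w₀ ((hmem w₀ hw₀).1 hx₀) ⟨hr₀, hd₀⟩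
  obtain ⟨O₁, hO₁, hne₁, hO₁g⟩ := hg g hgI
  set O₂ : Set (ℙ ℂ (Frm d)) := {x : ℙ ℂ (Frm d) | ∃ (w : Frm d) (hw : w ≠ 0),
    x = Projectivization.mk ℂ w hw ∧ Fol w} with hO₂def
  have hO₂ : IsOpen O₂ := h4 d (by omega)
  have hne₂ : (X ∩ O₂).Nonempty := ⟨_, hx₀, w₀, hw₀, rfl, hr₀, hd₀⟩
  have hne : (X ∩ (O₁ ∩ O₂)).Nonempty := hirr.2 O₁ O₂ hO₁ hO₂ hne₁ hne₂
  have hO : IsOpen (O₁ ∩ O₂) := hO₁.inter hO₂
  refine ⟨O₁ ∩ O₂, hO, ?_, ?_⟩
  · refine Set.Subset.antisymm (closure_minimal Set.inter_subset_left hcl) ?_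
    exact subset_closure_inter_of_isPreirreducible_of_isOpen hirr.2 hO hne
  · rintro w hw ⟨hwX, hwO₁, hwO₂⟩
    have hfol : Fol w := by
      obtain ⟨w', hw', he, hf⟩ := hwO₂
      obtain ⟨a, ha⟩ := (Projectivization.mk_eq_mk_iff' ℂ w w' hw hw').1 he
      have ha0 : a ≠ 0 := by
        rintro rfl
        rw [zero_smul] at ha
        exact hw ha.symm
      rw [← ha]
      exact fol_smul ha0 hf
    refine ⟨hfol, fun p hp => ?_⟩
    obtain ⟨t, ht, htg⟩ := hO₁g w hw hwO₁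
    have hvan : ∀ v : Frm d, (∃ h : v ≠ 0, Projectivization.mk ℂ v h ∈ X) →
        ∀ F ∈ I, eval (t • v) F = 0 := by
      rintro v ⟨hv, hvX⟩
      have htv : t • v ≠ 0 := smul_ne_zero ht hv
      refine (hmem (t • v) htv).1 ?_
      have : Projectivization.mk ℂ (t • v) htv = Projectivization.mk ℂ v hv :=
        (Projectivization.mk_eq_mk_iff' ℂ _ _ _ _).2 ⟨t, rfl⟩
      rw [this]
      exact hvX
    have hev := hst (t • w) (hvan w ⟨hw, hwX⟩) htg p ((cen_smul ht w p).2 hp)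
    intro c hc hc0 hcX
    obtain ⟨q, hq, hq0, hqs, hqu⟩ := h2 d w p ⟨hp.1, hp.2.1⟩ hp.2.2.1 c hc hc0
    refine ⟨q, hq, hq0, hqs, hqu, ?_⟩
    have hlim : Tendsto (fun ε : ℂ => (t • c ε, q ε)) (𝓝 0) (𝓝 (t • w, p)) := by
      have h5 : Tendsto (fun ε : ℂ => (t • c ε, q ε)) (𝓝 0) (𝓝 (t • c 0, q 0)) :=
        ((hc.continuousAt.const_smul t).prodMk hq.continuousAt)
      rwa [hc0, hq0] at h5
    filter_upwards [hlim.eventually hev, hcX, hqs] with ε h6 h7 h8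
    exact (cen_smul ht (c ε) (q ε)).1 (h6 (hvan _ h7) (sng_smul t h8))

end Pool.Agent.N46.CS
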