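import Pool.Agent.N46.CS.Stm

set_option autoImplicit false

/-!
# The foliations of degree `d` form an open set (leaf FOP of project CS)

Worker: helper195.
-/

namespace Pool.Agent.N46.CS.FOP_

open MvPolynomial
open Pool.Agent.Y215.CC
open Pool.Agent.N46.CS
open scoped LinearAlgebra.Projectivization

/-- `(a, b) ↦ a P + b Q` is injective on the pairs of polynomials of degree `≤ d - 1` -/
def Inj {d : ℕ} (w : Frm d) : Prop := ∀ a b : MvPolynomial (Fin 2) ℂ, a.totalDegree ≤ d - 1 →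
  b.totalDegree ≤ d - 1 → a * fP w + b * fQ w = 0 → a = 0 ∧ b = 0

lemma aux (d : ℕ) (hd : 1 ≤ d) (P Q a b : MvPolynomial (Fin 2) ℂ) (hrel : IsRelPrime P Q)
    (hP : P.totalDegree = d) (hb : b.totalDegree ≤ d - 1) (h : a * P + b * Q = 0) :
    a = 0 ∧ b = 0 := by
  have hP0 : P ≠ 0 := by
    rintro rfl
    rw [totalDegree_zero] at hP
    omega
  have hdvd : P ∣ b * Q := ⟨-a, by linear_combination h⟩
  have hdvd2 : P ∣ b := hrel.dvd_of_dvd_mul_right hdvd
  by_cases hb0 : b = 0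
  · subst hb0
    rw [zero_mul, add_zero] at h
    exact ⟨(mul_eq_zero.1 h).resolve_right hP0, rfl⟩
  · obtain ⟨c, rfl⟩ := hdvd2
    have hc : c ≠ 0 := right_ne_zero_of_mul hb0
    rw [totalDegree_mul_of_isDomain hP0 hc] at hb
    omega

lemma inj_of_fol {d : ℕ} (hd : 1 ≤ d) {w : Frm d} (h : Fol w) : Inj w := by
  obtain ⟨h1, h2⟩ := h
  intro a b ha hb hab
  rcases le_total (fP w).totalDegree (fQ w).totalDegree with hle | hle
  · rw [max_eq_right hle] at h2
    have := aux d hd (fQ w) (fP w) b a h1.symm h2 ha (by rw [add_comm]; exact hab)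
    exact this.symm
  · rw [max_eq_left hle] at h2
    exact aux d hd (fP w) (fQ w) a b h1 h2 hb hab

lemma fP_zero {d : ℕ} : fP (0 : Frm d) = 0 := by simp [fP, poly]

lemma fQ_zero {d : ℕ} : fQ (0 : Frm d) = 0 := by simp [fQ, poly]

lemma deg_factor {d : ℕ} {P h P' : MvPolynomial (Fin 2) ℂ} (hP : P.totalDegree ≤ d)
    (hPh : P = h * P') (hh : h ≠ 0) (hd : 1 ≤ h.totalDegree) : P'.totalDegree ≤ d - 1 := by
  by_cases h0 : P' = 0
  · rw [h0, totalDegree_zero]
    exact Nat.zero_le _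
  · rw [hPh, totalDegree_mul_of_isDomain hh h0] at hP
    omega

lemma fol_of_inj {d : ℕ} {w : Frm d} (hw : w ≠ 0) (h : Inj w) : Fol w := by
  have hne : ¬ (fP w = 0 ∧ fQ w = 0) := by
    rintro ⟨h1, h2⟩
    exact hw (frm_ext (by rw [h1, fP_zero]) (by rw [h2, fQ_zero]))
  have hPd : (fP w).totalDegree ≤ d := deg_poly _
  have hQd : (fQ w).totalDegree ≤ d := deg_poly _
  constructor
  · intro t ht1 ht2
    obtain ⟨P', hP'⟩ := ht1
    obtain ⟨Q', hQ'⟩ := ht2
    have ht0 : t ≠ 0 := by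
      rintro rfl
      exact hne ⟨by rw [hP', zero_mul], by rw [hQ', zero_mul]⟩
    rcases Nat.eq_zero_or_pos t.totalDegree with hdeg | hdeg
    · rw [totalDegree_eq_zero_iff_eq_C] at hdeg
      rw [hdeg]
      have hc : coeff 0 t ≠ 0 := by
        intro h0
        rw [h0, C_0] at hdeg
        exact ht0 hdeg
      exact (isUnit_iff_ne_zero.2 hc).map C
    · exfalso
      have e1 := deg_factor hPd hP' ht0 hdeg
      have e2 := deg_factor hQd hQ' ht0 hdeg
      have e3 : Q' * fP w + (-P') * fQ w = 0 := by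
        rw [hP', hQ']
        ring
      obtain ⟨h1, h2⟩ := h Q' (-P') e2 (by rw [totalDegree_neg]; exact e1) e3
      rw [neg_eq_zero] at h2
      exact hne ⟨by rw [hP', h2, mul_zero], by rw [hQ', h1, mul_zero]⟩
  · by_contra hcon
    have hlt : (fP w).totalDegree ≤ d - 1 ∧ (fQ w).totalDegree ≤ d - 1 := by
      have := max_le hPd hQd
      have h3 : max (fP w).totalDegree (fQ w).totalDegree < d := lt_of_le_of_ne this hcon
      rw [max_lt_iff] at h3
      omega
    obtain ⟨h1, h2⟩ := h (fQ w) (-fP w) hlt.2 (by rw [totalDegree_neg]; exact hlt.1) (by ring)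
    rw [neg_eq_zero] at h2
    exact hne ⟨h2, h1⟩

lemma fol_iff {d : ℕ} (hd : 1 ≤ d) {w : Frm d} (hw : w ≠ 0) : Fol w ↔ Inj w :=
  ⟨inj_of_fol hd, fol_of_inj hw⟩

lemma fP_smul {d : ℕ} (a : ℂ) (w : Frm d) : fP (a • w) = C a * fP w := by
  simp [fP, poly, Finset.mul_sum, mul_assoc]

lemma fQ_smul {d : ℕ} (a : ℂ) (w : Frm d) : fQ (a • w) = C a * fQ w := by
  simp [fQ, poly, Finset.mul_sum, mul_assoc]

lemma inj_smul {d : ℕ} (t : ℂ) (ht : t ≠ 0) {w : Frm d} (h : Inj w) : Inj (t • w) := by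
  intro a b ha hb hab
  rw [fP_smul, fQ_smul] at hab
  apply h a b ha hb
  have h1 : C t * (a * fP w + b * fQ w) = 0 := by
    rw [← hab]
    ring
  have h2 : (C t : MvPolynomial (Fin 2) ℂ) ≠ 0 := by
    rw [Ne, C_eq_zero]
    exact ht
  exact (mul_eq_zero.1 h1).resolve_left h2

lemma mem_iff {d : ℕ} (hd : 1 ≤ d) (v : Frm d) (hv : v ≠ 0) :
    (Projectivization.mk ℂ v hv ∈ {x : ℙ ℂ (Frm d) | ∃ (w : Frm d) (hw : w ≠ 0),
      x = Projectivization.mk ℂ w hw ∧ Fol w}) ↔ Inj v := by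
  constructor
  · rintro ⟨w, hw, h1, h2⟩
    rw [Projectivization.mk_eq_mk_iff'] at h1
    obtain ⟨a, ha⟩ := h1
    rw [← ha]
    apply inj_smul
    · rintro rfl
      rw [zero_smul] at ha
      exact hv ha.symm
    · exact inj_of_fol hd h2
  · intro h
    exact ⟨v, hv, rfl, fol_of_inj hv h⟩

/-! ### the matrix -/

/-- the generic matrix -/
noncomputable def Lm (d : ℕ) :
    Matrix (Ex (2 * d - 1)) (Fin 2 × Ex (d - 1)) (MvPolynomial (Fin 2 × Ex d) ℂ) :=
  fun m ie => ∑ e' : Ex d, if mon ie.2 + mon e' = mon m then X (ie.1, e') else 0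

/-- the matrix of the form `w` -/
noncomputable def Mt {d : ℕ} (w : Frm d) : Matrix (Ex (2 * d - 1)) (Fin 2 × Ex (d - 1)) ℂ :=
  fun m ie => ∑ e' : Ex d, if mon ie.2 + mon e' = mon m then w (ie.1, e') else 0

lemma Lm_eval {d : ℕ} (w : Frm d) (m : Ex (2 * d - 1)) (ie : Fin 2 × Ex (d - 1)) :
    eval w (Lm d m ie) = Mt w m ie := by
  simp only [Lm, Mt, map_sum]
  apply Finset.sum_congr rfl
  intro e _
  split_ifs
  · rw [eval_X]
  · rw [map_zero]

lemma Lm_hom {d : ℕ} (m : Ex (2 * d - 1)) (ie : Fin 2 × Ex (d - 1)) :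
    (Lm d m ie).IsHomogeneous 1 := by
  unfold Lm
  apply IsHomogeneous.sum
  intro e _
  split_ifs
  · exact isHomogeneous_X _ _
  · exact isHomogeneous_zero _ _ _

lemma Mt_coeff {d : ℕ} (w : Frm d) (m : Ex (2 * d - 1)) (ie : Fin 2 × Ex (d - 1)) (c : ℂ) :
    Mt w m ie * c = coeff (mon m) (monomial (mon ie.2) c * poly (fun e => w (ie.1, e))) := by
  classical
  unfold Mt poly
  rw [Finset.sum_mul, Finset.mul_sum, coeff_sum]
  apply Finset.sum_congr rfl
  intro e _
  rw [term_eq, monomial_mul, coeff_monomial]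
  split_ifs
  · ring
  · rw [zero_mul]

lemma Mt_mulVec {d : ℕ} (w : Frm d) (v : Frm (d - 1)) (m : Ex (2 * d - 1)) :
    (Mt w).mulVec v m = coeff (mon m) (fP v * fP w + fQ v * fQ w) := by
  have h1 : fP v * fP w + fQ v * fQ w =
      ∑ ie : Fin 2 × Ex (d - 1), monomial (mon ie.2) (v ie) * poly (fun e => w (ie.1, e)) := by
    rw [Fintype.sum_prod_type, Fin.sum_univ_two]
    simp only
    rw [← Finset.sum_mul, ← Finset.sum_mul]
    unfold fP fQ
    congr 2
    · unfold poly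
      exact Finset.sum_congr rfl fun e _ => term_eq _ _
    · unfold poly
      exact Finset.sum_congr rfl fun e _ => term_eq _ _
  rw [h1, coeff_sum]
  unfold Matrix.mulVec dotProduct
  exact Finset.sum_congr rfl fun ie _ => Mt_coeff w m ie (v ie)

lemma deg_prod {d : ℕ} (hd : 1 ≤ d) (w : Frm d) (v : Frm (d - 1)) :
    (fP v * fP w + fQ v * fQ w).totalDegree ≤ 2 * d - 1 := by
  have h1 : (fP v).totalDegree ≤ d - 1 := deg_poly _
  have h2 : (fQ v).totalDegree ≤ d - 1 := deg_poly _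
  have h3 : (fP w).totalDegree ≤ d := deg_poly _
  have h4 : (fQ w).totalDegree ≤ d := deg_poly _
  refine (totalDegree_add _ _).trans (max_le ?_ ?_)
  · refine (totalDegree_mul _ _).trans ?_
    omega
  · refine (totalDegree_mul _ _).trans ?_
    omega

lemma inj_iff {d : ℕ} (hd : 1 ≤ d) (w : Frm d) :
    Inj w ↔ ∀ v : Frm (d - 1), (Mt w).mulVec v = 0 → v = 0 := by
  constructor
  · intro h v hv
    have h1 : fP v * fP w + fQ v * fQ w = 0 := by
      rw [← poly_coeff _ (deg_prod hd w v)]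
      have : (fun e : Ex (2 * d - 1) => coeff (mon e) (fP v * fP w + fQ v * fQ w)) =
          fun _ => 0 := by
        funext e
        rw [← Mt_mulVec, hv]
        rfl
      rw [this]
      simp [poly]
    obtain ⟨h2, h3⟩ := h (fP v) (fQ v) (deg_poly _) (deg_poly _) h1
    exact frm_ext (by rw [h2, fP_zero]) (by rw [h3, fQ_zero])
  · intro h a b ha hb hab
    have h1 : (Mt w).mulVec (enc (d - 1) a b) = 0 := by
      funext m
      rw [Mt_mulVec, fP_enc a b ha, fQ_enc a b hb, hab]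
      simp
    have h2 := h _ h1
    have h3 := fP_enc a b ha
    have h4 := fQ_enc a b hb
    rw [h2] at h3 h4
    rw [fP_zero] at h3
    rw [fQ_zero] at h4
    exact ⟨h3.symm, h4.symm⟩

/-- the polynomial attached to a matrix `B` -/
noncomputable def DB (d : ℕ) (B : Matrix (Fin 2 × Ex (d - 1)) (Ex (2 * d - 1)) ℂ) :
    MvPolynomial (Fin 2 × Ex d) ℂ :=
  (B.map (C : ℂ → MvPolynomial (Fin 2 × Ex d) ℂ) * Lm d).det

lemma eval_DB {d : ℕ} (w : Frm d) (B : Matrix (Fin 2 × Ex (d - 1)) (Ex (2 * d - 1)) ℂ) :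
    eval w (DB d B) = (B * Mt w).det := by
  unfold DB
  rw [RingHom.map_det]
  congr 1
  ext i j
  rw [RingHom.mapMatrix_apply, Matrix.map_apply, Matrix.mul_apply, Matrix.mul_apply, map_sum]
  apply Finset.sum_congr rfl
  intro m _
  rw [map_mul, Matrix.map_apply, eval_C, Lm_eval]

lemma hom_DB (d : ℕ) (B : Matrix (Fin 2 × Ex (d - 1)) (Ex (2 * d - 1)) ℂ) :
    ∃ m, (DB d B).IsHomogeneous m := by
  have hent : ∀ i j, ((B.map (C : ℂ → MvPolynomial (Fin 2 × Ex d) ℂ) * Lm d) i j).IsHomogeneous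
      1 := by
    intro i j
    rw [Matrix.mul_apply]
    apply IsHomogeneous.sum
    intro m _
    rw [Matrix.map_apply]
    have := (isHomogeneous_C (Fin 2 × Ex d) (B i m)).mul (Lm_hom m j)
    rw [zero_add] at this
    exact this
  refine ⟨∑ i : Fin 2 × Ex (d - 1), 1, ?_⟩
  unfold DB
  rw [Matrix.det_apply]
  apply IsHomogeneous.sum
  intro σ _
  have h1 : (∏ i, (B.map (C : ℂ → MvPolynomial (Fin 2 × Ex d) ℂ) * Lm d) (σ i) i).IsHomogeneous
      (∑ i : Fin 2 × Ex (d - 1), 1) := by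
    apply IsHomogeneous.prod
    intro i _
    exact hent (σ i) i
  rcases Int.units_eq_one_or (Equiv.Perm.sign σ) with h | h
  · rw [h, one_smul]
    exact h1
  · rw [h, Units.neg_smul, one_smul]
    exact h1.neg

lemma inj_iff_DB {d : ℕ} (hd : 1 ≤ d) (w : Frm d) : Inj w ↔ ∃ B, eval w (DB d B) ≠ 0 := by
  rw [inj_iff hd]
  constructor
  · intro h
    have hker : LinearMap.ker (Matrix.toLin' (Mt w)) = ⊥ := by
      rw [LinearMap.ker_eq_bot']
      intro v hv
      exact h v (by rw [← Matrix.toLin'_apply]; exact hv)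
    obtain ⟨g, hg⟩ := (Matrix.toLin' (Mt w)).exists_leftInverse_of_injective hker
    refine ⟨LinearMap.toMatrix' g, ?_⟩
    rw [eval_DB]
    have h1 : LinearMap.toMatrix' g * Mt w = 1 := by
      have h2 := congrArg LinearMap.toMatrix' hg
      rw [LinearMap.toMatrix'_comp, LinearMap.toMatrix'_toLin', LinearMap.toMatrix'_id] at h2
      exact h2
    rw [h1, Matrix.det_one]
    exact one_ne_zero
  · rintro ⟨B, hB⟩ v hv
    rw [eval_DB] at hB
    apply Matrix.eq_zero_of_mulVec_eq_zero hB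
    rw [← Matrix.mulVec_mulVec, hv, Matrix.mulVec_zero]

end Pool.Agent.N46.CS.FOP_

namespace Pool.Agent.N46.CS

open MvPolynomial
open Pool.Agent.Y215.CC
open scoped LinearAlgebra.Projectivization

theorem t_FOP : S_FOP := by
  intro d hd
  rw [← isClosed_compl_iff, isClosed_iff]
  refine ⟨Set.range (FOP_.DB d), ?_, ?_⟩
  · rintro _ ⟨B, rfl⟩
    exact FOP_.hom_DB d B
  · intro v hv
    rw [Set.mem_compl_iff, FOP_.mem_iff hd v hv, FOP_.inj_iff_DB hd]
    push Not
    constructor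
    · rintro h _ ⟨B, rfl⟩
      exact h B
    · intro h B
      exact h _ ⟨B, rfl⟩

end Pool.Agent.N46.CS
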