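import Mathlib
import Pool.Agent.N46.CS.Stm

set_option autoImplicit false

/-!
# Stability of centers (MP_d6d6e6_ag), leaf GCO: generic coprimality (helper341)
-/

namespace Pool.Agent.N46.CS

open MvPolynomial

namespace GCO

/-- exponents of total degree less than `d` -/
abbrev E2 (d : ℕ) : Type := {e : Fin 2 →₀ ℕ // e 0 + e 1 < d}

instance (d : ℕ) : Finite (E2 d) := by
  let f : E2 d → Fin d × Fin d := fun e =>
    (⟨e.1 0, by have := e.2; omega⟩, ⟨e.1 1, by have := e.2; omega⟩)
  apply Finite.of_injective f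
  intro a b h
  apply Subtype.ext
  ext i
  have h0 : a.1 0 = b.1 0 := congrArg (fun p => (p.1 : ℕ)) h
  have h1 : a.1 1 = b.1 1 := congrArg (fun p => (p.2 : ℕ)) h
  fin_cases i
  · exact h0
  · exact h1

noncomputable instance (d : ℕ) : Fintype (E2 d) := Fintype.ofFinite _

theorem sum_supp (m : Fin 2 →₀ ℕ) : ∑ i ∈ m.support, m i = m 0 + m 1 := by
  have h : ∑ i ∈ m.support, m i = ∑ i, m i := by
    apply Finset.sum_subset (Finset.subset_univ _)
    intro i _ hi
    exact Finsupp.notMem_support_iff.mp hi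
  rw [h, Fin.sum_univ_two]

section Ring

variable {R : Type} [CommRing R]

/-- the polynomial with given coefficients -/
noncomputable def pol (d : ℕ) (c : E2 d → R) : MvPolynomial (Fin 2) R :=
  ∑ e : E2 d, monomial e.1 (c e)

theorem coeff_pol (d : ℕ) (c : E2 d → R) (e : E2 d) : coeff e.1 (pol d c) = c e := by
  classical
  unfold pol
  rw [coeff_sum, Finset.sum_eq_single e]
  · rw [coeff_monomial, if_pos rfl]
  · intro b _ hb
    rw [coeff_monomial, if_neg]
    intro h
    exact hb (Subtype.ext h)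
  · intro h
    exact absurd (Finset.mem_univ e) h

theorem coeff_pol_ne (d : ℕ) (c : E2 d → R) (m : Fin 2 →₀ ℕ) (h : ¬ m 0 + m 1 < d) :
    coeff m (pol d c) = 0 := by
  classical
  unfold pol
  rw [coeff_sum]
  apply Finset.sum_eq_zero
  intro b _
  rw [coeff_monomial, if_neg]
  intro hb
  apply h
  rw [← hb]
  exact b.2

theorem deg_pol (d : ℕ) (c : E2 d → R) : (pol d c).totalDegree ≤ d - 1 := by
  unfold pol
  apply totalDegree_finsetSum_le
  intro e _
  refine (totalDegree_monomial_le e.1 (c e)).trans ?_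
  have h := sum_supp e.1
  have h2 := e.2
  have h3 : (e.1.sum fun _ => id) = ∑ i ∈ e.1.support, e.1 i := rfl
  rw [h3, h]
  omega

theorem coeff_big (m : Fin 2 →₀ ℕ) (a : MvPolynomial (Fin 2) R) (h : a.totalDegree < m 0 + m 1) :
    coeff m a = 0 := by
  apply coeff_eq_zero_of_totalDegree_lt
  rw [sum_supp]
  exact h

theorem pol_coeff (d : ℕ) (a : MvPolynomial (Fin 2) R) (h : a.totalDegree < d) :
    pol d (fun e => coeff e.1 a) = a := by
  ext m
  by_cases hm : m 0 + m 1 < d
  · exact coeff_pol d (fun e => coeff e.1 a) ⟨m, hm⟩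
  · rw [coeff_pol_ne d _ m hm, coeff_big m a (by omega)]

/-- the matrix of `(a, b) ↦ a P + b Q` -/
noncomputable def mat (d : ℕ) (P Q : MvPolynomial (Fin 2) R) :
    Matrix (E2 (2 * d)) (E2 d ⊕ E2 d) R :=
  fun m x => Sum.elim (fun e => coeff m.1 (monomial e.1 1 * P))
    (fun e => coeff m.1 (monomial e.1 1 * Q)) x

theorem mat_map {S : Type} [CommRing S] (f : R →+* S) (d : ℕ) (P Q : MvPolynomial (Fin 2) R) :
    (mat d P Q).map f = mat d (map f P) (map f Q) := by
  ext m x
  rcases x with e | e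
  · simp only [mat, Matrix.map_apply, Sum.elim_inl]
    rw [← coeff_map, map_mul, map_monomial, map_one]
  · simp only [mat, Matrix.map_apply, Sum.elim_inr]
    rw [← coeff_map, map_mul, map_monomial, map_one]

theorem pol_mul (d : ℕ) (c : E2 d → R) (P : MvPolynomial (Fin 2) R) (m : Fin 2 →₀ ℕ) :
    ∑ e : E2 d, coeff m (monomial e.1 1 * P) * c e = coeff m (pol d c * P) := by
  unfold pol
  rw [Finset.sum_mul, coeff_sum]
  apply Finset.sum_congr rfl
  intro e _
  have h : (monomial e.1 (c e) : MvPolynomial (Fin 2) R) * P =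
      C (c e) * (monomial e.1 1 * P) := by
    rw [← mul_assoc, C_mul_monomial, mul_one]
  rw [h, coeff_C_mul, mul_comm]

theorem mat_mulVec (d : ℕ) (P Q : MvPolynomial (Fin 2) R) (c : E2 d ⊕ E2 d → R)
    (m : E2 (2 * d)) : (mat d P Q).mulVec c m =
      coeff m.1 (pol d (fun e => c (Sum.inl e)) * P + pol d (fun e => c (Sum.inr e)) * Q) := by
  rw [coeff_add, ← pol_mul, ← pol_mul]
  simp only [Matrix.mulVec, dotProduct, Fintype.sum_sum_type, mat, Sum.elim_inl, Sum.elim_inr]

theorem mat_zero (d : ℕ) (hd : 1 ≤ d) (P Q : MvPolynomial (Fin 2) R) (hP : P.totalDegree ≤ d)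
    (hQ : Q.totalDegree ≤ d) (c : E2 d ⊕ E2 d → R) (h : (mat d P Q).mulVec c = 0) :
    pol d (fun e => c (Sum.inl e)) * P + pol d (fun e => c (Sum.inr e)) * Q = 0 := by
  ext m
  by_cases hm : m 0 + m 1 < 2 * d
  · have h1 := congrFun h ⟨m, hm⟩
    rw [mat_mulVec] at h1
    exact h1
  · rw [coeff_zero]
    apply coeff_big
    have h1 := deg_pol d (fun e => c (Sum.inl e))
    have h2 := deg_pol d (fun e => c (Sum.inr e))
    have h3 := totalDegree_mul (pol d (fun e => c (Sum.inl e))) P
    have h4 := totalDegree_mul (pol d (fun e => c (Sum.inr e))) Q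
    have h5 := totalDegree_add (pol d (fun e => c (Sum.inl e)) * P)
      (pol d (fun e => c (Sum.inr e)) * Q)
    have h6 : max (pol d (fun e => c (Sum.inl e)) * P).totalDegree
        (pol d (fun e => c (Sum.inr e)) * Q).totalDegree ≤ 2 * d - 1 := by
      apply max_le
      · omega
      · omega
    omega

end Ring

theorem deg_map {R S : Type} [CommRing R] [CommRing S] (f : R →+* S)
    (P : MvPolynomial (Fin 2) R) : (map f P).totalDegree ≤ P.totalDegree := by
  unfold totalDegree
  exact Finset.sup_mono (support_map_subset f P)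

section Fld

variable {k : Type} [Field k]

theorem aux (d : ℕ) (P Q a b : MvPolynomial (Fin 2) k) (hd : 1 ≤ d) (hr : IsRelPrime P Q)
    (hP : P.totalDegree = d) (hb : b.totalDegree < d) (h : a * P + b * Q = 0) :
    a = 0 ∧ b = 0 := by
  have hP0 : P ≠ 0 := by
    rintro rfl
    rw [totalDegree_zero] at hP
    omega
  have h1 : P ∣ b * Q := by
    refine ⟨-a, ?_⟩
    linear_combination h
  have h2 : P ∣ b := hr.dvd_of_dvd_mul_right h1
  have hb0 : b = 0 := by
    by_contra hne
    have h3 := totalDegree_le_of_dvd_of_isDomain h2 hne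
    omega
  rw [hb0, zero_mul, add_zero] at h
  refine ⟨?_, hb0⟩
  rcases mul_eq_zero.mp h with h4 | h4
  · exact h4
  · exact absurd h4 hP0

theorem inj (d : ℕ) (P Q a b : MvPolynomial (Fin 2) k) (hd : 1 ≤ d) (hr : IsRelPrime P Q)
    (hm : max P.totalDegree Q.totalDegree = d) (ha : a.totalDegree < d) (hb : b.totalDegree < d)
    (h : a * P + b * Q = 0) : a = 0 ∧ b = 0 := by
  rcases max_choice P.totalDegree Q.totalDegree with h1 | h1
  · exact aux d P Q a b hd hr (by rw [← h1, hm]) hb h
  · have h2 := aux d Q P b a hd hr.symm (by rw [← h1, hm]) ha (by rw [add_comm]; exact h)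
    exact ⟨h2.2, h2.1⟩

theorem pol_zero (d : ℕ) (c : E2 d → k) (h : pol d c = 0) : c = 0 := by
  funext e
  rw [← coeff_pol d c e, h, coeff_zero]
  rfl

theorem mat_inj (d : ℕ) (P Q : MvPolynomial (Fin 2) k) (hd : 1 ≤ d) (hr : IsRelPrime P Q)
    (hm : max P.totalDegree Q.totalDegree = d) (c : E2 d ⊕ E2 d → k)
    (h : (mat d P Q).mulVec c = 0) : c = 0 := by
  have hP : P.totalDegree ≤ d := by rw [← hm]; exact le_max_left _ _
  have hQ : Q.totalDegree ≤ d := by rw [← hm]; exact le_max_right _ _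
  have h1 := mat_zero d hd P Q hP hQ c h
  have h2 := deg_pol d (fun e => c (Sum.inl e))
  have h3 := deg_pol d (fun e => c (Sum.inr e))
  obtain ⟨h4, h5⟩ := inj d P Q _ _ hd hr hm (by omega) (by omega) h1
  have h6 := pol_zero d _ h4
  have h7 := pol_zero d _ h5
  funext x
  rcases x with e | e
  · exact congrFun h6 e
  · exact congrFun h7 e

/-- an injective matrix over a field has a left inverse -/
theorem left_inv {m n : Type} [Fintype m] [Fintype n] [DecidableEq m] [DecidableEq n]
    (M : Matrix m n k) (h : ∀ c, M.mulVec c = 0 → c = 0) : ∃ B : Matrix n m k, B * M = 1 := by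
  have hk : LinearMap.ker (Matrix.toLin' M) = ⊥ := by
    rw [LinearMap.ker_eq_bot']
    intro c hc
    apply h
    rw [← Matrix.toLin'_apply]
    exact hc
  obtain ⟨g, hg⟩ := LinearMap.exists_leftInverse_of_injective (Matrix.toLin' M) hk
  refine ⟨LinearMap.toMatrix' g, ?_⟩
  have h1 := congrArg LinearMap.toMatrix' hg
  rw [LinearMap.toMatrix'_comp, LinearMap.toMatrix'_toLin', LinearMap.toMatrix'_id] at h1
  exact h1

end Fld

end GCO

open GCO in
theorem t_GCO : S_GCO := by
  intro A _ _ _ K _ _ hinj d hd P Q hP hQ φ hr hm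
  classical
  obtain ⟨B, hB⟩ := left_inv (mat d (map (φ : A →+* ℂ) P) (map (φ : A →+* ℂ) Q))
    (fun c hc => mat_inj d _ _ hd hr hm c hc)
  set N : Matrix (E2 d ⊕ E2 d) (E2 d ⊕ E2 d) A := B.map (algebraMap ℂ A) * mat d P Q with hN
  have hNφ : N.map (φ : A →+* ℂ) = 1 := by
    rw [hN, Matrix.map_mul, mat_map, ← hB]
    congr 1
    ext i j
    simp
  have hdet : N.det ≠ 0 := by
    intro h0
    have h1 := RingHom.map_det (φ : A →+* ℂ) N
    rw [RingHom.mapMatrix_apply, hNφ, Matrix.det_one, h0, map_zero] at h1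
    exact zero_ne_one h1
  have hdetK : (N.map (algebraMap A K)).det ≠ 0 := by
    rw [← RingHom.mapMatrix_apply, ← RingHom.map_det]
    intro h
    apply hdet
    apply hinj
    rw [h, map_zero]
  have hK : ∀ c, (mat d (map (algebraMap A K) P) (map (algebraMap A K) Q)).mulVec c = 0 →
      c = 0 := by
    intro c hc
    apply Matrix.eq_zero_of_mulVec_eq_zero hdetK
    rw [hN, Matrix.map_mul, mat_map, ← Matrix.mulVec_mulVec, hc, Matrix.mulVec_zero]
  have hPK : (map (algebraMap A K) P).totalDegree ≤ d := (GCO.deg_map _ P).trans hP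
  have hQK : (map (algebraMap A K) Q).totalDegree ≤ d := (GCO.deg_map _ Q).trans hQ
  set PK := map (algebraMap A K) P with hPKd
  set QK := map (algebraMap A K) Q with hQKd
  have hpoly : ∀ a b : MvPolynomial (Fin 2) K, a.totalDegree < d → b.totalDegree < d →
      a * PK + b * QK = 0 → a = 0 ∧ b = 0 := by
    intro a b ha hb hab
    have h1 := hK (Sum.elim (fun e => coeff e.1 a) (fun e => coeff e.1 b)) (by
      funext m
      rw [mat_mulVec]
      simp only [Sum.elim_inl, Sum.elim_inr]
      rw [pol_coeff d a ha, pol_coeff d b hb, hab, coeff_zero]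
      rfl)
    constructor
    · rw [← pol_coeff d a ha]
      have : (fun e : E2 d => coeff e.1 a) = 0 := by
        funext e
        exact congrFun h1 (Sum.inl e)
      rw [this]
      simp [pol]
    · rw [← pol_coeff d b hb]
      have : (fun e : E2 d => coeff e.1 b) = 0 := by
        funext e
        exact congrFun h1 (Sum.inr e)
      rw [this]
      simp [pol]
  have hne : ¬ (PK = 0 ∧ QK = 0) := by
    rintro ⟨h1, h2⟩
    have hmi : Function.Injective (map (σ := Fin 2) (algebraMap A K)) := map_injective _ hinj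
    have h3 : P = 0 := hmi (by rw [map_zero]; exact h1)
    have h4 : Q = 0 := hmi (by rw [map_zero]; exact h2)
    rw [h3, h4, map_zero, totalDegree_zero, max_self] at hm
    omega
  intro h h1 h2
  obtain ⟨P', hP'⟩ := h1
  obtain ⟨Q', hQ'⟩ := h2
  have hh : h ≠ 0 := by
    rintro rfl
    apply hne
    rw [hP', hQ', zero_mul, zero_mul]
    exact ⟨rfl, rfl⟩
  by_cases hdeg : h.totalDegree = 0
  · rw [totalDegree_eq_zero_iff_eq_C] at hdeg
    rw [hdeg]
    have hc : coeff 0 h ≠ 0 := by
      intro hc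
      apply hh
      rw [hdeg, hc, C_0]
    exact (isUnit_iff_ne_zero.mpr hc).map C
  · exfalso
    have hd1 : ∀ F F' : MvPolynomial (Fin 2) K, F.totalDegree ≤ d → F = h * F' →
        F'.totalDegree < d := by
      intro F F' hF hFF
      by_cases hF0 : F' = 0
      · rw [hF0, totalDegree_zero]; omega
      · rw [hFF, totalDegree_mul_of_isDomain hh hF0] at hF
        omega
    have e1 := hd1 PK P' hPK hP'
    have e2 := hd1 QK Q' hQK hQ'
    have e3 := hpoly Q' (-P') e2 (by rw [totalDegree_neg]; exact e1) (by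
      rw [hP', hQ']; ring)
    apply hne
    have e4 : P' = 0 := neg_eq_zero.mp e3.2
    rw [hP', hQ', e3.1, e4, mul_zero]
    exact ⟨rfl, rfl⟩

end Pool.Agent.N46.CS
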