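import Mathlib
import Pool.Agent.N46.CS.Stm

set_option autoImplicit false

/-!
# CS/IRR (helper491): the ideal of an irreducible closed set is prime and defines it
-/

namespace Pool.Agent.N46.CS

namespace IRR

open MvPolynomial Pool.Agent.Y215.CC
open scoped LinearAlgebra.Projectivization

variable {ι : Type}

/-- values of homogeneous polynomials -/
theorem eval_smul_hom {F : MvPolynomial ι ℂ} {m : ℕ} (hF : F.IsHomogeneous m) (t : ℂ)
    (w : ι → ℂ) : eval (t • w) F = t ^ m * eval w F := by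
  rw [eval_eq, eval_eq, Finset.mul_sum]
  refine Finset.sum_congr rfl fun d hd => ?_
  have hd' : coeff d F ≠ 0 := by rwa [mem_support_iff] at hd
  have h1 : ∑ i ∈ d.support, d i = m := by
    have := hF hd'
    simpa [Finsupp.weight_apply, Finsupp.sum] using this
  simp only [Pi.smul_apply, smul_eq_mul, mul_pow, Finset.prod_mul_distrib,
    Finset.prod_pow_eq_pow_sum]
  rw [h1]
  ring

/-- `F (t w)` as a polynomial in `t` -/
noncomputable def pol (F : MvPolynomial ι ℂ) (w : ι → ℂ) : Polynomial ℂ :=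
  ∑ i ∈ Finset.range (F.totalDegree + 1),
    Polynomial.C (eval w (homogeneousComponent i F)) * Polynomial.X ^ i

theorem eval_pol (F : MvPolynomial ι ℂ) (w : ι → ℂ) (t : ℂ) :
    (pol F w).eval t = eval (t • w) F := by
  conv_rhs => rw [← sum_homogeneousComponent F]
  rw [map_sum, pol, Polynomial.eval_finsetSum]
  refine Finset.sum_congr rfl fun i _ => ?_
  rw [eval_smul_hom (homogeneousComponent_isHomogeneous i F), Polynomial.eval_mul,
    Polynomial.eval_C, Polynomial.eval_pow, Polynomial.eval_X, mul_comm]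

theorem coeff_pol (F : MvPolynomial ι ℂ) (w : ι → ℂ) (i : ℕ) :
    (pol F w).coeff i = eval w (homogeneousComponent i F) := by
  rw [pol, Polynomial.finsetSum_coeff]
  simp only [Polynomial.coeff_C_mul, Polynomial.coeff_X_pow]
  rw [Finset.sum_eq_single i]
  · simp
  · intro b _ hb
    rw [if_neg (Ne.symm hb), mul_zero]
  · intro hi
    rw [Finset.mem_range, not_lt] at hi
    rw [homogeneousComponent_eq_zero _ _ (by omega)]
    simp

theorem pol_zero_of {F : MvPolynomial ι ℂ} {w : ι → ℂ}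
    (h : ∀ t : ℂ, t ≠ 0 → eval (t • w) F = 0) : pol F w = 0 := by
  apply Polynomial.eq_zero_of_infinite_isRoot
  refine Set.Infinite.mono ?_ (Set.Finite.infinite_compl (Set.finite_singleton (0 : ℂ)))
  intro t ht
  change Polynomial.IsRoot _ t
  rw [Polynomial.IsRoot.def, eval_pol]
  exact h t ht

/-- the zero locus -/
def zl (S : Set (MvPolynomial ι ℂ)) : Set (ℙ ℂ (ι → ℂ)) := {x | ∀ F ∈ S, eval x.rep F = 0}

theorem mem_zl {S : Set (MvPolynomial ι ℂ)} (hS : ∀ F ∈ S, ∃ m, F.IsHomogeneous m) (v : ι → ℂ)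
    (hv : v ≠ 0) : Projectivization.mk ℂ v hv ∈ zl S ↔ ∀ F ∈ S, eval v F = 0 := by
  obtain ⟨a, ha⟩ := Projectivization.exists_smul_eq_mk_rep ℂ v hv
  change (∀ F ∈ S, eval (Projectivization.mk ℂ v hv).rep F = 0) ↔ _
  rw [← ha]
  refine forall₂_congr fun F hF => ?_
  obtain ⟨m, hm⟩ := hS F hF
  rw [Units.smul_def, eval_smul_hom hm, mul_eq_zero, or_iff_right (pow_ne_zero _ a.ne_zero)]

theorem isClosed_zl {S : Set (MvPolynomial ι ℂ)} (hS : ∀ F ∈ S, ∃ m, F.IsHomogeneous m) :
    IsClosed (zl S) :=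
  (isClosed_iff _).2 ⟨S, hS, fun v hv => mem_zl hS v hv⟩

/-- the set of the homogeneous components -/
def hs (F : MvPolynomial ι ℂ) : Set (MvPolynomial ι ℂ) := Set.range fun i => homogeneousComponent i F

theorem hs_hom (F : MvPolynomial ι ℂ) : ∀ G ∈ hs F, ∃ m, G.IsHomogeneous m := by
  rintro _ ⟨i, rfl⟩
  exact ⟨i, homogeneousComponent_isHomogeneous i F⟩

/-- vanishing ideal (all polynomials vanishing on the cone minus the origin) -/
def vn (Z : Set (ℙ ℂ (ι → ℂ))) : Ideal (MvPolynomial ι ℂ) where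
  carrier := {F | ∀ (v : ι → ℂ) (hv : v ≠ 0), Projectivization.mk ℂ v hv ∈ Z → eval v F = 0}
  add_mem' := by
    intro a b ha hb v hv h
    rw [map_add, ha v hv h, hb v hv h, add_zero]
  zero_mem' := by
    intro v hv h
    rw [map_zero]
  smul_mem' := by
    intro c a ha v hv h
    rw [smul_eq_mul, map_mul, ha v hv h, mul_zero]

theorem mem_vn {Z : Set (ℙ ℂ (ι → ℂ))} {F : MvPolynomial ι ℂ} : F ∈ vn Z ↔
    ∀ (v : ι → ℂ) (hv : v ≠ 0), Projectivization.mk ℂ v hv ∈ Z → eval v F = 0 := Iff.rfl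

theorem mk_smul (v : ι → ℂ) (hv : v ≠ 0) (t : ℂ) (ht : t ≠ 0) :
    Projectivization.mk ℂ (t • v) (smul_ne_zero ht hv) = Projectivization.mk ℂ v hv := by
  rw [Projectivization.mk_eq_mk_iff']
  exact ⟨t, rfl⟩

theorem sub_zl {Z : Set (ℙ ℂ (ι → ℂ))} {F : MvPolynomial ι ℂ} (h : Z ⊆ zl (hs F)) : F ∈ vn Z := by
  rw [mem_vn]
  intro v hv hm
  have h1 := (mem_zl (hs_hom F) v hv).1 (h hm)
  rw [← sum_homogeneousComponent F, map_sum]
  exact Finset.sum_eq_zero fun i _ => h1 _ ⟨i, rfl⟩

theorem prime_vn {X : Set (ℙ ℂ (ι → ℂ))} (hX : IsIrreducible X) : (vn X).IsPrime := by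
  constructor
  · intro h
    rw [Ideal.eq_top_iff_one, mem_vn] at h
    obtain ⟨x, hx⟩ := hX.1
    induction x using Projectivization.ind with
    | h v hv =>
      have := h v hv hx
      simp at this
  · intro F G hFG
    have hirr := isPreirreducible_iff_isClosed_union_isClosed.1 hX.2 _ _
      (isClosed_zl (hs_hom F)) (isClosed_zl (hs_hom G)) ?_
    · exact hirr.imp sub_zl sub_zl
    · intro x hx
      induction x using Projectivization.ind with
      | h v hv =>
        have h0 : pol F v * pol G v = 0 := by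
          apply Polynomial.eq_zero_of_infinite_isRoot
          refine Set.Infinite.mono ?_ (Set.Finite.infinite_compl (Set.finite_singleton (0 : ℂ)))
          intro t ht
          change Polynomial.IsRoot _ t
          rw [Polynomial.IsRoot.def, Polynomial.eval_mul, eval_pol, eval_pol, ← map_mul]
          refine mem_vn.1 hFG (t • v) (smul_ne_zero ht hv) ?_
          rw [mk_smul v hv t ht]
          exact hx
        rcases mul_eq_zero.1 h0 with h1 | h1
        · left
          rw [mem_zl (hs_hom F)]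
          rintro _ ⟨i, rfl⟩
          change eval v (homogeneousComponent i F) = 0
          rw [← coeff_pol, h1, Polynomial.coeff_zero]
        · right
          rw [mem_zl (hs_hom G)]
          rintro _ ⟨i, rfl⟩
          change eval v (homogeneousComponent i G) = 0
          rw [← coeff_pol, h1, Polynomial.coeff_zero]

theorem main (X : Set (ℙ ℂ (ι → ℂ))) (hc : IsClosed X) (hX : IsIrreducible X) :
    ∃ I : Ideal (MvPolynomial ι ℂ), I.IsPrime ∧
      (∀ (w : ι → ℂ) (hw : w ≠ 0), Projectivization.mk ℂ w hw ∈ X ↔ ∀ F ∈ I, eval w F = 0) ∧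
      ∀ g : MvPolynomial ι ℂ, g ∉ I → ∃ O : Set (ℙ ℂ (ι → ℂ)), IsOpen O ∧
        (X ∩ O).Nonempty ∧ ∀ (w : ι → ℂ) (hw : w ≠ 0), Projectivization.mk ℂ w hw ∈ O →
          ∃ t : ℂ, t ≠ 0 ∧ eval (t • w) g ≠ 0 := by
  refine ⟨vn X, prime_vn hX, ?_, ?_⟩
  · intro w hw
    constructor
    · intro h F hF
      exact mem_vn.1 hF w hw h
    · intro h
      obtain ⟨S, -, hS⟩ := (isClosed_iff X).1 hc
      rw [hS]
      intro F hF
      exact h F (mem_vn.2 fun v hv hm => (hS v hv).1 hm F hF)
  · intro g hg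
    refine ⟨(zl (hs g))ᶜ, (isClosed_zl (hs_hom g)).isOpen_compl, ?_, ?_⟩
    · by_contra hne
      rw [Set.not_nonempty_iff_eq_empty, ← Set.sdiff_eq, Set.sdiff_eq_empty] at hne
      exact hg (sub_zl hne)
    · intro w hw hO
      by_contra hcon
      push Not at hcon
      apply hO
      have h0 := pol_zero_of hcon
      rw [mem_zl (hs_hom g)]
      rintro _ ⟨i, rfl⟩
      change eval w (homogeneousComponent i g) = 0
      rw [← coeff_pol, h0, Polynomial.coeff_zero]

end IRR

theorem t_IRR : S_IRR := fun _ X hc hX => IRR.main X hc hX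

end Pool.Agent.N46.CS
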