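import Pool.Agent.N46.CS.Stm

/-!
# Project CS, leaf NAT: naturality under ring homomorphisms (helper973)
-/

set_option autoImplicit false

namespace Pool.Agent.N46.CS

open MvPolynomial

namespace NAT

variable {R R' : Type} [CommRing R] [CommRing R'] (φ : R →+* R')

theorem van_map {n : ℕ} {F : MvPolynomial (Fin 2) R} (h : Van n F) : Van n (map φ F) := by
  intro e he
  rw [coeff_map, h e he, map_zero]

theorem lie_map (V : Fin 2 → MvPolynomial (Fin 2) R) (F : MvPolynomial (Fin 2) R) :
    map φ (lie V F) = lie (fun i => map φ (V i)) (map φ F) := by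
  simp only [lie, map_add, map_mul, pderiv_map]

theorem shf_map (z : Fin 2 → R) (M : Fin 2 → Fin 2 → R) (P : MvPolynomial (Fin 2) R) :
    map φ (shf z M P) = shf (fun i => φ (z i)) (fun i j => φ (M i j)) (map φ P) := by
  simp only [shf, map_bind₁, map_add, map_mul, map_C, map_X]

theorem isXY_map {F : MvPolynomial (Fin 2) R} (h : IsXY F) : IsXY (map φ F) := by
  have := van_map φ h
  simpa only [IsXY, map_sub, map_mul, map_X] using this

theorem obs_map {V : Fin 2 → MvPolynomial (Fin 2) R} {m : ℕ} {g : R} {F : MvPolynomial (Fin 2) R}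
    (h : Van (2 * m + 1) (lie V F - C g * (X 0 * X 1) ^ m)) :
    Van (2 * m + 1) (lie (fun i => map φ (V i)) (map φ F) - C (φ g) * (X 0 * X 1) ^ m) := by
  have := van_map φ h
  simpa only [map_sub, lie_map, map_mul, map_pow, map_C, map_X] using this

end NAT

theorem t_NAT : S_NAT := by
  intro R R' _ _ φ
  refine ⟨?_, ?_, ?_, ?_, ?_, ?_, ?_, ?_⟩
  · intro z M N V
    funext i
    simp only [tf, map_add, map_mul, map_C, NAT.shf_map]
  · intro M N h
    obtain ⟨h00, h01, h10, h11, k00, k01, k10, k11⟩ := h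
    constructor <;> simp only [← map_mul, ← map_add, *, map_one, map_zero]
  · intro l V h
    refine ⟨?_, ?_⟩
    · have := NAT.van_map φ h.1
      simpa only [map_sub, map_mul, map_C, map_X] using this
    · have := NAT.van_map φ h.2
      simpa only [map_add, map_mul, map_C, map_X] using this
  · intro V h n
    obtain ⟨F, h1, h2⟩ := h n
    refine ⟨map φ F, NAT.isXY_map φ h1, ?_⟩
    rw [← NAT.lie_map]
    exact NAT.van_map φ h2
  · rintro V ⟨m, hm, g, hg, F, h1, h2⟩
    exact ⟨g, hg, fun hφ => ⟨m, hm, φ g, hφ, map φ F, NAT.isXY_map φ h1, NAT.obs_map φ h2⟩⟩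
  · intro V m g F h1 h2
    exact ⟨NAT.isXY_map φ h1, NAT.obs_map φ h2⟩
  · intro z P
    rw [eval_map]
    exact (eval₂_comp_left φ (RingHom.id R) z P).symm
  · intro P i
    rw [pderiv_map]

end Pool.Agent.N46.CS
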