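import Mathlib
import Pool.Agent.N46.CS.Stm

set_option autoImplicit false

/-!
# A formal first integral kills the defect (MP_d6d6e6_ag, leaf NFB)
-/

namespace Pool.Agent.N46.CS

open MvPolynomial Filter Topology

namespace NFB

/-- all coefficients of total degree `< n` of a power series vanish -/
def O (n : ℕ) (a : FS) : Prop :=
  ∀ e : Fin 2 →₀ ℕ, e 0 + e 1 < n → MvPowerSeries.coeff e a = 0

theorem O_zero (a : FS) : O 0 a := fun _ he => absurd he (Nat.not_lt_zero _)

theorem O_mono {m n : ℕ} (h : m ≤ n) {a : FS} (ha : O n a) : O m a :=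
  fun e he => ha e (lt_of_lt_of_le he h)

theorem O_add {n : ℕ} {a b : FS} (ha : O n a) (hb : O n b) : O n (a + b) := by
  intro e he
  rw [map_add, ha e he, hb e he, add_zero]

theorem O_sum {n : ℕ} {ι : Type} (s : Finset ι) (f : ι → FS) (h : ∀ i ∈ s, O n (f i)) :
    O n (∑ i ∈ s, f i) := by
  intro e he
  rw [map_sum]
  exact Finset.sum_eq_zero fun i hi => h i hi e he

theorem O_mul {m n : ℕ} {a b : FS} (ha : O m a) (hb : O n b) : O (m + n) (a * b) := by
  classical
  intro e he
  rw [MvPowerSeries.coeff_mul]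
  refine Finset.sum_eq_zero fun p hp => ?_
  have hp' : p.1 + p.2 = e := Finset.HasAntidiagonal.mem_antidiagonal.1 hp
  have h0 : p.1 0 + p.2 0 = e 0 := by rw [← hp']; rfl
  have h1 : p.1 1 + p.2 1 = e 1 := by rw [← hp']; rfl
  by_cases h : p.1 0 + p.1 1 < m
  · rw [ha _ h, zero_mul]
  · rw [hb _ (by omega), mul_zero]

theorem O_pow {a : FS} (ha : O 1 a) (n : ℕ) : O n (a ^ n) := by
  induction n with
  | zero => exact O_zero _
  | succ n ih => rw [pow_succ]; exact O_mul ih ha

theorem O_aeval {n : ℕ} {F : MvPolynomial (Fin 2) ℂ} (hF : Van n F) {Z : Fin 2 → FS}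
    (hZ : ∀ i, O 1 (Z i)) : O n (aeval Z F) := by
  rw [aeval_def, eval₂_eq']
  refine O_sum _ _ fun d hd => ?_
  rw [Fin.prod_univ_two]
  by_cases h : d 0 + d 1 < n
  · exact absurd (hF d h) (mem_support_iff.1 hd)
  · have h1 : O (0 + (d 0 + d 1)) (algebraMap ℂ FS (coeff d F) * (Z 0 ^ d 0 * Z 1 ^ d 1)) :=
      O_mul (O_zero _) (O_mul (O_pow (hZ 0) _) (O_pow (hZ 1) _))
    exact O_mono (by omega) h1

theorem coeff_Dop (a : FS) (e : Fin 2 →₀ ℕ) :
    MvPowerSeries.coeff e (Dop a) = ((e 0 : ℂ) - (e 1 : ℂ)) * MvPowerSeries.coeff e a := rfl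

theorem Dop_add (a b : FS) : Dop (a + b) = Dop a + Dop b := by
  ext e
  rw [map_add, coeff_Dop, coeff_Dop, coeff_Dop, map_add, mul_add]

theorem Dop_mul (a b : FS) : Dop (a * b) = a * Dop b + b * Dop a := by
  classical
  ext e
  rw [map_add, coeff_Dop, mul_comm b, MvPowerSeries.coeff_mul, MvPowerSeries.coeff_mul,
    MvPowerSeries.coeff_mul, Finset.mul_sum, ← Finset.sum_add_distrib]
  refine Finset.sum_congr rfl fun p hp => ?_
  have hp' : p.1 + p.2 = e := Finset.HasAntidiagonal.mem_antidiagonal.1 hp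
  have h0 : p.1 0 + p.2 0 = e 0 := by rw [← hp']; rfl
  have h1 : p.1 1 + p.2 1 = e 1 := by rw [← hp']; rfl
  rw [coeff_Dop, coeff_Dop, ← h0, ← h1]
  push_cast
  ring

theorem Dop_C (c : ℂ) : Dop (MvPowerSeries.C c) = 0 := by
  classical
  ext e
  rw [coeff_Dop, MvPowerSeries.coeff_C, (MvPowerSeries.coeff e).map_zero]
  split_ifs with h
  · subst h; simp
  · simp

theorem Dop_aeval (Z : Fin 2 → FS) (F : MvPolynomial (Fin 2) ℂ) :
    Dop (aeval Z F) = aeval Z (pderiv 0 F) * Dop (Z 0) + aeval Z (pderiv 1 F) * Dop (Z 1) := by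
  induction F using MvPolynomial.induction_on with
  | C c =>
    rw [aeval_C, MvPowerSeries.algebraMap_apply]
    simp only [pderiv_C, map_zero, zero_mul, add_zero]
    exact Dop_C _
  | add p q hp hq =>
    rw [map_add, Dop_add, hp, hq]
    simp only [map_add]
    ring
  | mul_X p i hp =>
    rw [map_mul, Dop_mul, hp, aeval_X]
    fin_cases i
    · simp only [pderiv_mul, map_add, map_mul, Fin.zero_eta, aeval_X, pderiv_X_self, map_one,
        pderiv_X_of_ne (show (0 : Fin 2) ≠ 1 by decide), map_zero]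
      ring
    · simp only [pderiv_mul, map_add, map_mul, Fin.mk_one, aeval_X, pderiv_X_self, map_one,
        pderiv_X_of_ne (show (1 : Fin 2) ≠ 0 by decide), map_zero]
      ring

/-- the exponent `(i, j)` -/
noncomputable def ex (i j : ℕ) : Fin 2 →₀ ℕ := Finsupp.single 0 i + Finsupp.single 1 j

theorem ex_0 (i j : ℕ) : ex i j 0 = i := by simp [ex]

theorem ex_1 (i j : ℕ) : ex i j 1 = j := by simp [ex]

theorem eq_ex (e : Fin 2 →₀ ℕ) : e = ex (e 0) (e 1) := by
  ext i
  fin_cases i
  · exact (ex_0 _ _).symm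
  · exact (ex_1 _ _).symm

end NFB

open NFB in
theorem t_NFB : S_NFB := by
  classical
  intro l V hl hV hA Z ε k hN
  by_contra hk
  -- the minimal exponent
  have hex : ∃ m, MvPowerSeries.coeff (ex m (m + 1)) k ≠ 0 := by
    by_contra hcon
    push Not at hcon
    apply hk
    ext e
    rw [map_zero]
    by_cases he : e 1 = e 0 + 1
    · rw [eq_ex e, he]; exact hcon _
    · exact hN.kd e he
  set m := Nat.find hex with hm
  have hmk : MvPowerSeries.coeff (ex m (m + 1)) k ≠ 0 := Nat.find_spec hex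
  have hm1 : 1 ≤ m := by
    by_contra h
    exact hmk (hN.k0 _ (by rw [ex_0, ex_1]; omega))
  have hOk : O (2 * m + 1) k := by
    intro e he
    by_cases h : e 1 = e 0 + 1
    · have h1 := Nat.find_min hex (show e 0 < m by omega)
      push Not at h1
      rw [eq_ex e, h]; exact h1
    · exact hN.kd e h
  -- the coordinates
  have hZX : ∀ i, O 2 (Z i - MvPowerSeries.X i) := by
    intro i e he
    rw [map_sub, hN.zi i e he, sub_self]
  have hX1 : ∀ i : Fin 2, O 1 (MvPowerSeries.X i : FS) := by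
    intro i e he
    rw [MvPowerSeries.coeff_X, if_neg]
    rintro rfl
    fin_cases i <;> simp at he
  have hZ1 : ∀ i, O 1 (Z i) := by
    intro i
    have h := O_add (O_mono (by norm_num) (hZX i)) (hX1 i)
    rwa [sub_add_cancel] at h
  obtain ⟨F, hF, hLF⟩ := hA (2 * m + 3)
  have hL : O (2 * m + 3) (aeval Z (lie V F)) := O_aeval hLF hZ1
  -- the derivative
  have hVd : Van 2 (pderiv 1 F - X 0) := by
    intro e he
    have h1 : pderiv 1 F - X 0 = pderiv 1 (F - X 0 * X 1) := by
      rw [map_sub, pderiv_mul, pderiv_X_self, pderiv_X_of_ne (show (0 : Fin 2) ≠ 1 by decide)]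
      ring
    rw [h1, coeff_pderiv, hF _ (by simp; omega), zero_mul]
  have hd : O 2 (aeval Z (pderiv 1 F) - MvPowerSeries.X 0) := by
    have h1 := O_add (O_aeval hVd hZ1) (hZX 0)
    rw [map_sub, aeval_X, sub_add_sub_cancel] at h1
    exact h1
  have hlast : O (2 + (2 * m + 1)) ((aeval Z (pderiv 1 F) - MvPowerSeries.X 0) * k) :=
    O_mul hd hOk
  have hfirst : O (0 + (2 * m + 3)) ((1 + ε) * aeval Z (lie V F)) := O_mul (O_zero _) hL
  -- the equation
  have heq : MvPowerSeries.C l * Dop (aeval Z F) =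
      (1 + ε) * aeval Z (lie V F) + (aeval Z (pderiv 1 F) - MvPowerSeries.X 0) * k +
        MvPowerSeries.X 0 * k := by
    rw [Dop_aeval]
    have h0 := hN.q0
    have h1 := hN.q1
    have h2 : aeval Z (lie V F) = aeval Z (V 0) * aeval Z (pderiv 0 F) +
        aeval Z (V 1) * aeval Z (pderiv 1 F) := by
      rw [lie, map_add, map_mul, map_mul]
    rw [h2]
    linear_combination (aeval Z (pderiv 0 F)) * h0 + (aeval Z (pderiv 1 F)) * h1
  have hc := congrArg (MvPowerSeries.coeff (ex (m + 1) (m + 1))) heq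
  rw [MvPowerSeries.coeff_C_mul, coeff_Dop, ex_0, ex_1, sub_self, zero_mul, mul_zero, map_add,
    map_add, hfirst _ (by rw [ex_0, ex_1]; omega), hlast _ (by rw [ex_0, ex_1]; omega), zero_add,
    zero_add] at hc
  have hx : ex (m + 1) (m + 1) = Finsupp.single 0 1 + ex m (m + 1) := by
    rw [ex, ex, ← add_assoc, ← Finsupp.single_add, add_comm 1 m]
  rw [MvPowerSeries.X_def, hx, MvPowerSeries.coeff_add_monomial_mul, one_mul] at hc
  exact hmk hc.symm

end Pool.Agent.N46.CS
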