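import Pool.Agent.N46.CS.Stm

set_option autoImplicit false

/-!
# Geometric bounds for the formal normal form (helper989, for helper46)
-/

namespace Pool.Agent.N46.CS

open MvPolynomial Filter Topology

namespace NFM

/-- the indices of total degree at most `N` -/
noncomputable def Bx (N : ℕ) : Finset (Fin 2 →₀ ℕ) :=
  (Finset.Iic (Finsupp.equivFunOnFinite.symm fun _ => N)).filter (fun n => n 0 + n 1 ≤ N)

theorem mem_Bx {N : ℕ} {n : Fin 2 →₀ ℕ} : n ∈ Bx N ↔ n 0 + n 1 ≤ N := by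
  unfold Bx
  rw [Finset.mem_filter, Finset.mem_Iic]
  constructor
  · exact fun h => h.2
  · intro h
    refine ⟨?_, h⟩
    intro i
    fin_cases i
    · show n 0 ≤ N
      omega
    · show n 1 ≤ N
      omega

/-- the truncated norm -/
noncomputable def nm (r : ℝ) (N : ℕ) (a : FS) : ℝ :=
  ∑ n ∈ Bx N, ‖MvPowerSeries.coeff n a‖ * r ^ (n 0 + n 1)

/-- order at least `s` -/
def Or (s : ℕ) (a : FS) : Prop :=
  ∀ u : Fin 2 →₀ ℕ, u 0 + u 1 < s → MvPowerSeries.coeff u a = 0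

theorem Or_zero (a : FS) : Or 0 a := fun _ hu => absurd hu (Nat.not_lt_zero _)

theorem Or_mul {s t : ℕ} {a b : FS} (ha : Or s a) (hb : Or t b) : Or (s + t) (a * b) := by
  intro n hn
  rw [MvPowerSeries.coeff_mul]
  refine Finset.sum_eq_zero fun x hx => ?_
  rw [Finset.HasAntidiagonal.mem_antidiagonal] at hx
  have h0 : x.1 0 + x.2 0 = n 0 := by rw [← hx]; rfl
  have h1 : x.1 1 + x.2 1 = n 1 := by rw [← hx]; rfl
  rcases lt_or_ge (x.1 0 + x.1 1) s with h | h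
  · rw [ha _ h, zero_mul]
  · rw [hb _ (by omega), mul_zero]

theorem nm_nonneg {r : ℝ} (hr : 0 ≤ r) (N : ℕ) (a : FS) : 0 ≤ nm r N a :=
  Finset.sum_nonneg fun n _ => mul_nonneg (norm_nonneg _) (pow_nonneg hr _)

theorem nm_mono {r : ℝ} (hr : 0 ≤ r) {N M : ℕ} (h : N ≤ M) (a : FS) : nm r N a ≤ nm r M a := by
  refine Finset.sum_le_sum_of_subset_of_nonneg ?_ fun n _ _ =>
    mul_nonneg (norm_nonneg _) (pow_nonneg hr _)
  intro n hn
  rw [mem_Bx] at hn ⊢
  omega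

theorem nm_add {r : ℝ} (hr : 0 ≤ r) (N : ℕ) (a b : FS) : nm r N (a + b) ≤ nm r N a + nm r N b := by
  unfold nm
  rw [← Finset.sum_add_distrib]
  refine Finset.sum_le_sum fun n _ => ?_
  rw [map_add, ← add_mul]
  exact mul_le_mul_of_nonneg_right (norm_add_le _ _) (pow_nonneg hr _)

theorem nm_mul {r : ℝ} (hr : 0 ≤ r) (N : ℕ) {s t : ℕ} {a b : FS} (ha : Or s a) (hb : Or t b) :
    nm r N (a * b) ≤ nm r (N - t) a * nm r (N - s) b := by
  classical
  set F : (Fin 2 →₀ ℕ) × (Fin 2 →₀ ℕ) → ℝ := fun x =>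
    (‖MvPowerSeries.coeff x.1 a‖ * r ^ (x.1 0 + x.1 1)) *
      (‖MvPowerSeries.coeff x.2 b‖ * r ^ (x.2 0 + x.2 1)) with hF
  have hF0 : ∀ x, 0 ≤ F x := fun x => mul_nonneg
    (mul_nonneg (norm_nonneg _) (pow_nonneg hr _)) (mul_nonneg (norm_nonneg _) (pow_nonneg hr _))
  have h1 : ∀ n ∈ Bx N, ‖MvPowerSeries.coeff n (a * b)‖ * r ^ (n 0 + n 1) ≤
      ∑ x ∈ Finset.HasAntidiagonal.antidiagonal n, F x := by
    intro n _
    rw [MvPowerSeries.coeff_mul]
    refine (mul_le_mul_of_nonneg_right (norm_sum_le _ _) (pow_nonneg hr _)).trans ?_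
    rw [Finset.sum_mul]
    refine Finset.sum_le_sum fun x hx => ?_
    rw [Finset.HasAntidiagonal.mem_antidiagonal] at hx
    have h0 : x.1 0 + x.2 0 = n 0 := by rw [← hx]; rfl
    have h1 : x.1 1 + x.2 1 = n 1 := by rw [← hx]; rfl
    have h2 : n 0 + n 1 = (x.1 0 + x.1 1) + (x.2 0 + x.2 1) := by omega
    rw [norm_mul, h2, pow_add, hF]
    apply le_of_eq
    ring
  have h2 : ∑ n ∈ Bx N, ∑ x ∈ Finset.HasAntidiagonal.antidiagonal n, F x ≤
      ∑ x ∈ Bx (N - t) ×ˢ Bx (N - s), F x := by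
    rw [Finset.sum_sigma']
    set S := (Bx N).sigma fun n => Finset.HasAntidiagonal.antidiagonal n with hS
    rw [← Finset.sum_filter_ne_zero]
    have hinj : Set.InjOn (fun y : (Σ _ : Fin 2 →₀ ℕ, (Fin 2 →₀ ℕ) × (Fin 2 →₀ ℕ)) => y.2)
        (S.filter fun y => F y.2 ≠ 0 : Finset _) := by
      intro y hy y' hy' h
      rw [Finset.mem_coe, Finset.mem_filter, hS, Finset.mem_sigma, Finset.HasAntidiagonal.mem_antidiagonal]
        at hy hy'
      obtain ⟨n, x⟩ := y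
      obtain ⟨n', x'⟩ := y'
      simp only at h hy hy'
      subst h
      obtain ⟨⟨_, h1⟩, _⟩ := hy
      obtain ⟨⟨_, h2⟩, _⟩ := hy'
      rw [← h1, ← h2]
    rw [← Finset.sum_image (f := F) (g := fun y : (Σ _ : Fin 2 →₀ ℕ,
      (Fin 2 →₀ ℕ) × (Fin 2 →₀ ℕ)) => y.2) hinj]
    refine Finset.sum_le_sum_of_subset_of_nonneg ?_ fun x _ _ => hF0 x
    intro x hx
    rw [Finset.mem_image] at hx
    obtain ⟨⟨n, x'⟩, hy, hxx⟩ := hx
    simp only at hxx
    subst hxx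
    rw [Finset.mem_filter, hS, Finset.mem_sigma, Finset.HasAntidiagonal.mem_antidiagonal] at hy
    obtain ⟨⟨h1, h2⟩, h3⟩ := hy
    simp only at h1 h2 h3
    rw [mem_Bx] at h1
    have e0 : x'.1 0 + x'.2 0 = n 0 := by rw [← h2]; rfl
    have e1 : x'.1 1 + x'.2 1 = n 1 := by rw [← h2]; rfl
    have ha' : s ≤ x'.1 0 + x'.1 1 := by
      by_contra hc
      apply h3
      simp only [hF]
      rw [ha _ (by omega), norm_zero, zero_mul, zero_mul]
    have hb' : t ≤ x'.2 0 + x'.2 1 := by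
      by_contra hc
      apply h3
      simp only [hF]
      rw [hb _ (by omega), norm_zero, zero_mul, mul_zero]
    rw [Finset.mem_product, mem_Bx, mem_Bx]
    omega
  calc nm r N (a * b) ≤ ∑ n ∈ Bx N, ∑ x ∈ Finset.HasAntidiagonal.antidiagonal n, F x := Finset.sum_le_sum h1
    _ ≤ _ := h2
    _ = nm r (N - t) a * nm r (N - s) b := by
      unfold nm
      rw [Finset.sum_mul_sum, ← Finset.sum_product']

theorem nm_mul0 {r : ℝ} (hr : 0 ≤ r) (N : ℕ) (a b : FS) : nm r N (a * b) ≤ nm r N a * nm r N b := by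
  have h := nm_mul hr N (Or_zero a) (Or_zero b)
  simpa using h

theorem nm_one {r : ℝ} (N : ℕ) : nm r N 1 = 1 := by
  unfold nm
  rw [Finset.sum_eq_single (0 : Fin 2 →₀ ℕ)]
  · simp
  · intro n _ hn
    classical
    rw [MvPowerSeries.coeff_one, if_neg hn, norm_zero, zero_mul]
  · intro h
    exact absurd (mem_Bx.2 (by simp)) h

theorem nm_X {r : ℝ} (hr : 0 ≤ r) (N : ℕ) (i : Fin 2) : nm r N (MvPowerSeries.X i) ≤ r := by
  classical
  have h : ∀ n ∈ Bx N, ‖MvPowerSeries.coeff n (MvPowerSeries.X i : FS)‖ * r ^ (n 0 + n 1) =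
      if n = Finsupp.single i 1 then r else 0 := by
    intro n _
    rw [MvPowerSeries.coeff_X]
    split_ifs with h
    · subst h
      fin_cases i <;> simp
    · simp
  unfold nm
  rw [Finset.sum_congr rfl h, Finset.sum_ite_eq']
  split_ifs <;> linarith

theorem nm_C {r : ℝ} (N : ℕ) (c : ℂ) (a : FS) : nm r N (MvPowerSeries.C c * a) = ‖c‖ * nm r N a := by
  unfold nm
  rw [Finset.mul_sum]
  refine Finset.sum_congr rfl fun n _ => ?_
  rw [MvPowerSeries.coeff_C_mul, norm_mul, mul_assoc]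

theorem nm_zero {r : ℝ} (N : ℕ) : nm r N 0 = 0 := by
  unfold nm
  exact Finset.sum_eq_zero fun n _ => by simp

theorem nm_sum {r : ℝ} (hr : 0 ≤ r) (N : ℕ) {ι : Type} (s : Finset ι) (f : ι → FS) :
    nm r N (∑ i ∈ s, f i) ≤ ∑ i ∈ s, nm r N (f i) := by
  classical
  induction s using Finset.induction_on with
  | empty => simp [nm_zero]
  | insert i s hi ih =>
    rw [Finset.sum_insert hi, Finset.sum_insert hi]
    exact (nm_add hr N _ _).trans (by linarith)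

theorem nm_pow {r : ℝ} (hr : 0 ≤ r) (N : ℕ) (a : FS) {z : ℝ} (hz : nm r N a ≤ z) (k : ℕ) :
    nm r N (a ^ k) ≤ z ^ k := by
  have hz0 : 0 ≤ z := (nm_nonneg hr N a).trans hz
  induction k with
  | zero => rw [pow_zero, pow_zero, nm_one]
  | succ k ih =>
    rw [pow_succ, pow_succ]
    exact (nm_mul0 hr N _ _).trans (mul_le_mul ih hz (nm_nonneg hr N a) (pow_nonneg hz0 _))

theorem Or_one {a : FS} (h : MvPowerSeries.constantCoeff a = 0) : Or 1 a := by
  intro u hu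
  have : u = 0 := by
    ext i
    fin_cases i
    · show u 0 = 0
      omega
    · show u 1 = 0
      omega
  rw [this]
  exact h

theorem cc_of_Or {a : FS} (h : Or 1 a) : MvPowerSeries.constantCoeff a = 0 :=
  h 0 (by simp)

/-- monomials of degree at least two in two series without constant term -/
theorem nm_monomial {r : ℝ} (hr : 0 ≤ r) (N : ℕ) {Z : Fin 2 → FS} (hZ : ∀ i, Or 1 (Z i)) {z : ℝ}
    (hz : ∀ i, nm r N (Z i) ≤ z) {i j : ℕ} (hij : 2 ≤ i + j) :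
    Or 2 (Z 0 ^ i * Z 1 ^ j) ∧ nm r (N + 1) (Z 0 ^ i * Z 1 ^ j) ≤ z ^ (i + j) := by
  have hz0 : 0 ≤ z := (nm_nonneg hr N (Z 0)).trans (hz 0)
  have hc : ∀ k, MvPowerSeries.constantCoeff (Z k) = 0 := fun k => cc_of_Or (hZ k)
  have key : ∀ (k : Fin 2) (G : FS), Or 1 G → nm r N G ≤ z ^ (i + j - 1) →
      Or 2 (Z k * G) ∧ nm r (N + 1) (Z k * G) ≤ z ^ (i + j) := by
    intro k G hG hG2
    refine ⟨Or_mul (hZ k) hG, ?_⟩
    have h1 := nm_mul hr (N + 1) (hZ k) hG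
    rw [Nat.add_sub_cancel] at h1
    have h2 : z ^ (i + j) = z * z ^ (i + j - 1) := by
      rw [← pow_succ']
      congr 1
      omega
    rw [h2]
    exact h1.trans (mul_le_mul (hz k) hG2 (nm_nonneg hr N G) hz0)
  rcases Nat.eq_zero_or_pos i with hi | hi
  · subst hi
    have e : Z 0 ^ 0 * Z 1 ^ j = Z 1 * Z 1 ^ (j - 1) := by
      rw [pow_zero, one_mul, ← pow_succ']
      congr 1
      omega
    rw [e]
    refine key 1 _ (Or_one ?_) ?_
    · rw [map_pow, hc, zero_pow (by omega)]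
    · have := nm_pow hr N (Z 1) (hz 1) (j - 1)
      rwa [Nat.zero_add]
  · have e : Z 0 ^ i * Z 1 ^ j = Z 0 * (Z 0 ^ (i - 1) * Z 1 ^ j) := by
      rw [← mul_assoc, ← pow_succ']
      congr 2
      omega
    rw [e]
    refine key 0 _ (Or_one ?_) ?_
    · rw [map_mul, map_pow, map_pow, hc, hc, ← pow_add, zero_pow (by omega)]
    · have h1 := nm_pow hr N (Z 0) (hz 0) (i - 1)
      have h2 := nm_pow hr N (Z 1) (hz 1) j
      have h3 : z ^ (i + j - 1) = z ^ (i - 1) * z ^ j := by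
        rw [← pow_add]
        congr 1
        omega
      rw [h3]
      exact (nm_mul0 hr N _ _).trans (mul_le_mul h1 h2 (nm_nonneg hr N _) (pow_nonneg hz0 _))

/-- the constant of a polynomial -/
noncomputable def C0 (f : MvPolynomial (Fin 2) ℂ) : ℝ :=
  ∑ m ∈ f.support, ‖MvPolynomial.coeff m f‖ * 2 ^ (m 0 + m 1 + 1)

theorem C0_nonneg (f : MvPolynomial (Fin 2) ℂ) : 0 ≤ C0 f :=
  Finset.sum_nonneg fun m _ => mul_nonneg (norm_nonneg _) (pow_nonneg (by norm_num) _)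

theorem nm_W {r : ℝ} (hr : 0 ≤ r) (hr1 : r ≤ 1) (N : ℕ) {Z : Fin 2 → FS} (hZ : ∀ i, Or 1 (Z i))
    (hz : ∀ i, nm r N (Z i) ≤ 2 * r) (e : FS) (he : nm r (N - 1) e ≤ 1 / 2)
    (f : MvPolynomial (Fin 2) ℂ) (hf : Van 2 f) :
    nm r (N + 1) ((1 + e) * aeval Z f) ≤ C0 f * r ^ 2 := by
  have h1 : (1 + e) * aeval Z f = ∑ m ∈ f.support,
      (1 + e) * (MvPowerSeries.C (MvPolynomial.coeff m f) * (Z 0 ^ m 0 * Z 1 ^ m 1)) := by
    conv_lhs => rw [f.as_sum, map_sum, Finset.mul_sum]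
    refine Finset.sum_congr rfl fun m _ => ?_
    rw [aeval_monomial, Finsupp.prod_fintype _ _ (fun i => pow_zero _), Fin.prod_univ_two]
    rfl
  rw [h1, C0, Finset.sum_mul]
  refine (nm_sum hr _ _ _).trans (Finset.sum_le_sum fun m hm => ?_)
  have hm2 : 2 ≤ m 0 + m 1 := by
    by_contra hc
    exact (MvPolynomial.mem_support_iff.1 hm) (hf m (by omega))
  obtain ⟨g1, g2⟩ := nm_monomial hr N hZ hz hm2
  set G := Z 0 ^ m 0 * Z 1 ^ m 1 with hG
  have h2 : (1 + e) * (MvPowerSeries.C (MvPolynomial.coeff m f) * G) =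
      MvPowerSeries.C (MvPolynomial.coeff m f) * ((1 + e) * G) := by ring
  rw [h2, nm_C, mul_assoc]
  refine mul_le_mul_of_nonneg_left ?_ (norm_nonneg _)
  have h3 := nm_mul hr (N + 1) (Or_zero (1 + e)) g1
  have h4 : N + 1 - 2 = N - 1 := by omega
  rw [h4, Nat.sub_zero] at h3
  have h5 : nm r (N - 1) (1 + e) ≤ 2 := by
    have := nm_add hr (N - 1) 1 e
    rw [nm_one] at this
    linarith
  have h6 : (2 * r) ^ (m 0 + m 1) ≤ 2 ^ (m 0 + m 1) * r ^ 2 := by
    rw [mul_pow]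
    exact mul_le_mul_of_nonneg_left (pow_le_pow_of_le_one hr hr1 hm2) (pow_nonneg (by norm_num) _)
  calc nm r (N + 1) ((1 + e) * G) ≤ nm r (N - 1) (1 + e) * nm r (N + 1) G := h3
    _ ≤ 2 * (2 * r) ^ (m 0 + m 1) :=
        mul_le_mul h5 g2 (nm_nonneg hr _ _) (by norm_num)
    _ ≤ 2 * (2 ^ (m 0 + m 1) * r ^ 2) := by linarith
    _ = 2 ^ (m 0 + m 1 + 1) * r ^ 2 := by ring

/-- coefficients of `e X i`, `e` diagonal -/
theorem coeff_eX {e : FS} (he : ∀ n : Fin 2 →₀ ℕ, n 0 ≠ n 1 → MvPowerSeries.coeff n e = 0)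
    (i : Fin 2) (n : Fin 2 →₀ ℕ) (hn : n i ≠ n (1 - i) + 1) :
    MvPowerSeries.coeff n (e * MvPowerSeries.X i) = 0 := by
  classical
  rw [MvPowerSeries.coeff_mul]
  refine Finset.sum_eq_zero fun x hx => ?_
  rw [Finset.HasAntidiagonal.mem_antidiagonal] at hx
  have h0 : x.1 0 + x.2 0 = n 0 := by rw [← hx]; rfl
  have h1 : x.1 1 + x.2 1 = n 1 := by rw [← hx]; rfl
  rw [MvPowerSeries.coeff_X]
  split_ifs with h
  · rw [he, zero_mul]
    intro hc
    rw [h] at h0 h1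
    fin_cases i
    · simp at h0 h1 hn
      omega
    · simp at h0 h1 hn
      omega
  · rw [mul_zero]

/-- resonant coefficients of `e p` -/
theorem coeff_res {e p : FS} (he : ∀ n : Fin 2 →₀ ℕ, n 0 ≠ n 1 → MvPowerSeries.coeff n e = 0)
    (hp : ∀ n : Fin 2 →₀ ℕ, n 0 = n 1 + 1 → MvPowerSeries.coeff n p = 0)
    (n : Fin 2 →₀ ℕ) (hn : n 0 = n 1 + 1) : MvPowerSeries.coeff n (e * p) = 0 := by
  rw [MvPowerSeries.coeff_mul]
  refine Finset.sum_eq_zero fun x hx => ?_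
  rw [Finset.HasAntidiagonal.mem_antidiagonal] at hx
  have h0 : x.1 0 + x.2 0 = n 0 := by rw [← hx]; rfl
  have h1 : x.1 1 + x.2 1 = n 1 := by rw [← hx]; rfl
  by_cases h : x.1 0 = x.1 1
  · rw [hp _ (by omega), mul_zero]
  · rw [he _ h, zero_mul]

theorem coeff_Dop (a : FS) (n : Fin 2 →₀ ℕ) : MvPowerSeries.coeff n (Dop a) =
    ((n 0 : ℂ) - (n 1 : ℂ)) * MvPowerSeries.coeff n a := rfl

theorem one_le_norm_int {z : ℤ} (hz : z ≠ 0) : 1 ≤ ‖(z : ℂ)‖ := by
  rw [Complex.norm_intCast]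
  exact_mod_cast Int.one_le_abs hz

section Main

variable {l : ℂ} {V : Fin 2 → MvPolynomial (Fin 2) ℂ} {Z : Fin 2 → FS} {e k : FS}

theorem order_p (h : NF l V Z e k) (i : Fin 2) : Or 2 (Z i - MvPowerSeries.X i) := by
  intro u hu
  rw [map_sub, h.zi i u hu, sub_self]

theorem order_Z (h : NF l V Z e k) (i : Fin 2) : Or 1 (Z i) := by
  classical
  intro u hu
  rw [h.zi i u (by omega), MvPowerSeries.coeff_X, if_neg]
  intro hc
  rw [hc] at hu
  fin_cases i <;> simp at hu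

theorem order_e (h : NF l V Z e k) : Or 2 e := by
  intro u hu
  by_cases h1 : u 0 = u 1
  · have : u = 0 := by
      ext i
      fin_cases i
      · show u 0 = 0
        omega
      · show u 1 = 0
        omega
    rw [this]
    exact h.e0
  · exact h.ed u h1

theorem coeff_p (h : NF l V Z e k) (i : Fin 2) (n : Fin 2 →₀ ℕ) (hn : 2 ≤ n 0 + n 1) :
    MvPowerSeries.coeff n (Z i - MvPowerSeries.X i) = MvPowerSeries.coeff n (Z i) := by
  classical
  rw [map_sub, MvPowerSeries.coeff_X, if_neg, sub_zero]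
  intro hc
  rw [hc] at hn
  fin_cases i <;> simp at hn

theorem res_p (h : NF l V Z e k) (n : Fin 2 →₀ ℕ) (hn : n 0 = n 1 + 1) :
    MvPowerSeries.coeff n (Z 0 - MvPowerSeries.X 0) = 0 := by
  rcases lt_or_ge (n 0 + n 1) 2 with h1 | h1
  · exact order_p h 0 n h1
  · rw [coeff_p h 0 n h1, h.z0 n hn h1]

theorem res_q (h : NF l V Z e k) (n : Fin 2 →₀ ℕ) (hn : n 1 = n 0 + 1) :
    MvPowerSeries.coeff n (Z 1 - MvPowerSeries.X 1) = 0 := by
  rcases lt_or_ge (n 0 + n 1) 2 with h1 | h1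
  · exact order_p h 1 n h1
  · rw [coeff_p h 1 n h1, h.z1 n hn h1]

/-- the first equation, coefficientwise -/
theorem eq0 (h : NF l V Z e k) (n : Fin 2 →₀ ℕ) :
    l * (((n 0 : ℂ) - (n 1 : ℂ)) * MvPowerSeries.coeff n (Z 0)) =
      MvPowerSeries.coeff n ((1 + e) * aeval Z (V 0 - C l * X 0)) +
      l * MvPowerSeries.coeff n (Z 0) + l * MvPowerSeries.coeff n (e * MvPowerSeries.X 0) +
      l * MvPowerSeries.coeff n (e * (Z 0 - MvPowerSeries.X 0)) := by
  have h1 : MvPowerSeries.C l * Dop (Z 0) = (1 + e) * aeval Z (V 0 - C l * X 0) +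
      MvPowerSeries.C l * Z 0 + MvPowerSeries.C l * (e * MvPowerSeries.X 0) +
      MvPowerSeries.C l * (e * (Z 0 - MvPowerSeries.X 0)) := by
    rw [h.q0, map_sub, map_mul, aeval_X, aeval_C]
    have : (algebraMap ℂ FS) l = MvPowerSeries.C l := rfl
    rw [this]
    ring
  have h2 := congrArg (MvPowerSeries.coeff n) h1
  simp only [map_add, MvPowerSeries.coeff_C_mul, coeff_Dop] at h2
  simpa only [map_add] using h2

/-- the second equation, coefficientwise -/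
theorem eq1 (h : NF l V Z e k) (n : Fin 2 →₀ ℕ) :
    l * (((n 0 : ℂ) - (n 1 : ℂ)) * MvPowerSeries.coeff n (Z 1)) =
      MvPowerSeries.coeff n ((1 + e) * aeval Z (V 1 + C l * X 1)) -
      l * MvPowerSeries.coeff n (Z 1) - l * MvPowerSeries.coeff n (e * MvPowerSeries.X 1) -
      l * MvPowerSeries.coeff n (e * (Z 1 - MvPowerSeries.X 1)) + MvPowerSeries.coeff n k := by
  have h1 : MvPowerSeries.C l * Dop (Z 1) = (1 + e) * aeval Z (V 1 + C l * X 1) -
      MvPowerSeries.C l * Z 1 - MvPowerSeries.C l * (e * MvPowerSeries.X 1) -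
      MvPowerSeries.C l * (e * (Z 1 - MvPowerSeries.X 1)) + k := by
    rw [h.q1, map_add, map_mul, aeval_X, aeval_C]
    have : (algebraMap ℂ FS) l = MvPowerSeries.C l := rfl
    rw [this]
    ring
  have h2 := congrArg (MvPowerSeries.coeff n) h1
  simp only [map_add, map_sub, MvPowerSeries.coeff_C_mul, coeff_Dop] at h2
  simpa only [map_add] using h2

theorem ineq_p (h : NF l V Z e k) (n : Fin 2 →₀ ℕ) :
    ‖l‖ * ‖MvPowerSeries.coeff n (Z 0 - MvPowerSeries.X 0)‖ ≤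
      ‖l‖ * ‖MvPowerSeries.coeff n (e * (Z 0 - MvPowerSeries.X 0))‖ +
      ‖MvPowerSeries.coeff n ((1 + e) * aeval Z (V 0 - C l * X 0))‖ := by
  have hnn : 0 ≤ ‖l‖ * ‖MvPowerSeries.coeff n (e * (Z 0 - MvPowerSeries.X 0))‖ +
      ‖MvPowerSeries.coeff n ((1 + e) * aeval Z (V 0 - C l * X 0))‖ := by positivity
  by_cases h1 : n 0 = n 1 + 1
  · rw [res_p h n h1, norm_zero, mul_zero]
    exact hnn
  rcases lt_or_ge (n 0 + n 1) 2 with h2 | h2
  · rw [order_p h 0 n h2, norm_zero, mul_zero]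
    exact hnn
  have e0 := eq0 h n
  rw [coeff_eX h.ed 0 n h1, mul_zero, add_zero, ← coeff_p h 0 n h2] at e0
  have e1 : l * ((((n 0 : ℤ) - (n 1 : ℤ) - 1 : ℤ) : ℂ) *
      MvPowerSeries.coeff n (Z 0 - MvPowerSeries.X 0)) =
      l * MvPowerSeries.coeff n (e * (Z 0 - MvPowerSeries.X 0)) +
      MvPowerSeries.coeff n ((1 + e) * aeval Z (V 0 - C l * X 0)) := by
    push_cast
    linear_combination e0
  have e2 := congrArg norm e1
  rw [norm_mul, norm_mul] at e2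
  have e3 := norm_add_le (l * MvPowerSeries.coeff n (e * (Z 0 - MvPowerSeries.X 0)))
    (MvPowerSeries.coeff n ((1 + e) * aeval Z (V 0 - C l * X 0)))
  rw [← e2, norm_mul] at e3
  have e4 : 1 ≤ ‖(((n 0 : ℤ) - (n 1 : ℤ) - 1 : ℤ) : ℂ)‖ := one_le_norm_int (by omega)
  refine le_trans ?_ e3
  refine mul_le_mul_of_nonneg_left ?_ (norm_nonneg _)
  exact le_mul_of_one_le_left (norm_nonneg _) e4

theorem ineq_q (h : NF l V Z e k) (n : Fin 2 →₀ ℕ) :
    ‖l‖ * ‖MvPowerSeries.coeff n (Z 1 - MvPowerSeries.X 1)‖ ≤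
      ‖l‖ * ‖MvPowerSeries.coeff n (e * (Z 1 - MvPowerSeries.X 1))‖ +
      ‖MvPowerSeries.coeff n ((1 + e) * aeval Z (V 1 + C l * X 1))‖ := by
  have hnn : 0 ≤ ‖l‖ * ‖MvPowerSeries.coeff n (e * (Z 1 - MvPowerSeries.X 1))‖ +
      ‖MvPowerSeries.coeff n ((1 + e) * aeval Z (V 1 + C l * X 1))‖ := by positivity
  by_cases h1 : n 1 = n 0 + 1
  · rw [res_q h n h1, norm_zero, mul_zero]
    exact hnn
  rcases lt_or_ge (n 0 + n 1) 2 with h2 | h2
  · rw [order_p h 1 n h2, norm_zero, mul_zero]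
    exact hnn
  have e0 := eq1 h n
  rw [coeff_eX h.ed 1 n h1, mul_zero, sub_zero, ← coeff_p h 1 n h2, h.kd n h1, add_zero] at e0
  have e1 : l * ((((n 0 : ℤ) - (n 1 : ℤ) + 1 : ℤ) : ℂ) *
      MvPowerSeries.coeff n (Z 1 - MvPowerSeries.X 1)) =
      -(l * MvPowerSeries.coeff n (e * (Z 1 - MvPowerSeries.X 1))) +
      MvPowerSeries.coeff n ((1 + e) * aeval Z (V 1 + C l * X 1)) := by
    push_cast
    linear_combination e0
  have e2 := congrArg norm e1
  rw [norm_mul, norm_mul] at e2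
  have e3 := norm_add_le (-(l * MvPowerSeries.coeff n (e * (Z 1 - MvPowerSeries.X 1))))
    (MvPowerSeries.coeff n ((1 + e) * aeval Z (V 1 + C l * X 1)))
  rw [← e2, norm_neg, norm_mul] at e3
  have e4 : 1 ≤ ‖(((n 0 : ℤ) - (n 1 : ℤ) + 1 : ℤ) : ℂ)‖ := one_le_norm_int (by omega)
  refine le_trans ?_ e3
  refine mul_le_mul_of_nonneg_left ?_ (norm_nonneg _)
  exact le_mul_of_one_le_left (norm_nonneg _) e4

theorem ineq_e (h : NF l V Z e k) (n : Fin 2 →₀ ℕ) :
    ‖l‖ * ‖MvPowerSeries.coeff n e‖ ≤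
      ‖MvPowerSeries.coeff (n + Finsupp.single 0 1) ((1 + e) * aeval Z (V 0 - C l * X 0))‖ := by
  by_cases h1 : n 0 = n 1
  swap
  · rw [h.ed n h1, norm_zero, mul_zero]
    exact norm_nonneg _
  rcases lt_or_ge (n 0 + n 1) 2 with h2 | h2
  · rw [order_e h n h2, norm_zero, mul_zero]
    exact norm_nonneg _
  have m0 : (n + Finsupp.single 0 1 : Fin 2 →₀ ℕ) 0 = n 0 + 1 := by simp
  have m1 : (n + Finsupp.single 0 1 : Fin 2 →₀ ℕ) 1 = n 1 := by simp
  have m2 : (n + Finsupp.single 0 1 : Fin 2 →₀ ℕ) 0 =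
      (n + Finsupp.single 0 1 : Fin 2 →₀ ℕ) 1 + 1 := by omega
  have e0 := eq0 h (n + Finsupp.single 0 1)
  have e1 : MvPowerSeries.coeff (n + Finsupp.single 0 1) (e * MvPowerSeries.X 0) =
      MvPowerSeries.coeff n e := by
    rw [MvPowerSeries.X_def, MvPowerSeries.coeff_add_mul_monomial, mul_one]
  rw [h.z0 _ m2 (by omega), coeff_res h.ed (res_p h) _ m2, e1] at e0
  have e2 : l * MvPowerSeries.coeff n e = -MvPowerSeries.coeff (n + Finsupp.single 0 1)
      ((1 + e) * aeval Z (V 0 - C l * X 0)) := by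
    linear_combination -e0
  have e3 := congrArg norm e2
  rw [norm_mul, norm_neg] at e3
  exact e3.le

theorem nm_of_ineq {r : ℝ} (hr : 0 ≤ r) (N : ℕ) {a b c : FS} {t : ℝ}
    (h : ∀ n, t * ‖MvPowerSeries.coeff n a‖ ≤
      t * ‖MvPowerSeries.coeff n b‖ + ‖MvPowerSeries.coeff n c‖) :
    t * nm r N a ≤ t * nm r N b + nm r N c := by
  unfold nm
  rw [Finset.mul_sum, Finset.mul_sum, ← Finset.sum_add_distrib]
  refine Finset.sum_le_sum fun n _ => ?_
  have := mul_le_mul_of_nonneg_right (h n) (pow_nonneg hr (n 0 + n 1))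
  calc t * (‖MvPowerSeries.coeff n a‖ * r ^ (n 0 + n 1)) =
      t * ‖MvPowerSeries.coeff n a‖ * r ^ (n 0 + n 1) := by ring
    _ ≤ (t * ‖MvPowerSeries.coeff n b‖ + ‖MvPowerSeries.coeff n c‖) * r ^ (n 0 + n 1) := this
    _ = _ := by ring

theorem nm_of_shift {r : ℝ} (hr : 0 ≤ r) (N : ℕ) {a c : FS} {t : ℝ}
    (h : ∀ n, t * ‖MvPowerSeries.coeff n a‖ ≤
      ‖MvPowerSeries.coeff (n + Finsupp.single 0 1) c‖) :
    t * r * nm r N a ≤ nm r (N + 1) c := by
  classical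
  unfold nm
  rw [Finset.mul_sum]
  set g : (Fin 2 →₀ ℕ) → ℝ := fun m => ‖MvPowerSeries.coeff m c‖ * r ^ (m 0 + m 1) with hg
  have h1 : ∑ n ∈ Bx N, t * r * (‖MvPowerSeries.coeff n a‖ * r ^ (n 0 + n 1)) ≤
      ∑ n ∈ Bx N, g (n + Finsupp.single 0 1) := by
    refine Finset.sum_le_sum fun n _ => ?_
    have m0 : (n + Finsupp.single 0 1 : Fin 2 →₀ ℕ) 0 = n 0 + 1 := by simp
    have m1 : (n + Finsupp.single 0 1 : Fin 2 →₀ ℕ) 1 = n 1 := by simp
    have := mul_le_mul_of_nonneg_right (h n) (pow_nonneg hr (n 0 + n 1 + 1))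
    simp only [hg]
    rw [m0, m1]
    calc t * r * (‖MvPowerSeries.coeff n a‖ * r ^ (n 0 + n 1)) =
        t * ‖MvPowerSeries.coeff n a‖ * r ^ (n 0 + n 1 + 1) := by ring
      _ ≤ _ := this
      _ = _ := by
        congr 2
        omega
  refine h1.trans ?_
  rw [← Finset.sum_image (f := g) (g := fun n : Fin 2 →₀ ℕ => n + Finsupp.single 0 1)
    (fun x _ y _ hxy => add_left_injective _ hxy)]
  refine Finset.sum_le_sum_of_subset_of_nonneg ?_ fun x _ _ =>
    mul_nonneg (norm_nonneg _) (pow_nonneg hr _)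
  intro x hx
  rw [Finset.mem_image] at hx
  obtain ⟨n, hn, rfl⟩ := hx
  rw [mem_Bx] at hn ⊢
  simp only [Finsupp.coe_add, Pi.add_apply]
  simp
  omega

theorem nm_of_Or {r : ℝ} {N s : ℕ} {a : FS} (ha : Or s a) (h : N < s) : nm r N a = 0 := by
  unfold nm
  refine Finset.sum_eq_zero fun n hn => ?_
  rw [mem_Bx] at hn
  rw [ha n (by omega), norm_zero, zero_mul]

theorem bounds (hl : l ≠ 0) (hV : Nrm l V) (h : NF l V Z e k) : ∃ r : ℝ, 0 < r ∧ r ≤ 1 ∧
    ∀ N : ℕ, (∀ i, nm r (N + 1) (Z i - MvPowerSeries.X i) ≤ r / 2) ∧ nm r N e ≤ 1 / 2 := by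
  obtain ⟨hV0, hV1⟩ := hV
  set f0 := V 0 - C l * X 0 with hf0
  set f1 := V 1 + C l * X 1 with hf1
  have c0 := C0_nonneg f0
  have c1 := C0_nonneg f1
  have hL : 0 < ‖l‖ := norm_pos_iff.2 hl
  set D : ℝ := C0 f0 + C0 f1 + 1 with hD
  have hDpos : 0 < D := by linarith
  refine ⟨min 1 (‖l‖ / (4 * D)), lt_min one_pos (by positivity), min_le_left _ _, ?_⟩
  set r := min 1 (‖l‖ / (4 * D)) with hr
  have hr0 : 0 < r := lt_min one_pos (by positivity)
  have hr1 : r ≤ 1 := min_le_left _ _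
  have hr2 : r ≤ ‖l‖ / (4 * D) := min_le_right _ _
  have hDr : D * r ≤ ‖l‖ / 4 := by
    have := mul_le_mul_of_nonneg_left hr2 hDpos.le
    have e : D * (‖l‖ / (4 * D)) = ‖l‖ / 4 := by
      field_simp
    linarith
  have hc0 : C0 f0 * r ^ 2 ≤ ‖l‖ * r / 4 := by
    have : C0 f0 * r ≤ D * r := mul_le_mul_of_nonneg_right (by linarith) hr0.le
    nlinarith
  have hc1 : C0 f1 * r ^ 2 ≤ ‖l‖ * r / 4 := by
    have : C0 f1 * r ≤ D * r := mul_le_mul_of_nonneg_right (by linarith) hr0.le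
    nlinarith
  intro N
  induction N with
  | zero =>
    refine ⟨fun i => ?_, ?_⟩
    · rw [nm_of_Or (order_p h i) (by norm_num)]
      linarith
    · rw [nm_of_Or (order_e h) (by norm_num)]
      norm_num
  | succ N ih =>
    obtain ⟨ihp, ihe⟩ := ih
    have hz : ∀ i, nm r (N + 1) (Z i) ≤ 2 * r := by
      intro i
      have e1 : Z i = MvPowerSeries.X i + (Z i - MvPowerSeries.X i) := by ring
      have e2 := nm_add hr0.le (N + 1) (MvPowerSeries.X i) (Z i - MvPowerSeries.X i)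
      rw [← e1] at e2
      have e3 := nm_X hr0.le (N + 1) i
      have e4 := ihp i
      linarith
    have hW0 := nm_W hr0.le hr1 (N + 1) (order_Z h) hz e (by simpa using ihe) f0 hV0
    have hW1 := nm_W hr0.le hr1 (N + 1) (order_Z h) hz e (by simpa using ihe) f1 hV1
    have hep : ∀ i, nm r (N + 1 + 1) (e * (Z i - MvPowerSeries.X i)) ≤ r / 4 := by
      intro i
      have e1 := nm_mul hr0.le (N + 1 + 1) (order_e h) (order_p h i)
      have e2 : N + 1 + 1 - 2 = N := by omega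
      rw [e2] at e1
      have e3 := (nm_mono hr0.le (Nat.le_succ N) (Z i - MvPowerSeries.X i)).trans (ihp i)
      have e4 : nm r N e * nm r N (Z i - MvPowerSeries.X i) ≤ 1 / 2 * (r / 2) :=
        mul_le_mul ihe e3 (nm_nonneg hr0.le _ _) (by norm_num)
      linarith
    refine ⟨fun i => ?_, ?_⟩
    · fin_cases i
      · have e1 := nm_of_ineq hr0.le (N + 1 + 1) (ineq_p h)
        have e2 := mul_le_mul_of_nonneg_left (hep 0) hL.le
        have e3 : ‖l‖ * nm r (N + 1 + 1) (Z 0 - MvPowerSeries.X 0) ≤ ‖l‖ * (r / 2) := by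
          linarith
        exact le_of_mul_le_mul_left e3 hL
      · have e1 := nm_of_ineq hr0.le (N + 1 + 1) (ineq_q h)
        have e2 := mul_le_mul_of_nonneg_left (hep 1) hL.le
        have e3 : ‖l‖ * nm r (N + 1 + 1) (Z 1 - MvPowerSeries.X 1) ≤ ‖l‖ * (r / 2) := by
          linarith
        exact le_of_mul_le_mul_left e3 hL
    · have e1 := nm_of_shift hr0.le (N + 1) (ineq_e h)
      have e3 : ‖l‖ * r * nm r (N + 1) e ≤ ‖l‖ * r * (1 / 2) := by
        nlinarith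
      exact le_of_mul_le_mul_left e3 (mul_pos hL hr0)

theorem coeff_le {r : ℝ} (hr : 0 < r) (hr1 : r ≤ 1) {a : FS} (n : Fin 2 →₀ ℕ)
    (h : nm r (n 0 + n 1) a ≤ 1) :
    ‖MvPowerSeries.coeff n a‖ ≤ (1 / r) ^ (n 0 + n 1 + 1) := by
  have h1 : ‖MvPowerSeries.coeff n a‖ * r ^ (n 0 + n 1) ≤ 1 := by
    refine le_trans ?_ h
    exact Finset.single_le_sum (f := fun n : Fin 2 →₀ ℕ =>
      ‖MvPowerSeries.coeff n a‖ * r ^ (n 0 + n 1))
      (fun m _ => mul_nonneg (norm_nonneg _) (pow_nonneg hr.le _)) (mem_Bx.2 le_rfl)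
  have h2 : ‖MvPowerSeries.coeff n a‖ ≤ (1 / r) ^ (n 0 + n 1) := by
    rw [one_div, inv_pow, ← one_div, le_div_iff₀ (pow_pos hr _)]
    exact h1
  refine h2.trans (pow_le_pow_right₀ ?_ (Nat.le_succ _))
  rw [le_div_iff₀ hr]
  linarith

end Main

end NFM

open NFM in
theorem t_NFM : S_NFM := by
  classical
  intro l V hl hV Z e k h
  obtain ⟨r, hr0, hr1, hb⟩ := bounds hl hV h
  have hK : 1 ≤ 1 / r := by
    rw [le_div_iff₀ hr0]
    linarith
  refine ⟨fun i => ⟨1 / r, fun n => ?_⟩, ⟨1 / r, fun n => ?_⟩⟩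
  · rcases lt_or_ge (n 0 + n 1) 2 with h2 | h2
    · rw [h.zi i n h2, MvPowerSeries.coeff_X]
      split_ifs
      · rw [norm_one]
        exact one_le_pow₀ hK
      · rw [norm_zero]
        exact pow_nonneg (by linarith) _
    · rw [← coeff_p h i n h2]
      refine coeff_le hr0 hr1 n ?_
      have h3 := nm_mono hr0.le (Nat.le_succ (n 0 + n 1)) (Z i - MvPowerSeries.X i)
      have h4 := (hb (n 0 + n 1)).1 i
      have h5 : nm r (n 0 + n 1) (Z i - MvPowerSeries.X i) ≤ r / 2 := h3.trans h4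
      linarith
  · refine coeff_le hr0 hr1 n ?_
    have := (hb (n 0 + n 1)).2
    linarith

end Pool.Agent.N46.CS
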