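import Mathlib
import Pool.Agent.N46.CS.Stm

set_option autoImplicit false

/-!
# CS/NFR: the formal normal form exists
-/

namespace Pool.Agent.N46.CS

open MvPolynomial

namespace NFR

/-- fixed points of maps that improve the agreement by one degree -/
theorem fix {ι : Type} (deg : ι → ℕ) (T : (ι → ℂ) → (ι → ℂ))
    (hT : ∀ (n : ℕ) (a b : ι → ℂ), (∀ x, deg x < n → a x = b x) →
      ∀ x, deg x < n + 1 → T a x = T b x) : ∃ a, T a = a := by
  set s : ℕ → (ι → ℂ) := fun n => T^[n] 0 with hs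
  have hsucc : ∀ n, s (n + 1) = T (s n) := fun n => by
    simp only [hs, Function.iterate_succ', Function.comp_apply]
  have key : ∀ n m, ∀ x, deg x < n → s (n + m) x = s n x := by
    intro n
    induction n with
    | zero => intro m x hx; omega
    | succ n ih =>
      intro m x hx
      have e1 : s (n + 1 + m) = T (s (n + m)) := by
        rw [show n + 1 + m = (n + m) + 1 by omega]; exact hsucc _
      rw [e1, hsucc]
      exact hT n _ _ (ih m) x hx
  refine ⟨fun x => s (deg x + 1) x, ?_⟩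
  funext x
  have h1 : ∀ y, deg y < deg x → (fun x => s (deg x + 1) x) y = s (deg x) y := by
    intro y hy
    obtain ⟨m, hm⟩ : ∃ m, deg x = deg y + 1 + m := ⟨deg x - (deg y + 1), by omega⟩
    show s (deg y + 1) y = s (deg x) y
    rw [hm]
    exact (key (deg y + 1) m y (by omega)).symm
  have h2 := hT (deg x) _ _ h1 x (by omega)
  rw [h2, ← hsucc]

/-- coefficients of degree `< n` vanish -/
def P (n : ℕ) (a : FS) : Prop := ∀ m : Fin 2 →₀ ℕ, m 0 + m 1 < n → MvPowerSeries.coeff m a = 0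

theorem P.mono {n k : ℕ} {a : FS} (h : P n a) (hk : k ≤ n) : P k a :=
  fun m hm => h m (by omega)

theorem P.add {n : ℕ} {a b : FS} (ha : P n a) (hb : P n b) : P n (a + b) := fun m hm => by
  rw [map_add, ha m hm, hb m hm, add_zero]

theorem P.mul {n k : ℕ} {a b : FS} (ha : P n a) (hb : P k b) : P (n + k) (a * b) := by
  intro m hm
  classical
  rw [MvPowerSeries.coeff_mul]
  refine Finset.sum_eq_zero fun x hx => ?_
  rw [Finset.HasAntidiagonal.mem_antidiagonal] at hx
  have h0 : x.1 0 + x.2 0 = m 0 := by rw [← hx]; rfl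
  have h1 : x.1 1 + x.2 1 = m 1 := by rw [← hx]; rfl
  by_cases h : x.1 0 + x.1 1 < n
  · rw [ha _ h, zero_mul]
  · rw [hb _ (by omega), mul_zero]

theorem P.zero (n : ℕ) : P n 0 := fun m _ => by simp

theorem P.all (a : FS) : P 0 a := fun m hm => by omega

/-- pairs of order `≥ a` and agreeing in degrees `< k + a` -/
def D (k a : ℕ) (x y : FS) : Prop := P a x ∧ P a y ∧ P (k + a) (x - y)

theorem D.mul {k a b : ℕ} {x y u v : FS} (h : D k a x y) (h' : D k b u v) :
    D k (a + b) (x * u) (y * v) := by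
  refine ⟨h.1.mul h'.1, h.2.1.mul h'.2.1, ?_⟩
  have e : x * u - y * v = x * (u - v) + (x - y) * v := by ring
  rw [e]
  exact ((h.1.mul h'.2.2).mono (by omega)).add ((h.2.2.mul h'.2.1).mono (by omega))

theorem D.one (k : ℕ) : D k 0 1 1 :=
  ⟨P.all _, P.all _, by rw [sub_self]; exact P.zero _⟩

theorem D.pow {k a : ℕ} {x y : FS} (h : D k a x y) (n : ℕ) : D k (n * a) (x ^ n) (y ^ n) := by
  induction n with
  | zero => simpa using D.one k
  | succ n ih =>
    rw [pow_succ, pow_succ]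
    have := ih.mul h
    rwa [← Nat.succ_mul] at this

theorem D.add {k a : ℕ} {x y u v : FS} (h : D k a x y) (h' : D k a u v) :
    D k a (x + u) (y + v) := by
  refine ⟨h.1.add h'.1, h.2.1.add h'.2.1, ?_⟩
  have e : x + u - (y + v) = (x - y) + (u - v) := by ring
  rw [e]; exact h.2.2.add h'.2.2

theorem D.mono {k a b : ℕ} {x y : FS} (h : D k a x y) (hb : b ≤ a) : D k b x y :=
  ⟨h.1.mono hb, h.2.1.mono hb, h.2.2.mono (by omega)⟩

theorem D.zero (k a : ℕ) : D k a 0 0 :=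
  ⟨P.zero _, P.zero _, by rw [sub_self]; exact P.zero _⟩

theorem D.refl (k : ℕ) (x : FS) : D k 0 x x :=
  ⟨P.all _, P.all _, by rw [sub_self]; exact P.zero _⟩

/-- the key lemma -/
theorem D.aeval {k : ℕ} {Z Z' : Fin 2 → FS} (h : ∀ i, D k 1 (Z i) (Z' i))
    {f : MvPolynomial (Fin 2) ℂ} {r : ℕ} (hf : Van r f) :
    D k r (MvPolynomial.aeval Z f) (MvPolynomial.aeval Z' f) := by
  classical
  rw [MvPolynomial.aeval_def, MvPolynomial.aeval_def, MvPolynomial.eval₂_eq,
    MvPolynomial.eval₂_eq]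
  have : ∀ s : Finset (Fin 2 →₀ ℕ), D k r
      (∑ d ∈ s, algebraMap ℂ FS (coeff d f) * ∏ i ∈ d.support, Z i ^ d i)
      (∑ d ∈ s, algebraMap ℂ FS (coeff d f) * ∏ i ∈ d.support, Z' i ^ d i) := by
    intro s
    induction s using Finset.induction_on with
    | empty => simpa using D.zero k r
    | insert d s hd ih =>
      rw [Finset.sum_insert hd, Finset.sum_insert hd]
      refine D.add ?_ ih
      have e : ∀ Y : Fin 2 → FS, (∏ i ∈ d.support, Y i ^ d i) = Y 0 ^ d 0 * Y 1 ^ d 1 := by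
        intro Y
        rw [← Fin.prod_univ_two (fun i => Y i ^ d i)]
        refine Finset.prod_subset (Finset.subset_univ _) fun i _ hi => ?_
        rw [Finsupp.notMem_support_iff.mp hi, pow_zero]
      rw [e Z, e Z']
      by_cases hr : d 0 + d 1 < r
      · rw [hf d hr, map_zero, zero_mul, zero_mul]; exact D.zero k r
      · have h1 := ((h 0).pow (d 0)).mul ((h 1).pow (d 1))
        have h2 := (D.refl k (algebraMap ℂ FS (coeff d f))).mul h1
        exact h2.mono (by omega)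
  exact this f.support

/-- index type -/
abbrev I : Type := Fin 3 × (Fin 2 →₀ ℕ)

/-- degree of an index -/
def dg (x : I) : ℕ := if x.1 = 0 then x.2 0 + x.2 1 + 1 else x.2 0 + x.2 1

open Classical in
/-- the time change -/
noncomputable def pe (a : I → ℂ) : FS := fun m => if m 0 = m 1 ∧ m 0 ≠ 0 then a (0, m) else 0

open Classical in
/-- the first coordinate -/
noncomputable def pp (a : I → ℂ) : FS :=
  fun m => if 2 ≤ m 0 + m 1 ∧ m 0 ≠ m 1 + 1 then a (1, m) else 0

open Classical in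
/-- the second coordinate -/
noncomputable def pq (a : I → ℂ) : FS :=
  fun m => if 2 ≤ m 0 + m 1 ∧ m 1 ≠ m 0 + 1 then a (2, m) else 0

/-- the coordinates -/
noncomputable def ZZ (a : I → ℂ) : Fin 2 → FS :=
  ![MvPowerSeries.X 0 + pp a, MvPowerSeries.X 1 + pq a]

/-- the nonlinear terms -/
noncomputable def W (f : MvPolynomial (Fin 2) ℂ) (a : I → ℂ) : FS :=
  (1 + pe a) * MvPolynomial.aeval (ZZ a) f

theorem pe_coeff (a : I → ℂ) (m : Fin 2 →₀ ℕ) (h : m 0 = m 1) (h0 : m 0 ≠ 0) :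
    MvPowerSeries.coeff m (pe a) = a (0, m) := by
  show pe a m = _
  rw [pe, if_pos ⟨h, h0⟩]

theorem pe_zero (a : I → ℂ) (m : Fin 2 →₀ ℕ) (h : ¬ (m 0 = m 1 ∧ m 0 ≠ 0)) :
    MvPowerSeries.coeff m (pe a) = 0 := by
  show pe a m = _
  rw [pe, if_neg h]

theorem pp_coeff (a : I → ℂ) (m : Fin 2 →₀ ℕ) (h : 2 ≤ m 0 + m 1) (h0 : m 0 ≠ m 1 + 1) :
    MvPowerSeries.coeff m (pp a) = a (1, m) := by
  show pp a m = _
  rw [pp, if_pos ⟨h, h0⟩]

theorem pp_zero (a : I → ℂ) (m : Fin 2 →₀ ℕ) (h : ¬ (2 ≤ m 0 + m 1 ∧ m 0 ≠ m 1 + 1)) :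
    MvPowerSeries.coeff m (pp a) = 0 := by
  show pp a m = _
  rw [pp, if_neg h]

theorem pq_coeff (a : I → ℂ) (m : Fin 2 →₀ ℕ) (h : 2 ≤ m 0 + m 1) (h0 : m 1 ≠ m 0 + 1) :
    MvPowerSeries.coeff m (pq a) = a (2, m) := by
  show pq a m = _
  rw [pq, if_pos ⟨h, h0⟩]

theorem pq_zero (a : I → ℂ) (m : Fin 2 →₀ ℕ) (h : ¬ (2 ≤ m 0 + m 1 ∧ m 1 ≠ m 0 + 1)) :
    MvPowerSeries.coeff m (pq a) = 0 := by
  show pq a m = _
  rw [pq, if_neg h]

theorem P_pe (a : I → ℂ) : P 2 (pe a) := fun m hm => pe_zero a m (by omega)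

theorem P_pp (a : I → ℂ) : P 2 (pp a) := fun m hm => pp_zero a m (by omega)

theorem P_pq (a : I → ℂ) : P 2 (pq a) := fun m hm => pq_zero a m (by omega)

theorem P_X (i : Fin 2) : P 1 (MvPowerSeries.X i : FS) := by
  intro m hm
  classical
  rw [MvPowerSeries.coeff_X, if_neg]
  rintro rfl
  fin_cases i <;> simp at hm

theorem P_ZZ (a : I → ℂ) (i : Fin 2) : P 1 (ZZ a i) := by
  fin_cases i
  · exact (P_X 0).add ((P_pp a).mono (by omega))
  · exact (P_X 1).add ((P_pq a).mono (by omega))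

section dep

variable {n : ℕ} {a b : I → ℂ} (h : ∀ x, dg x < n → a x = b x)

include h

theorem dep_e : P (n - 1) (pe a - pe b) := by
  intro m hm
  rw [map_sub]
  by_cases hc : m 0 = m 1 ∧ m 0 ≠ 0
  · rw [pe_coeff a m hc.1 hc.2, pe_coeff b m hc.1 hc.2, h (0, m) (by simp [dg]; omega), sub_self]
  · rw [pe_zero a m hc, pe_zero b m hc, sub_self]

theorem dep_p : P n (pp a - pp b) := by
  intro m hm
  rw [map_sub]
  by_cases hc : 2 ≤ m 0 + m 1 ∧ m 0 ≠ m 1 + 1
  · rw [pp_coeff a m hc.1 hc.2, pp_coeff b m hc.1 hc.2, h (1, m) (by simp [dg]; omega), sub_self]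
  · rw [pp_zero a m hc, pp_zero b m hc, sub_self]

theorem dep_q : P n (pq a - pq b) := by
  intro m hm
  rw [map_sub]
  by_cases hc : 2 ≤ m 0 + m 1 ∧ m 1 ≠ m 0 + 1
  · rw [pq_coeff a m hc.1 hc.2, pq_coeff b m hc.1 hc.2, h (2, m) (by simp [dg]; omega), sub_self]
  · rw [pq_zero a m hc, pq_zero b m hc, sub_self]

theorem dep_Z (i : Fin 2) : D (n - 1) 1 (ZZ a i) (ZZ b i) ∧ D 1 1 (ZZ a i) (ZZ b i) := by
  have h2 : P n (ZZ a i - ZZ b i) ∧ P 2 (ZZ a i - ZZ b i) := by
    fin_cases i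
    · have e : ZZ a 0 - ZZ b 0 = pp a - pp b := by simp [ZZ]
      show P n (ZZ a 0 - ZZ b 0) ∧ P 2 (ZZ a 0 - ZZ b 0)
      rw [e]
      refine ⟨dep_p h, ?_⟩
      intro m hm
      rw [map_sub, P_pp a m hm, P_pp b m hm, sub_self]
    · have e : ZZ a 1 - ZZ b 1 = pq a - pq b := by simp [ZZ]
      show P n (ZZ a 1 - ZZ b 1) ∧ P 2 (ZZ a 1 - ZZ b 1)
      rw [e]
      refine ⟨dep_q h, ?_⟩
      intro m hm
      rw [map_sub, P_pq a m hm, P_pq b m hm, sub_self]
  refine ⟨⟨P_ZZ a i, P_ZZ b i, ?_⟩, ⟨P_ZZ a i, P_ZZ b i, h2.2.mono (by omega)⟩⟩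
  by_cases hn : n = 0
  · subst hn; exact h2.2.mono (by omega)
  · exact h2.1.mono (by omega)

theorem dep_W {f : MvPolynomial (Fin 2) ℂ} (hf : Van 2 f) : P (n + 1) (W f a - W f b) := by
  have e : W f a - W f b = (1 + pe a) * (aeval (ZZ a) f - aeval (ZZ b) f) +
      (pe a - pe b) * aeval (ZZ b) f := by
    simp only [W]; ring
  rw [e]
  have h1 := D.aeval (fun i => (dep_Z h i).1) hf
  have h2 : P (n + 1) ((1 + pe a) * (aeval (ZZ a) f - aeval (ZZ b) f)) := by
    have := (P.all (1 + pe a)).mul h1.2.2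
    exact this.mono (by omega)
  refine h2.add ?_
  have := (dep_e h).mul h1.2.1
  exact this.mono (by omega)

theorem dep_ep : P (n + 1) (pe a * pp a - pe b * pp b) := by
  have e : pe a * pp a - pe b * pp b = (pe a - pe b) * pp a + pe b * (pp a - pp b) := by ring
  rw [e]
  exact (((dep_e h).mul (P_pp a)).mono (by omega)).add (((P_pe b).mul (dep_p h)).mono (by omega))

theorem dep_eq : P (n + 1) (pe a * pq a - pe b * pq b) := by
  have e : pe a * pq a - pe b * pq b = (pe a - pe b) * pq a + pe b * (pq a - pq b) := by ring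
  rw [e]
  exact (((dep_e h).mul (P_pq a)).mono (by omega)).add (((P_pe b).mul (dep_q h)).mono (by omega))

end dep

/-- the map -/
noncomputable def T (l : ℂ) (f g : MvPolynomial (Fin 2) ℂ) (a : I → ℂ) : I → ℂ := fun x =>
  if x.1 = 0 then - MvPowerSeries.coeff (x.2 + Finsupp.single 0 1) (W f a) / l
  else if x.1 = 1 then
    (l * MvPowerSeries.coeff x.2 (pe a * pp a) + MvPowerSeries.coeff x.2 (W f a)) /
      (l * ((x.2 0 : ℂ) - (x.2 1 : ℂ) - 1))
  else (- l * MvPowerSeries.coeff x.2 (pe a * pq a) + MvPowerSeries.coeff x.2 (W g a)) /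
      (l * ((x.2 0 : ℂ) - (x.2 1 : ℂ) + 1))

theorem P.eq {n : ℕ} {a b : FS} (h : P n (a - b)) (m : Fin 2 →₀ ℕ) (hm : m 0 + m 1 < n) :
    MvPowerSeries.coeff m a = MvPowerSeries.coeff m b := by
  have := h m hm
  rwa [map_sub, sub_eq_zero] at this

theorem dep_T {l : ℂ} {f g : MvPolynomial (Fin 2) ℂ} (hf : Van 2 f) (hg : Van 2 g)
    (n : ℕ) (a b : I → ℂ) (h : ∀ x, dg x < n → a x = b x) :
    ∀ x, dg x < n + 1 → T l f g a x = T l f g b x := by
  rintro ⟨i, m⟩ hx
  fin_cases i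
  · have hx' : m 0 + m 1 + 1 < n + 1 := by simpa [dg] using hx
    have e := (dep_W h hf).eq (m + Finsupp.single 0 1) (by simp; omega)
    simp [T, e]
  · have hx' : m 0 + m 1 < n + 1 := by simpa [dg] using hx
    have e := (dep_W h hf).eq m (by omega)
    have e' := (dep_ep h).eq m (by omega)
    simp [T, e, e']
  · have hx' : m 0 + m 1 < n + 1 := by simpa [dg] using hx
    have e := (dep_W h hg).eq m (by omega)
    have e' := (dep_eq h).eq m (by omega)
    simp [T, e, e']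

theorem eX0 (a : I → ℂ) (m : Fin 2 →₀ ℕ) (hm : m 0 ≠ m 1 + 1) :
    MvPowerSeries.coeff m (pe a * MvPowerSeries.X 0) = 0 := by
  classical
  rw [MvPowerSeries.coeff_mul]
  refine Finset.sum_eq_zero fun x hx => ?_
  rw [Finset.HasAntidiagonal.mem_antidiagonal] at hx
  have h0 : x.1 0 + x.2 0 = m 0 := by rw [← hx]; rfl
  have h1 : x.1 1 + x.2 1 = m 1 := by rw [← hx]; rfl
  rw [MvPowerSeries.coeff_X]
  split_ifs with h
  · rw [h] at h0 h1
    simp at h0 h1
    rw [pe_zero a x.1 (by omega), zero_mul]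
  · rw [mul_zero]

theorem eX1 (a : I → ℂ) (m : Fin 2 →₀ ℕ) (hm : m 1 ≠ m 0 + 1) :
    MvPowerSeries.coeff m (pe a * MvPowerSeries.X 1) = 0 := by
  classical
  rw [MvPowerSeries.coeff_mul]
  refine Finset.sum_eq_zero fun x hx => ?_
  rw [Finset.HasAntidiagonal.mem_antidiagonal] at hx
  have h0 : x.1 0 + x.2 0 = m 0 := by rw [← hx]; rfl
  have h1 : x.1 1 + x.2 1 = m 1 := by rw [← hx]; rfl
  rw [MvPowerSeries.coeff_X]
  split_ifs with h
  · rw [h] at h0 h1
    simp at h0 h1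
    rw [pe_zero a x.1 (by omega), zero_mul]
  · rw [mul_zero]

theorem eX0' (a : I → ℂ) (m : Fin 2 →₀ ℕ) :
    MvPowerSeries.coeff (m + Finsupp.single 0 1) (pe a * MvPowerSeries.X 0) =
      MvPowerSeries.coeff m (pe a) := by
  rw [MvPowerSeries.X, MvPowerSeries.coeff_add_mul_monomial, mul_one]

theorem ep_res (a : I → ℂ) (m : Fin 2 →₀ ℕ) (hm : m 0 = m 1 + 1) :
    MvPowerSeries.coeff m (pe a * pp a) = 0 := by
  classical
  rw [MvPowerSeries.coeff_mul]
  refine Finset.sum_eq_zero fun x hx => ?_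
  rw [Finset.HasAntidiagonal.mem_antidiagonal] at hx
  have h0 : x.1 0 + x.2 0 = m 0 := by rw [← hx]; rfl
  have h1 : x.1 1 + x.2 1 = m 1 := by rw [← hx]; rfl
  by_cases hd : x.1 0 = x.1 1
  · rw [pp_zero a x.2 (by omega), mul_zero]
  · rw [pe_zero a x.1 (by omega), zero_mul]

theorem coeff_Dop (a : FS) (m : Fin 2 →₀ ℕ) : MvPowerSeries.coeff m (Dop a) =
    ((m 0 : ℂ) - (m 1 : ℂ)) * MvPowerSeries.coeff m a := rfl

theorem coeff_X0 (m : Fin 2 →₀ ℕ) (hm : m 0 ≠ m 1 + 1) :
    MvPowerSeries.coeff m (MvPowerSeries.X 0 : FS) = 0 := by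
  classical
  rw [MvPowerSeries.coeff_X, if_neg]
  rintro rfl
  simp at hm

theorem coeff_X1 (m : Fin 2 →₀ ℕ) (hm : m 1 ≠ m 0 + 1) :
    MvPowerSeries.coeff m (MvPowerSeries.X 1 : FS) = 0 := by
  classical
  rw [MvPowerSeries.coeff_X, if_neg]
  rintro rfl
  simp at hm

theorem coeff_X2 (i : Fin 2) (m : Fin 2 →₀ ℕ) (hm : 2 ≤ m 0 + m 1) :
    MvPowerSeries.coeff m (MvPowerSeries.X i : FS) = 0 := by
  classical
  rw [MvPowerSeries.coeff_X, if_neg]
  rintro rfl
  fin_cases i <;> simp at hm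

/-- main computation: first equation -/
theorem eq0 {l : ℂ} (hl : l ≠ 0) {f g : MvPolynomial (Fin 2) ℂ} (hf : Van 2 f) (a : I → ℂ)
    (ha : T l f g a = a) (m : Fin 2 →₀ ℕ) :
    l * (((m 0 : ℂ) - (m 1 : ℂ)) * MvPowerSeries.coeff m (ZZ a 0)) =
      l * MvPowerSeries.coeff m (ZZ a 0) + l * MvPowerSeries.coeff m (pe a * ZZ a 0) +
        MvPowerSeries.coeff m (W f a) := by
  have hW : P 2 (W f a) := by
    have h1 := D.aeval (k := 1) (fun i => (dep_Z (n := 2) (a := a) (b := a) (fun _ _ => rfl) i).1) hf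
    exact ((P.all (1 + pe a)).mul h1.1).mono (by omega)
  have hZ : ZZ a 0 = MvPowerSeries.X 0 + pp a := rfl
  by_cases hd : m 0 + m 1 < 2
  · rw [hW m hd, (((P_pe a).mul (P_ZZ a 0)).mono (by omega : 2 ≤ 2 + 1)) m hd, hZ, map_add,
      P_pp a m hd]
    by_cases hr : m 0 = m 1 + 1
    · have : (m 0 : ℂ) = (m 1 : ℂ) + 1 := by exact_mod_cast hr
      rw [this]; ring
    · rw [coeff_X0 m hr]; ring
  · by_cases hr : m 0 = m 1 + 1
    · have hz : MvPowerSeries.coeff m (ZZ a 0) = 0 := by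
        rw [hZ, map_add, coeff_X2 0 m (by omega), pp_zero a m (by omega), add_zero]
      rw [hz, hZ, mul_add, map_add, ep_res a m hr]
      set m' : Fin 2 →₀ ℕ := m - Finsupp.single 0 1 with hm'
      have hmm : m = m' + Finsupp.single 0 1 := by
        ext i
        fin_cases i
        · simp [hm']; omega
        · simp [hm']
      have e0 : m' 0 = m' 1 := by
        have h0 : m' 0 = m 0 - 1 := by simp [hm']
        have h1 : m' 1 = m 1 := by simp [hm']
        omega
      have e1 : m' 0 ≠ 0 := by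
        have h0 : m' 0 = m 0 - 1 := by simp [hm']
        omega
      have e2 : MvPowerSeries.coeff m (pe a * MvPowerSeries.X 0) = a (0, m') := by
        rw [hmm, eX0', pe_coeff a m' e0 e1]
      rw [e2]
      have e3 : a (0, m') = - MvPowerSeries.coeff m (W f a) / l := by
        have := congrFun ha (0, m')
        rw [← this]
        simp only [T, if_true]
        rw [← hmm]
      rw [e3]
      field_simp
      ring
    · have hz : MvPowerSeries.coeff m (ZZ a 0) = a (1, m) := by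
        rw [hZ, map_add, coeff_X2 0 m (by omega), pp_coeff a m (by omega) hr, zero_add]
      rw [hz]
      have e3 : a (1, m) = (l * MvPowerSeries.coeff m (pe a * pp a) + MvPowerSeries.coeff m (W f a)) /
          (l * ((m 0 : ℂ) - (m 1 : ℂ) - 1)) := by
        have := congrFun ha (1, m)
        rw [← this]
        simp [T]
      have hne : ((m 0 : ℂ) - (m 1 : ℂ) - 1) ≠ 0 := by
        intro h
        apply hr
        have : (m 0 : ℂ) = (m 1 : ℂ) + 1 := by linear_combination h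
        exact_mod_cast this
      rw [hZ, mul_add, map_add, eX0 a m hr]
      have e4 : a (1, m) * (l * ((m 0 : ℂ) - (m 1 : ℂ) - 1)) =
          l * MvPowerSeries.coeff m (pe a * pp a) + MvPowerSeries.coeff m (W f a) := by
        rw [e3]; field_simp
      linear_combination e4

/-- main computation: second equation -/
theorem eq1 {l : ℂ} (hl : l ≠ 0) {f g : MvPolynomial (Fin 2) ℂ} (hg : Van 2 g) (a : I → ℂ)
    (ha : T l f g a = a) (m : Fin 2 →₀ ℕ) (hm : m 0 + m 1 < 2 ∨ m 1 ≠ m 0 + 1) :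
    l * (((m 0 : ℂ) - (m 1 : ℂ)) * MvPowerSeries.coeff m (ZZ a 1)) =
      - (l * MvPowerSeries.coeff m (ZZ a 1)) - l * MvPowerSeries.coeff m (pe a * ZZ a 1) +
        MvPowerSeries.coeff m (W g a) := by
  have hW : P 2 (W g a) := by
    have h1 := D.aeval (k := 1) (fun i => (dep_Z (n := 2) (a := a) (b := a) (fun _ _ => rfl) i).1) hg
    exact ((P.all (1 + pe a)).mul h1.1).mono (by omega)
  have hZ : ZZ a 1 = MvPowerSeries.X 1 + pq a := rfl
  by_cases hd : m 0 + m 1 < 2
  · rw [hW m hd, (((P_pe a).mul (P_ZZ a 1)).mono (by omega : 2 ≤ 2 + 1)) m hd, hZ, map_add,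
      P_pq a m hd]
    by_cases hr : m 1 = m 0 + 1
    · have : (m 1 : ℂ) = (m 0 : ℂ) + 1 := by exact_mod_cast hr
      rw [this]; ring
    · rw [coeff_X1 m hr]; ring
  · have hr : m 1 ≠ m 0 + 1 := hm.resolve_left hd
    have hz : MvPowerSeries.coeff m (ZZ a 1) = a (2, m) := by
      rw [hZ, map_add, coeff_X2 1 m (by omega), pq_coeff a m (by omega) hr, zero_add]
    rw [hz]
    have e3 : a (2, m) = (- l * MvPowerSeries.coeff m (pe a * pq a) + MvPowerSeries.coeff m (W g a)) /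
        (l * ((m 0 : ℂ) - (m 1 : ℂ) + 1)) := by
      have := congrFun ha (2, m)
      rw [← this]
      simp [T]
    have hne : ((m 0 : ℂ) - (m 1 : ℂ) + 1) ≠ 0 := by
      intro h
      apply hr
      have : (m 1 : ℂ) = (m 0 : ℂ) + 1 := by linear_combination -h
      exact_mod_cast this
    rw [hZ, mul_add, map_add, eX1 a m hr]
    have e4 : a (2, m) * (l * ((m 0 : ℂ) - (m 1 : ℂ) + 1)) =
        - l * MvPowerSeries.coeff m (pe a * pq a) + MvPowerSeries.coeff m (W g a) := by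
      rw [e3]; field_simp
    linear_combination e4

end NFR

open NFR in
theorem t_NFR : S_NFR := by
  intro l V hl hV
  set f : MvPolynomial (Fin 2) ℂ := V 0 - C l * X 0 with hf
  set g : MvPolynomial (Fin 2) ℂ := V 1 + C l * X 1 with hg
  obtain ⟨a, ha⟩ := fix dg (T l f g) (dep_T hV.1 hV.2)
  have hV0 : (1 + pe a) * aeval (ZZ a) (V 0) =
      MvPowerSeries.C l * ZZ a 0 + MvPowerSeries.C l * (pe a * ZZ a 0) + W f a := by
    have e : V 0 = C l * X 0 + f := by rw [hf]; ring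
    rw [e, W, map_add, map_mul, aeval_X, algHom_C]
    have : (algebraMap ℂ FS) l = MvPowerSeries.C l := rfl
    rw [this]; ring
  have hV1 : (1 + pe a) * aeval (ZZ a) (V 1) =
      - (MvPowerSeries.C l * ZZ a 1) - MvPowerSeries.C l * (pe a * ZZ a 1) + W g a := by
    have e : V 1 = - (C l * X 1) + g := by rw [hg]; ring
    rw [e, W, map_add, map_neg, map_mul, aeval_X, algHom_C]
    have : (algebraMap ℂ FS) l = MvPowerSeries.C l := rfl
    rw [this]; ring
  refine ⟨ZZ a, pe a, MvPowerSeries.C l * Dop (ZZ a 1) - (1 + pe a) * aeval (ZZ a) (V 1), ?_⟩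
  have hk : ∀ m : Fin 2 →₀ ℕ, (m 0 + m 1 < 2 ∨ m 1 ≠ m 0 + 1) → MvPowerSeries.coeff m
      (MvPowerSeries.C l * Dop (ZZ a 1) - (1 + pe a) * aeval (ZZ a) (V 1)) = 0 := by
    intro m hm
    have := eq1 hl hV.2 a ha m hm
    rw [hV1, map_sub, map_add, map_sub, map_neg]
    simp only [MvPowerSeries.coeff_C_mul, coeff_Dop]
    rw [this]; ring
  refine ⟨?_, ?_, ?_, ?_, ?_, ?_, ?_, ?_, ?_⟩
  · intro i n hn
    fin_cases i
    · show MvPowerSeries.coeff n (MvPowerSeries.X 0 + pp a) = _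
      rw [map_add, P_pp a n hn, add_zero]; rfl
    · show MvPowerSeries.coeff n (MvPowerSeries.X 1 + pq a) = _
      rw [map_add, P_pq a n hn, add_zero]; rfl
  · intro n h1 h2
    show MvPowerSeries.coeff n (MvPowerSeries.X 0 + pp a) = _
    rw [map_add, coeff_X2 0 n h2, pp_zero a n (by omega), add_zero]
  · intro n h1 h2
    show MvPowerSeries.coeff n (MvPowerSeries.X 1 + pq a) = _
    rw [map_add, coeff_X2 1 n h2, pq_zero a n (by omega), add_zero]
  · exact pe_zero a 0 (by simp)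
  · intro n hn
    exact pe_zero a n (by tauto)
  · intro n hn
    exact hk n (Or.inl hn)
  · intro n hn
    exact hk n (Or.inr hn)
  · rw [hV0]
    ext m
    rw [map_add, map_add]
    simp only [MvPowerSeries.coeff_C_mul, coeff_Dop]
    exact eq0 hl hV.1 a ha m
  · ring

end Pool.Agent.N46.CS
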