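import Pool.Agent.N46.CS.Stm

set_option autoImplicit false

/-!
# Stability of centers (MP_d6d6e6_ag): good coordinates at a center (leaf NOC1)
-/

namespace Pool.Agent.N46.CS

open MvPolynomial Filter Topology
open Pool.Agent.Y215.CC
open scoped ContDiff

namespace NOC1

theorem dec (x : Fin 2 → ℂ) : x = x 0 • (Pi.single 0 1 : Fin 2 → ℂ) +
    x 1 • (Pi.single 1 1 : Fin 2 → ℂ) := by
  funext i
  fin_cases i <;> simp

/-- two independent functionals on the plane have no common kernel -/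
theorem indep_inj {f g : (Fin 2 → ℂ) →L[ℂ] ℂ} (h : LinearIndependent ℂ ![f, g]) {x : Fin 2 → ℂ}
    (hf : f x = 0) (hg : g x = 0) : x = 0 := by
  rw [LinearIndependent.pair_iff] at h
  set a := f (Pi.single 0 1) with ha
  set b := f (Pi.single 1 1) with hb
  set c := g (Pi.single 0 1) with hc
  set d := g (Pi.single 1 1) with hd
  have ef : ∀ y : Fin 2 → ℂ, f y = y 0 * a + y 1 * b := by
    intro y
    conv_lhs => rw [dec y]
    rw [map_add, map_smul, map_smul]
    rfl
  have eg : ∀ y : Fin 2 → ℂ, g y = y 0 * c + y 1 * d := by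
    intro y
    conv_lhs => rw [dec y]
    rw [map_add, map_smul, map_smul]
    rfl
  have hdet : a * d - b * c ≠ 0 := by
    intro h0
    obtain ⟨h1, h2⟩ := h d (-b) (by
      ext y
      simp only [add_apply, smul_apply, smul_eq_mul, zero_apply, ef, eg]
      linear_combination y 0 * h0)
    obtain ⟨h3, h4⟩ := h c (-a) (by
      ext y
      simp only [add_apply, smul_apply, smul_eq_mul, zero_apply, ef, eg]
      linear_combination (-y 1) * h0)
    have hb0 : b = 0 := neg_eq_zero.mp h2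
    have ha0 : a = 0 := neg_eq_zero.mp h4
    have hf0 : f = 0 := by
      ext y
      rw [ef, ha0, hb0]
      simp
    exact one_ne_zero (h 1 0 (by rw [hf0]; simp)).1
  rw [ef] at hf
  rw [eg] at hg
  have h0 : x 0 = 0 := by
    have : x 0 * (a * d - b * c) = 0 := by linear_combination d * hf - b * hg
    exact (mul_eq_zero.mp this).resolve_right hdet
  have h1 : x 1 = 0 := by
    have : x 1 * (a * d - b * c) = 0 := by linear_combination a * hg - c * hf
    exact (mul_eq_zero.mp this).resolve_right hdet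
  funext i
  fin_cases i
  · exact h0
  · exact h1

/-- the new coordinates -/
noncomputable def sc (u v : (Fin 2 → ℂ) → ℂ) (x : Fin 2 → ℂ) : Fin 2 → ℂ :=
  ![u x + Complex.I * v x, u x - Complex.I * v x]

theorem sc_an {u v : (Fin 2 → ℂ) → ℂ} {x : Fin 2 → ℂ} (hu : AnalyticAt ℂ u x)
    (hv : AnalyticAt ℂ v x) : AnalyticAt ℂ (sc u v) x := by
  rw [analyticAt_pi_iff]
  intro i
  fin_cases i
  · exact hu.add (analyticAt_const.mul hv)
  · exact hu.sub (analyticAt_const.mul hv)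

theorem sc_deriv {u v : (Fin 2 → ℂ) → ℂ} {x : Fin 2 → ℂ} (hu : AnalyticAt ℂ u x)
    (hv : AnalyticAt ℂ v x) (h : Fin 2 → ℂ) :
    fderiv ℂ (sc u v) x h 0 = fderiv ℂ u x h + Complex.I * fderiv ℂ v x h ∧
    fderiv ℂ (sc u v) x h 1 = fderiv ℂ u x h - Complex.I * fderiv ℂ v x h := by
  have hs := (sc_an hu hv).differentiableAt.hasFDerivAt
  rw [hasFDerivAt_pi'] at hs
  have du := hu.differentiableAt.hasFDerivAt
  have dv := hv.differentiableAt.hasFDerivAt
  constructor
  · have h1 := (hs 0).unique (du.add (dv.const_mul Complex.I))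
    have h2 := congrArg (fun F : (Fin 2 → ℂ) →L[ℂ] ℂ => F h) h1
    simpa using h2
  · have h1 := (hs 1).unique (du.sub (dv.const_mul Complex.I))
    have h2 := congrArg (fun F : (Fin 2 → ℂ) →L[ℂ] ℂ => F h) h1
    simpa using h2

end NOC1

open NOC1 in
theorem t_NOC1 : S_NOC1 := by
  intro V hV
  obtain ⟨-, -, -, u, v, hu, hv, hu0, hv0, hind, heq⟩ := hV
  have hs : AnalyticAt ℂ (sc u v) 0 := sc_an hu hv
  have hs0 : sc u v 0 = 0 := by
    funext i
    fin_cases i <;> simp [sc, hu0, hv0]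
  have hinj : Function.Injective (fderiv ℂ (sc u v) 0) := by
    rw [injective_iff_map_eq_zero]
    intro h hh
    obtain ⟨e0, e1⟩ := sc_deriv hu hv h
    rw [hh] at e0 e1
    simp only [Pi.zero_apply] at e0 e1
    refine indep_inj hind (x := h) ?_ ?_
    · linear_combination (-1 / 2 : ℂ) * e0 + (-1 / 2 : ℂ) * e1
    · have h2 : Complex.I * fderiv ℂ v 0 h = 0 := by
        linear_combination (-1 / 2 : ℂ) * e0 + (1 / 2 : ℂ) * e1
      exact (mul_eq_zero.mp h2).resolve_left Complex.I_ne_zero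
  set L : (Fin 2 → ℂ) ≃L[ℂ] (Fin 2 → ℂ) :=
    (LinearEquiv.ofInjectiveEndo (fderiv ℂ (sc u v) 0 : (Fin 2 → ℂ) →ₗ[ℂ] (Fin 2 → ℂ))
      hinj).toContinuousLinearEquiv with hL
  have hf' : HasFDerivAt (sc u v) (L : (Fin 2 → ℂ) →L[ℂ] (Fin 2 → ℂ)) 0 := by
    have : (L : (Fin 2 → ℂ) →L[ℂ] (Fin 2 → ℂ)) = fderiv ℂ (sc u v) 0 := by
      ext h : 1
      rfl
    rw [this]
    exact hs.differentiableAt.hasFDerivAt
  have hcd : ContDiffAt ℂ ω (sc u v) 0 := hs.contDiffAt
  have hn : (ω : WithTop ℕ∞) ≠ 0 := by simp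
  obtain ⟨z, hz, hz0, hzs⟩ : ∃ z : (Fin 2 → ℂ) → (Fin 2 → ℂ), AnalyticAt ℂ z 0 ∧ z 0 = 0 ∧
      ∀ᶠ w in 𝓝 (0 : Fin 2 → ℂ), sc u v (z w) = w := by
    refine ⟨hcd.localInverse hf' hn, ?_, ?_, ?_⟩
    · have := (hcd.to_localInverse hf' hn).analyticAt
      rwa [hs0] at this
    · have := hcd.localInverse_apply_image hf' hn
      rwa [hs0] at this
    · have := (hcd.hasStrictFDerivAt' hf' hn).eventually_right_inverse
      rw [hs0] at this
      exact this
  have htz : Tendsto z (𝓝 0) (𝓝 0) := by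
    have := hz.continuousAt.tendsto
    rwa [hz0] at this
  have hDs : AnalyticAt ℂ (fun w => fderiv ℂ (sc u v) (z w)) 0 :=
    AnalyticAt.comp_of_eq hs.fderiv hz hz0
  have hVf : AnalyticAt ℂ (fun w => (fun i => eval (z w) (V i) : Fin 2 → ℂ)) 0 := by
    rw [analyticAt_pi_iff]
    intro i
    have hp : AnalyticAt ℂ (fun x : Fin 2 → ℂ => eval x (V i)) 0 :=
      (AnalyticOnNhd.eval_mvPolynomial (V i)) 0 (Set.mem_univ _)
    exact AnalyticAt.comp_of_eq (g := fun x : Fin 2 → ℂ => eval x (V i)) hp hz hz0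
  have hab : AnalyticAt ℂ (fun w => fderiv ℂ (sc u v) (z w)
      (fun i => eval (z w) (V i) : Fin 2 → ℂ)) 0 :=
    ((hDs.contDiffAt (n := ω)).clm_apply (hVf.contDiffAt (n := ω))).analyticAt
  -- the two derivatives are inverse to each other
  have hinv : ∀ᶠ w in 𝓝 (0 : Fin 2 → ℂ),
      (fderiv ℂ (sc u v) (z w)).comp (fderiv ℂ z w) = ContinuousLinearMap.id ℂ (Fin 2 → ℂ) ∧
      (fderiv ℂ z w).comp (fderiv ℂ (sc u v) (z w)) = ContinuousLinearMap.id ℂ (Fin 2 → ℂ) := by
    filter_upwards [hzs.eventually_nhds, hz.eventually_analyticAt,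
      htz.eventually hu.eventually_analyticAt, htz.eventually hv.eventually_analyticAt]
      with w h1 h2 h3 h4
    have e1 : HasFDerivAt (fun w' => sc u v (z w'))
        ((fderiv ℂ (sc u v) (z w)).comp (fderiv ℂ z w)) w :=
      ((sc_an h3 h4).differentiableAt.hasFDerivAt).comp w h2.differentiableAt.hasFDerivAt
    have e2 : HasFDerivAt (fun w' => sc u v (z w')) (ContinuousLinearMap.id ℂ (Fin 2 → ℂ)) w := by
      refine (hasFDerivAt_id w).congr_of_eventuallyEq ?_
      filter_upwards [h1] with w' hw'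
      exact hw'
    have e3 := e1.unique e2
    refine ⟨e3, ?_⟩
    have e4 : (fderiv ℂ (sc u v) (z w) : (Fin 2 → ℂ) →ₗ[ℂ] (Fin 2 → ℂ)) *
        (fderiv ℂ z w : (Fin 2 → ℂ) →ₗ[ℂ] (Fin 2 → ℂ)) = 1 := by
      ext1 i
      have := congrArg (fun F : (Fin 2 → ℂ) →L[ℂ] (Fin 2 → ℂ) =>
        (F : (Fin 2 → ℂ) →ₗ[ℂ] (Fin 2 → ℂ))) e3
      exact congrArg (fun F : (Fin 2 → ℂ) →ₗ[ℂ] (Fin 2 → ℂ) => F ∘ₗ LinearMap.single ℂ _ i) this
    have e5 := mul_eq_one_comm.mp e4
    ext1 h
    exact congrArg (fun F : (Fin 2 → ℂ) →ₗ[ℂ] (Fin 2 → ℂ) => F h) e5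
  refine ⟨z, fun w => fderiv ℂ (sc u v) (z w) (fun i => eval (z w) (V i)) 0,
    fun w => fderiv ℂ (sc u v) (z w) (fun i => eval (z w) (V i)) 1, hz,
    analyticAt_pi_iff.1 hab 0, analyticAt_pi_iff.1 hab 1, hz0, ?_, ?_⟩
  · have h1 := hinv.self_of_nhds.1
    intro x y hxy
    have h2 := congrArg (fun F : (Fin 2 → ℂ) →L[ℂ] (Fin 2 → ℂ) => F x) h1
    have h3 := congrArg (fun F : (Fin 2 → ℂ) →L[ℂ] (Fin 2 → ℂ) => F y) h1
    simp only [ContinuousLinearMap.comp_apply, ContinuousLinearMap.id_apply] at h2 h3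
    rw [← h2, hxy, h3]
  · filter_upwards [hinv, hzs, htz.eventually hu.eventually_analyticAt,
      htz.eventually hv.eventually_analyticAt, htz.eventually heq] with w h1 h2 h3 h4 h5
    set vv : Fin 2 → ℂ := fun i => eval (z w) (V i) with hvv
    obtain ⟨e0, e1⟩ := sc_deriv h3 h4 vv
    have s0 : u (z w) + Complex.I * v (z w) = w 0 := congrFun h2 0
    have s1 : u (z w) - Complex.I * v (z w) = w 1 := congrFun h2 1
    constructor
    · rw [e0, e1]
      have du := h3.differentiableAt.hasFDerivAt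
      have dv := h4.differentiableAt.hasFDerivAt
      have d2 : fderiv ℂ (fun s => u s ^ 2 + v s ^ 2) (z w) vv =
          2 * u (z w) * fderiv ℂ u (z w) vv + 2 * v (z w) * fderiv ℂ v (z w) vv := by
        have := ((du.pow 2).add (dv.pow 2)).fderiv
        rw [show (fun s => u s ^ 2 + v s ^ 2) = (fun s => (u ^ 2) s + (v ^ 2) s) from rfl]
        have h6 := congrArg (fun F : (Fin 2 → ℂ) →L[ℂ] ℂ => F vv) this
        refine Eq.trans ?_ (Eq.trans h6 ?_)
        · rfl
        · simp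
      have d3 : fderiv ℂ (fun s => u s ^ 2 + v s ^ 2) (z w) vv = 0 := by
        rw [dec vv, map_add, map_smul, map_smul]
        exact h5
      rw [d2] at d3
      rw [← s0, ← s1]
      have hI : Complex.I * Complex.I = -1 := Complex.I_mul_I
      linear_combination d3 + (-2 * v (z w) * fderiv ℂ v (z w) vv) * hI
    · intro i
      have h6 := congrArg (fun F : (Fin 2 → ℂ) →L[ℂ] (Fin 2 → ℂ) => F vv i) h1.2
      simp only [ContinuousLinearMap.comp_apply, ContinuousLinearMap.id_apply] at h6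
      have h7 : fderiv ℂ z w (fderiv ℂ (sc u v) (z w) vv) i =
          fderiv ℂ (sc u v) (z w) vv 0 * fderiv ℂ z w (Pi.single 0 1) i +
          fderiv ℂ (sc u v) (z w) vv 1 * fderiv ℂ z w (Pi.single 1 1) i := by
        conv_lhs => rw [dec (fderiv ℂ (sc u v) (z w) vv)]
        rw [map_add, map_smul, map_smul]
        rfl
      rw [← h7, h6]

end Pool.Agent.N46.CS
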