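import Mathlib
import Pool.Agent.N46.CS.Stm

/-!
# Project CS (helper46), leaf NOC2 (helper401): expansions in the good coordinates
-/

set_option autoImplicit false
set_option linter.all false

namespace Pool.Agent.N46.CS

open MvPolynomial Filter Topology Asymptotics

namespace NOC2

/-- functions of order `k` at the origin -/
def O (k : ℕ) (f : (Fin 2 → ℂ) → ℂ) : Prop := f =O[𝓝 (0 : Fin 2 → ℂ)] fun w => ‖w‖ ^ k

theorem O.mono {j k : ℕ} {f : (Fin 2 → ℂ) → ℂ} (h : O j f) (hk : k ≤ j) : O k f := by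
  refine IsBigO.trans h ?_
  refine IsBigO.of_bound 1 ?_
  have h1 : ∀ᶠ w in 𝓝 (0 : Fin 2 → ℂ), ‖w‖ < 1 := by
    have := Metric.ball_mem_nhds (0 : Fin 2 → ℂ) one_pos
    filter_upwards [this] with w hw
    simpa using hw
  filter_upwards [h1] with w hw
  rw [one_mul, norm_pow, norm_pow, norm_norm]
  exact pow_le_pow_of_le_one (norm_nonneg _) hw.le hk

theorem O.mul {j k : ℕ} {f g : (Fin 2 → ℂ) → ℂ} (hf : O j f) (hg : O k g) :
    O (j + k) (fun w => f w * g w) := by
  have h := IsBigO.mul hf hg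
  unfold O
  simp only [pow_add]
  exact h

theorem O.add {k : ℕ} {f g : (Fin 2 → ℂ) → ℂ} (hf : O k f) (hg : O k g) :
    O k (fun w => f w + g w) := IsBigO.add hf hg

theorem O.sub {k : ℕ} {f g : (Fin 2 → ℂ) → ℂ} (hf : O k f) (hg : O k g) :
    O k (fun w => f w - g w) := IsBigO.sub hf hg

theorem O.const (c : ℂ) : O 0 (fun _ => c) := by
  unfold O
  simp only [pow_zero]
  exact isBigO_const_const c one_ne_zero _

theorem O.const_mul {k : ℕ} {f : (Fin 2 → ℂ) → ℂ} (hf : O k f) (c : ℂ) :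
    O k (fun w => c * f w) := IsBigO.const_mul_left hf c

theorem O.congr {k : ℕ} {f g : (Fin 2 → ℂ) → ℂ} (hf : O k f)
    (h : ∀ᶠ w in 𝓝 (0 : Fin 2 → ℂ), f w = g w) : O k g :=
  IsBigO.congr' hf h (EventuallyEq.refl _ _)

theorem O.pow {k : ℕ} {f : (Fin 2 → ℂ) → ℂ} (hf : O k f) (n : ℕ) :
    O (k * n) (fun w => f w ^ n) := by
  have h := IsBigO.pow hf n
  unfold O
  simp only [pow_mul]
  exact h

theorem O.zero {k : ℕ} {f : (Fin 2 → ℂ) → ℂ} (hf : O (k + 1) f) : f 0 = 0 := by
  obtain ⟨c, hc⟩ := IsBigO.bound hf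
  have h := hc.self_of_nhds
  simpa using h

theorem O_coord (i : Fin 2) : O 1 (fun w => w i) := by
  refine IsBigO.of_bound 1 ?_
  filter_upwards with w
  rw [one_mul, norm_pow, norm_norm, pow_one]
  exact norm_le_pi_norm w i

theorem O_sum {ι : Type*} {k : ℕ} (s : Finset ι) (f : ι → (Fin 2 → ℂ) → ℂ)
    (h : ∀ i ∈ s, O k (f i)) : O k (fun w => ∑ i ∈ s, f i w) := IsBigO.fun_sum h

/-- second order Taylor expansion -/
theorem taylor {F : Type*} [NormedAddCommGroup F] [NormedSpace ℂ F] {f : (Fin 2 → ℂ) → F}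
    (hf : AnalyticAt ℂ f 0) :
    (fun w => f w - f 0 - fderiv ℂ f 0 w) =O[𝓝 0] fun w => ‖w‖ ^ 2 := by
  obtain ⟨p, hp⟩ := hf
  have h := hp.isBigO_sub_partialSum_pow 2
  refine h.congr_left fun w => ?_
  rw [zero_add, FormalMultilinearSeries.partialSum, Finset.sum_range_succ, Finset.sum_range_one,
    hp.coeff_zero, hp.fderiv_eq, sub_sub]
  congr 2

theorem hom_zero {k : ℕ} {f : (Fin 2 → ℂ) → ℂ} (hf : O (k + 1) f) {c : ℂ} (v : Fin 2 → ℂ)
    (h : ∀ t : ℂ, f (t • v) = t ^ k * c) : c = 0 := by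
  by_contra hc
  obtain ⟨K, hK⟩ := IsBigO.bound hf
  have h1 : Tendsto (fun t : ℝ => ((t : ℂ) • v)) (𝓝[>] 0) (𝓝 0) := by
    have h2 : Continuous fun t : ℝ => ((t : ℂ) • v) := by fun_prop
    have h3 := h2.tendsto 0
    simp only [Complex.ofReal_zero, zero_smul] at h3
    exact h3.mono_left nhdsWithin_le_nhds
  have h2 := h1.eventually hK
  have h3 : Tendsto (fun t : ℝ => K * (t * ‖v‖ ^ (k + 1))) (𝓝[>] 0) (𝓝 0) := by
    have h4 : Continuous fun t : ℝ => K * (t * ‖v‖ ^ (k + 1)) := by fun_prop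
    have h5 := h4.tendsto 0
    simp only [zero_mul, mul_zero] at h5
    exact h5.mono_left nhdsWithin_le_nhds
  have h4 : ∀ᶠ t : ℝ in 𝓝[>] 0, ‖c‖ ≤ K * (t * ‖v‖ ^ (k + 1)) := by
    filter_upwards [h2, self_mem_nhdsWithin] with t ht ht0
    have ht0' : (0 : ℝ) < t := ht0
    rw [h, norm_mul, norm_pow, norm_pow, norm_norm, norm_smul, Complex.norm_real,
      Real.norm_of_nonneg ht0'.le, mul_pow, pow_succ] at ht
    have h5 : 0 < t ^ k := pow_pos ht0' k
    have h6 : t ^ k * ‖c‖ ≤ t ^ k * (K * (t * ‖v‖ ^ (k + 1))) := by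
      calc t ^ k * ‖c‖ ≤ _ := ht
        _ = _ := by ring
    exact le_of_mul_le_mul_left h6 h5
  have h5 := ge_of_tendsto h3 h4
  exact hc (norm_le_zero_iff.1 h5)

theorem lin_eq {F : Type*} [AddCommGroup F] [Module ℂ F] (φ : (Fin 2 → ℂ) →ₗ[ℂ] F)
    (w : Fin 2 → ℂ) : φ w = w 0 • φ (Pi.single 0 1) + w 1 • φ (Pi.single 1 1) := by
  have h : w = w 0 • (Pi.single 0 1 : Fin 2 → ℂ) + w 1 • (Pi.single 1 1 : Fin 2 → ℂ) := by
    funext i
    fin_cases i <;> simp
  conv_lhs => rw [h]
  rw [map_add, map_smul, map_smul]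

theorem eval_O {z : (Fin 2 → ℂ) → (Fin 2 → ℂ)} (hz : ∀ i, O 1 (fun w => z w i))
    {R : MvPolynomial (Fin 2) ℂ} (hR : Van 2 R) : O 2 (fun w => eval (z w) R) := by
  have h1 : (fun w => eval (z w) R) = fun w => ∑ e ∈ R.support, coeff e R *
      (z w 0 ^ e 0 * z w 1 ^ e 1) := by
    funext w
    rw [MvPolynomial.eval_eq']
    refine Finset.sum_congr rfl fun e _ => ?_
    rw [Fin.prod_univ_two]
  rw [h1]
  refine O_sum _ _ fun e he => ?_
  have h2 : 2 ≤ e 0 + e 1 := by
    by_contra h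
    exact (MvPolynomial.mem_support_iff.1 he) (hR e (by omega))
  have h3 := ((hz 0).pow (e 0)).mul ((hz 1).pow (e 1))
  rw [one_mul, one_mul] at h3
  exact (h3.mono h2).const_mul _

end NOC2

open NOC2

theorem t_NOC2 : S_NOC2 := by
  intro l V hl hV z a b hz ha hb hz0 hinj hev
  obtain ⟨A, hA⟩ : ∃ A, A = fderiv ℂ z 0 := ⟨_, rfl⟩
  obtain ⟨P, hP⟩ : ∃ P : Fin 2 → Fin 2 → ℂ, P = fun i j => A (Pi.single j 1) i := ⟨_, rfl⟩
  have hAw : ∀ w i, A w i = P i 0 * w 0 + P i 1 * w 1 := by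
    intro w i
    have h1 := lin_eq (A : (Fin 2 → ℂ) →ₗ[ℂ] (Fin 2 → ℂ)) w
    have h2 := congrFun h1 i
    rw [hP]
    change A w i = _ at h2
    rw [h2]
    simp only [Pi.add_apply, Pi.smul_apply, smul_eq_mul, ContinuousLinearMap.coe_coe]
    ring
  -- the expansion of the coordinates
  have hz2 : ∀ i, O 2 (fun w => z w i - (P i 0 * w 0 + P i 1 * w 1)) := by
    intro i
    have h1 := taylor hz
    refine IsBigO.trans ?_ h1
    refine IsBigO.of_bound 1 ?_
    filter_upwards with w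
    rw [one_mul, hz0, sub_zero, ← hA, ← hAw]
    exact norm_le_pi_norm (z w - A w) i
  have hlin : ∀ p q : ℂ, O 1 (fun w => p * w 0 + q * w 1) := fun p q =>
    ((O_coord 0).const_mul p).add ((O_coord 1).const_mul q)
  have hz1 : ∀ i, O 1 (fun w => z w i) := by
    intro i
    have h1 := ((hz2 i).mono (k := 1) (by norm_num)).add (hlin (P i 0) (P i 1))
    refine h1.congr ?_
    filter_upwards with w
    ring
  -- the field
  obtain ⟨s, hs⟩ : ∃ s : Fin 2 → ℂ, s = ![l, -l] := ⟨_, rfl⟩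
  have hR : ∀ i, Van 2 (V i - C (s i) * X i) := by
    intro i
    rw [hs]
    fin_cases i
    · exact hV.1
    · have h1 : V 1 - C (-l) * X 1 = V 1 + C l * X 1 := by
        rw [map_neg]
        ring
      change Van 2 (V 1 - C (-l) * X 1)
      rw [h1]
      exact hV.2
  have hE : ∀ i, O 2 (fun w => eval (z w) (V i) - s i * (P i 0 * w 0 + P i 1 * w 1)) := by
    intro i
    have h1 := (eval_O hz1 (hR i)).add ((hz2 i).const_mul (s i))
    refine h1.congr ?_
    filter_upwards with w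
    simp only [map_sub, map_mul, eval_C, eval_X]
    ring
  -- the derivatives of the coordinates
  have hD : ∀ i j, O 1 (fun w => fderiv ℂ z w (Pi.single j 1) i - P i j) := by
    intro i j
    have h1 : DifferentiableAt ℂ (fderiv ℂ z) 0 := hz.fderiv.differentiableAt
    have h2 := h1.hasFDerivAt.isBigO_sub
    refine IsBigO.trans (g := fun w : Fin 2 → ℂ => w - 0) ?_ ?_
    · refine IsBigO.trans ?_ h2
      refine IsBigO.of_bound ‖(Pi.single j 1 : Fin 2 → ℂ)‖ ?_
      filter_upwards with w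
      rw [hP, hA]
      have h3 := ((fderiv ℂ z w - fderiv ℂ z 0) (Pi.single j 1) : Fin 2 → ℂ)
      calc ‖fderiv ℂ z w (Pi.single j 1) i - fderiv ℂ z 0 (Pi.single j 1) i‖
          = ‖((fderiv ℂ z w - fderiv ℂ z 0) (Pi.single j 1)) i‖ := rfl
        _ ≤ ‖(fderiv ℂ z w - fderiv ℂ z 0) (Pi.single j 1)‖ := norm_le_pi_norm _ i
        _ ≤ ‖fderiv ℂ z w - fderiv ℂ z 0‖ * ‖(Pi.single j 1 : Fin 2 → ℂ)‖ :=
            ContinuousLinearMap.le_opNorm _ _
        _ = _ := mul_comm _ _
    · refine IsBigO.of_bound 1 ?_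
      filter_upwards with w
      simp
  -- the values at the origin
  have hinj' : ∀ p q : ℂ, (∀ i, p * P i 0 + q * P i 1 = 0) → p = 0 ∧ q = 0 := by
    intro p q h
    have h1 : A ![p, q] = 0 := by
      funext i
      rw [hAw]
      have := h i
      simp only [Matrix.cons_val_zero, Matrix.cons_val_one, Pi.zero_apply]
      linear_combination this
    rw [← hA] at hinj
    have h2 : (![p, q] : Fin 2 → ℂ) = 0 := hinj (by rw [h1, map_zero])
    exact ⟨by simpa using congrFun h2 0, by simpa using congrFun h2 1⟩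
  have h00 : a 0 = 0 ∧ b 0 = 0 := by
    refine hinj' _ _ fun i => ?_
    have h1 := hev.self_of_nhds.2 i
    have h2 := (hE i).zero
    rw [← hA] at h1
    have h3 : eval (z 0) (V i) = a 0 * P i 0 + b 0 * P i 1 := by
      rw [h1, hP]
    rw [← h3]
    simpa using h2
  obtain ⟨α, α', hat⟩ : ∃ α α' : ℂ, O 2 (fun w => a w - (α * w 0 + α' * w 1)) := by
    refine ⟨fderiv ℂ a 0 (Pi.single 0 1), fderiv ℂ a 0 (Pi.single 1 1), ?_⟩
    have h1 : O 2 (fun w => a w - a 0 - fderiv ℂ a 0 w) := taylor ha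
    refine h1.congr ?_
    filter_upwards with w
    have h2 := lin_eq (fderiv ℂ a 0 : (Fin 2 → ℂ) →ₗ[ℂ] ℂ) w
    change fderiv ℂ a 0 w = w 0 • fderiv ℂ a 0 _ + w 1 • fderiv ℂ a 0 _ at h2
    rw [h2, h00.1, smul_eq_mul, smul_eq_mul]
    ring
  obtain ⟨β, β', hbt⟩ : ∃ β β' : ℂ, O 2 (fun w => b w - (β * w 0 + β' * w 1)) := by
    refine ⟨fderiv ℂ b 0 (Pi.single 0 1), fderiv ℂ b 0 (Pi.single 1 1), ?_⟩
    have h1 : O 2 (fun w => b w - b 0 - fderiv ℂ b 0 w) := taylor hb
    refine h1.congr ?_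
    filter_upwards with w
    have h2 := lin_eq (fderiv ℂ b 0 : (Fin 2 → ℂ) →ₗ[ℂ] ℂ) w
    change fderiv ℂ b 0 w = w 0 • fderiv ℂ b 0 _ + w 1 • fderiv ℂ b 0 _ at h2
    rw [h2, h00.2, smul_eq_mul, smul_eq_mul]
    ring
  have hq : O 3 (fun w => w 1 * (α * w 0 + α' * w 1) + w 0 * (β * w 0 + β' * w 1)) := by
    have h1 := ((O_coord 1).mul hat).add ((O_coord 0).mul hbt)
    refine (h1.const_mul (-1)).congr ?_
    filter_upwards [hev] with w hw
    linear_combination (-1 : ℂ) * hw.1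
  have hβ : β = 0 := hom_zero (k := 2) hq ![1, 0] fun t => by simp; ring
  have hα' : α' = 0 := hom_zero (k := 2) hq ![0, 1] fun t => by simp; ring
  have hβ' : β' = -α := by
    have h1 := hom_zero (k := 2) (c := α + β') hq ![1, 1] fun t => by
      rw [hβ, hα']
      simp
      ring
    linear_combination h1
  rw [hα'] at hat
  rw [hβ, hβ'] at hbt
  -- comparison of the linear parts
  have hr : ∀ i, O 2 (fun w => s i * (P i 0 * w 0 + P i 1 * w 1) -
      (α * w 0 * P i 0 - α * w 1 * P i 1)) := by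
    intro i
    have ha1 : O 1 a := by
      refine ((hat.mono (k := 1) (by norm_num)).add (hlin α 0)).congr ?_
      filter_upwards with w
      ring
    have hb1 : O 1 b := by
      refine ((hbt.mono (k := 1) (by norm_num)).add (hlin 0 (-α))).congr ?_
      filter_upwards with w
      ring
    have h1 := (((ha1.mul (hD i 0)).add (hb1.mul (hD i 1))).add
      ((hat.const_mul (P i 0)).add (hbt.const_mul (P i 1)))).sub (hE i)
    refine h1.congr ?_
    filter_upwards [hev] with w hw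
    have h2 := hw.2 i
    linear_combination (-1 : ℂ) * h2
  have hr0 : ∀ i, s i * P i 0 - α * P i 0 = 0 := fun i =>
    hom_zero (k := 1) (hr i) ![1, 0] fun t => by simp; ring
  have hr1 : ∀ i, s i * P i 1 + α * P i 1 = 0 := fun i =>
    hom_zero (k := 1) (hr i) ![0, 1] fun t => by simp; ring
  have s0 : s 0 = l := by rw [hs]; rfl
  have s1 : s 1 = -l := by rw [hs]; rfl
  have e00 : (l - α) * P 0 0 = 0 := by
    have := hr0 0
    rw [s0] at this
    linear_combination this
  have e10 : (l + α) * P 1 0 = 0 := by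
    have := hr0 1
    rw [s1] at this
    linear_combination (-1 : ℂ) * this
  have e01 : (l + α) * P 0 1 = 0 := by
    have := hr1 0
    rw [s0] at this
    linear_combination this
  have e11 : (l - α) * P 1 1 = 0 := by
    have := hr1 1
    rw [s1] at this
    linear_combination (-1 : ℂ) * this
  have hmain : α ≠ 0 ∧ P 0 0 * P 1 0 = 0 ∧ P 0 1 * P 1 1 = 0 ∧ P 0 0 * P 1 1 + P 0 1 * P 1 0 ≠ 0 := by
    by_cases hα : α = l
    · have h1 : P 1 0 = 0 := (mul_eq_zero.1 e10).resolve_left (by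
        rw [hα, ← two_mul]
        exact mul_ne_zero two_ne_zero hl)
      have h2 : P 0 1 = 0 := (mul_eq_zero.1 e01).resolve_left (by
        rw [hα, ← two_mul]
        exact mul_ne_zero two_ne_zero hl)
      have h3 : P 0 0 ≠ 0 := by
        intro h
        have h4 := hinj' 1 0 fun i => by
          fin_cases i
          · simp [h]
          · simp [h1]
        exact one_ne_zero h4.1
      have h4 : P 1 1 ≠ 0 := by
        intro h
        have h4 := hinj' 0 1 fun i => by
          fin_cases i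
          · simp [h2]
          · simp [h]
        exact one_ne_zero h4.2
      refine ⟨by rw [hα]; exact hl, by rw [h1, mul_zero], by rw [h2, zero_mul], ?_⟩
      rw [h2, zero_mul, add_zero]
      exact mul_ne_zero h3 h4
    · have hα2 : l - α ≠ 0 := fun h => hα (by linear_combination (-1 : ℂ) * h)
      have h1 : P 0 0 = 0 := (mul_eq_zero.1 e00).resolve_left hα2
      have h2 : P 1 1 = 0 := (mul_eq_zero.1 e11).resolve_left hα2
      have h3 : P 1 0 ≠ 0 := by
        intro h
        have h4 := hinj' 1 0 fun i => by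
          fin_cases i
          · simp [h1]
          · simp [h]
        exact one_ne_zero h4.1
      have h4 : P 0 1 ≠ 0 := by
        intro h
        have h4 := hinj' 0 1 fun i => by
          fin_cases i
          · simp [h]
          · simp [h2]
        exact one_ne_zero h4.2
      refine ⟨?_, by rw [h1, zero_mul], by rw [h2, mul_zero], ?_⟩
      · rintro rfl
        rw [add_zero] at e10
        exact h3 ((mul_eq_zero.1 e10).resolve_left hl)
      · rw [h1, zero_mul, zero_add]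
        exact mul_ne_zero h4 h3
  obtain ⟨m1, m2, m3, m4⟩ := hmain
  have hprod : O 3 (fun w => z w 0 * z w 1 - (P 0 0 * P 1 1 + P 0 1 * P 1 0) * (w 0 * w 1)) := by
    have h1 := ((hz2 0).mul (hz1 1)).add (((hlin (P 0 0) (P 0 1)).mul (hz2 1)))
    refine h1.congr ?_
    filter_upwards with w
    linear_combination -(w 0 ^ 2 * m2) - w 1 ^ 2 * m3
  have hat' : O 2 (fun w => a w - α * w 0) := by
    refine hat.congr ?_
    filter_upwards with w
    ring
  have hbt' : O 2 (fun w => b w + α * w 1) := by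
    refine hbt.congr ?_
    filter_upwards with w
    ring
  obtain ⟨K1, h1⟩ := IsBigO.bound hat'
  obtain ⟨K2, h2⟩ := IsBigO.bound hbt'
  obtain ⟨K3, h3⟩ := IsBigO.bound hprod
  obtain ⟨K4, h4⟩ := IsBigO.bound (hz1 0)
  obtain ⟨K5, h5⟩ := IsBigO.bound (hz1 1)
  refine ⟨α, P 0 0 * P 1 1 + P 0 1 * P 1 0, |K1| + |K2| + |K3| + |K4| + |K5|, m1, m4, ?_⟩
  filter_upwards [h1, h2, h3, h4, h5] with w w1 w2 w3 w4 w5
  have n1 := le_abs_self K1
  have n2 := le_abs_self K2
  have n3 := le_abs_self K3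
  have n4 := le_abs_self K4
  have n5 := le_abs_self K5
  have p1 := abs_nonneg K1
  have p2 := abs_nonneg K2
  have p3 := abs_nonneg K3
  have p4 := abs_nonneg K4
  have p5 := abs_nonneg K5
  simp only [norm_pow, norm_norm, pow_one] at w1 w2 w3 w4 w5
  refine ⟨w1.trans ?_, w2.trans ?_, w3.trans ?_, ?_⟩
  · exact mul_le_mul_of_nonneg_right (by linarith) (by positivity)
  · exact mul_le_mul_of_nonneg_right (by linarith) (by positivity)
  · exact mul_le_mul_of_nonneg_right (by linarith) (by positivity)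
  · refine (pi_norm_le_iff_of_nonneg (by positivity)).2 fun i => ?_
    fin_cases i
    · exact w4.trans (mul_le_mul_of_nonneg_right (by linarith) (norm_nonneg _))
    · exact w5.trans (mul_le_mul_of_nonneg_right (by linarith) (norm_nonneg _))

end Pool.Agent.N46.CS
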