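import Mathlib
import Pool.Agent.N46.CS.Stm

/-!
# Stability of centers: the period argument (helper353)
-/

set_option autoImplicit false

namespace Pool.Agent.N46.CS

open MvPolynomial Filter Topology

namespace NOC3

/-- a polynomial without terms of degree `< N` -/
theorem van_bound (N : ℕ) (Q : MvPolynomial (Fin 2) ℂ) (hQ : Van N Q) :
    ∃ K : ℝ, 0 ≤ K ∧ ∀ x : Fin 2 → ℂ, ‖x‖ ≤ 1 → ‖eval x Q‖ ≤ K * ‖x‖ ^ N := by
  refine ⟨∑ e ∈ Q.support, ‖coeff e Q‖, Finset.sum_nonneg fun _ _ => norm_nonneg _, ?_⟩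
  intro x hx
  rw [eval_eq', Finset.sum_mul]
  refine (norm_sum_le _ _).trans (Finset.sum_le_sum fun e he => ?_)
  rw [norm_mul]
  refine mul_le_mul_of_nonneg_left ?_ (norm_nonneg _)
  rw [Fin.prod_univ_two, norm_mul, norm_pow, norm_pow]
  have h0 : ‖x 0‖ ^ e 0 ≤ ‖x‖ ^ e 0 := pow_le_pow_left₀ (norm_nonneg _) (norm_le_pi_norm x 0) _
  have h1 : ‖x 1‖ ^ e 1 ≤ ‖x‖ ^ e 1 := pow_le_pow_left₀ (norm_nonneg _) (norm_le_pi_norm x 1) _
  have h2 : N ≤ e 0 + e 1 := by
    by_contra h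
    exact (mem_support_iff.1 he) (hQ e (not_le.1 h))
  calc ‖x 0‖ ^ e 0 * ‖x 1‖ ^ e 1 ≤ ‖x‖ ^ e 0 * ‖x‖ ^ e 1 :=
        mul_le_mul h0 h1 (by positivity) (by positivity)
    _ = ‖x‖ ^ (e 0 + e 1) := (pow_add _ _ _).symm
    _ ≤ ‖x‖ ^ N := pow_le_pow_of_le_one (norm_nonneg _) hx h2

/-- the derivative of a polynomial along a curve -/
theorem deriv_eval {u : ℝ → (Fin 2 → ℂ)} {u' : Fin 2 → ℂ} {s : ℝ} (hu : HasDerivAt u u' s)
    (F : MvPolynomial (Fin 2) ℂ) :
    HasDerivAt (fun s => eval (u s) F)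
      (eval (u s) (pderiv 0 F) * u' 0 + eval (u s) (pderiv 1 F) * u' 1) s := by
  have hi : ∀ i : Fin 2, HasDerivAt (fun s => u s i) (u' i) s := hasDerivAt_pi.1 hu
  induction F using MvPolynomial.induction_on with
  | C a =>
    simp only [pderiv_C, eval_C, map_zero, zero_mul, add_zero]
    exact hasDerivAt_const s a
  | add p q hp hq =>
    have h := hp.add hq
    refine (h.congr_of_eventuallyEq ?_).congr_deriv ?_
    · exact Filter.Eventually.of_forall fun s => by simp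
    · simp only [map_add]
      ring
  | mul_X p i hp =>
    have h := hp.mul (hi i)
    refine (h.congr_of_eventuallyEq ?_).congr_deriv ?_
    · exact Filter.Eventually.of_forall fun s => by simp
    · fin_cases i
      · simp [Derivation.leibniz, pderiv_X]
        ring
      · simp [Derivation.leibniz, pderiv_X]
        ring

/-- the circle -/
noncomputable def wp (t θ : ℝ) : Fin 2 → ℂ :=
  ![(t : ℂ) * Complex.exp ((θ : ℂ) * Complex.I), (t : ℂ) * Complex.exp (-((θ : ℂ) * Complex.I))]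

theorem wp0 (t θ : ℝ) : wp t θ 0 = (t : ℂ) * Complex.exp ((θ : ℂ) * Complex.I) := rfl

theorem wp1 (t θ : ℝ) : wp t θ 1 = (t : ℂ) * Complex.exp (-((θ : ℂ) * Complex.I)) := rfl

theorem norm_wp0 {t : ℝ} (ht : 0 ≤ t) (θ : ℝ) : ‖wp t θ 0‖ = t := by
  rw [wp0, norm_mul, Complex.norm_exp_ofReal_mul_I, mul_one, Complex.norm_real,
    Real.norm_of_nonneg ht]

theorem norm_wp1 {t : ℝ} (ht : 0 ≤ t) (θ : ℝ) : ‖wp t θ 1‖ = t := by
  have e1 : -((θ : ℂ) * Complex.I) = ((-θ : ℝ) : ℂ) * Complex.I := by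
    push_cast
    ring
  rw [wp1, e1, norm_mul, Complex.norm_exp_ofReal_mul_I, mul_one, Complex.norm_real,
    Real.norm_of_nonneg ht]

theorem norm_wp {t : ℝ} (ht : 0 ≤ t) (θ : ℝ) : ‖wp t θ‖ ≤ t := by
  rw [pi_norm_le_iff_of_nonneg ht]
  intro i
  fin_cases i
  · exact (norm_wp0 ht θ).le
  · exact (norm_wp1 ht θ).le

theorem wp_mul (t θ : ℝ) : wp t θ 0 * wp t θ 1 = (t : ℂ) ^ 2 := by
  rw [wp0, wp1]
  have e1 : Complex.exp ((θ : ℂ) * Complex.I) * Complex.exp (-((θ : ℂ) * Complex.I)) = 1 := by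
    rw [← Complex.exp_add, add_neg_cancel, Complex.exp_zero]
  linear_combination (t : ℂ) ^ 2 * e1

theorem wp_per (t : ℝ) : wp t (2 * Real.pi) = wp t 0 := by
  have e1 : Complex.exp (((2 * Real.pi : ℝ) : ℂ) * Complex.I) = 1 := by
    push_cast
    exact Complex.exp_two_pi_mul_I
  have e2 : Complex.exp (-(((2 * Real.pi : ℝ) : ℂ) * Complex.I)) = 1 := by
    rw [Complex.exp_neg, e1, inv_one]
  unfold wp
  rw [e1, e2]
  simp

theorem deriv_wp (t θ : ℝ) : HasDerivAt (wp t)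
    (fun i => ![Complex.I * wp t θ 0, -(Complex.I * wp t θ 1)] i) θ := by
  have h0 : HasDerivAt (fun s : ℝ => ((s : ℝ) : ℂ) * Complex.I) (((1 : ℝ) : ℂ) * Complex.I) θ :=
    (hasDerivAt_id θ).ofReal_comp.mul_const Complex.I
  have h1 := (h0.cexp).const_mul (t : ℂ)
  have h2 := (h0.neg.cexp).const_mul (t : ℂ)
  rw [hasDerivAt_pi]
  intro i
  fin_cases i
  · refine h1.congr_deriv ?_
    show _ = Complex.I * wp t θ 0
    rw [wp0]
    push_cast
    ring
  · refine h2.congr_deriv ?_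
    show _ = -(Complex.I * wp t θ 1)
    rw [wp1]
    push_cast
    simp only [Pi.neg_apply]
    ring

theorem small (A B : ℝ) (hB : 0 < B) : ∀ᶠ t in 𝓝[>] (0 : ℝ), A * t < B := by
  have h1 : Tendsto (fun t : ℝ => A * t) (𝓝 0) (𝓝 (A * 0)) :=
    (continuous_const.mul continuous_id).tendsto 0
  rw [mul_zero] at h1
  exact (h1.eventually (gt_mem_nhds hB)).filter_mono nhdsWithin_le_nhds

end NOC3

open NOC3

theorem t_NOC3 : S_NOC3 := by
  intro V hV z a b hz _ _ _ hab α c K hα hc hb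
  obtain ⟨m, -, g, hg, F, -, hF⟩ := hV
  obtain ⟨K', hK'0, hK'⟩ := van_bound _ _ hF
  -- the constants
  obtain ⟨K1, hK1⟩ : ∃ K1 : ℝ, K1 = max K 1 := ⟨_, rfl⟩
  have hK1a : K ≤ K1 := hK1 ▸ le_max_left _ _
  have hK1b : 1 ≤ K1 := hK1 ▸ le_max_right _ _
  have hK10 : 0 ≤ K1 := zero_le_one.trans hK1b
  obtain ⟨κ, hκ⟩ : ∃ κ : ℂ, κ = g * c ^ m / α := ⟨_, rfl⟩
  have hκ0 : κ ≠ 0 := by
    rw [hκ]
    exact div_ne_zero (mul_ne_zero hg (pow_ne_zero _ hc)) hα
  obtain ⟨ε, hε⟩ : ∃ ε : ℝ, ε = ‖κ‖ / 4 := ⟨_, rfl⟩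
  have hε0 : 0 < ε := by
    rw [hε]
    have := norm_pos_iff.2 hκ0
    positivity
  have hαn : 0 < ‖α‖ := norm_pos_iff.2 hα
  -- continuity
  have hcont : ContinuousAt (fun p : ℂ × ℂ => g * p.1 ^ m / p.2) (c, α) := by
    refine ContinuousAt.div ?_ ?_ hα
    · exact (continuous_const.mul (continuous_fst.pow m)).continuousAt
    · exact continuous_snd.continuousAt
  obtain ⟨δ, hδ, hδ'⟩ := Metric.continuousAt_iff.1 hcont ε hε0
  -- the neighbourhood
  have hev := (hz.eventually_analyticAt.and (hab.and hb))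
  obtain ⟨r, hr, hball⟩ := Metric.eventually_nhds_iff.1 hev
  -- the radius
  obtain ⟨t, ht0, ht1, ht2, ht3, ht4, ht5⟩ : ∃ t : ℝ, 0 < t ∧ 1 * t < r ∧ K1 * t < δ ∧
      K1 * t < ‖α‖ / 2 ∧ (K' * K1 ^ (2 * m + 1) * (2 / ‖α‖)) * t < ε ∧ K1 * t < 1 := by
    have h0 : ∀ᶠ t in 𝓝[>] (0 : ℝ), 0 < t := self_mem_nhdsWithin
    exact (h0.and ((small _ _ hr).and ((small _ _ hδ).and ((small _ _ (half_pos hαn)).and
      ((small _ _ hε0).and (small _ _ zero_lt_one)))))).exists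
  rw [one_mul] at ht1
  have htc : (t : ℂ) ≠ 0 := by exact_mod_cast ht0.ne'
  -- pointwise computations
  have key : ∀ θ : ℝ, ∃ D : ℂ,
      HasDerivAt (fun θ : ℝ => eval (z (wp t θ)) F) D θ ∧
      ‖D - Complex.I * κ * (t : ℂ) ^ (2 * m)‖ ≤ 2 * ε * t ^ (2 * m) := by
    intro θ
    obtain ⟨w, hw⟩ : ∃ w, w = wp t θ := ⟨_, rfl⟩
    have hwn : ‖w‖ ≤ t := hw ▸ norm_wp ht0.le θ
    have hw0n : ‖w 0‖ = t := hw ▸ norm_wp0 ht0.le θ
    have hw1n : ‖w 1‖ = t := hw ▸ norm_wp1 ht0.le θ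
    have hw0 : w 0 ≠ 0 := by
      rw [← norm_ne_zero_iff, hw0n]
      exact ht0.ne'
    have hww : w 0 * w 1 = (t : ℂ) ^ 2 := hw ▸ wp_mul t θ
    obtain ⟨hza, ⟨hab1, hab2⟩, hb1, -, hb3, hb4⟩ := hball (y := w) (by
      rw [dist_zero_right]
      exact hwn.trans_lt ht1)
    obtain ⟨h, hh⟩ : ∃ h, h = a w / w 0 := ⟨_, rfl⟩
    have ha : a w = h * w 0 := by rw [hh, div_mul_cancel₀ _ hw0]
    have hbw : b w = -(h * w 1) := by
      rw [ha] at hab1
      apply mul_left_cancel₀ hw0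
      linear_combination hab1
    have hKw : ∀ n : ℕ, K * ‖w‖ ^ n ≤ K1 * t ^ n := fun n =>
      (mul_le_mul_of_nonneg_right hK1a (by positivity)).trans
        (mul_le_mul_of_nonneg_left (pow_le_pow_left₀ (norm_nonneg _) hwn n) hK10)
    have hhα : ‖h - α‖ ≤ K1 * t := by
      have e1 : h - α = (a w - α * w 0) / w 0 := by
        rw [hh]
        field_simp
      rw [e1, norm_div, hw0n, div_le_iff₀ ht0]
      refine (hb1.trans (hKw 2)).trans (le_of_eq ?_)
      ring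
    have hhn : ‖α‖ / 2 ≤ ‖h‖ := by
      have h1 : ‖α‖ ≤ ‖h‖ + ‖h - α‖ := by
        have e1 : α = h - (h - α) := by ring
        calc ‖α‖ = ‖h - (h - α)‖ := by rw [← e1]
          _ ≤ ‖h‖ + ‖h - α‖ := norm_sub_le _ _
      linarith
    have hh0 : h ≠ 0 := by
      rw [← norm_pos_iff]
      linarith
    -- the product of the coordinates
    obtain ⟨A, hA⟩ : ∃ A, A = z w 0 * z w 1 / (t : ℂ) ^ 2 := ⟨_, rfl⟩
    have hA' : z w 0 * z w 1 = A * (t : ℂ) ^ 2 := by
      rw [hA, div_mul_cancel₀ _ (pow_ne_zero 2 htc)]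
    have hAc : ‖A - c‖ ≤ K1 * t := by
      have e1 : A - c = (z w 0 * z w 1 - c * (w 0 * w 1)) / (t : ℂ) ^ 2 := by
        rw [hA, hww]
        field_simp
      rw [e1, norm_div, norm_pow, Complex.norm_real, Real.norm_of_nonneg ht0.le,
        div_le_iff₀ (by positivity)]
      refine (hb3.trans (hKw 3)).trans (le_of_eq ?_)
      ring
    have hzn : ‖z w‖ ≤ K1 * t := by
      have h1 := hKw 1
      rw [pow_one, pow_one] at h1
      exact hb4.trans h1
    -- the derivative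
    have hd := deriv_wp t θ
    have hzd : HasFDerivAt z ((fderiv ℂ z w).restrictScalars ℝ) (wp t θ) := by
      rw [← hw]
      exact hza.differentiableAt.hasFDerivAt.restrictScalars ℝ
    have hu := hzd.comp_hasDerivAt θ hd
    have hE := deriv_eval hu F
    have hvec : (fun i => ![Complex.I * wp t θ 0, -(Complex.I * wp t θ 1)] i) =
        (Complex.I * w 0) • (Pi.single 0 1 : Fin 2 → ℂ) +
          (-(Complex.I * w 1)) • (Pi.single 1 1 : Fin 2 → ℂ) := by
      rw [← hw]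
      funext i
      fin_cases i <;> simp
    have hui : ∀ i, ((fderiv ℂ z w).restrictScalars ℝ)
        (fun i => ![Complex.I * wp t θ 0, -(Complex.I * wp t θ 1)] i) i =
          Complex.I / h * eval (z w) (V i) := by
      intro i
      rw [hvec, ContinuousLinearMap.coe_restrictScalars', map_add, map_smul, map_smul, hab2 i,
        ha, hbw]
      simp only [Pi.add_apply, Pi.smul_apply, smul_eq_mul]
      field_simp
    refine ⟨_, hE, ?_⟩
    rw [hui 0, hui 1]
    simp only [Function.comp_apply]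
    rw [← hw]
    have e1 : eval (z w) (pderiv 0 F) * (Complex.I / h * eval (z w) (V 0)) +
        eval (z w) (pderiv 1 F) * (Complex.I / h * eval (z w) (V 1)) =
        Complex.I / h * eval (z w) (lie V F) := by
      unfold lie
      rw [map_add, map_mul, map_mul]
      ring
    rw [e1]
    obtain ⟨E1, hE1⟩ : ∃ E1, E1 = eval (z w) (lie V F - C g * (X 0 * X 1) ^ m) := ⟨_, rfl⟩
    have hE1n : ‖E1‖ ≤ K' * (K1 * t) ^ (2 * m + 1) := by
      rw [hE1]
      exact (hK' (z w) (hzn.trans ht5.le)).trans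
        (mul_le_mul_of_nonneg_left (pow_le_pow_left₀ (norm_nonneg _) hzn _) hK'0)
    have e2 : eval (z w) (lie V F) = g * (z w 0 * z w 1) ^ m + E1 := by
      rw [hE1]
      simp
    rw [e2, hA', hκ]
    have e3 : Complex.I / h * (g * (A * (t : ℂ) ^ 2) ^ m + E1) -
        Complex.I * (g * c ^ m / α) * (t : ℂ) ^ (2 * m) =
        Complex.I * (t : ℂ) ^ (2 * m) * (g * A ^ m / h - g * c ^ m / α) +
          Complex.I * (E1 / h) := by
      rw [mul_pow, ← pow_mul]
      field_simp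
      ring
    rw [e3]
    have h7 : ‖g * A ^ m / h - g * c ^ m / α‖ < ε := by
      have h8 := hδ' (x := (A, h)) (by
        rw [Prod.dist_eq, max_lt_iff, dist_eq_norm, dist_eq_norm]
        exact ⟨hAc.trans_lt ht2, hhα.trans_lt ht2⟩)
      rw [dist_eq_norm] at h8
      exact h8
    have h9 : ‖E1 / h‖ ≤ ε * t ^ (2 * m) := by
      rw [norm_div, div_le_iff₀ (norm_pos_iff.2 hh0)]
      have h10 : K' * (K1 * t) ^ (2 * m + 1) =
          ((K' * K1 ^ (2 * m + 1) * (2 / ‖α‖)) * t) * t ^ (2 * m) * (‖α‖ / 2) := by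
        field_simp
        ring
      rw [h10] at hE1n
      refine hE1n.trans ?_
      have h11 : ((K' * K1 ^ (2 * m + 1) * (2 / ‖α‖)) * t) * t ^ (2 * m) ≤ ε * t ^ (2 * m) :=
        mul_le_mul_of_nonneg_right ht4.le (by positivity)
      exact mul_le_mul h11 hhn (by positivity) (by positivity)
    calc ‖Complex.I * (t : ℂ) ^ (2 * m) * (g * A ^ m / h - g * c ^ m / α) +
          Complex.I * (E1 / h)‖
        ≤ ‖Complex.I * (t : ℂ) ^ (2 * m) * (g * A ^ m / h - g * c ^ m / α)‖ +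
          ‖Complex.I * (E1 / h)‖ := norm_add_le _ _
      _ ≤ t ^ (2 * m) * ε + ε * t ^ (2 * m) := by
          refine add_le_add ?_ ?_
          · rw [norm_mul, norm_mul, Complex.norm_I, one_mul, norm_pow, Complex.norm_real,
              Real.norm_of_nonneg ht0.le]
            exact mul_le_mul_of_nonneg_left h7.le (by positivity)
          · rw [norm_mul, Complex.norm_I, one_mul]
            exact h9
      _ = 2 * ε * t ^ (2 * m) := by ring
  choose D hD1 hD2 using key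
  -- the mean value inequality
  have hΨ : ∀ θ : ℝ, HasDerivAt (fun θ : ℝ => eval (z (wp t θ)) F -
      (θ : ℂ) * (Complex.I * κ * (t : ℂ) ^ (2 * m))) (D θ - Complex.I * κ * (t : ℂ) ^ (2 * m)) θ := by
    intro θ
    have h1 : HasDerivAt (fun s : ℝ => ((s : ℝ) : ℂ) * (Complex.I * κ * (t : ℂ) ^ (2 * m)))
        (((1 : ℝ) : ℂ) * (Complex.I * κ * (t : ℂ) ^ (2 * m))) θ :=
      (hasDerivAt_id θ).ofReal_comp.mul_const _
    have h2 := (hD1 θ).sub h1
    rw [Complex.ofReal_one, one_mul] at h2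
    exact h2
  have hmv := Convex.norm_image_sub_le_of_norm_hasDerivWithin_le (s := Set.univ) (x := (0 : ℝ))
    (y := 2 * Real.pi) (fun θ _ => (hΨ θ).hasDerivWithinAt) (fun θ _ => hD2 θ) convex_univ
    (Set.mem_univ _) (Set.mem_univ _)
  simp only [wp_per, Complex.ofReal_zero, zero_mul, sub_zero] at hmv
  rw [sub_right_comm, sub_self, zero_sub, norm_neg, norm_mul, norm_mul, norm_mul, Complex.norm_I,
    one_mul, norm_pow, Complex.norm_real, Complex.norm_real, Real.norm_of_nonneg ht0.le] at hmv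
  have hpi := Real.pi_pos
  have h3 : ‖(2 * Real.pi : ℝ)‖ = 2 * Real.pi := Real.norm_of_nonneg (by positivity)
  rw [h3] at hmv
  have h4 : ‖κ‖ = 4 * ε := by rw [hε]; ring
  rw [h4] at hmv
  have h5 : 0 < ε * t ^ (2 * m) * (2 * Real.pi) := by positivity
  nlinarith

end Pool.Agent.N46.CS
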