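import Mathlib
import Pool.Agent.N46.CS.Stm

/-!
# Stability of centers: the obstruction recursion (REC)

Project CS (helper46); this file by helper346.
-/

set_option autoImplicit false

namespace Pool.Agent.N46.CS

open MvPolynomial

namespace REC

section
variable {R : Type} [CommRing R]

theorem van_mono {M N : ℕ} (h : M ≤ N) {F : MvPolynomial (Fin 2) R} (hF : Van N F) : Van M F :=
  fun e he => hF e (lt_of_lt_of_le he h)

theorem van_add {N : ℕ} {F G : MvPolynomial (Fin 2) R} (hF : Van N F) (hG : Van N G) :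
    Van N (F + G) := fun e he => by rw [coeff_add, hF e he, hG e he, add_zero]

theorem van_mul {a b : ℕ} {F G : MvPolynomial (Fin 2) R} (hF : Van a F) (hG : Van b G) :
    Van (a + b) (F * G) := by
  classical
  intro e he
  rw [coeff_mul]
  refine Finset.sum_eq_zero fun p hp => ?_
  have h1 := Finset.HasAntidiagonal.mem_antidiagonal.1 hp
  have h2 : p.1 0 + p.2 0 = e 0 := by rw [← h1]; rfl
  have h3 : p.1 1 + p.2 1 = e 1 := by rw [← h1]; rfl
  by_cases h : p.1 0 + p.1 1 < a
  · rw [hF _ h, zero_mul]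
  · rw [hG _ (by omega), mul_zero]

theorem van_X (i : Fin 2) : Van 1 (X i : MvPolynomial (Fin 2) R) := by
  intro e he
  rw [coeff_X, if_neg]
  rintro rfl
  fin_cases i <;> simp at he

theorem van_pderiv {N : ℕ} (i : Fin 2) {F : MvPolynomial (Fin 2) R} (hF : Van (N + 1) F) :
    Van N (pderiv i F) := by
  intro e he
  rw [coeff_pderiv, hF _ ?_, zero_mul]
  fin_cases i
  · simp
    omega
  · simp
    omega

theorem coeff_X_pderiv (i : Fin 2) (F : MvPolynomial (Fin 2) R) (e : Fin 2 →₀ ℕ) :
    coeff e (X i * pderiv i F) = (e i : R) * coeff e F := by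
  classical
  induction F using MvPolynomial.induction_on' with
  | monomial s a =>
    rw [X_mul_pderiv_monomial, coeff_smul, coeff_monomial]
    split_ifs with h
    · rw [h, nsmul_eq_mul]
    · rw [smul_zero, mul_zero]
  | add p q hp hq => rw [map_add, mul_add, coeff_add, coeff_add, hp, hq, mul_add]

/-- the polynomial with the coefficients `φ e * coeff e H` -/
noncomputable def tw (φ : (Fin 2 →₀ ℕ) → R) (H : MvPolynomial (Fin 2) R) :
    MvPolynomial (Fin 2) R := ∑ s ∈ H.support, monomial s (φ s * coeff s H)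

theorem coeff_tw (φ : (Fin 2 →₀ ℕ) → R) (H : MvPolynomial (Fin 2) R) (e : Fin 2 →₀ ℕ) :
    coeff e (tw φ H) = φ e * coeff e H := by
  classical
  unfold tw
  rw [coeff_sum]
  simp only [coeff_monomial]
  rw [Finset.sum_ite_eq']
  split_ifs with h
  · rfl
  · rw [notMem_support_iff.1 h, mul_zero]

theorem coeff_lie {l : R} {V : Fin 2 → MvPolynomial (Fin 2) R} (hV : Nrm l V) {n : ℕ}
    {G : MvPolynomial (Fin 2) R} (hG : Van (n + 1) G) (e : Fin 2 →₀ ℕ) (he : e 0 + e 1 ≤ n + 1) :
    coeff e (lie V G) = l * ((e 0 : R) - (e 1 : R)) * coeff e G := by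
  have h0 : lie V G = C l * (X 0 * pderiv 0 G) - C l * (X 1 * pderiv 1 G) +
      ((V 0 - C l * X 0) * pderiv 0 G + (V 1 + C l * X 1) * pderiv 1 G) := by
    unfold lie
    ring
  have h1 : Van (2 + n) ((V 0 - C l * X 0) * pderiv 0 G + (V 1 + C l * X 1) * pderiv 1 G) :=
    van_add (van_mul hV.1 (van_pderiv 0 hG)) (van_mul hV.2 (van_pderiv 1 hG))
  rw [h0, coeff_add, coeff_sub, coeff_C_mul, coeff_C_mul, coeff_X_pderiv, coeff_X_pderiv,
    h1 e (by omega)]
  ring

theorem lie_add (V : Fin 2 → MvPolynomial (Fin 2) R) (F G : MvPolynomial (Fin 2) R) :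
    lie V (F + G) = lie V F + lie V G := by
  unfold lie
  rw [map_add, map_add]
  ring

theorem base {l : R} {V : Fin 2 → MvPolynomial (Fin 2) R} (hV : Nrm l V) :
    Van 3 (lie V (X 0 * X 1)) := by
  have h0 : lie V (X 0 * X 1) = (V 0 - C l * X 0) * X 1 + (V 1 + C l * X 1) * X 0 := by
    unfold lie
    rw [pderiv_mul, pderiv_mul, pderiv_X_self, pderiv_X_self, pderiv_X_of_ne (by decide),
      pderiv_X_of_ne (by decide)]
    ring
  rw [h0]
  exact van_add (van_mul hV.1 (van_X 1)) (van_mul hV.2 (van_X 0))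

end

theorem step {R : Type} [CommRing R] [Algebra ℚ R] {l m : R}
    {V : Fin 2 → MvPolynomial (Fin 2) R} (hlm : l * m = 1) (hV : Nrm l V) (hB : ¬ CaseB V)
    (n : ℕ) (hn : 3 ≤ n) (F : MvPolynomial (Fin 2) R) (hF : IsXY F) (hL : Van n (lie V F)) :
    ∃ F : MvPolynomial (Fin 2) R, IsXY F ∧ Van (n + 1) (lie V F) := by
  classical
  let φ : (Fin 2 →₀ ℕ) → R := fun e => if e 0 + e 1 = n ∧ e 0 ≠ e 1 then
    -(m * algebraMap ℚ R (1 / ((e 0 : ℚ) - (e 1 : ℚ)))) else 0
  let G := tw φ (lie V F)
  have hG : Van n G := by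
    intro e he
    rw [coeff_tw]
    simp only [φ]
    rw [if_neg (by omega), zero_mul]
  have hG' : Van (n - 1 + 1) G := by
    rw [show n - 1 + 1 = n by omega]
    exact hG
  have hXY : IsXY (F + G) := by
    have h1 : F + G - X 0 * X 1 = F - X 0 * X 1 + G := by ring
    unfold IsXY
    rw [h1]
    exact van_add hF (van_mono hn hG)
  have hlow : ∀ e : Fin 2 →₀ ℕ, e 0 + e 1 < n → coeff e (lie V (F + G)) = 0 := by
    intro e he
    rw [lie_add, coeff_add, hL e he, coeff_lie hV hG' e (by omega), hG e he, mul_zero, add_zero]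
  have hoff : ∀ e : Fin 2 →₀ ℕ, e 0 + e 1 = n → e 0 ≠ e 1 → coeff e (lie V (F + G)) = 0 := by
    intro e he hne
    rw [lie_add, coeff_add, coeff_lie hV hG' e (by omega), coeff_tw]
    simp only [φ]
    rw [if_pos ⟨he, hne⟩]
    have h1 : ((e 0 : R) - (e 1 : R)) * algebraMap ℚ R (1 / ((e 0 : ℚ) - (e 1 : ℚ))) = 1 := by
      have h2 : ((e 0 : R) - (e 1 : R)) = algebraMap ℚ R ((e 0 : ℚ) - (e 1 : ℚ)) := by
        rw [map_sub, map_natCast, map_natCast]
      have h3 : (e 0 : ℚ) - (e 1 : ℚ) ≠ 0 := by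
        rw [sub_ne_zero]
        exact_mod_cast hne
      rw [h2, ← map_mul, mul_one_div_cancel h3, map_one]
    have h4 : l * ((e 0 : R) - (e 1 : R)) *
        (-(m * algebraMap ℚ R (1 / ((e 0 : ℚ) - (e 1 : ℚ)))) * coeff e (lie V F)) =
        -((l * m) * (((e 0 : R) - (e 1 : R)) * algebraMap ℚ R (1 / ((e 0 : ℚ) - (e 1 : ℚ))))) *
          coeff e (lie V F) := by ring
    rw [h4, h1, hlm]
    ring
  have hdiag : ∀ e : Fin 2 →₀ ℕ, e 0 + e 1 = n → e 0 = e 1 → coeff e (lie V (F + G)) = 0 := by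
    intro e he heq
    by_contra hg
    apply hB
    refine ⟨e 0, by omega, coeff e (lie V (F + G)), hg, F + G, hXY, ?_⟩
    have hpow : (X 0 * X 1 : MvPolynomial (Fin 2) R) ^ (e 0) = monomial e 1 := by
      have h5 : Finsupp.single 0 (e 0) + Finsupp.single 1 (e 0) = e := by
        ext i
        fin_cases i
        · simp
        · simp [heq]
      rw [mul_pow, X_pow_eq_monomial, X_pow_eq_monomial, monomial_mul, one_mul, h5]
    intro e' he'
    rw [coeff_sub, coeff_C_mul, hpow, coeff_monomial]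
    by_cases h1 : e = e'
    · rw [if_pos h1, mul_one, h1, sub_self]
    · rw [if_neg h1, mul_zero, sub_zero]
      rcases Nat.lt_or_ge (e' 0 + e' 1) n with h2 | h2
      · exact hlow e' h2
      · by_cases h3 : e' 0 = e' 1
        · exfalso
          apply h1
          ext i
          fin_cases i
          · change e 0 = e' 0
            omega
          · change e 1 = e' 1
            omega
        · exact hoff e' (by omega) h3
  refine ⟨F + G, hXY, fun e he => ?_⟩
  rcases Nat.lt_or_ge (e 0 + e 1) n with h2 | h2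
  · exact hlow e h2
  · by_cases h3 : e 0 = e 1
    · exact hdiag e (by omega) h3
    · exact hoff e (by omega) h3

end REC

open REC in
theorem t_REC : S_REC := by
  intro R _ _ l m V hlm hV
  by_cases hB : CaseB V
  · exact Or.inr hB
  · left
    have key : ∀ k : ℕ, ∃ F : MvPolynomial (Fin 2) R, IsXY F ∧ Van (k + 3) (lie V F) := by
      intro k
      induction k with
      | zero =>
        refine ⟨X 0 * X 1, ?_, base hV⟩
        unfold IsXY
        rw [sub_self]
        intro e _
        exact coeff_zero e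
      | succ k ih =>
        obtain ⟨F, hF, hL⟩ := ih
        exact step hlm hV hB (k + 3) (by omega) F hF hL
    intro n
    obtain ⟨F, hF, hL⟩ := key n
    exact ⟨F, hF, van_mono (by omega) hL⟩

end Pool.Agent.N46.CS
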