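import Mathlib
import Pool.Agent.N46.CS.Stm

set_option autoImplicit false

/-!
# CS/ROO (helper491): finitely many candidates for the zeros, with algebraic coordinates
-/

namespace Pool.Agent.N46.CS

namespace ROO

open MvPolynomial

/-- clearing denominators in a polynomial in two variables -/
theorem clrM {A K : Type} [CommRing A] [IsDomain A] [Field K] [Algebra A K] [IsFractionRing A K]
    (a : MvPolynomial (Fin 2) K) : ∃ c : A, c ≠ 0 ∧ ∃ a' : MvPolynomial (Fin 2) A,
      map (algebraMap A K) a' = C (algebraMap A K c) * a := by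
  induction a using MvPolynomial.induction_on with
  | C x =>
    obtain ⟨n, e, he, rfl⟩ := IsFractionRing.div_surjective A x
    have he0 : e ≠ 0 := nonZeroDivisors.ne_zero he
    have he1 : algebraMap A K e ≠ 0 := by
      rw [Ne, IsFractionRing.to_map_eq_zero_iff]
      exact he0
    refine ⟨e, he0, C n, ?_⟩
    rw [map_C, ← map_mul, mul_div_cancel₀ _ he1]
  | add p q hp hq =>
    obtain ⟨c, hc, a, ha⟩ := hp
    obtain ⟨c', hc', a', ha'⟩ := hq
    refine ⟨c * c', mul_ne_zero hc hc', C c' * a + C c * a', ?_⟩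
    rw [map_add, map_mul, map_mul, ha, ha', map_C, map_C, map_mul, map_mul]
    ring
  | mul_X p i hp =>
    obtain ⟨c, hc, a, ha⟩ := hp
    refine ⟨c, hc, a * X i, ?_⟩
    rw [map_mul, ha, map_X, mul_assoc]

/-- clearing denominators in a polynomial in one variable -/
theorem clrP {A K : Type} [CommRing A] [IsDomain A] [Field K] [Algebra A K] [IsFractionRing A K]
    (a : Polynomial K) : ∃ c : A, c ≠ 0 ∧ ∃ a' : Polynomial A,
      a'.map (algebraMap A K) = Polynomial.C (algebraMap A K c) * a := by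
  induction a using Polynomial.induction_on with
  | C x =>
    obtain ⟨n, e, he, rfl⟩ := IsFractionRing.div_surjective A x
    have he0 : e ≠ 0 := nonZeroDivisors.ne_zero he
    have he1 : algebraMap A K e ≠ 0 := by
      rw [Ne, IsFractionRing.to_map_eq_zero_iff]
      exact he0
    refine ⟨e, he0, Polynomial.C n, ?_⟩
    rw [Polynomial.map_C, ← Polynomial.C_mul, mul_div_cancel₀ _ he1]
  | add p q hp hq =>
    obtain ⟨c, hc, a, ha⟩ := hp
    obtain ⟨c', hc', a', ha'⟩ := hq
    refine ⟨c * c', mul_ne_zero hc hc', Polynomial.C c' * a + Polynomial.C c * a', ?_⟩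
    rw [Polynomial.map_add, Polynomial.map_mul, Polynomial.map_mul, ha, ha', Polynomial.map_C,
      Polynomial.map_C, map_mul, Polynomial.C_mul]
    ring
  | monomial n x hp =>
    obtain ⟨c, hc, a, ha⟩ := hp
    refine ⟨c, hc, a * Polynomial.X, ?_⟩
    rw [Polynomial.map_mul, ha, Polynomial.map_X, mul_assoc, mul_assoc, pow_succ]

theorem map_aev {A K : Type} [CommRing A] [CommRing K] (φ : A →+* K) (i : Fin 2)
    (U : Polynomial A) : map φ (Polynomial.aeval (X i : MvPolynomial (Fin 2) A) U) =
      Polynomial.aeval (X i : MvPolynomial (Fin 2) K) (U.map φ) := by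
  rw [Polynomial.aeval_def, Polynomial.aeval_def, Polynomial.hom_eval₂, Polynomial.eval₂_map]
  congr 1
  · ext x
    simp
  · simp

theorem eval_aev {A : Type} [CommRing A] (θ : A →+* ℂ) (p : Fin 2 → ℂ) (i : Fin 2)
    (U : Polynomial A) : eval p (map θ (Polynomial.aeval (X i : MvPolynomial (Fin 2) A) U)) =
      U.eval₂ θ (p i) := by
  rw [map_aev, Polynomial.aeval_def, Polynomial.hom_eval₂, Polynomial.eval₂_map, eval_X]
  congr 1
  ext x
  simp

/-- elimination over the ring `A` -/
theorem elim (h1 : S_GCO) (h2 : S_ELI) {A : Type} [CommRing A] [IsDomain A] [Algebra ℂ A] {d : ℕ}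
    (hd : 1 ≤ d) {V : Fin 2 → MvPolynomial (Fin 2) A} (hV : ∀ i, (V i).totalDegree ≤ d)
    (φ : A →ₐ[ℂ] ℂ)
    (hrel : IsRelPrime (map (φ : A →+* ℂ) (V 0)) (map (φ : A →+* ℂ) (V 1)))
    (hmax : max (map (φ : A →+* ℂ) (V 0)).totalDegree (map (φ : A →+* ℂ) (V 1)).totalDegree = d)
    (i : Fin 2) : ∃ U : Polynomial A, U ≠ 0 ∧ ∃ a b : MvPolynomial (Fin 2) A,
      Polynomial.aeval (X i : MvPolynomial (Fin 2) A) U = a * V 0 + b * V 1 := by
  have hinj : Function.Injective (algebraMap A (FractionRing A)) :=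
    IsFractionRing.injective A (FractionRing A)
  have hP := h1 A (FractionRing A) hinj d hd (V 0) (V 1) (hV 0) (hV 1) φ hrel hmax
  obtain ⟨u, hu, a, b, hab⟩ := h2 (FractionRing A) _ _ hP i
  obtain ⟨c0, hc0, U0, hU0⟩ := clrP (A := A) u
  obtain ⟨c1, hc1, a0, ha0⟩ := clrM (A := A) a
  obtain ⟨c2, hc2, b0, hb0⟩ := clrM (A := A) b
  refine ⟨Polynomial.C (c1 * c2) * U0, ?_, C (c0 * c2) * a0, C (c0 * c1) * b0, ?_⟩
  · refine mul_ne_zero ?_ ?_
    · rw [Ne, Polynomial.C_eq_zero]
      exact mul_ne_zero hc1 hc2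
    · intro h0
      rw [h0, Polynomial.map_zero] at hU0
      have h3 := mul_eq_zero.1 hU0.symm
      rcases h3 with h3 | h3
      · rw [Polynomial.C_eq_zero, IsFractionRing.to_map_eq_zero_iff] at h3
        exact hc0 h3
      · exact hu h3
  · apply MvPolynomial.map_injective (algebraMap A (FractionRing A)) hinj
    rw [map_aev, Polynomial.map_mul, hU0, Polynomial.map_C]
    simp only [map_mul, Polynomial.aeval_C, MvPolynomial.algebraMap_eq, hab, map_add, ha0, hb0,
      map_C]
    ring

/-- a zero of a specialization of a polynomial with roots in `B` is a specialization of a root -/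
theorem root {A L : Type} [CommRing A] [Field L] [IsAlgClosed L] [Algebra A L]
    (hinj : Function.Injective (algebraMap A L)) (W : Polynomial A) (B : Subalgebra A L)
    (hB : ∀ r ∈ (W.map (algebraMap A L)).roots, r ∈ B) (ψ : B →+* ℂ)
    (hψ : ψ (algebraMap A B W.leadingCoeff) ≠ 0) (x : ℂ)
    (hx : W.eval₂ (ψ.comp (algebraMap A B)) x = 0) :
    ∃ r : B, (r : L) ∈ (W.map (algebraMap A L)).roots ∧ ψ r = x := by
  obtain ⟨M, hM⟩ : ∃ M : Multiset B, M.map (fun b : B => (b : L)) =
      (W.map (algebraMap A L)).roots := by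
    refine ⟨(W.map (algebraMap A L)).roots.attach.map (fun r => ⟨r.1, hB r.1 r.2⟩), ?_⟩
    rw [Multiset.map_map]
    exact Multiset.attach_map_val _
  have hfac : W.map (algebraMap A B) = Polynomial.C (algebraMap A B W.leadingCoeff) *
      (M.map (fun r => Polynomial.X - Polynomial.C r)).prod := by
    apply Polynomial.map_injective (algebraMap B L) Subtype.val_injective
    rw [Polynomial.map_map, ← IsScalarTower.algebraMap_eq, Polynomial.map_mul, Polynomial.map_C,
      Polynomial.map_multiset_prod, Multiset.map_map,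
      (IsAlgClosed.splits (W.map (algebraMap A L))).eq_prod_roots,
      Polynomial.leadingCoeff_map_of_injective hinj, ← hM, Multiset.map_map,
      ← IsScalarTower.algebraMap_apply]
    congr 2
    refine Multiset.map_congr rfl fun r _ => ?_
    simp only [Function.comp_apply, Polynomial.map_sub, Polynomial.map_X, Polynomial.map_C]
    rfl
  have h0 : (W.map (algebraMap A B)).eval₂ ψ x = 0 := by
    rw [Polynomial.eval₂_map]
    exact hx
  rw [hfac, Polynomial.eval₂_mul, Polynomial.eval₂_C, mul_eq_zero, or_iff_right hψ,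
    Polynomial.eval₂_multiset_prod, Multiset.map_map, Multiset.prod_eq_zero_iff,
    Multiset.mem_map] at h0
  obtain ⟨r, hr, hr0⟩ := h0
  refine ⟨r, ?_, ?_⟩
  · rw [← hM]
    exact Multiset.mem_map_of_mem _ hr
  · simp only [Function.comp_apply, Polynomial.eval₂_sub, Polynomial.eval₂_X,
      Polynomial.eval₂_C] at hr0
    exact (sub_eq_zero.1 hr0).symm

end ROO

open MvPolynomial in
theorem t_ROO (h1 : S_GCO) (h2 : S_ELI) : S_ROO := by
  classical
  intro A _ _ _ L _ _ _ _ hinj d hd V hV φ hrel hmax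
  choose U hU a b hab using ROO.elim h1 h2 hd hV φ hrel hmax
  refine ⟨Finset.univ.biUnion fun i => ((U i).map (algebraMap A L)).roots.toFinset,
    (U 0).leadingCoeff * (U 1).leadingCoeff,
    mul_ne_zero (Polynomial.leadingCoeff_ne_zero.2 (hU 0))
      (Polynomial.leadingCoeff_ne_zero.2 (hU 1)), ?_⟩
  intro B hB ψ hψ p hp
  rw [map_mul, map_mul] at hψ
  have hl : ∀ i, ψ (algebraMap A B (U i).leadingCoeff) ≠ 0 := by
    intro i
    fin_cases i
    · exact left_ne_zero_of_mul hψ
    · exact right_ne_zero_of_mul hψ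
  have key : ∀ i, ∃ r : B, (r : L) ∈ ((U i).map (algebraMap A L)).roots ∧ ψ r = p i := by
    intro i
    refine ROO.root hinj (U i) B (fun r hr => hB ?_) ψ (hl i) (p i) ?_
    · rw [Finset.mem_coe, Finset.mem_biUnion]
      exact ⟨i, Finset.mem_univ _, Multiset.mem_toFinset.2 hr⟩
    · rw [← ROO.eval_aev, hab, map_add, map_mul, map_mul, map_add, map_mul, map_mul]
      have e0 := hp 0
      have e1 := hp 1
      unfold sp at e0 e1
      rw [e0, e1, mul_zero, mul_zero, add_zero]
  choose z hz hz' using key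
  refine ⟨z, fun i => ?_, hz'⟩
  rw [Finset.mem_biUnion]
  exact ⟨i, Finset.mem_univ _, Multiset.mem_toFinset.2 (hz i)⟩

end Pool.Agent.N46.CS
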