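import Mathlib
import Pool.Agent.N46.CS.Stm

set_option autoImplicit false

/-!
# Stability of centers, leaf SPC: compactness of specializations
-/

namespace Pool.Agent.N46.CS

open Filter Topology

namespace SPC

/-- the root bound -/
theorem root_bound (N : ℕ) (c : ℕ → ℂ) (x : ℂ) (hc : c N ≠ 0)
    (h : ∑ i ∈ Finset.range (N + 1), c i * x ^ i = 0) :
    ‖x‖ ≤ 1 + (∑ i ∈ Finset.range N, ‖c i‖) / ‖c N‖ := by
  have hcN : 0 < ‖c N‖ := norm_pos_iff.2 hc
  have hS : 0 ≤ ∑ i ∈ Finset.range N, ‖c i‖ := Finset.sum_nonneg fun _ _ => norm_nonneg _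
  rcases le_or_gt ‖x‖ 1 with hx | hx
  · have : 0 ≤ (∑ i ∈ Finset.range N, ‖c i‖) / ‖c N‖ := by positivity
    linarith
  · rw [Finset.sum_range_succ] at h
    have h1 : c N * x ^ N = - ∑ i ∈ Finset.range N, c i * x ^ i := by
      rw [eq_neg_iff_add_eq_zero, add_comm]; exact h
    rcases Nat.eq_zero_or_pos N with h0 | h0
    · subst h0
      simp at h1
      exact absurd h1 hc
    have h2 : ‖c N‖ * ‖x‖ ^ N ≤ (∑ i ∈ Finset.range N, ‖c i‖) * ‖x‖ ^ (N - 1) := by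
      calc ‖c N‖ * ‖x‖ ^ N = ‖c N * x ^ N‖ := by rw [norm_mul, norm_pow]
        _ = ‖∑ i ∈ Finset.range N, c i * x ^ i‖ := by rw [h1, norm_neg]
        _ ≤ ∑ i ∈ Finset.range N, ‖c i * x ^ i‖ := norm_sum_le _ _
        _ ≤ ∑ i ∈ Finset.range N, ‖c i‖ * ‖x‖ ^ (N - 1) := by
            refine Finset.sum_le_sum fun i hi => ?_
            rw [norm_mul, norm_pow]
            refine mul_le_mul_of_nonneg_left ?_ (norm_nonneg _)
            rw [Finset.mem_range] at hi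
            exact pow_le_pow_right₀ hx.le (by omega)
        _ = _ := by rw [Finset.sum_mul]
    have h3 : ‖x‖ ^ N = ‖x‖ ^ (N - 1) * ‖x‖ := by
      rw [← pow_succ]
      congr 1
      omega
    have h4 : 0 < ‖x‖ ^ (N - 1) := pow_pos (by linarith) _
    rw [h3] at h2
    have h5 : ‖x‖ * ‖c N‖ ≤ ∑ i ∈ Finset.range N, ‖c i‖ := by
      refine le_of_mul_le_mul_right ?_ h4
      calc ‖x‖ * ‖c N‖ * ‖x‖ ^ (N - 1) = ‖c N‖ * (‖x‖ ^ (N - 1) * ‖x‖) := by ring
        _ ≤ _ := h2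
    have h6 : ‖x‖ ≤ (∑ i ∈ Finset.range N, ‖c i‖) / ‖c N‖ := by
      rw [le_div_iff₀ hcN]
      exact h5
    linarith

/-- boundedness of the values at one algebraic element -/
theorem ev_bound {A B : Type} [CommRing A] [CommRing B] [Algebra A B] (b : B)
    (p : Polynomial A) (hp : Polynomial.aeval b p = 0) (φ : ℕ → A →+* ℂ) (φ₀ : A →+* ℂ)
    (h0 : φ₀ p.leadingCoeff ≠ 0) (hφ : ∀ a, Tendsto (fun n => φ n a) atTop (𝓝 (φ₀ a)))
    (ψ : ℕ → B →+* ℂ) (hψ : ∀ n, (ψ n).comp (algebraMap A B) = φ n) :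
    ∃ R : ℝ, ∀ᶠ n in atTop, ‖ψ n b‖ ≤ R := by
  set N := p.natDegree with hN
  have h1 : Tendsto (fun n => 1 + (∑ i ∈ Finset.range N, ‖φ n (p.coeff i)‖) / ‖φ n (p.coeff N)‖)
      atTop (𝓝 (1 + (∑ i ∈ Finset.range N, ‖φ₀ (p.coeff i)‖) / ‖φ₀ (p.coeff N)‖)) := by
    refine tendsto_const_nhds.add (Tendsto.div ?_ (hφ _).norm (norm_ne_zero_iff.2 h0))
    exact tendsto_finsetSum _ fun i _ => (hφ _).norm
  refine ⟨1 + (∑ i ∈ Finset.range N, ‖φ₀ (p.coeff i)‖) / ‖φ₀ (p.coeff N)‖ + 1, ?_⟩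
  have h2 := h1.eventually (gt_mem_nhds (lt_add_one _))
  have h3 : ∀ᶠ n in atTop, φ n (p.coeff N) ≠ 0 := (hφ _).eventually_ne h0
  filter_upwards [h2, h3] with n hn2 hn3
  refine le_trans ?_ hn2.le
  refine root_bound N (fun i => φ n (p.coeff i)) (ψ n b) hn3 ?_
  have h4 : ψ n (Polynomial.aeval b p) = 0 := by rw [hp, map_zero]
  rw [Polynomial.aeval_def, Polynomial.hom_eval₂, hψ n, Polynomial.eval₂_eq_sum_range] at h4
  exact h4

end SPC

open SPC in
theorem t_SPC : S_SPC := by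
  intro A _ _ L _ _ _ hinj S
  have halg : ∀ s : L, ∃ p : Polynomial A, p ≠ 0 ∧ Polynomial.aeval s p = 0 := fun s =>
    Algebra.IsAlgebraic.isAlgebraic s
  choose p hp0 hp using halg
  refine ⟨∏ s ∈ S, (p s).leadingCoeff, ?_, ?_⟩
  · rw [Finset.prod_ne_zero_iff]
    intro s _
    exact Polynomial.leadingCoeff_ne_zero.2 (hp0 s)
  intro φ φ₀ hf hφ ψ hψ
  rw [map_prod, Finset.prod_ne_zero_iff] at hf
  have hmem : ∀ s : S, (s : L) ∈ Algebra.adjoin A (S : Set L) := fun s =>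
    Algebra.subset_adjoin (Finset.mem_coe.2 s.2)
  have hb : ∀ s : S, ∃ R : ℝ, ∀ᶠ n in atTop, ‖ψ n ⟨s, hmem s⟩‖ ≤ R := by
    intro s
    refine ev_bound (⟨s, hmem s⟩ : Algebra.adjoin A (S : Set L)) (p s) ?_ φ φ₀ (hf s s.2) hφ ψ hψ
    apply Subtype.val_injective
    have h1 := Polynomial.aeval_algHom_apply (Algebra.adjoin A (S : Set L)).val
      (⟨s, hmem s⟩ : Algebra.adjoin A (S : Set L)) (p s)
    have h2 : (Algebra.adjoin A (S : Set L)).val ⟨s, hmem s⟩ = (s : L) := rfl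
    rw [h2, hp] at h1
    exact h1.symm
  choose R hR using hb
  have hR' : ∀ᶠ n in atTop, (fun s : S => ψ n ⟨s, hmem s⟩) ∈
      Set.univ.pi (fun s : S => Metric.closedBall (0 : ℂ) (R s)) := by
    have h1 : ∀ᶠ n in atTop, ∀ s : S, ‖ψ n ⟨s, hmem s⟩‖ ≤ R s := eventually_all.2 hR
    filter_upwards [h1] with n hn
    intro s _
    rw [mem_closedBall_zero_iff]
    exact hn s
  have hbd : Bornology.IsBounded (Set.univ.pi (fun s : S => Metric.closedBall (0 : ℂ) (R s))) :=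
    Bornology.IsBounded.pi fun s => Metric.isBounded_closedBall
  obtain ⟨l, -, σ, hσ, hl⟩ := tendsto_subseq_of_frequently_bounded hbd hR'.frequently
  rw [tendsto_pi_nhds] at hl
  have hlim : ∀ b : Algebra.adjoin A (S : Set L), ∃ z : ℂ,
      Tendsto (fun n => ψ (σ n) b) atTop (𝓝 z) := by
    rintro ⟨b, hb⟩
    induction hb using Algebra.adjoin_induction with
    | mem x hx =>
      exact ⟨l ⟨x, hx⟩, hl ⟨x, hx⟩⟩
    | algebraMap r =>
      refine ⟨φ₀ r, ?_⟩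
      have h1 : (fun n => ψ (σ n) ⟨algebraMap A L r, Subalgebra.algebraMap_mem _ r⟩) =
          fun n => φ (σ n) r := by
        funext n
        rw [← hψ (σ n)]
        rfl
      have h2 : Tendsto (fun n => φ (σ n) r) atTop (𝓝 (φ₀ r)) := (hφ r).comp hσ.tendsto_atTop
      rw [← h1] at h2
      exact h2
    | add x y hx hy h1 h2 =>
      obtain ⟨z1, h1⟩ := h1
      obtain ⟨z2, h2⟩ := h2
      refine ⟨z1 + z2, ?_⟩
      refine (h1.add h2).congr fun n => ?_
      rw [← map_add]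
      rfl
    | mul x y hx hy h1 h2 =>
      obtain ⟨z1, h1⟩ := h1
      obtain ⟨z2, h2⟩ := h2
      refine ⟨z1 * z2, ?_⟩
      refine (h1.mul h2).congr fun n => ?_
      rw [← map_mul]
      rfl
  choose g hg using hlim
  refine ⟨σ, ⟨⟨⟨g, ?_⟩, ?_⟩, ?_, ?_⟩, hσ, ?_, hg⟩
  · refine tendsto_nhds_unique (hg 1) ?_
    refine tendsto_const_nhds.congr fun n => ?_
    rw [map_one]
  · intro x y
    refine tendsto_nhds_unique (hg (x * y)) ?_
    refine ((hg x).mul (hg y)).congr fun n => ?_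
    rw [map_mul]
  · refine tendsto_nhds_unique (hg 0) ?_
    refine tendsto_const_nhds.congr fun n => ?_
    rw [map_zero]
  · intro x y
    refine tendsto_nhds_unique (hg (x + y)) ?_
    refine ((hg x).add (hg y)).congr fun n => ?_
    rw [map_add]
  · ext a
    refine tendsto_nhds_unique (hg (algebraMap A (Algebra.adjoin A (S : Set L)) a)) ?_
    refine ((hφ a).comp hσ.tendsto_atTop).congr fun n => ?_
    change φ (σ n) a = ψ (σ n) (algebraMap A (Algebra.adjoin A (S : Set L)) a)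
    rw [← hψ (σ n)]
    rfl

end Pool.Agent.N46.CS
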