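import Mathlib
import Pool.Agent.N46.CS.Stm

set_option autoImplicit false

/-!
# Extension of specializations (helper438)
-/

namespace Pool.Agent.N46.CS

namespace SPX

/-- extension of homomorphisms into the complex numbers to integral extensions -/
lemma ext_int (A : Type) [CommRing A] (I : Type) [CommRing I] [IsDomain I] [Algebra A I]
    [Algebra.IsIntegral A I] (hinj : Function.Injective (algebraMap A I)) (φ : A →+* ℂ) :
    ∃ φ' : I →+* ℂ, ∀ a, φ' (algebraMap A I a) = φ a := by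
  haveI : (RingHom.ker φ).IsPrime := RingHom.ker_isPrime φ
  obtain ⟨Q, hQ, hQP⟩ := Ideal.exists_ideal_over_prime_of_isIntegral_of_isDomain (S := I)
    (RingHom.ker φ) (by rw [(RingHom.injective_iff_ker_eq_bot _).1 hinj]; exact bot_le)
  haveI : Q.LiesOver (RingHom.ker φ) := ⟨hQP.symm⟩
  letI : Algebra (A ⧸ RingHom.ker φ) ℂ := (RingHom.kerLift φ).toAlgebra
  haveI : FaithfulSMul (A ⧸ RingHom.ker φ) ℂ :=
    (faithfulSMul_iff_algebraMap_injective _ _).2 (RingHom.kerLift_injective φ)
  let g : (I ⧸ Q) →ₐ[A ⧸ RingHom.ker φ] ℂ := IsAlgClosed.lift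
  refine ⟨(g : (I ⧸ Q) →+* ℂ).comp (Ideal.Quotient.mk Q), fun a => ?_⟩
  have h1 : (Ideal.Quotient.mk Q) (algebraMap A I a) =
      algebraMap (A ⧸ RingHom.ker φ) (I ⧸ Q) (Ideal.Quotient.mk _ a) :=
    (Ideal.Quotient.algebraMap_mk_of_liesOver _ _ _).symm
  rw [RingHom.comp_apply, h1]
  exact (g.commutes _).trans (RingHom.kerLift_mk φ a)

end SPX

theorem t_SPX : S_SPX := by
  intro A _ _ L _ _ _ hinj S
  classical
  have hy : ∀ s : L, ∃ y : A, y ≠ 0 ∧ IsIntegral A (y • s) :=
    fun s => (Algebra.IsAlgebraic.isAlgebraic s).exists_integral_multiple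
  choose y hy0 hy1 using hy
  obtain ⟨f, hf⟩ : ∃ f, f = ∏ s ∈ S, y s := ⟨_, rfl⟩
  refine ⟨f, by rw [hf]; exact Finset.prod_ne_zero_iff.2 fun s _ => hy0 s, fun φ hφ => ?_⟩
  have hinj2 : Function.Injective (algebraMap A (integralClosure A L)) := by
    intro a b h
    exact hinj (congrArg Subtype.val h)
  obtain ⟨φ', hφ'⟩ := SPX.ext_int A (integralClosure A L) hinj2 φ
  let Φ : L → ℂ := fun x => if h : IsIntegral A x then φ' ⟨x, h⟩ else 0
  have hΦ : ∀ (x : L) (h : IsIntegral A x), Φ x = φ' ⟨x, h⟩ := fun x h => dif_pos h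
  have hΦadd : ∀ x z : L, IsIntegral A x → IsIntegral A z → Φ (x + z) = Φ x + Φ z := by
    intro x z hx hz
    rw [hΦ x hx, hΦ z hz, hΦ _ (hx.add hz), ← map_add]
    rfl
  have hΦmul : ∀ x z : L, IsIntegral A x → IsIntegral A z → Φ (x * z) = Φ x * Φ z := by
    intro x z hx hz
    rw [hΦ x hx, hΦ z hz, hΦ _ (hx.mul hz), ← map_mul]
    rfl
  have hΦalg : ∀ a : A, Φ (algebraMap A L a) = φ a := by
    intro a
    rw [hΦ _ isIntegral_algebraMap, ← hφ' a]
    rfl
  have hΦsmul : ∀ (a : A) (x : L), IsIntegral A x → Φ (a • x) = φ a * Φ x := by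
    intro a x hx
    rw [Algebra.smul_def, hΦmul _ _ isIntegral_algebraMap hx, hΦalg]
  have hB : ∀ b ∈ Algebra.adjoin A (S : Set L), ∃ n : ℕ, IsIntegral A (f ^ n • b) := by
    intro b hb
    induction hb using Algebra.adjoin_induction with
    | mem s hs =>
      refine ⟨1, ?_⟩
      rw [pow_one, hf, ← Finset.prod_erase_mul S y (Finset.mem_coe.1 hs), mul_smul]
      exact (hy1 s).smul _
    | algebraMap a =>
      refine ⟨0, ?_⟩
      rw [pow_zero, one_smul]
      exact isIntegral_algebraMap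
    | add x z _ _ hx hz =>
      obtain ⟨n, hn⟩ := hx
      obtain ⟨m, hm⟩ := hz
      refine ⟨n + m, ?_⟩
      rw [smul_add]
      refine IsIntegral.add ?_ ?_
      · rw [add_comm n m, pow_add, mul_smul]
        exact hn.smul _
      · rw [pow_add, mul_smul]
        exact hm.smul _
    | mul x z _ _ hx hz =>
      obtain ⟨n, hn⟩ := hx
      obtain ⟨m, hm⟩ := hz
      refine ⟨n + m, ?_⟩
      rw [pow_add, ← smul_mul_smul_comm]
      exact hn.mul hm
  choose! n hn using hB
  have hφn : ∀ m : ℕ, φ f ^ m ≠ 0 := fun m => pow_ne_zero m hφ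
  let v : L → ℂ := fun b => Φ (f ^ n b • b) / φ f ^ n b
  have key : ∀ b ∈ Algebra.adjoin A (S : Set L), ∀ m : ℕ, IsIntegral A (f ^ m • b) →
      v b * φ f ^ m = Φ (f ^ m • b) := by
    intro b hb m hm
    have h1 : φ f ^ n b * Φ (f ^ m • b) = φ f ^ m * Φ (f ^ n b • b) := by
      rw [← map_pow, ← map_pow, ← hΦsmul _ _ hm, ← hΦsmul _ _ (hn b hb), smul_smul, smul_smul,
        mul_comm]
    have h2 := hφn (n b)
    simp only [v]
    rw [div_mul_eq_mul_div, div_eq_iff h2, mul_comm _ (φ f ^ n b), h1, mul_comm]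
  have hint : ∀ b ∈ Algebra.adjoin A (S : Set L), ∀ m : ℕ, IsIntegral A (f ^ (n b + m) • b) := by
    intro b hb m
    rw [add_comm, pow_add, mul_smul]
    exact (hn b hb).smul _
  have hvalg : ∀ a : A, v (algebraMap A L a) = φ a := by
    intro a
    have h1 := key (algebraMap A L a) (Subalgebra.algebraMap_mem _ a) 0
      (by rw [pow_zero, one_smul]; exact isIntegral_algebraMap)
    rwa [pow_zero, pow_zero, one_smul, mul_one, hΦalg] at h1
  have hvadd : ∀ x ∈ Algebra.adjoin A (S : Set L), ∀ z ∈ Algebra.adjoin A (S : Set L),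
      v (x + z) = v x + v z := by
    intro x hx z hz
    have h1 := hint x hx (n z)
    have h2 := hint z hz (n x)
    rw [add_comm] at h2
    have h3 : IsIntegral A (f ^ (n x + n z) • (x + z)) := by
      rw [smul_add]
      exact h1.add h2
    apply mul_right_cancel₀ (hφn (n x + n z))
    rw [key _ (add_mem hx hz) _ h3, add_mul, key x hx _ h1, key z hz _ h2, smul_add,
      hΦadd _ _ h1 h2]
  have hvmul : ∀ x ∈ Algebra.adjoin A (S : Set L), ∀ z ∈ Algebra.adjoin A (S : Set L),
      v (x * z) = v x * v z := by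
    intro x hx z hz
    have h3 : f ^ (n x + n z) • (x * z) = (f ^ n x • x) * (f ^ n z • z) := by
      rw [pow_add, smul_mul_smul_comm]
    have h4 : IsIntegral A (f ^ (n x + n z) • (x * z)) := by
      rw [h3]
      exact (hn x hx).mul (hn z hz)
    apply mul_right_cancel₀ (hφn (n x + n z))
    rw [key _ (mul_mem hx hz) _ h4, h3, hΦmul _ _ (hn x hx) (hn z hz), ← key x hx _ (hn x hx),
      ← key z hz _ (hn z hz), pow_add]
    ring
  refine ⟨{ toFun := fun b => v (b : L), map_one' := ?_, map_mul' := ?_, map_zero' := ?_,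
            map_add' := ?_ }, ?_⟩
  · have h1 := hvalg 1
    rw [map_one, map_one] at h1
    exact h1
  · exact fun x z => hvmul x x.2 z z.2
  · have h1 := hvalg 0
    rw [map_zero, map_zero] at h1
    exact h1
  · exact fun x z => hvadd x x.2 z z.2
  · ext a
    exact hvalg a

end Pool.Agent.N46.CS
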