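import Mathlib
import Pool.Agent.N46.CS.Stm

/-!
# Stability of centers, leaf TR0 (helper564): the trace at a center vanishes
-/

set_option autoImplicit false

namespace Pool.Agent.N46.CS.TR0

open MvPolynomial Filter Topology
open Pool.Agent.Y215.CC Pool.Agent.N46.CS

/-- the derivative of a polynomial function -/
theorem hasFDerivAt_eval (P : MvPolynomial (Fin 2) ℂ) (p : Fin 2 → ℂ) :
    HasFDerivAt (fun z : Fin 2 → ℂ => eval z P)
      (eval p (pderiv 0 P) • (ContinuousLinearMap.proj 0 : (Fin 2 → ℂ) →L[ℂ] ℂ) +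
        eval p (pderiv 1 P) • (ContinuousLinearMap.proj 1 : (Fin 2 → ℂ) →L[ℂ] ℂ)) p := by
  induction P using MvPolynomial.induction_on with
  | C a =>
    simp only [eval_C]
    refine HasFDerivAt.congr_fderiv (hasFDerivAt_const a p) ?_
    refine ContinuousLinearMap.ext fun w => ?_
    simp only [pderiv_C, map_zero, _root_.add_apply, _root_.smul_apply, smul_eq_mul,
      _root_.zero_apply]
    ring
  | add P Q hP hQ =>
    have h := hP.add hQ
    simp only [map_add]
    refine HasFDerivAt.congr_fderiv h ?_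
    module
  | mul_X P i hP =>
    have hX : HasFDerivAt (fun z : Fin 2 → ℂ => z i)
        (ContinuousLinearMap.proj i : (Fin 2 → ℂ) →L[ℂ] ℂ) p :=
      (ContinuousLinearMap.proj (R := ℂ) (φ := fun _ : Fin 2 => ℂ) i).hasFDerivAt
    have h := hP.mul hX
    simp only [map_mul, eval_X]
    refine HasFDerivAt.congr_fderiv h ?_
    fin_cases i
    · simp [Derivation.leibniz]
      module
    · simp [Derivation.leibniz]
      module

/-- the quadratic part of a vanishing sum of two products -/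
theorem quad {p : Fin 2 → ℂ} {f g f' g' : (Fin 2 → ℂ) → ℂ} {F G F' G' : (Fin 2 → ℂ) →L[ℂ] ℂ}
    (hf : HasFDerivAt f F p) (hg : HasFDerivAt g G p) (hf' : HasFDerivAt f' F' p)
    (hg' : HasFDerivAt g' G' p) (f0 : f p = 0) (g0 : g p = 0) (f0' : f' p = 0) (g0' : g' p = 0)
    (h : ∀ᶠ z in 𝓝 p, f z * g z + f' z * g' z = 0) (w : Fin 2 → ℂ) :
    F w * G w + F' w * G' w = 0 := by
  have key : ∀ {k : (Fin 2 → ℂ) → ℂ} {K : (Fin 2 → ℂ) →L[ℂ] ℂ}, HasFDerivAt k K p → k p = 0 →
      Tendsto (fun t : ℂ => t⁻¹ * k (p + t • w)) (𝓝[≠] 0) (𝓝 (K w)) := by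
    intro k K hk k0
    have h1 : HasDerivAt (fun t : ℂ => p + t • w) w 0 := by
      simpa using ((hasDerivAt_id (0 : ℂ)).smul_const w).const_add p
    have h2 : HasDerivAt (fun t : ℂ => k (p + t • w)) (K w) 0 := by
      have : HasFDerivAt k K (p + (0 : ℂ) • w) := by simpa using hk
      exact this.comp_hasDerivAt 0 h1
    have h3 := h2.tendsto_slope_zero
    simpa [k0] using h3
  have hT := ((key hf f0).mul (key hg g0)).add ((key hf' f0').mul (key hg' g0'))
  have hE : (fun t : ℂ => t⁻¹ * f (p + t • w) * (t⁻¹ * g (p + t • w)) +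
      t⁻¹ * f' (p + t • w) * (t⁻¹ * g' (p + t • w))) =ᶠ[𝓝[≠] 0] fun _ => (0 : ℂ) := by
    have hc : Tendsto (fun t : ℂ => p + t • w) (𝓝[≠] 0) (𝓝 p) := by
      have : ContinuousAt (fun t : ℂ => p + t • w) 0 := by fun_prop
      have h2 := this.tendsto
      simp only [zero_smul, add_zero] at h2
      exact h2.mono_left nhdsWithin_le_nhds
    filter_upwards [hc.eventually h] with t ht
    linear_combination (t⁻¹ * t⁻¹) * ht
  exact tendsto_nhds_unique (hT.congr' hE |>.congr (fun _ => rfl)) tendsto_const_nhds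

end Pool.Agent.N46.CS.TR0

namespace Pool.Agent.N46.CS

open MvPolynomial Filter Topology
open Pool.Agent.Y215.CC

theorem t_TR0 : S_TR0 := by
  rintro P Q p ⟨hP, hQ, -, u, v, hu, hv, u0, v0, hli, h⟩
  set U := fderiv ℂ u p with hU
  set W := fderiv ℂ v p with hW
  have hPd := TR0.hasFDerivAt_eval P p
  have hQd := TR0.hasFDerivAt_eval Q p
  have hcf : ∀ {k : (Fin 2 → ℂ) → ℂ}, AnalyticAt ℂ k p → ∀ e : Fin 2 → ℂ,
      DifferentiableAt ℂ (fun z => fderiv ℂ k z e) p := by
    intro k hk e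
    have := hk.fderiv.differentiableAt
    exact this.clm_apply (differentiableAt_const e)
  have hg : ∀ {k : (Fin 2 → ℂ) → ℂ}, AnalyticAt ℂ k p →
      HasFDerivAt (fun z => eval z P * fderiv ℂ k z (Pi.single 0 1) +
        eval z Q * fderiv ℂ k z (Pi.single 1 1))
      (fderiv ℂ k p (Pi.single 0 1) • (eval p (pderiv 0 P) • (ContinuousLinearMap.proj 0 :
        (Fin 2 → ℂ) →L[ℂ] ℂ) + eval p (pderiv 1 P) • (ContinuousLinearMap.proj 1 :
        (Fin 2 → ℂ) →L[ℂ] ℂ)) + fderiv ℂ k p (Pi.single 1 1) • (eval p (pderiv 0 Q) •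
        (ContinuousLinearMap.proj 0 : (Fin 2 → ℂ) →L[ℂ] ℂ) + eval p (pderiv 1 Q) •
        (ContinuousLinearMap.proj 1 : (Fin 2 → ℂ) →L[ℂ] ℂ))) p := by
    intro k hk
    have h1 := (hPd.mul (hcf hk (Pi.single 0 1)).hasFDerivAt).add
      (hQd.mul (hcf hk (Pi.single 1 1)).hasFDerivAt)
    refine HasFDerivAt.congr_fderiv h1 ?_
    rw [hP, hQ]
    refine ContinuousLinearMap.ext fun w => ?_
    simp only [_root_.add_apply, _root_.smul_apply, smul_eq_mul]
    ring
  have hev : ∀ᶠ z in 𝓝 p, u z * (eval z P * fderiv ℂ u z (Pi.single 0 1) +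
        eval z Q * fderiv ℂ u z (Pi.single 1 1)) +
      v z * (eval z P * fderiv ℂ v z (Pi.single 0 1) +
        eval z Q * fderiv ℂ v z (Pi.single 1 1)) = 0 := by
    filter_upwards [h, hu.eventually_analyticAt, hv.eventually_analyticAt] with z hz hu' hv'
    have hd : HasFDerivAt (fun s => u s ^ 2 + v s ^ 2)
        ((2 * u z) • fderiv ℂ u z + (2 * v z) • fderiv ℂ v z) z := by
      have h1 := (hu'.differentiableAt.hasFDerivAt.pow 2).add
        (hv'.differentiableAt.hasFDerivAt.pow 2)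
      refine HasFDerivAt.congr_fderiv h1 ?_
      simp
    rw [hd.fderiv] at hz
    simp only [_root_.add_apply, _root_.smul_apply, smul_eq_mul] at hz
    linear_combination (1 / 2) * hz
  have hq := TR0.quad hu.differentiableAt.hasFDerivAt (hg hu) hv.differentiableAt.hasFDerivAt
    (hg hv) u0 (by simp [hP, hQ]) v0 (by simp [hP, hQ]) hev
  have hexp : ∀ (K : (Fin 2 → ℂ) →L[ℂ] ℂ) (x y : ℂ),
      K ![x, y] = x * K (Pi.single 0 1) + y * K (Pi.single 1 1) := by
    intro K x y
    have : (![x, y] : Fin 2 → ℂ) = x • Pi.single 0 1 + y • Pi.single 1 1 := by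
      ext i
      fin_cases i <;> simp
    rw [this, map_add, map_smul, map_smul, smul_eq_mul, smul_eq_mul]
  have hdet : U (Pi.single 0 1) * W (Pi.single 1 1) - U (Pi.single 1 1) * W (Pi.single 0 1) ≠ 0 := by
    intro h0
    rw [LinearIndependent.pair_iff] at hli
    have hz : ∀ K : (Fin 2 → ℂ) →L[ℂ] ℂ, K (Pi.single 0 1) = 0 → K (Pi.single 1 1) = 0 →
        K = 0 := by
      intro K h1 h2
      ext w
      have := hexp K (w 0) (w 1)
      rw [h1, h2] at this
      have hw : (![w 0, w 1] : Fin 2 → ℂ) = w := by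
        ext i
        fin_cases i <;> simp
      rw [hw] at this
      simpa using this
    have h1 := hli (W (Pi.single 1 1)) (-U (Pi.single 1 1)) (hz _
      (by simp only [_root_.add_apply, _root_.smul_apply, smul_eq_mul]
          linear_combination h0)
      (by simp only [_root_.add_apply, _root_.smul_apply, smul_eq_mul]
          ring))
    have h2 := hli (W (Pi.single 0 1)) (-U (Pi.single 0 1)) (hz _
      (by simp only [_root_.add_apply, _root_.smul_apply, smul_eq_mul]
          ring)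
      (by simp only [_root_.add_apply, _root_.smul_apply, smul_eq_mul]
          linear_combination -h0))
    have h3 : U = 0 := hz U (neg_eq_zero.mp h2.2) (neg_eq_zero.mp h1.2)
    have h4 := hli 1 0 (by rw [h3]; simp)
    exact one_ne_zero h4.1
  have s0 : (Pi.single 0 1 : Fin 2 → ℂ) 0 = 1 := by simp
  have s1 : (Pi.single 0 1 : Fin 2 → ℂ) 1 = 0 := by simp
  have s2 : (Pi.single 1 1 : Fin 2 → ℂ) 0 = 0 := by simp
  have s3 : (Pi.single 1 1 : Fin 2 → ℂ) 1 = 1 := by simp
  have e0 := hq ![1, 0]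
  have e1 := hq ![0, 1]
  have e2 := hq ![1, 1]
  simp only [_root_.add_apply, _root_.smul_apply, smul_eq_mul,
    ContinuousLinearMap.proj_apply, hexp, s0, s1, s2, s3, one_mul, zero_mul, mul_one, mul_zero, add_zero, zero_add] at e0 e1 e2
  rw [← hU, ← hW] at e0 e1 e2
  rw [map_add]
  have hfin : (eval p (pderiv 0 P) + eval p (pderiv 1 Q)) *
      (U (Pi.single 0 1) * W (Pi.single 1 1) - U (Pi.single 1 1) * W (Pi.single 0 1)) ^ 2 = 0 := by
    linear_combination (U (Pi.single 1 1) ^ 2 + W (Pi.single 1 1) ^ 2) * e0 +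
      (U (Pi.single 0 1) ^ 2 + W (Pi.single 0 1) ^ 2) * e1 -
      (U (Pi.single 0 1) * U (Pi.single 1 1) + W (Pi.single 0 1) * W (Pi.single 1 1)) *
        (e2 - e0 - e1)
  rcases mul_eq_zero.mp hfin with h1 | h1
  · exact h1
  · exact absurd (pow_eq_zero_iff (two_ne_zero) |>.mp h1) hdet

end Pool.Agent.N46.CS
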